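import Pool.Agent.ETD.Defs

/-!
# ETD: basic lemmas on the evaluation of power series
-/

set_option autoImplicit false
set_option linter.unusedVariables false

namespace ETD

open PowerSeries

variable {k : Type} [Field k] {n m : ℕ}

theorem Sm.hs {z : Fin n → k⟦X⟧} (hz : Sm z) : MvPowerSeries.HasSubst z :=
  MvPowerSeries.hasSubst_of_constantCoeff_zero fun i => (X_dvd_iff.1 (hz i))

/-- the evaluation as a homomorphism -/
noncomputable def eH {z : Fin n → k⟦X⟧} (hz : Sm z) : MvPowerSeries (Fin n) k →ₐ[k] k⟦X⟧ :=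
  MvPowerSeries.substAlgHom hz.hs

theorem eH_apply {z : Fin n → k⟦X⟧} (hz : Sm z) (F : MvPowerSeries (Fin n) k) :
    eH hz F = e z F := by
  rw [eH, e, MvPowerSeries.substAlgHom_apply]

theorem e_add {z : Fin n → k⟦X⟧} (hz : Sm z) (F G : MvPowerSeries (Fin n) k) :
    e z (F + G) = e z F + e z G := MvPowerSeries.subst_add hz.hs F G

theorem e_sub {z : Fin n → k⟦X⟧} (hz : Sm z) (F G : MvPowerSeries (Fin n) k) :
    e z (F - G) = e z F - e z G := MvPowerSeries.subst_sub hz.hs F G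

theorem e_mul {z : Fin n → k⟦X⟧} (hz : Sm z) (F G : MvPowerSeries (Fin n) k) :
    e z (F * G) = e z F * e z G := MvPowerSeries.subst_mul hz.hs F G

theorem e_pow {z : Fin n → k⟦X⟧} (hz : Sm z) (F : MvPowerSeries (Fin n) k) (j : ℕ) :
    e z (F ^ j) = e z F ^ j := MvPowerSeries.subst_pow hz.hs F j

theorem e_zero {z : Fin n → k⟦X⟧} (hz : Sm z) : e z 0 = 0 := by
  rw [← eH_apply hz, map_zero]

theorem e_one {z : Fin n → k⟦X⟧} (hz : Sm z) : e z 1 = 1 := by
  rw [← eH_apply hz, map_one]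

theorem e_C {z : Fin n → k⟦X⟧} (hz : Sm z) (c : k) : e z (MvPowerSeries.C c) = C c := by
  have : (MvPowerSeries.C c : MvPowerSeries (Fin n) k) = algebraMap k _ c := rfl
  rw [← eH_apply hz, this, AlgHom.commutes]
  rfl

theorem e_X {z : Fin n → k⟦X⟧} (hz : Sm z) (i : Fin n) : e z (MvPowerSeries.X i) = z i :=
  MvPowerSeries.subst_X hz.hs i

theorem e_neg {z : Fin n → k⟦X⟧} (hz : Sm z) (F : MvPowerSeries (Fin n) k) :
    e z (-F) = -e z F := by
  rw [← eH_apply hz, map_neg, eH_apply]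

theorem e_sum {ι : Type} (s : Finset ι) {z : Fin n → k⟦X⟧} (hz : Sm z)
    (F : ι → MvPowerSeries (Fin n) k) : e z (∑ i ∈ s, F i) = ∑ i ∈ s, e z (F i) := by
  rw [← eH_apply hz, map_sum]
  simp only [eH_apply]

/-- the kernel of the evaluation -/
noncomputable def ker {z : Fin n → k⟦X⟧} (hz : Sm z) : Ideal (MvPowerSeries (Fin n) k) :=
  RingHom.ker (eH hz)

theorem mem_ker {z : Fin n → k⟦X⟧} (hz : Sm z) (F : MvPowerSeries (Fin n) k) :
    F ∈ ker hz ↔ e z F = 0 := by
  rw [ker, RingHom.mem_ker, eH_apply]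

theorem ker_isPrime {z : Fin n → k⟦X⟧} (hz : Sm z) : (ker hz).IsPrime :=
  RingHom.ker_isPrime (eH hz)

theorem Sm.cons {z : Fin n → k⟦X⟧} (hz : Sm z) : Sm (Fin.cons X z : Fin (n + 1) → k⟦X⟧) := by
  intro i
  refine Fin.cases ?_ (fun j => ?_) i
  · simp
  · simpa using hz j

/-- series whose coefficients of degree `< N` vanish have values divisible by `t ^ N` -/
theorem e_order {z : Fin n → k⟦X⟧} (hz : Sm z) (F : MvPowerSeries (Fin n) k) (N : ℕ)
    (h : ∀ d : Fin n →₀ ℕ, d.degree < N → MvPowerSeries.coeff d F = 0) : (X : k⟦X⟧) ^ N ∣ e z F := by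
  rw [X_pow_dvd_iff]
  intro j hj
  rw [PowerSeries.coeff, e, MvPowerSeries.coeff_subst hz.hs]
  apply finsum_eq_zero_of_forall_eq_zero
  intro d
  by_cases hd : d.degree < N
  · rw [h d hd, zero_smul]
  · have h1 : (X : k⟦X⟧) ^ N ∣ d.prod fun s j => z s ^ j := by
      have h2 : (X : k⟦X⟧) ^ d.degree ∣ d.prod fun s j => z s ^ j := by
        rw [Finsupp.degree_apply, Finsupp.prod, ← Finset.prod_pow_eq_pow_sum]
        exact Finset.prod_dvd_prod_of_dvd _ _ fun i _ => pow_dvd_pow_of_dvd (hz i) _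
      exact (pow_dvd_pow _ (not_lt.1 hd)).trans h2
    have h3 := (X_pow_dvd_iff.1 h1) j hj
    rw [PowerSeries.coeff] at h3
    rw [h3, smul_zero]

/-- congruent tuples give congruent values -/
theorem e_congr {z z' : Fin n → k⟦X⟧} (hz : Sm z) (hz' : Sm z') (F : MvPowerSeries (Fin n) k)
    (N : ℕ) (h : ∀ i, (X : k⟦X⟧) ^ N ∣ z i - z' i) : (X : k⟦X⟧) ^ N ∣ e z F - e z' F := by
  rw [X_pow_dvd_iff]
  intro j hj
  rw [map_sub, sub_eq_zero, PowerSeries.coeff, e, e, MvPowerSeries.coeff_subst hz.hs,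
    MvPowerSeries.coeff_subst hz'.hs]
  apply finsum_congr
  intro d
  have h1 : (X : k⟦X⟧) ^ N ∣ (d.prod fun s j => z s ^ j) - d.prod fun s j => z' s ^ j := by
    rw [← Ideal.mem_span_singleton, ← Ideal.Quotient.eq, Finsupp.prod, Finsupp.prod, map_prod,
      map_prod]
    refine Finset.prod_congr rfl fun i _ => ?_
    rw [map_pow, map_pow]
    congr 1
    rw [Ideal.Quotient.eq, Ideal.mem_span_singleton]
    exact h i
  have h3 := (X_pow_dvd_iff.1 h1) j hj
  rw [map_sub, sub_eq_zero, PowerSeries.coeff] at h3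
  rw [h3]

/-- evaluation after a substitution -/
theorem e_subst {z : Fin m → k⟦X⟧} (hz : Sm z) (G : Fin n → MvPowerSeries (Fin m) k)
    (hG : ∀ i, MvPowerSeries.constantCoeff (G i) = 0) (F : MvPowerSeries (Fin n) k) :
    e z (MvPowerSeries.subst G F) = e (fun i => e z (G i)) F :=
  MvPowerSeries.subst_comp_subst_apply (MvPowerSeries.hasSubst_of_constantCoeff_zero hG) hz.hs F

theorem Sm.e {z : Fin m → k⟦X⟧} (hz : Sm z) {G : Fin n → MvPowerSeries (Fin m) k}
    (hG : ∀ i, MvPowerSeries.constantCoeff (G i) = 0) : Sm fun i => ETD.e z (G i) := by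
  intro i
  have := e_order hz (G i) 1 (by
    intro d hd
    have : d = 0 := by
      rw [Nat.lt_one_iff] at hd
      exact (Finsupp.degree_eq_zero_iff d).1 hd
    rw [this, MvPowerSeries.coeff_zero_eq_constantCoeff_apply, hG])
  rwa [pow_one] at this

theorem Sm.expand {z : Fin n → k⟦X⟧} (hz : Sm z) {q : ℕ} (hq : q ≠ 0) :
    Sm fun i => expand q hq (z i) := by
  intro i
  obtain ⟨w, hw⟩ := hz i
  show X ∣ PowerSeries.expand q hq (z i)
  rw [hw, map_mul, expand_X]
  exact (dvd_pow_self _ hq).mul_right _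

/-- the substitution of `t ^ q` for `t` commutes with the evaluation of series over `k` -/
theorem e_expand {z : Fin n → k⟦X⟧} (hz : Sm z) {q : ℕ} (hq : q ≠ 0)
    (F : MvPowerSeries (Fin n) k) :
    e (fun i => expand q hq (z i)) F = expand q hq (e z F) := by
  rw [e, e, PowerSeries.expand, MvPowerSeries.expand_subst _ hq hz.hs]

end ETD
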