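import Pool.Agent.ETD.StB

/-!
# ETD, module FAC: factoring out powers of the variables
-/

set_option autoImplicit false
set_option linter.unusedVariables false

namespace ETD

open PowerSeries

theorem FAC_fac {k σ : Type} [Field k] (i : σ) (H : MvPowerSeries σ k) (hH : H ≠ 0) :
    ∃ (l : ℕ) (H' : MvPowerSeries σ k), H = MvPowerSeries.X i ^ l * H' ∧
      ¬ MvPowerSeries.X i ∣ H' := by
  classical
  have hfin : FiniteMultiplicity (MvPowerSeries.X i : MvPowerSeries σ k) H := by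
    by_contra hcon
    apply hH
    ext m
    have h1 : (MvPowerSeries.X i : MvPowerSeries σ k) ^ (m i + 1) ∣ H := by
      by_contra h2
      exact hcon ⟨m i, h2⟩
    rw [MvPowerSeries.X_pow_dvd_iff] at h1
    rw [h1 m (Nat.lt_succ_self _), map_zero]
  obtain ⟨c, hc, hc'⟩ := hfin.exists_eq_pow_mul_and_not_dvd
  exact ⟨_, c, hc, hc'⟩

/-- the tuple is small -/
theorem FAC_sm1 {k : Type} [Field k] {ζ : k⟦X⟧} (hζ : X ∣ ζ) : Sm (![ζ] : Fin 1 → k⟦X⟧) := by
  intro i
  have : i = 0 := Subsingleton.elim _ _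
  rw [this]
  exact hζ

theorem FAC_sm2 {k : Type} [Field k] {ζ v : k⟦X⟧} (hζ : X ∣ ζ) (hv : X ∣ v) :
    Sm (![ζ, v] : Fin 2 → k⟦X⟧) := by
  intro i
  fin_cases i
  · exact hζ
  · exact hv

/-- the value at `0` of a series not divisible by the variable is not `0` -/
theorem FAC_ne {k : Type} [Field k] (H : MvPowerSeries (Fin 2) k)
    (hH : ¬ MvPowerSeries.X 1 ∣ H) : ec ![0] H ≠ 0 := by
  classical
  rw [MvPowerSeries.X_dvd_iff] at hH
  push Not at hH
  obtain ⟨m, hm, hm0⟩ := hH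
  intro h0
  apply hm0
  have hz := (FAC_sm1 (k := k) (dvd_zero X)).cons
  have h1 : coeff (m 0) (ec ![0] H) = 0 := by rw [h0, map_zero]
  rw [PowerSeries.coeff, ec, e, MvPowerSeries.coeff_subst hz.hs, finsum_eq_single _ m] at h1
  · have h2 : (m.prod fun s j => (Fin.cons X ![0] : Fin 2 → k⟦X⟧) s ^ j) = X ^ (m 0) := by
      rw [Finsupp.prod_fintype _ _ (by simp), Fin.prod_univ_two, hm]
      simp
    have h3 : MvPowerSeries.coeff (Finsupp.single () (m 0)) ((X : k⟦X⟧) ^ (m 0)) = 1 := by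
      have := coeff_X_pow_self (R := k) (m 0)
      rwa [PowerSeries.coeff] at this
    rw [h2, h3, smul_eq_mul, mul_one] at h1
    exact h1
  · intro d hd
    rw [Finsupp.prod_fintype _ _ (by simp), Fin.prod_univ_two]
    by_cases hd1 : d 1 = 0
    · have hd0 : d 0 ≠ m 0 := by
        intro h
        apply hd
        ext i
        fin_cases i
        · exact h
        · show d 1 = m 1
          rw [hd1, hm]
      rw [hd1]
      have h3 : MvPowerSeries.coeff (Finsupp.single () (m 0)) ((X : k⟦X⟧) ^ (d 0)) = 0 := by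
        have := coeff_X_pow (R := k) (m 0) (d 0)
        rw [if_neg (Ne.symm hd0)] at this
        rwa [PowerSeries.coeff] at this
      simp only [Fin.cons_zero, pow_zero, mul_one]
      rw [h3, smul_zero]
    · have h4 : ((Fin.cons X ![0] : Fin 2 → k⟦X⟧) 1) ^ (d 1) = 0 := by
        have : (Fin.cons X ![0] : Fin 2 → k⟦X⟧) 1 = 0 := rfl
        rw [this, zero_pow hd1]
      rw [h4, mul_zero, map_zero, smul_zero]

/-- the substitution of `0` for the last variable is not `0` -/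
theorem FAC_ne3 {k : Type} [Field k] (H : MvPowerSeries (Fin 3) k)
    (hH : ¬ MvPowerSeries.X 2 ∣ H) (hG : MvPowerSeries.HasSubst
      (![MvPowerSeries.X 0, MvPowerSeries.X 1, 0] : Fin 3 → MvPowerSeries (Fin 2) k)) :
    MvPowerSeries.subst
      (![MvPowerSeries.X 0, MvPowerSeries.X 1, 0] : Fin 3 → MvPowerSeries (Fin 2) k) H ≠ 0 := by
  classical
  rw [MvPowerSeries.X_dvd_iff] at hH
  push Not at hH
  obtain ⟨m, hm, hm0⟩ := hH
  intro h0
  apply hm0
  have hmon : ∀ a b : ℕ, (MvPowerSeries.X 0 ^ a * MvPowerSeries.X 1 ^ b :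
      MvPowerSeries (Fin 2) k) =
      MvPowerSeries.monomial (Finsupp.single 0 a + Finsupp.single 1 b) 1 := by
    intro a b
    rw [MvPowerSeries.X_pow_eq, MvPowerSeries.X_pow_eq, MvPowerSeries.monomial_mul_monomial,
      one_mul]
  have h1 : MvPowerSeries.coeff (Finsupp.single 0 (m 0) + Finsupp.single 1 (m 1))
      (MvPowerSeries.subst
      (![MvPowerSeries.X 0, MvPowerSeries.X 1, 0] : Fin 3 → MvPowerSeries (Fin 2) k) H) = 0 := by
    rw [h0, map_zero]
  rw [MvPowerSeries.coeff_subst hG, finsum_eq_single _ m] at h1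
  · have h2 : (m.prod fun s j =>
        (![MvPowerSeries.X 0, MvPowerSeries.X 1, 0] : Fin 3 → MvPowerSeries (Fin 2) k) s ^ j) =
        MvPowerSeries.X 0 ^ (m 0) * MvPowerSeries.X 1 ^ (m 1) := by
      rw [Finsupp.prod_fintype _ _ (by simp), Fin.prod_univ_three, hm]
      simp
    rw [h2, hmon, MvPowerSeries.coeff_monomial_same, smul_eq_mul, mul_one] at h1
    exact h1
  · intro d hd
    rw [Finsupp.prod_fintype _ _ (by simp), Fin.prod_univ_three]
    by_cases hd2 : d 2 = 0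
    · have hne : ¬ (Finsupp.single (0 : Fin 2) (m 0) + Finsupp.single 1 (m 1) =
          Finsupp.single 0 (d 0) + Finsupp.single 1 (d 1)) := by
        intro h
        apply hd
        have e0 := DFunLike.congr_fun h 0
        have e1 := DFunLike.congr_fun h 1
        simp at e0 e1
        ext i
        fin_cases i
        · exact e0.symm
        · exact e1.symm
        · show d 2 = m 2
          rw [hd2, hm]
      have h3 : (![MvPowerSeries.X 0, MvPowerSeries.X 1, 0] : Fin 3 → MvPowerSeries (Fin 2) k) 0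
          ^ d 0 * (![MvPowerSeries.X 0, MvPowerSeries.X 1, 0] :
            Fin 3 → MvPowerSeries (Fin 2) k) 1 ^ d 1 *
          (![MvPowerSeries.X 0, MvPowerSeries.X 1, 0] : Fin 3 → MvPowerSeries (Fin 2) k) 2 ^ d 2 =
          MvPowerSeries.X 0 ^ (d 0) * MvPowerSeries.X 1 ^ (d 1) := by
        rw [hd2]
        simp
      rw [h3, hmon, MvPowerSeries.coeff_monomial, if_neg hne, smul_zero]
    · have h4 : ((![MvPowerSeries.X 0, MvPowerSeries.X 1, 0] :
          Fin 3 → MvPowerSeries (Fin 2) k) 2) ^ (d 2) = 0 := by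
        show (0 : MvPowerSeries (Fin 2) k) ^ (d 2) = 0
        rw [zero_pow hd2]
      rw [h4, mul_zero, map_zero, smul_zero]

theorem thm_FAC : St_FAC := by
  intro k _ H hH
  obtain ⟨l, H₁, hH₁, hnd₁⟩ := FAC_fac 2 H hH
  have hG : ∀ i, MvPowerSeries.constantCoeff
      ((![MvPowerSeries.X 0, MvPowerSeries.X 1, 0] : Fin 3 → MvPowerSeries (Fin 2) k) i) = 0 := by
    intro i
    fin_cases i
    · exact MvPowerSeries.constantCoeff_X _
    · exact MvPowerSeries.constantCoeff_X _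
    · exact map_zero _
  have hP := FAC_ne3 H₁ hnd₁ (MvPowerSeries.hasSubst_of_constantCoeff_zero hG)
  obtain ⟨m, H₂, hH₂, hnd₂⟩ := FAC_fac 1 _ hP
  have h0 := FAC_ne H₂ hnd₂
  obtain ⟨c, u, hu', hu⟩ : ∃ (c : ℕ) (u : k⟦X⟧), IsUnit u ∧ ec ![0] H₂ = u * X ^ c := by
    obtain ⟨c, u, hu⟩ := IsDiscreteValuationRing.eq_unit_mul_pow_irreducible h0
      (X_prime (R := k)).irreducible
    exact ⟨c, u, u.isUnit, hu⟩
  refine ⟨l, m, c, ?_⟩
  intro ζ v w d N hw hζ hcd hv hN hv0
  have hXζ : X ∣ ζ := by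
    rw [hζ]
    exact (dvd_pow_self _ (by omega)).mul_right _
  have hXv : X ∣ v := (dvd_pow_self _ (by omega)).trans hv
  have hs1 := (FAC_sm1 hXζ).cons
  have hs10 := (FAC_sm1 (k := k) (dvd_zero X)).cons
  have hs2 := (FAC_sm2 hXζ hXv).cons
  have hs20 := (FAC_sm2 hXζ (dvd_zero X)).cons
  -- the value of `H₂`
  obtain ⟨r, hr⟩ : X ^ (c + 1) ∣ ec ![ζ] H₂ - ec ![0] H₂ := by
    apply e_congr hs1 hs10
    intro i
    refine Fin.cases ?_ (fun j => ?_) i
    · simp
    · have : j = 0 := Subsingleton.elim _ _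
      rw [this]
      simp only [Fin.cons_succ, Matrix.cons_val_zero, sub_zero]
      rw [hζ]
      exact (pow_dvd_pow _ hcd).mul_right _
  have hval2 : ec ![ζ] H₂ = X ^ c * (u + X * r) := by
    rw [sub_eq_iff_eq_add] at hr
    rw [hr, hu]; ring
  -- the value of `H₁` at `v = 0`
  have hval1 : ec ![ζ, 0] H₁ = X ^ (m * d + c) * (w ^ m * (u + X * r)) := by
    have h1 : ec ![ζ, 0] H₁ = ec ![ζ] (MvPowerSeries.subst
        (![MvPowerSeries.X 0, MvPowerSeries.X 1, 0] : Fin 3 → MvPowerSeries (Fin 2) k) H₁) := by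
      rw [ec, ec, e_subst hs1 _ hG]
      congr 1
      funext i
      fin_cases i
      · show (X : k⟦X⟧) = e (Fin.cons X ![ζ]) (MvPowerSeries.X 0)
        rw [e_X hs1]
        rfl
      · show ζ = e (Fin.cons X ![ζ]) (MvPowerSeries.X 1)
        rw [e_X hs1]
        rfl
      · show (0 : k⟦X⟧) = e (Fin.cons X ![ζ]) 0
        rw [e_zero hs1]
    rw [h1, hH₂, ec, e_mul hs1, e_pow hs1, e_X hs1]
    have h2 : (Fin.cons X ![ζ] : Fin 2 → k⟦X⟧) 1 = ζ := rfl
    have h3 : e (Fin.cons X ![ζ]) H₂ = X ^ c * (u + X * r) := hval2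
    rw [h2, h3, hζ, mul_pow, ← pow_mul, pow_add, mul_comm d m]
    ring
  obtain ⟨r', hr'⟩ : X ^ N ∣ ec ![ζ, v] H₁ - ec ![ζ, 0] H₁ := by
    apply e_congr hs2 hs20
    intro i
    refine Fin.cases ?_ (fun j => ?_) i
    · simp
    · fin_cases j
      · simp
      · simpa using hv
  have hval : ec ![ζ, v] H = v ^ l * ec ![ζ, v] H₁ := by
    conv_lhs => rw [hH₁]
    rw [ec, e_mul hs2, e_pow hs2, e_X hs2]
    rfl
  rw [hval]
  refine mul_ne_zero (pow_ne_zero _ hv0) ?_
  intro h4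
  rw [h4, hval1, zero_sub] at hr'
  obtain ⟨q, hq⟩ : ∃ q, N = m * d + c + 1 + q := ⟨N - (m * d + c + 1), by omega⟩
  have h5 : w ^ m * (u + X * r) = -(X * X ^ q * r') := by
    have h6 : X ^ (m * d + c) * (w ^ m * (u + X * r)) =
        X ^ (m * d + c) * (-(X * X ^ q * r')) := by
      rw [← neg_inj, hr', hq]
      ring
    exact mul_left_cancel₀ (pow_ne_zero _ X_ne_zero) h6
  have h7 : constantCoeff (w ^ m * (u + X * r)) ≠ 0 := by
    rw [map_mul, map_pow, map_add, map_mul, constantCoeff_X, zero_mul, add_zero]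
    exact mul_ne_zero (pow_ne_zero _ (isUnit_iff_constantCoeff.1 hw).ne_zero)
      (isUnit_iff_constantCoeff.1 hu').ne_zero
  apply h7
  rw [h5, map_neg, map_mul, map_mul, constantCoeff_X, zero_mul, zero_mul, neg_zero]

end ETD
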