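import Pool.Agent.ETD.StA

/-!
# ETD, module CLB: the set `Bs` is closed
-/

set_option autoImplicit false
set_option linter.unusedVariables false

namespace ETD

open PowerSeries

theorem thm_CLB (h : St_PWB) : St_CLB := by
  intro k _ p _ _ n a ha I
  have hp : p.Prime := Fact.out
  have hp1 : 1 < p := hp.one_lt
  have hsm : ∀ β : ℤ_[p], Sm (pt p a β) := fun β i => (h k p (a i) (ha i)).2.2.1 β
  refine isClosed_of_closure_subset fun β hβ => ?_
  simp only [Bs, Set.mem_ofPred_eq]
  intro F hF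
  have key : ∀ j : ℕ, X ^ (p ^ j) ∣ e (pt p a β) F := by
    intro j
    have hpos : (0 : ℝ) < (p : ℝ) ^ (-(j : ℤ)) := by
      have : (0 : ℝ) < p := by exact_mod_cast hp.pos
      positivity
    obtain ⟨γ, hγ, hd⟩ := Metric.mem_closure_iff.1 hβ _ hpos
    rw [dist_eq_norm] at hd
    have h1 : (p : ℤ_[p]) ^ j ∣ β - γ :=
      Ideal.mem_span_singleton.1 ((PadicInt.norm_le_pow_iff_mem_span_pow _ _).1 hd.le)
    have h2 := e_congr (hsm β) (hsm γ) F (p ^ j) (fun i => by
      have := (h k p (a i) (ha i)).2.2.2 1 j β γ (by simpa using ha i) h1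
      rw [one_mul] at this
      simpa [pt] using this)
    have h3 : e (pt p a γ) F = 0 := hγ F hF
    rwa [h3, sub_zero] at h2
  ext m
  simpa using (X_pow_dvd_iff.1 (key m)) m (Nat.lt_pow_self hp1)

end ETD
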