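import Pool.Agent.ETD.StB

/-!
# ETD, module CON: the iterates depend `p`-adically continuously on their number
-/

set_option autoImplicit false
set_option linter.unusedVariables false

namespace ETD

open PowerSeries

theorem CON_charP (k : Type) [Field k] (p : ℕ) [CharP k p] : CharP k⟦X⟧ p :=
  charP_of_injective_ringHom (C_injective (R := k)) p

/-- if each difference is divisible, the differences for multiples of the number are divisible -/
theorem CON_mul {k : Type} [Field k] (f : k⟦X⟧ → k⟦X⟧) (c : k⟦X⟧) (q : ℕ)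
    (h : ∀ W, c ∣ f^[q] W - W) (m : ℕ) (W : k⟦X⟧) : c ∣ f^[q * m] W - W := by
  induction m generalizing W with
  | zero => simp
  | succ m ih =>
    have h1 := ih (f^[q] W)
    have h2 := dvd_add h1 (h W)
    rw [sub_add_sub_cancel, ← Function.iterate_add_apply] at h2
    exact h2

theorem thm_CON (h : St_SEQ) : St_CON := by
  intro k _ p _ _ α a E hL N
  have := CON_charP k p
  have hp1 : 1 < p := (Fact.out : p.Prime).one_lt
  obtain ⟨G, hG0, hGi, hGd⟩ := h k p α a E
  have hpow : ∀ j : ℕ, a ^ p ^ j - 1 = (a - 1) ^ p ^ j := by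
    intro j
    rw [sub_pow_char_pow, one_pow]
  have ha : ∀ j : ℕ, X ^ (j + 1) ∣ a ^ p ^ j - 1 := by
    intro j
    rw [hpow]
    exact (pow_dvd_pow _ (Nat.lt_pow_self hp1)).trans (pow_dvd_pow_of_dvd hL.ha _)
  have hG : ∀ j : ℕ, Polynomial.C (X ^ (j + 1)) ∣ G j := by
    intro j
    induction j with
    | zero =>
      rw [hG0, zero_add, pow_one]
      exact dvd_add (map_dvd Polynomial.C hL.hα) hL.hE
    | succ j ih =>
      have h1 := (hGd j (j + 1) 1 ih ((pow_dvd_pow _ (by omega)).trans (ha j))).1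
      refine dvd_trans (map_dvd Polynomial.C (pow_dvd_pow _ ?_)) h1
      have h2 : min 1 (p * (j + 1)) = 1 := by
        apply min_eq_left
        exact Nat.succ_le_of_lt (Nat.mul_pos (by omega) (by omega))
      rw [h2]
      omega
  have hstep : ∀ (j : ℕ) (W : k⟦X⟧), X ^ (j + 1) ∣ (ph p α a E)^[p ^ j] W - W := by
    intro j W
    rw [hGi j W]
    obtain ⟨Q, hQ⟩ := hG j
    have h1 : a ^ p ^ j * W + (G j).eval (W ^ p) - W =
        (a ^ p ^ j - 1) * W + X ^ (j + 1) * Q.eval (W ^ p) := by
      rw [hQ, Polynomial.eval_mul, Polynomial.eval_C]; ring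
    rw [h1]
    exact dvd_add ((ha j).mul_right _) (dvd_mul_right _ _)
  refine ⟨N, ?_⟩
  intro W n n' hn
  have key : ∀ n n' : ℕ, n ≤ n' → n ≡ n' [MOD p ^ N] →
      X ^ N ∣ (ph p α a E)^[n'] W - (ph p α a E)^[n] W := by
    intro n n' hle hmod
    obtain ⟨m, hm⟩ := (Nat.modEq_iff_dvd' hle).1 hmod
    have h2 : n' = p ^ N * m + n := by omega
    rw [h2, Function.iterate_add_apply]
    exact CON_mul _ _ _ (fun W => (pow_dvd_pow _ (Nat.le_succ N)).trans (hstep N W)) m _
  rcases le_total n n' with h1 | h1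
  · have := key n n' h1 hn
    rw [← dvd_neg, neg_sub]
    exact this
  · exact key n' n h1 hn.symm

end ETD
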