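import Pool.Agent.ETD.StC

/-!
# ETD: compactness of `ℤ_p`
-/

set_option autoImplicit false
set_option linter.unusedVariables false

namespace ETD

open PowerSeries Topology

/-- [CPT] Compactness of `ℤ_p`. -/
theorem thm_CPT (hSUN : St_SUN) : St_CPT := by
  classical
  intro p _ R hR
  choose J hJ using hR
  obtain ⟨t, -, ht⟩ := isCompact_univ.elim_nhds_subcover
    (fun β : ℤ_[p] => {x : ℤ_[p] | (p : ℤ_[p]) ^ J β ∣ x - β}) (by
      intro β _
      have hp : (0 : ℝ) < p := by exact_mod_cast (Fact.out : p.Prime).pos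
      refine Metric.mem_nhds_iff.2 ⟨(p : ℝ) ^ (-(J β : ℤ)), by positivity, fun x hx => ?_⟩
      rw [Metric.mem_ball, dist_eq_norm] at hx
      exact Ideal.mem_span_singleton.1 ((PadicInt.norm_le_pow_iff_mem_span_pow _ _).1 hx.le))
  have h1 : ∀ t : Finset ℤ_[p], PSet p {n : ℕ | n ∈ R ∧ ∃ β ∈ t,
      (p : ℤ_[p]) ^ J β ∣ (n : ℤ_[p]) - β} := by
    intro t
    induction t using Finset.induction_on with
    | empty =>
      have : {n : ℕ | n ∈ R ∧ ∃ β ∈ (∅ : Finset ℤ_[p]), (p : ℤ_[p]) ^ J β ∣ (n : ℤ_[p]) - β} =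
          (∅ : Set ℕ) := by
        ext n
        simp
      rw [this]
      exact (hSUN p).1 _ Set.finite_empty
    | insert β t hβ ih =>
      have : {n : ℕ | n ∈ R ∧ ∃ β' ∈ insert β t, (p : ℤ_[p]) ^ J β' ∣ (n : ℤ_[p]) - β'} =
          {n : ℕ | n ∈ R ∧ (p : ℤ_[p]) ^ J β ∣ (n : ℤ_[p]) - β} ∪
          {n : ℕ | n ∈ R ∧ ∃ β' ∈ t, (p : ℤ_[p]) ^ J β' ∣ (n : ℤ_[p]) - β'} := by
        ext n
        constructor
        · rintro ⟨hn, β', hβ', h⟩
          rcases Finset.mem_insert.1 hβ' with rfl | h'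
          · exact Or.inl ⟨hn, h⟩
          · exact Or.inr ⟨hn, β', h', h⟩
        · rintro (⟨hn, h⟩ | ⟨hn, β', hβ', h⟩)
          · exact ⟨hn, β, Finset.mem_insert_self _ _, h⟩
          · exact ⟨hn, β', Finset.mem_insert_of_mem hβ', h⟩
      rw [this]
      exact (hSUN p).2.1 _ _ (hJ β) ih
  have h2 : R = {n : ℕ | n ∈ R ∧ ∃ β ∈ t, (p : ℤ_[p]) ^ J β ∣ (n : ℤ_[p]) - β} := by
    ext n
    refine ⟨fun hn => ⟨hn, ?_⟩, fun hn => hn.1⟩
    have h3 := ht (Set.mem_univ (n : ℤ_[p]))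
    obtain ⟨β, hβ, h4⟩ := Set.mem_iUnion₂.1 h3
    exact ⟨β, hβ, h4⟩
  rw [h2]
  exact h1 t

end ETD
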