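import Pool.Agent.ETD.StA

/-!
# ETD, module DGA: the algebraic core of the digit lemma
-/

set_option autoImplicit false
set_option linter.unusedVariables false

namespace ETD

open PowerSeries

/-- the series whose value at `z` is divisible by `t ^ j` -/
noncomputable def DGA_K {k : Type} [Field k] {n : ℕ} {z : Fin n → k⟦X⟧} (hz : Sm z) (j : ℕ) :
    Ideal (MvPowerSeries (Fin n) k) := (Ideal.span {(X : k⟦X⟧) ^ j}).comap (eH hz)

theorem DGA_mem {k : Type} [Field k] {n : ℕ} {z : Fin n → k⟦X⟧} (hz : Sm z) (j : ℕ)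
    (F : MvPowerSeries (Fin n) k) : F ∈ DGA_K hz j ↔ (X : k⟦X⟧) ^ j ∣ e z F := by
  rw [DGA_K, Ideal.mem_comap, Ideal.mem_span_singleton, eH_apply]

theorem DGA_pow {k : Type} [Field k] {n : ℕ} {z : Fin n → k⟦X⟧} (hz : Sm z) (j : ℕ) :
    mI k n ^ j ≤ DGA_K hz j := by
  induction j with
  | zero =>
    intro F _
    rw [DGA_mem, pow_zero]
    exact one_dvd _
  | succ j ih =>
    rw [pow_succ, Ideal.mul_le]
    intro r hr s hs
    have h1 : mI k n ≤ DGA_K hz 1 := by
      rw [mI, Ideal.span_le]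
      rintro _ ⟨i, rfl⟩
      rw [SetLike.mem_coe, DGA_mem, e_X hz, pow_one]
      exact hz i
    have h2 := (DGA_mem hz j r).1 (ih hr)
    have h3 := (DGA_mem hz 1 s).1 (h1 hs)
    rw [DGA_mem, e_mul hz, pow_succ]
    rw [pow_one] at h3
    exact mul_dvd_mul h2 h3

/-- finitely many of the series generate the ideal -/
theorem DGA_fin {k : Type} [Field k] {n : ℕ} (H : ℤ → MvPowerSeries (Fin n) k) :
    ∃ r₀ : ℕ, ∀ r : ℤ, H r ∈ Ideal.span (H '' {r | |r| ≤ r₀}) := by
  let J : ℕ →o Ideal (MvPowerSeries (Fin n) k) :=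
    { toFun := fun m => Ideal.span (H '' {r | |r| ≤ m})
      monotone' := by
        intro a b hab
        apply Ideal.span_mono
        apply Set.image_mono
        intro r hr
        have hr' : |r| ≤ (a : ℤ) := hr
        show |r| ≤ (b : ℤ)
        have : (a : ℤ) ≤ b := by exact_mod_cast hab
        exact hr'.trans this }
  obtain ⟨r₀, hr₀⟩ := monotone_stabilizes_iff_noetherian.2
    (inferInstance : IsNoetherian (MvPowerSeries (Fin n) k) (MvPowerSeries (Fin n) k)) J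
  refine ⟨r₀, fun r => ?_⟩
  have h1 : H r ∈ J (max r₀ r.natAbs) := by
    apply Ideal.subset_span
    refine ⟨r, ?_, rfl⟩
    show |r| ≤ ((max r₀ r.natAbs : ℕ) : ℤ)
    rw [Int.abs_eq_natAbs]
    exact_mod_cast le_max_right _ _
  rw [← hr₀ _ (le_max_left _ _)] at h1
  exact h1

theorem thm_DGA : St_DGA := by
  intro k _ n M H hH
  obtain ⟨r₀, hr₀⟩ := DGA_fin H
  set I : Ideal (MvPowerSeries (Fin n) k) := Ideal.span (H '' {r | |r| ≤ r₀}) with hI
  obtain ⟨n₀, hn₀⟩ := Ideal.exists_pow_inf_eq_pow_smul (mI k n) (N := I)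
  refine ⟨M * (n₀ + 2) + r₀ + 1, ?_⟩
  intro q hq z hz hsum
  by_contra hne
  push Not at hne
  obtain ⟨r, hr⟩ := hne
  -- a nonzero value among the generators
  have hex : ∃ d : ℕ, ∃ r₁ : ℤ, |r₁| ≤ r₀ ∧ coeff d (e z (H r₁)) ≠ 0 := by
    by_contra hcon
    push Not at hcon
    apply hr
    have h1 : I ≤ ker hz := by
      rw [hI, Ideal.span_le]
      rintro _ ⟨r₁, hr₁, rfl⟩
      rw [SetLike.mem_coe, mem_ker]
      ext d
      rw [map_zero]
      exact hcon d r₁ hr₁
    exact (mem_ker hz _).1 (h1 (hr₀ r))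
  classical
  obtain ⟨r₁, hr₁, hd⟩ := Nat.find_spec hex
  set d := Nat.find hex with hdd
  have hmin : ∀ d' < d, ∀ r₁ : ℤ, |r₁| ≤ r₀ → coeff d' (e z (H r₁)) = 0 := by
    intro d' hd' r' hr'
    by_contra hcon
    exact Nat.find_min hex hd' ⟨r', hr', hcon⟩
  have hId : I ≤ DGA_K hz d := by
    rw [hI, Ideal.span_le]
    rintro _ ⟨r', hr', rfl⟩
    rw [SetLike.mem_coe, DGA_mem, X_pow_dvd_iff]
    intro j hj
    exact hmin j hj r' hr'
  -- the Artin-Rees estimate
  have hAR : ∀ (F : MvPowerSeries (Fin n) k) (m' : ℕ), n₀ ≤ m' → F ∈ I → F ∈ mI k n ^ m' →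
      (X : k⟦X⟧) ^ (m' - n₀ + d) ∣ e z F := by
    intro F m' hm' hFI hFm
    have h1 : F ∈ (mI k n ^ m' • ⊤ ⊓ I : Submodule (MvPowerSeries (Fin n) k) _) := by
      refine ⟨?_, hFI⟩
      rw [smul_eq_mul, Ideal.mul_top]
      exact hFm
    rw [hn₀ m' hm'] at h1
    have h2 : F ∈ mI k n ^ (m' - n₀) * I := by
      have h3 : (mI k n ^ (m' - n₀) • ((mI k n ^ n₀ • ⊤ : Submodule (MvPowerSeries (Fin n) k) _) ⊓ I))
          ≤ mI k n ^ (m' - n₀) * I := Ideal.mul_mono_right inf_le_right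
      exact h3 h1
    have h4 : mI k n ^ (m' - n₀) * I ≤ DGA_K hz (m' - n₀ + d) := by
      rw [Ideal.mul_le]
      intro r hr s hs
      rw [DGA_mem, e_mul hz, pow_add]
      exact mul_dvd_mul ((DGA_mem hz _ r).1 (DGA_pow hz _ hr)) ((DGA_mem hz _ s).1 (hId hs))
    exact (DGA_mem hz _ F).1 (h4 h2)
  have key := hsum (r₁ + q * d)
  rw [finsum_eq_single _ d] at key
  · apply hd
    have : r₁ + (q : ℤ) * d - q * d = r₁ := by ring
    rwa [this] at key
  · intro s hs
    rcases lt_or_gt_of_ne hs with h | h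
    · have h1 := (DGA_mem hz d _).1 (hId (hr₀ (r₁ + q * d - q * s)))
      exact (X_pow_dvd_iff.1 h1) s h
    · obtain ⟨m, hm⟩ : ∃ m : ℕ, s = d + m := ⟨s - d, by omega⟩
      have hm1 : 1 ≤ m := by omega
      have hr₁' := abs_le.1 hr₁
      have hq' : (M * (n₀ + 2) + r₀ + 1 : ℤ) ≤ q := by exact_mod_cast hq
      have hineq : ((M * (m + n₀ + 1) : ℕ) : ℤ) < q * m - r₁ := by
        push_cast
        have h1 : ((M * (n₀ + 2) + r₀ + 1 : ℤ)) * m ≤ q * m := by
          have : (0 : ℤ) ≤ m := by positivity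
          exact mul_le_mul_of_nonneg_right hq' this
        have h2 : (M : ℤ) * (m + n₀ + 1) ≤ M * (n₀ + 2) * m := by
          have h3 : ((m : ℤ) + n₀ + 1) ≤ (n₀ + 2) * m := by
            have hm1' : (1 : ℤ) ≤ m := by exact_mod_cast hm1
            have hn : (0 : ℤ) ≤ n₀ := by positivity
            nlinarith
          have h4 : (0 : ℤ) ≤ M := by positivity
          calc (M : ℤ) * (m + n₀ + 1) ≤ M * ((n₀ + 2) * m) := mul_le_mul_of_nonneg_left h3 h4
            _ = M * (n₀ + 2) * m := by ring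
        have h5 : ((r₀ : ℤ) + 1) ≤ (r₀ + 1) * m := by
          have hm1' : (1 : ℤ) ≤ m := by exact_mod_cast hm1
          have hn : (0 : ℤ) ≤ r₀ := by positivity
          nlinarith
        nlinarith [hr₁'.2]
      obtain ⟨N', hN'⟩ : ∃ N' : ℕ, (N' : ℤ) = q * m - r₁ := by
        refine ⟨(q * m - r₁).toNat, Int.toNat_of_nonneg ?_⟩
        have : (0 : ℤ) ≤ ((M * (m + n₀ + 1) : ℕ) : ℤ) := by positivity
        omega
      have h1 : r₁ + (q : ℤ) * d - q * s = -(N' : ℤ) := by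
        rw [hN', hm]; push_cast; ring
      rw [h1]
      have h2 : H (-(N' : ℤ)) ∈ mI k n ^ (m + n₀ + 1) := by
        apply hH
        rw [← hN'] at hineq
        exact_mod_cast hineq
      have h3 := hAR _ (m + n₀ + 1) (by omega) (hr₀ _) h2
      refine (X_pow_dvd_iff.1 h3) s ?_
      omega

end ETD
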