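import Pool.Agent.ETD.StA

/-!
# ETD, module DGB: the coefficients of the value in terms of the digits
-/

set_option autoImplicit false
set_option linter.unusedVariables false

namespace ETD

open PowerSeries

variable {k : Type} [Field k] {n : ℕ}

private noncomputable def DGB_T (n B : ℕ) : Finset (Fin n →₀ ℕ) :=
  (Finsupp.finite_of_degree_le B).toFinset

private theorem DGB_mem_T {n B : ℕ} (d : Fin n →₀ ℕ) : d ∈ DGB_T n B ↔ d.degree ≤ B := by
  simp [DGB_T]

private noncomputable def DGB_mon (z : Fin n → k⟦X⟧) (d : Fin n →₀ ℕ) : k⟦X⟧ := ∏ s, z s ^ d s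

private theorem DGB_mon_dvd {z : Fin n → k⟦X⟧} (hz : Sm z) (d : Fin n →₀ ℕ) :
    (X : k⟦X⟧) ^ d.degree ∣ DGB_mon z d := by
  rw [Finsupp.degree_eq_sum, ← Finset.prod_pow_eq_pow_sum]
  exact Finset.prod_dvd_prod_of_dvd _ _ fun i _ => pow_dvd_pow_of_dvd (hz i) _

private theorem DGB_mon_zero {z : Fin n → k⟦X⟧} (hz : Sm z) (d : Fin n →₀ ℕ) (s : ℕ)
    (h : s < d.degree) : coeff s (DGB_mon z d) = 0 :=
  (X_pow_dvd_iff.1 (DGB_mon_dvd hz d)) s h

private theorem DGB_coeff_e {z : Fin n → k⟦X⟧} (hz : Sm z) (F : MvPowerSeries (Fin n) k)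
    (s B : ℕ) (hB : s ≤ B) :
    coeff s (e z F) = ∑ d ∈ DGB_T n B, MvPowerSeries.coeff d F * coeff s (DGB_mon z d) := by
  have h0 : ∀ d : Fin n →₀ ℕ, (d.prod fun i j => z i ^ j) = DGB_mon z d := fun d =>
    Finsupp.prod_fintype _ _ fun i => pow_zero _
  rw [PowerSeries.coeff, e, MvPowerSeries.coeff_subst hz.hs]
  simp only [h0, smul_eq_mul]
  rw [finsum_eq_sum_of_support_subset (s := DGB_T n B)]
  intro d hd
  rw [Finset.mem_coe, DGB_mem_T]
  by_contra hlt
  apply hd
  have := DGB_mon_zero hz d s (by omega)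
  rw [PowerSeries.coeff] at this
  show MvPowerSeries.coeff d F * _ = 0
  rw [this, mul_zero]

private theorem DGB_coeff_ec {ζ : Fin n → k⟦X⟧} (hζ : Sm ζ)
    (H : MvPowerSeries (Fin (n + 1)) k) (N : ℕ) :
    coeff N (ec ζ H) = ∑ i ∈ DGB_T n N, ∑ l ∈ Finset.range (N + 1),
      MvPowerSeries.coeff (Finsupp.cons l i) H * coeff (N - l) (DGB_mon ζ i) := by
  rw [ec, DGB_coeff_e hζ.cons H N N le_rfl, ← Finset.sum_product']
  have hm : ∀ (l : ℕ) (i : Fin n →₀ ℕ),
      DGB_mon (Fin.cons X ζ : Fin (n + 1) → k⟦X⟧) (Finsupp.cons l i) =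
        X ^ l * DGB_mon ζ i := by
    intro l i
    rw [DGB_mon, DGB_mon, Fin.prod_univ_succ]
    simp
  have hdeg : ∀ (l : ℕ) (i : Fin n →₀ ℕ), (Finsupp.cons l i).degree = l + i.degree := by
    intro l i
    rw [Finsupp.degree_eq_sum, Finsupp.degree_eq_sum, Fin.sum_univ_succ]
    simp
  have hc : ∀ (l : ℕ) (i : Fin n →₀ ℕ), l ≤ N → coeff N (X ^ l * DGB_mon ζ i) =
      coeff (N - l) (DGB_mon ζ i) := by
    intro l i hl
    rw [coeff_X_pow_mul', if_pos hl]
  refine Finset.sum_of_injOn (fun j => (Finsupp.tail j, j 0)) ?_ ?_ ?_ ?_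
  · intro j _ j' _ h
    simp only [Prod.mk.injEq] at h
    rw [← Finsupp.cons_tail j, ← Finsupp.cons_tail j', h.1, h.2]
  · intro j hj
    rw [Finset.mem_coe, DGB_mem_T] at hj
    have h := hdeg (j 0) (Finsupp.tail j)
    rw [Finsupp.cons_tail] at h
    simp only [Finset.coe_product, Set.mem_prod, Finset.mem_coe, DGB_mem_T, Finset.mem_range]
    omega
  · rintro ⟨i, l⟩ hx hn
    simp only [Finset.mem_product, DGB_mem_T, Finset.mem_range] at hx
    have hgt : N < l + i.degree := by
      by_contra hle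
      apply hn
      refine ⟨Finsupp.cons l i, ?_, ?_⟩
      · rw [Finset.mem_coe, DGB_mem_T, hdeg]
        omega
      · simp
    have := DGB_mon_zero hζ i (N - l) (by omega)
    simp only
    rw [this, mul_zero]
  · intro j hj
    rw [DGB_mem_T] at hj
    have h := hdeg (j 0) (Finsupp.tail j)
    rw [Finsupp.cons_tail] at h
    have h2 := hm (j 0) (Finsupp.tail j)
    rw [Finsupp.cons_tail] at h2
    simp only
    rw [h2, Finsupp.cons_tail, hc _ _ (by omega)]

private theorem DGB_id (q : ℕ) (hq : q ≠ 0) (M : ℕ) (hM : M < q) (N e : ℕ) (he : e ≤ N)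
    (w v : k⟦X⟧) (h : X ^ (M * e) * v = expand q hq w) (c : ℕ → k) :
    ∑ l ∈ Finset.range (N + 1), c l * coeff (N - l) v =
      ∑ s ∈ Finset.range (N + 1),
        if q * s ≤ N + M * e then c (N + M * e - q * s) * coeff s w else 0 := by
  have h1 : ∑ l ∈ Finset.range (N + 1), c l * coeff (N - l) v =
      ∑ l ∈ Finset.range (N + M * e + 1), c l * coeff (N + M * e - l) (expand q hq w) := by
    rw [← h]
    have hsub : Finset.range (N + 1) ⊆ Finset.range (N + M * e + 1) :=
      Finset.range_subset_range.2 (by omega)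
    rw [← Finset.sum_subset hsub]
    · refine Finset.sum_congr rfl fun l hl => ?_
      rw [Finset.mem_range] at hl
      rw [coeff_X_pow_mul', if_pos (by omega)]
      congr 2
      congr 1
      omega
    · intro l hl hl'
      rw [Finset.mem_range] at hl hl'
      rw [coeff_X_pow_mul', if_neg (by omega), mul_zero]
  have h2 : ∑ l ∈ Finset.range (N + M * e + 1),
      c l * coeff (N + M * e - l) (expand q hq w) =
      ∑ m ∈ Finset.range (N + M * e + 1),
        c (N + M * e - m) * coeff m (expand q hq w) := by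
    rw [← Finset.sum_range_reflect]
    refine Finset.sum_congr rfl fun l hl => ?_
    rw [Finset.mem_range] at hl
    have e1 : N + M * e + 1 - 1 - l = N + M * e - l := by omega
    have e2 : N + M * e - (N + M * e - l) = l := by omega
    rw [e1, e2]
  rw [h1, h2, ← Finset.sum_filter]
  symm
  refine Finset.sum_of_injOn (fun s => q * s) ?_ ?_ ?_ ?_
  · intro a _ b _ hab
    exact Nat.eq_of_mul_eq_mul_left (Nat.pos_of_ne_zero hq) hab
  · intro s hs
    simp only [Finset.coe_filter, Set.mem_ofPred_eq, Finset.mem_range] at hs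
    simp only [Finset.mem_coe, Finset.mem_range]
    omega
  · intro m hm hn
    rw [Finset.mem_range] at hm
    by_cases hd : q ∣ m
    · obtain ⟨s, rfl⟩ := hd
      exfalso
      apply hn
      refine ⟨s, ?_, rfl⟩
      simp only [Finset.coe_filter, Set.mem_ofPred_eq, Finset.mem_range]
      refine ⟨?_, by omega⟩
      by_contra hs
      have h3 : q * (N + 1) ≤ q * s := Nat.mul_le_mul_left _ (by omega)
      have h4 : M * e ≤ M * N := Nat.mul_le_mul_left _ he
      have h5 : (M + 1) * (N + 1) ≤ q * (N + 1) := Nat.mul_le_mul_right _ hM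
      nlinarith
    · rw [coeff_expand_of_not_dvd q hq _ hd, mul_zero]
  · intro s hs
    rw [coeff_expand_mul]

theorem thm_DGB (hO : St_ORD) : St_DGB := by
  intro k _ n M H
  have hdig : ∀ (r : ℤ) (i : Fin n →₀ ℕ), MvPowerSeries.coeff i (dig M H r) =
      if 0 ≤ r + M * i.degree then
        MvPowerSeries.coeff (Finsupp.cons (r + M * i.degree).toNat i) H else 0 := fun r i => rfl
  have hdz : ∀ (r : ℤ) (i : Fin n →₀ ℕ), r + M * i.degree < 0 →
      MvPowerSeries.coeff i (dig M H r) = 0 := by
    intro r i hr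
    rw [hdig, if_neg (by omega)]
  refine ⟨?_, ?_⟩
  · intro q hq hM z ζ hz hζ hrel
    have hvan : ∀ (N : ℤ) (s : ℕ), N < (q - M : ℤ) * s →
        coeff s (e z (dig M H (N - q * s))) = 0 := by
      intro N s hs
      have h1 : (X : k⟦X⟧) ^ (s + 1) ∣ e z (dig M H (N - q * s)) := by
        refine e_order hz _ (s + 1) fun d hd => hdz _ _ ?_
        have h2 : (M : ℤ) * d.degree ≤ M * s := by
          have : d.degree ≤ s := by omega
          exact_mod_cast Nat.mul_le_mul_left M this
        nlinarith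
      exact (X_pow_dvd_iff.1 h1) s (Nat.lt_succ_self s)
    have hmon : ∀ i : Fin n →₀ ℕ,
        X ^ (M * i.degree) * DGB_mon ζ i = expand q hq (DGB_mon z i) := by
      intro i
      rw [DGB_mon, DGB_mon, map_prod, pow_mul, Finsupp.degree_eq_sum,
        ← Finset.prod_pow_eq_pow_sum, ← Finset.prod_mul_distrib]
      refine Finset.prod_congr rfl fun s _ => ?_
      rw [← mul_pow, hrel s, map_pow]
    refine ⟨fun N => ?_, fun N hN => ?_⟩
    · have hs1 : ∑ᶠ s : ℕ, coeff s (e z (dig M H ((N : ℤ) - q * s))) =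
          ∑ s ∈ Finset.range (N + 1), coeff s (e z (dig M H ((N : ℤ) - q * s))) := by
        refine finsum_eq_sum_of_support_subset _ ?_
        intro s hs
        rw [Finset.mem_coe, Finset.mem_range]
        by_contra hlt
        apply hs
        refine hvan N s ?_
        have h1 : (1 : ℤ) ≤ q - M := by omega
        have h2 : (N : ℤ) < s := by omega
        nlinarith
      rw [hs1, DGB_coeff_ec hζ H N]
      have hs2 : ∀ s ∈ Finset.range (N + 1), coeff s (e z (dig M H ((N : ℤ) - q * s))) =
          ∑ i ∈ DGB_T n N, MvPowerSeries.coeff i (dig M H ((N : ℤ) - q * s)) *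
            coeff s (DGB_mon z i) := by
        intro s hs
        rw [Finset.mem_range] at hs
        exact DGB_coeff_e hz _ s N (by omega)
      rw [Finset.sum_congr rfl hs2]
      conv_rhs => rw [Finset.sum_comm]
      refine Finset.sum_congr rfl fun i hi => ?_
      rw [DGB_mem_T] at hi
      rw [DGB_id q hq M hM N i.degree hi (DGB_mon z i) (DGB_mon ζ i) (hmon i)
        fun l => MvPowerSeries.coeff (Finsupp.cons l i) H]
      refine Finset.sum_congr rfl fun s _ => ?_
      rw [hdig]
      by_cases hc : q * s ≤ N + M * i.degree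
      · have hc' : (0 : ℤ) ≤ (N : ℤ) - q * s + M * i.degree := by
          have : (q : ℤ) * s ≤ N + M * i.degree := by exact_mod_cast hc
          linarith
        have he : ((N : ℤ) - q * s + M * i.degree).toNat = N + M * i.degree - q * s := by
          have : ((N + M * i.degree - q * s : ℕ) : ℤ) = (N : ℤ) - q * s + M * i.degree := by
            rw [Nat.cast_sub hc]
            push_cast
            ring
          rw [← this, Int.toNat_natCast]
        rw [if_pos hc, if_pos hc', he]
      · have hc' : ¬ (0 : ℤ) ≤ (N : ℤ) - q * s + M * i.degree := by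
          intro h
          apply hc
          have : (q : ℤ) * s ≤ N + M * i.degree := by linarith
          exact_mod_cast this
        rw [if_neg hc, if_neg hc', zero_mul]
    · refine finsum_eq_zero_of_forall_eq_zero fun s => hvan N s ?_
      have h1 : (0 : ℤ) ≤ (q - M : ℤ) * s := mul_nonneg (by omega) (by omega)
      linarith
  · intro N m hNm
    refine hO k n m _ fun d hd => hdz _ _ ?_
    have h2 : M * d.degree ≤ M * m := Nat.mul_le_mul_left M hd.le
    have h3 : (M : ℤ) * d.degree < N := by exact_mod_cast lt_of_le_of_lt h2 hNm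
    linarith

end ETD
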