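import Pool.Agent.ETD.StA

set_option autoImplicit false
set_option linter.unusedVariables false

namespace ETD

open PowerSeries

private theorem DIC_charP (k : Type) [Field k] (p : ℕ) [CharP k p] : CharP k⟦X⟧ p :=
  charP_of_injective_algebraMap (algebraMap k k⟦X⟧).injective p

private theorem DIC_e0 {k : Type} [Field k] {n : ℕ} (z : Fin n → k⟦X⟧) (hz : z = 0)
    (F : MvPowerSeries (Fin n) k) (hF : MvPowerSeries.constantCoeff F = 0) : e z F = 0 := by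
  have hs : Sm z := by
    intro i
    rw [hz]
    exact dvd_zero _
  refine PowerSeries.ext fun j => ?_
  rw [PowerSeries.coeff, e, MvPowerSeries.coeff_subst hs.hs, map_zero]
  apply finsum_eq_zero_of_forall_eq_zero
  intro d
  by_cases hd : d = 0
  · rw [hd, MvPowerSeries.coeff_zero_eq_constantCoeff_apply, hF, zero_smul]
  · obtain ⟨i, hi⟩ := Finsupp.ne_iff.1 hd
    have : (d.prod fun s j => z s ^ j) = 0 := by
      rw [Finsupp.prod]
      refine Finset.prod_eq_zero (i := i) (Finsupp.mem_support_iff.2 hi) ?_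
      rw [hz]
      exact zero_pow hi
    rw [this, map_zero, smul_zero]

private theorem DIC_ball (p : ℕ) [Fact p.Prime] (b : ℤ_[p]) (T : Set ℤ_[p])
    (hb : AccPt b (Filter.principal T)) (j : ℕ) : ∃ β ∈ T, β ≠ b ∧ (p : ℤ_[p]) ^ j ∣ β - b := by
  rw [accPt_iff_nhds] at hb
  have hp : (0 : ℝ) < (p : ℝ) ^ (-(j : ℤ)) := by
    have : 0 < (p : ℝ) := by exact_mod_cast (Fact.out : p.Prime).pos
    positivity
  obtain ⟨y, ⟨hy1, hy2⟩, hy3⟩ := hb (Metric.ball b ((p : ℝ) ^ (-(j : ℤ)))) (Metric.ball_mem_nhds _ hp)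
  refine ⟨y, hy2, hy3, ?_⟩
  rw [Metric.mem_ball, dist_eq_norm] at hy1
  have := (PadicInt.norm_le_pow_iff_mem_span_pow _ _).1 hy1.le
  exact Ideal.mem_span_singleton.1 this

theorem thm_DIC (hPWB : St_PWB) (hPWP : St_PWP) (hPWN : St_PWN) (hFRB : St_FRB) (hCLB : St_CLB)
    (hDIG : St_DIG) (hHTL : St_HTL) (hTRD : St_TRD) : St_DIC := by
  intro k _ p _ _ s hFr a ha hne I
  classical
  have : CharP k⟦X⟧ p := DIC_charP k p
  have hp1 : 1 < p := (Fact.out : p.Prime).one_lt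
  have hs0 : 0 < s := hFr.1
  have hsm : ∀ β : ℤ_[p], Sm (pt p a β) := fun β i => (hPWB k p (a i) (ha i)).2.2.1 β
  have hnz : ∀ β : ℤ_[p], β ≠ 0 → ∃ i, pt p a β i ≠ 0 := by
    intro β hβ
    obtain ⟨i, hi⟩ := hne
    exact ⟨i, fun h => hPWN k p (a i) (ha i) hi β hβ (sub_eq_zero.1 h)⟩
  have hP : ∀ β : ℤ_[p], β ≠ 0 → ∀ 𝔮 : Ideal (MvPowerSeries (Fin 2) k), 𝔮.IsPrime → 𝔮 ≠ ⊥ →
      𝔮 ≤ ker (hsm β) → 𝔮 = ker (hsm β) := fun β hβ => hHTL k _ (hsm β) (hnz β hβ)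
  have hBs : ∀ (J : Ideal (MvPowerSeries (Fin 2) k)) (β : ℤ_[p]),
      β ∈ Bs p a J ↔ J ≤ ker (hsm β) := by
    intro J β
    constructor
    · intro h F hF
      exact (mem_ker _ _).2 (h F hF)
    · intro h F hF
      exact (mem_ker _ _).1 (h hF)
  by_cases hfin : {β | β ∈ Bs p a I ∧ ¬ (p : ℤ_[p]) ^ s ∣ β}.Finite
  · exact Or.inr hfin
  left
  by_cases hI : I = ⊥
  · rw [Set.eq_univ_iff_forall]
    intro β
    rw [hBs, hI]
    exact bot_le
  have hD0 : ∀ β : ℤ_[p], ¬ (p : ℤ_[p]) ^ s ∣ β → β ≠ 0 := by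
    intro β h h0
    exact h (h0 ▸ dvd_zero _)
  -- the prime `P`
  have hex : ∃ P ∈ I.minimalPrimes, {β | (β ∈ Bs p a I ∧ ¬ (p : ℤ_[p]) ^ s ∣ β) ∧
      ker (hsm β) = P}.Infinite := by
    by_contra hcon
    apply hfin
    have hun : (⋃ P ∈ I.minimalPrimes, {β | (β ∈ Bs p a I ∧ ¬ (p : ℤ_[p]) ^ s ∣ β) ∧
        ker (hsm β) = P}).Finite := by
      refine Set.Finite.biUnion (Ideal.finite_minimalPrimes_of_isNoetherianRing _ I) ?_
      intro P hP'
      by_contra h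
      exact hcon ⟨P, hP', h⟩
    refine hun.subset ?_
    intro β hβ
    have h1 := (hBs I β).1 hβ.1
    have := ker_isPrime (hsm β)
    obtain ⟨𝔮, h𝔮, hle⟩ := Ideal.exists_minimalPrimes_le h1
    have h2 : 𝔮 ≠ ⊥ := by
      rintro rfl
      exact hI (le_bot_iff.1 h𝔮.1.2)
    have h3 := hP β (hD0 β hβ.2) 𝔮 h𝔮.1.1 h2 hle
    exact Set.mem_biUnion h𝔮 ⟨hβ, h3.symm⟩
  obtain ⟨P, hPm, hinf⟩ := hex
  have hPp : P.IsPrime := hPm.1.1
  have hIP : I ≤ P := hPm.1.2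
  have hP0 : P ≠ ⊥ := by
    rintro rfl
    exact hI (le_bot_iff.1 hIP)
  suffices hPu : ∀ β, β ∈ Bs p a P by
    rw [Set.eq_univ_iff_forall]
    intro β
    rw [hBs]
    exact hIP.trans ((hBs P β).1 (hPu β))
  obtain ⟨b, hb⟩ := hinf.exists_accPt_principal
  have hbP : b ∈ Bs p a P := by
    have hcl := hCLB k p 2 a ha P
    rw [isClosed_iff_clusterPt] at hcl
    refine hcl b ((hb.mono ?_).clusterPt)
    rw [Filter.principal_mono]
    intro β hβ
    rw [hBs]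
    exact hβ.2.ge
  have hbs : ¬ (p : ℤ_[p]) ^ s ∣ b := by
    intro h
    obtain ⟨β, hβ, _, hd⟩ := DIC_ball p b _ hb s
    exact hβ.1.2 (by simpa using dvd_add hd h)
  have hb0 : b ≠ 0 := hD0 b hbs
  have hPb : P = ker (hsm b) := hP b hb0 P hPp hP0 ((hBs P b).1 hbP)
  -- generators
  obtain ⟨S, hS⟩ := (isNoetherianRing_iff_ideal_fg _).1 inferInstance P
  have hSle : ∀ β, (∀ F ∈ S, e (pt p a β) F = 0) → β ∈ Bs p a P := by
    intro β h
    rw [hBs, ← hS, Ideal.span_le]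
    intro F hF
    exact (mem_ker _ _).2 (h F hF)
  have hSP : ∀ F ∈ S, F ∈ P := by
    intro F hF
    rw [← hS]
    exact Ideal.subset_span hF
  choose H hH0 hHe using fun F => hTRD k 2 (pt p a b) (hsm b) F
  have hadd : ∀ γ : ℤ_[p], (fun i => (1 + pt p a b i) * (1 + pt p a γ i) - 1) =
      pt p a (b + γ) := by
    intro γ
    funext i
    simp only [pt]
    rw [(hPWB k p (a i) (ha i)).2.1]
    ring
  have hHe' : ∀ F γ, ec (pt p a γ) (H F) = e (pt p a (b + γ)) F := by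
    intro F γ
    rw [hHe F _ (hsm γ), hadd]
  choose q0 hq0 using fun F => (hDIG k 2 0 (H F)).2
  set Q0 := S.sup q0 with hQ0
  have hps : 1 < p ^ s := Nat.one_lt_pow hs0.ne' hp1
  have hqQ : Q0 ≤ (p ^ s) ^ Q0 := (Nat.lt_pow_self hps).le
  have hq : (p ^ s) ^ Q0 ≠ 0 := pow_ne_zero _ (by omega)
  obtain ⟨β, hβ, hβb, γ, hγ⟩ := DIC_ball p b _ hb (s * Q0)
  have hβ1 : β = b + (p : ℤ_[p]) ^ (s * Q0) * γ := by
    rw [← hγ]
    ring
  have hγ0 : γ ≠ 0 := by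
    rintro rfl
    exact hβb (by simpa using hβ1)
  have hexp : ∀ i, (X : k⟦X⟧) ^ 0 * pt p a ((p : ℤ_[p]) ^ (s * Q0) * γ) i =
      expand ((p ^ s) ^ Q0) hq (pt p a γ i) := by
    intro i
    rw [← hFr.2 Q0 hq, pow_zero, one_mul, ← pow_mul]
    simp only [pt]
    rw [(hPWP k p (a i) (ha i)).1, sub_pow_char_pow, one_pow]
  have hz1 : ∀ F ∈ S, ∀ G ∈ dI 0 (H F), e (pt p a γ) G = 0 := by
    intro F hF
    refine hq0 F ((p ^ s) ^ Q0) hq ((Finset.le_sup hF).trans hqQ) (pt p a γ) _ (hsm γ) (hsm _)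
      hexp ?_
    rw [hHe', ← hβ1]
    have : F ∈ ker (hsm β) := by
      rw [hβ.2]
      exact hSP F hF
    exact (mem_ker _ _).1 this
  have hFd : ∀ F, F ∈ dI 0 (H F) := by
    intro F
    have : dig 0 (H F) 0 ∈ dI 0 (H F) := Ideal.subset_span ⟨0, rfl⟩
    rwa [hH0] at this
  have hγP : P = ker (hsm γ) := by
    refine hP γ hγ0 P hPp hP0 ?_
    rw [← hBs]
    exact hSle γ fun F hF => hz1 F hF F (hFd F)
  have hdP : ∀ F ∈ S, dI 0 (H F) ≤ P := by
    intro F hF G hG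
    rw [hγP]
    exact (mem_ker _ _).2 (hz1 F hF G hG)
  have hstep : ∀ β', β' ∈ Bs p a P → b + β' ∈ Bs p a P := by
    intro β' hβ'
    apply hSle
    intro F hF
    rw [← hHe']
    refine (hDIG k 2 0 (H F)).1 1 one_ne_zero one_pos (pt p a β') _ (hsm β') (hsm β') ?_ ?_
    · intro i
      rw [pow_zero, one_mul, expand_one]
      rfl
    · intro G hG
      exact hβ' G (hdP F hF hG)
  have h0 : (0 : ℤ_[p]) ∈ Bs p a P := by
    intro F hF
    apply DIC_e0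
    · funext i
      simp only [pt]
      have := (hPWB k p (a i) (ha i)).1 0
      rw [Nat.cast_zero, pow_zero] at this
      rw [this]
      simp
    · by_contra hc
      apply hPp.ne_top
      refine Ideal.eq_top_of_isUnit_mem P hF ?_
      rw [MvPowerSeries.isUnit_iff_constantCoeff]
      exact isUnit_iff_ne_zero.2 hc
  have hnat : ∀ r : ℕ, (r : ℤ_[p]) * b ∈ Bs p a P := by
    intro r
    induction r with
    | zero => simpa using h0
    | succ r ih =>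
      have := hstep _ ih
      rwa [Nat.cast_succ, add_mul, one_mul, add_comm]
  have hall : ∀ γ' : ℤ_[p], γ' * b ∈ Bs p a P := by
    intro γ'
    have hcl : IsClosed {γ' : ℤ_[p] | γ' * b ∈ Bs p a P} :=
      (hCLB k p 2 a ha P).preimage (continuous_mul_const b)
    have h1 : Set.range (Nat.cast : ℕ → ℤ_[p]) ⊆ {γ' : ℤ_[p] | γ' * b ∈ Bs p a P} := by
      rintro _ ⟨r, rfl⟩
      exact hnat r
    have h2 : γ' ∈ closure (Set.range (Nat.cast : ℕ → ℤ_[p])) := PadicInt.denseRange_natCast γ'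
    have h3 := closure_minimal h1 hcl h2
    exact h3
  intro β'
  have hdiv : b ∣ ((p : ℤ_[p]) ^ s) ^ b.valuation := by
    have h1 := PadicInt.unitCoeff_spec hb0
    rw [← pow_mul]
    have h2 : (p : ℤ_[p]) ^ b.valuation ∣ (p : ℤ_[p]) ^ (s * b.valuation) :=
      pow_dvd_pow _ (Nat.le_mul_of_pos_left _ hs0)
    refine Dvd.dvd.trans ?_ h2
    refine ⟨((PadicInt.unitCoeff hb0)⁻¹ : ℤ_[p]ˣ), ?_⟩
    have h3 : (PadicInt.unitCoeff hb0 : ℤ_[p]) * ((PadicInt.unitCoeff hb0)⁻¹ : ℤ_[p]ˣ) = 1 :=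
      Units.mul_inv _
    calc (p : ℤ_[p]) ^ b.valuation = (p : ℤ_[p]) ^ b.valuation *
        ((PadicInt.unitCoeff hb0 : ℤ_[p]) * ((PadicInt.unitCoeff hb0)⁻¹ : ℤ_[p]ˣ)) := by
          rw [h3, mul_one]
      _ = ((PadicInt.unitCoeff hb0 : ℤ_[p]) * (p : ℤ_[p]) ^ b.valuation) *
        ((PadicInt.unitCoeff hb0)⁻¹ : ℤ_[p]ˣ) := by ring
      _ = b * ((PadicInt.unitCoeff hb0)⁻¹ : ℤ_[p]ˣ) := by rw [← h1]
  obtain ⟨c, hc⟩ := hdiv
  rw [← hFRB k p s hFr 2 a ha P b.valuation β', hc]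
  have : b * c * β' = (c * β') * b := by ring
  rw [this]
  exact hall _

end ETD
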