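import Pool.Agent.ETD.StA

/-!
# ETD, [DIG]: the digit lemma
-/

set_option autoImplicit false
set_option linter.unusedVariables false

namespace ETD

open PowerSeries

private theorem DIG_mem {k : Type} [Field k] {n : ℕ} (M : ℕ) (H : MvPowerSeries (Fin (n + 1)) k)
    (r : ℤ) : dig M H r ∈ dI M H := Ideal.subset_span ⟨r, rfl⟩

/-- [DIG] the digit lemma -/
theorem thm_DIG (h0 : St_ORD) (h1 : St_DGA) (h2 : St_DGB) : St_DIG := by
  intro k _ n M H
  obtain ⟨hb, hc⟩ := h2 k n M H
  refine ⟨?_, ?_⟩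
  · intro q hq hMq z ζ hz hζ hrel hF
    obtain ⟨hb1, -⟩ := hb q hq hMq z ζ hz hζ hrel
    ext N
    rw [hb1 N, map_zero]
    apply finsum_eq_zero_of_forall_eq_zero
    intro s
    rw [hF _ (DIG_mem M H _), map_zero]
  · obtain ⟨q₀, hq₀⟩ := h1 k n M (dig M H) hc
    refine ⟨max q₀ (M + 1), ?_⟩
    intro q hq hqq z ζ hz hζ hrel he
    have hMq : M < q := lt_of_lt_of_le (Nat.lt_succ_self M) ((le_max_right _ _).trans hqq)
    obtain ⟨hb1, hb2⟩ := hb q hq hMq z ζ hz hζ hrel
    have hall : ∀ r : ℤ, e z (dig M H r) = 0 := by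
      apply hq₀ q ((le_max_left _ _).trans hqq) z hz
      intro N
      rcases lt_or_ge N 0 with hN | hN
      · exact hb2 N hN
      · obtain ⟨N', rfl⟩ := Int.eq_ofNat_of_zero_le hN
        rw [← hb1 N', he, map_zero]
    have hle : dI M H ≤ ker hz := by
      unfold dI
      rw [Ideal.span_le]
      rintro F ⟨r, rfl⟩
      exact (mem_ker hz _).2 (hall r)
    intro F hF
    exact (mem_ker hz F).1 (hle hF)

end ETD
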