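import Pool.Agent.ETD.StC

/-!
# ETD: iterates of `x ↦ a x + G(x ^ p)`, and the passage to a residue disc
-/

set_option autoImplicit false
set_option linter.unusedVariables false

namespace ETD

open PowerSeries

/-- [DSC] Iterates, and the passage to a residue disc. -/
theorem thm_DSC : St_DSC := by
  constructor
  · intro R _ p _ _ a G N
    induction N with
    | zero =>
      refine ⟨0, ?_⟩
      funext x
      simp [fm]
    | succ N ih =>
      obtain ⟨G', hG'⟩ := ih
      refine ⟨Polynomial.C a * G' +
        G.comp (Polynomial.C ((a ^ N) ^ p) * Polynomial.X + G' ^ p), ?_⟩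
      funext x
      rw [Function.iterate_succ_apply', hG']
      simp only [fm, Polynomial.eval_add, Polynomial.eval_mul, Polynomial.eval_C,
        Polynomial.eval_comp, Polynomial.eval_X, Polynomial.eval_pow]
      rw [add_pow_char, mul_pow]
      ring
  · intro k _ p _ _ a x G ha hx
    have hchar : CharP k⟦X⟧ p :=
      charP_of_injective_ringHom (f := PowerSeries.C) PowerSeries.C_injective p
    have hp2 : 2 ≤ p := (Fact.out : p.Prime).two_le
    obtain ⟨u, hu⟩ := hx
    set A : Polynomial k⟦X⟧ := Polynomial.C (x ^ p) + Polynomial.C (X ^ p) * Polynomial.X with hA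
    have h1 : A - Polynomial.C (x ^ p) ∣ G.comp A - G.comp (Polynomial.C (x ^ p)) := by
      have := Polynomial.sub_dvd_eval_sub A (Polynomial.C (x ^ p)) (G.map Polynomial.C)
      rwa [Polynomial.eval_map, Polynomial.eval_map] at this
    obtain ⟨Q, hQ⟩ := h1
    have h2 : A - Polynomial.C (x ^ p) = Polynomial.C (X ^ p) * Polynomial.X := by
      rw [hA]; ring
    rw [h2, Polynomial.comp_C] at hQ
    have hXp : (X : k⟦X⟧) ^ p = X * (X * X ^ (p - 2)) := by
      rw [← pow_succ', ← pow_succ']
      congr 1
      omega
    refine ⟨X * u, Polynomial.C X * (Polynomial.C (X ^ (p - 2)) * Polynomial.X * Q),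
      ⟨dvd_mul_right _ _, ha, dvd_mul_right _ _⟩, fun W => ?_⟩
    have h3 : G.eval ((x + X * W) ^ p) = G.eval (x ^ p) +
        X * (X * (X ^ (p - 2) * W ^ p * Q.eval (W ^ p))) := by
      have h4 := congrArg (Polynomial.eval (W ^ p)) hQ
      simp only [Polynomial.eval_sub, Polynomial.eval_comp, Polynomial.eval_mul,
        Polynomial.eval_C, Polynomial.eval_X] at h4
      have h5 : A.eval (W ^ p) = (x + X * W) ^ p := by
        rw [hA, add_pow_char, mul_pow]
        simp
      rw [h5] at h4
      rw [sub_eq_iff_eq_add.1 h4, hXp]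
      ring
    have h6 : a * x + G.eval (x ^ p) = x + X ^ 2 * u := by
      have : a * x + G.eval (x ^ p) - x = X ^ 2 * u := hu
      rw [← this]
      ring
    simp only [fm, ph, Polynomial.eval_mul, Polynomial.eval_C, Polynomial.eval_X]
    rw [h3]
    calc a * (x + X * W) + (G.eval (x ^ p) + X * (X * (X ^ (p - 2) * W ^ p * Q.eval (W ^ p))))
        = (a * x + G.eval (x ^ p)) + X * (a * W) +
            X * (X * (X ^ (p - 2) * W ^ p * Q.eval (W ^ p))) := by ring
      _ = x + X * (X * u + a * W + X * (X ^ (p - 2) * W ^ p * Q.eval (W ^ p))) := by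
          rw [h6]; ring

end ETD
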