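import Pool.Agent.ETD.StC

/-!
# ETD, module EMA: presentation of finitely generated fields of characteristic `p` (helper75)
-/

set_option autoImplicit false
set_option linter.unusedVariables false

namespace ETD

open Polynomial IntermediateField

private theorem EMA_norm {R M : Type} [CommRing R] [CommRing M] [Algebra R M]
    [IsLocalization (nonZeroDivisors R) M] (q : M[X]) : ∃ b : nonZeroDivisors R,
      (IsLocalization.integerNormalization (nonZeroDivisors R) q).map (algebraMap R M) =
        (b : R) • q := by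
  obtain ⟨b, hb, h⟩ := IsLocalization.integerNormalization_spec (nonZeroDivisors R) q
  exact ⟨⟨b, hb⟩, h⟩

private theorem EMA_core (R M L : Type) [CommRing R] [IsDomain R] [IsIntegrallyClosed R]
    [Field M] [Field L] [Algebra R M] [IsFractionRing R M] [Algebra M L] [Algebra R L]
    [IsScalarTower R M L] [FiniteDimensional M L] [Algebra.IsSeparable M L] (s : Finset L) :
    ∃ (θ : L) (P U V : R[X]) (δ g : R), P.Monic ∧ aeval θ P = 0 ∧ δ ≠ 0 ∧ g ≠ 0 ∧
      U * P + V * derivative P = C δ ∧ (∀ Q : R[X], aeval θ Q = 0 → P ∣ Q) ∧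
      ∀ x ∈ s, ∃ Q : R[X], algebraMap R L g * x = aeval θ Q := by
  classical
  have hRM : Function.Injective (algebraMap R M) := IsFractionRing.injective R M
  have hRL : Function.Injective (algebraMap R L) := by
    rw [IsScalarTower.algebraMap_eq R M L]
    exact (algebraMap M L).injective.comp hRM
  have hF : FaithfulSMul R L := (faithfulSMul_iff_algebraMap_injective R L).2 hRL
  obtain ⟨θ₀, hθ₀⟩ := Field.exists_primitive_element M L
  have halg : IsAlgebraic R θ₀ :=
    (IsFractionRing.isAlgebraic_iff R M L).2 (Algebra.IsAlgebraic.isAlgebraic θ₀)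
  obtain ⟨y, hy, hint⟩ := halg.exists_integral_multiple
  obtain ⟨θ, hθdef⟩ : ∃ θ, θ = y • θ₀ := ⟨_, rfl⟩
  rw [← hθdef] at hint
  have hym : algebraMap R M y ≠ 0 := fun h => hy (hRM (by rw [h, map_zero]))
  have hθ : M⟮θ⟯ = ⊤ := by
    rw [eq_top_iff, ← hθ₀, adjoin_simple_le_iff]
    have h1 : θ ∈ M⟮θ⟯ := mem_adjoin_simple_self M θ
    have h2 : θ₀ = (algebraMap R M y)⁻¹ • θ := by
      rw [hθdef, ← algebraMap_smul M y θ₀, smul_smul, inv_mul_cancel₀ hym, one_smul]
    rw [h2]
    exact (M⟮θ⟯).smul_mem h1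
  have hP : minpoly M θ = (minpoly R θ).map (algebraMap R M) :=
    minpoly.isIntegrallyClosed_eq_field_fractions' M hint
  have hsep : (minpoly M θ).Separable := Algebra.IsSeparable.isSeparable M θ
  rw [hP] at hsep
  obtain ⟨U', V', hUV⟩ := hsep
  obtain ⟨b₁, hb₁⟩ := EMA_norm (R := R) U'
  obtain ⟨b₂, hb₂⟩ := EMA_norm (R := R) V'
  have hsm : ∀ (b : R) (q : M[X]), b • q = C (algebraMap R M b) * q := by
    intro b q
    rw [Algebra.smul_def, Polynomial.algebraMap_apply]
  have h3 : ∀ x : L, ∃ q : M[X], aeval θ q = x := by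
    intro x
    have h4 : x ∈ M⟮θ⟯.toSubalgebra := by
      rw [hθ]
      exact mem_top
    rw [adjoin_simple_toSubalgebra_of_isAlgebraic (Algebra.IsAlgebraic.isAlgebraic θ),
      Algebra.adjoin_singleton_eq_range_aeval] at h4
    exact h4
  choose q hq using h3
  choose c hc using fun x => EMA_norm (R := R) (q x)
  have hcx : ∀ x, aeval θ (IsLocalization.integerNormalization (nonZeroDivisors R) (q x)) =
      algebraMap R L (c x) * x := by
    intro x
    rw [← aeval_map_algebraMap M θ, hc x, hsm, map_mul, aeval_C, hq x,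
      ← IsScalarTower.algebraMap_apply R M L]
  refine ⟨θ, minpoly R θ, C (b₂ : R) * IsLocalization.integerNormalization (nonZeroDivisors R) U',
    C (b₁ : R) * IsLocalization.integerNormalization (nonZeroDivisors R) V', b₁ * b₂,
    ∏ x ∈ s, (c x : R), minpoly.monic hint, minpoly.aeval R θ, ?_, ?_, ?_, ?_, ?_⟩
  · exact mul_ne_zero (nonZeroDivisors.coe_ne_zero b₁) (nonZeroDivisors.coe_ne_zero b₂)
  · exact Finset.prod_ne_zero_iff.2 fun x _ => nonZeroDivisors.coe_ne_zero (c x)
  · apply Polynomial.map_injective _ hRM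
    rw [Polynomial.map_add, Polynomial.map_mul, Polynomial.map_mul, Polynomial.map_mul,
      Polynomial.map_mul, hb₁, hb₂, hsm, hsm, map_C, map_C, map_C, ← Polynomial.derivative_map,
      map_mul, C_mul]
    linear_combination (C (algebraMap R M (b₁ : R)) * C (algebraMap R M (b₂ : R))) * hUV
  · intro Q hQ
    exact minpoly.isIntegrallyClosed_dvd hint hQ
  · intro x hx
    refine ⟨C (∏ z ∈ s.erase x, (c z : R)) *
      IsLocalization.integerNormalization (nonZeroDivisors R) (q x), ?_⟩
    rw [map_mul, aeval_C, hcx, ← Finset.mul_prod_erase s _ hx, map_mul]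
    ring

theorem thm_EMA : St_EMA := by
  classical
  intro K _ p _ _ s
  let _ : Algebra (ZMod p) K := ZMod.algebra K p
  obtain ⟨L, hL⟩ : ∃ L : IntermediateField (ZMod p) K, L = adjoin (ZMod p) (s : Set K) := ⟨_, rfl⟩
  have hmem : ∀ x ∈ s, x ∈ L := by
    intro x hx
    rw [hL]
    exact subset_adjoin _ _ hx
  let s' : Finset L := s.attach.image fun x => (⟨x.1, hmem x.1 x.2⟩ : L)
  have hfg : Algebra.EssFiniteType (ZMod p) L := by
    rw [IntermediateField.essFiniteType_iff, hL]
    exact ⟨s, rfl⟩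
  obtain ⟨B, hB, hsep⟩ :=
    exists_isTranscendenceBasis_and_isSeparable_of_perfectField (ZMod p) L
  let e : Fin B.card ≃ B := B.equivFin.symm
  let b : Fin B.card → L := fun i => ((e i : B) : L)
  have hb : IsTranscendenceBasis (ZMod p) b := hB.comp_equiv e
  have hr : Set.range b = (B : Set L) := by
    ext x
    constructor
    · rintro ⟨i, rfl⟩
      exact (e i).2
    · intro hx
      exact ⟨e.symm ⟨x, hx⟩, by simp [b]⟩
  rw [← hr] at hsep
  have hai : AlgebraicIndependent (ZMod p) b := hb.1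
  let e₀ : MvPolynomial (Fin B.card) (ZMod p) ≃+* Algebra.adjoin (ZMod p) (Set.range b) :=
    hai.aevalEquiv.toRingEquiv
  have hIC : IsIntegrallyClosed (Algebra.adjoin (ZMod p) (Set.range b)) :=
    IsIntegrallyClosed.of_equiv e₀
  have hE : Algebra.EssFiniteType (adjoin (ZMod p) (Set.range b)) L :=
    Algebra.EssFiniteType.of_comp (ZMod p) _ L
  have hA : Algebra.IsAlgebraic (adjoin (ZMod p) (Set.range b)) L := hb.isAlgebraic_field
  have hFD : FiniteDimensional (adjoin (ZMod p) (Set.range b)) L :=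
    Algebra.finite_of_essFiniteType_of_isAlgebraic
  open scoped IntermediateField.algebraAdjoinAdjoin in
  obtain ⟨θ, P, U, V, δ, g, h1, h2, h3, h4, h5, h6, h7⟩ :=
    EMA_core (Algebra.adjoin (ZMod p) (Set.range b)) (adjoin (ZMod p) (Set.range b)) L
      s'
  let ψ : Algebra.adjoin (ZMod p) (Set.range b) →+* MvPolynomial (Fin B.card) (ZMod p) :=
    e₀.symm.toRingHom
  let j : MvPolynomial (Fin B.card) (ZMod p) →+* K :=
    (algebraMap L K).comp ((algebraMap (Algebra.adjoin (ZMod p) (Set.range b)) L).comp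
      e₀.toRingHom)
  have hjψ : j.comp ψ = (algebraMap L K).comp
      (algebraMap (Algebra.adjoin (ZMod p) (Set.range b)) L) := by
    ext x
    show algebraMap L K (algebraMap _ L (e₀ (e₀.symm x))) = _
    rw [RingEquiv.apply_symm_apply]
    rfl
  have hψ : Function.Injective ψ := e₀.symm.injective
  have hev : ∀ Q : (Algebra.adjoin (ZMod p) (Set.range b))[X],
      ((Q.map ψ).map j).eval (algebraMap L K θ) = algebraMap L K (aeval θ Q) := by
    intro Q
    rw [Polynomial.map_map, hjψ, ← Polynomial.map_map, Polynomial.eval_map_apply,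
      Polynomial.eval_map_algebraMap]
  have hQe : ∀ Q : (MvPolynomial (Fin B.card) (ZMod p))[X], (Q.map e₀.toRingHom).map ψ = Q := by
    intro Q
    rw [Polynomial.map_map]
    have : ψ.comp e₀.toRingHom = RingHom.id _ :=
      RingHom.ext fun x => e₀.symm_apply_apply x
    rw [this, Polynomial.map_id]
  refine ⟨B.card, j, algebraMap L K θ, P.map ψ, U.map ψ, V.map ψ, ψ δ, ψ g, ?_, h1.map ψ, ?_, ?_,
    ?_, ?_, ?_, ?_⟩
  · exact (algebraMap L K).injective.comp (Subtype.val_injective.comp e₀.injective)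
  · rw [hev, h2, map_zero]
  · exact fun h => h3 (hψ (by rw [h, map_zero]))
  · exact fun h => h4 (hψ (by rw [h, map_zero]))
  · rw [Polynomial.derivative_map, ← Polynomial.map_mul, ← Polynomial.map_mul,
      ← Polynomial.map_add, h5, Polynomial.map_C]
  · intro Q hQ
    rw [← hQe Q] at hQ ⊢
    rw [hev, map_eq_zero] at hQ
    exact Polynomial.map_dvd ψ (h6 _ hQ)
  · intro x hx
    obtain ⟨Q, hQ⟩ := h7 ⟨x, hmem x hx⟩
      (Finset.mem_image.2 ⟨⟨x, hx⟩, Finset.mem_attach _ _, rfl⟩)
    refine ⟨Q.map ψ, ?_⟩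
    rw [hev, ← hQ, map_mul]
    congr 1
    exact RingHom.congr_fun hjψ g

end ETD
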