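import Pool.Agent.ETD.StC

/-!
# ETD, module EMB: embedding of finitely generated rings of characteristic `p` in `k⟦t⟧`
-/

set_option autoImplicit false
set_option linter.unusedVariables false

namespace ETD

open PowerSeries

/-- an injective ring homomorphism from a domain extends to the localisation at an element with a
unit as image -/
private theorem EMB_loc {R₁ B : Type} [CommRing R₁] [IsDomain R₁] [CommRing B]
    (x : R₁) (hx : x ≠ 0) (f : R₁ →+* B) (hf : Function.Injective f) (hu : IsUnit (f x)) :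
    Function.Injective (IsLocalization.Away.lift (S := Localization.Away x) x hu) := by
  have hle : Submonoid.powers x ≤ nonZeroDivisors R₁ :=
    powers_le_nonZeroDivisors_of_noZeroDivisors hx
  have hinj : Function.Injective (algebraMap R₁ (Localization.Away x)) :=
    IsLocalization.injective (Localization.Away x) hle
  refine (IsLocalization.lift_injective_iff _).2 fun a b => ?_
  rw [hinj.eq_iff, hf.eq_iff]

/-- the homomorphisms of `R₁ = R₀[θ]` give the subring and the embedding -/
private theorem EMB_sub {K B R₁ : Type} [Field K] [CommRing B] [CommRing R₁] [IsDomain R₁]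
    (φ : R₁ →+* K) (hφ : Function.Injective φ) (χ : R₁ →+* B) (hχ : Function.Injective χ)
    (x : R₁) (hx : x ≠ 0) (hu : IsUnit (χ x)) (s : Finset K)
    (hs : ∀ y ∈ s, ∃ r : R₁, φ x * y = φ r) :
    ∃ (A : Subring K) (ι : A →+* B), Function.Injective ι ∧ ∀ y ∈ s, y ∈ A := by
  have hu' : IsUnit (φ x) := isUnit_iff_ne_zero.2 ((map_ne_zero_iff φ hφ).2 hx)
  obtain ⟨F, hF⟩ : ∃ F : Localization.Away x →+* K,
    F = IsLocalization.Away.lift (S := Localization.Away x) x hu' := ⟨_, rfl⟩
  obtain ⟨H, hH⟩ : ∃ H : Localization.Away x →+* B,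
    H = IsLocalization.Away.lift (S := Localization.Away x) x hu := ⟨_, rfl⟩
  have hFi : Function.Injective F := by rw [hF]; exact EMB_loc x hx φ hφ hu'
  have hHi : Function.Injective H := by rw [hH]; exact EMB_loc x hx χ hχ hu
  have hFe : ∀ r : R₁, F (algebraMap R₁ (Localization.Away x) r) = φ r := fun r => by
    rw [hF]; exact IsLocalization.Away.lift_eq x hu' r
  obtain ⟨E, hE⟩ : ∃ E : Localization.Away x ≃+* F.range, ∀ z, (E z : K) = F z :=
    ⟨RingEquiv.ofBijective F.rangeRestrict ⟨fun a b h => hFi (congrArg Subtype.val h),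
      F.rangeRestrict_surjective⟩, fun z => rfl⟩
  refine ⟨F.range, H.comp E.symm.toRingHom, hHi.comp E.symm.injective, fun y hy => ?_⟩
  obtain ⟨r, hr⟩ := hs y hy
  refine ⟨algebraMap R₁ (Localization.Away x) r * IsLocalization.Away.invSelf x, ?_⟩
  have h1 := congrArg F (IsLocalization.Away.mul_invSelf (S := Localization.Away x) x)
  rw [map_mul, map_one, hFe] at h1
  rw [map_mul, hFe, ← hr, mul_right_comm, h1, one_mul]

/-- a translation of the variables is injective -/
private theorem EMB_trans {k : Type} [Field k] {d : ℕ} (τ : Fin d → k) :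
    Function.Injective (MvPolynomial.bind₁ fun i : Fin d =>
      (MvPolynomial.X i + MvPolynomial.C (τ i) : MvPolynomial (Fin d) k)) := by
  have h1 : (MvPolynomial.bind₁ fun i : Fin d =>
      (MvPolynomial.X i - MvPolynomial.C (τ i) : MvPolynomial (Fin d) k)).comp
      (MvPolynomial.bind₁ fun i : Fin d =>
        (MvPolynomial.X i + MvPolynomial.C (τ i) : MvPolynomial (Fin d) k)) = AlgHom.id k _ := by
    refine MvPolynomial.algHom_ext fun i => ?_
    rw [AlgHom.comp_apply, MvPolynomial.bind₁_X_right, map_add, MvPolynomial.bind₁_X_right,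
      MvPolynomial.bind₁_C_right, AlgHom.id_apply, sub_add_cancel]
  intro f f' h
  have h2 := congrArg (MvPolynomial.bind₁ fun i : Fin d =>
      (MvPolynomial.X i - MvPolynomial.C (τ i) : MvPolynomial (Fin d) k)) h
  have h3 := DFunLike.congr_fun h1 f
  have h4 := DFunLike.congr_fun h1 f'
  rw [AlgHom.comp_apply, AlgHom.id_apply] at h3 h4
  rw [h3, h4] at h2
  exact h2

/-- the homomorphism of the polynomial ring -/
private theorem EMB_psi {k : Type} [Field k] (p : ℕ) [Fact p.Prime] [Algebra (ZMod p) k] {d : ℕ}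
    (τ : Fin d → k) (ξ : Fin d → k⟦X⟧) (hξ : ∀ i, X ∣ ξ i) (hind : AlgebraicIndependent k ξ) :
    ∃ ψ : MvPolynomial (Fin d) (ZMod p) →+* k⟦X⟧, Function.Injective ψ ∧
      ∀ f, constantCoeff (ψ f) = MvPolynomial.aeval τ f := by
  have h1 : Function.Injective (MvPolynomial.aeval ξ : MvPolynomial (Fin d) k →ₐ[k] k⟦X⟧) := hind
  have h2 : ∀ q : MvPolynomial (Fin d) k, constantCoeff (MvPolynomial.aeval ξ q) =
      MvPolynomial.eval (0 : Fin d → k) q := by
    intro q
    induction q using MvPolynomial.induction_on with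
    | C a =>
      rw [MvPolynomial.aeval_C, PowerSeries.algebraMap_apply, MvPolynomial.eval_C,
        constantCoeff_C, Algebra.algebraMap_self, RingHom.id_apply]
    | add q q' h h' => rw [map_add, map_add, map_add, h, h']
    | mul_X q i h =>
      rw [map_mul, map_mul, map_mul, h, MvPolynomial.aeval_X, MvPolynomial.eval_X,
        X_dvd_iff.1 (hξ i)]
      rfl
  have h3 : ∀ f : MvPolynomial (Fin d) (ZMod p), MvPolynomial.eval (0 : Fin d → k)
      (MvPolynomial.bind₁ (fun i : Fin d =>
        (MvPolynomial.X i + MvPolynomial.C (τ i) : MvPolynomial (Fin d) k))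
        (MvPolynomial.map (algebraMap (ZMod p) k) f)) = MvPolynomial.aeval τ f := by
    intro f
    induction f using MvPolynomial.induction_on with
    | C a =>
      rw [MvPolynomial.map_C, MvPolynomial.bind₁_C_right, MvPolynomial.eval_C,
        MvPolynomial.aeval_C]
    | add q q' h h' => rw [map_add, map_add, map_add, h, h', map_add]
    | mul_X q i h =>
      rw [map_mul, map_mul, map_mul, h, map_mul, MvPolynomial.aeval_X, MvPolynomial.map_X,
        MvPolynomial.bind₁_X_right, map_add, MvPolynomial.eval_X, MvPolynomial.eval_C,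
        Pi.zero_apply, zero_add]
  refine ⟨((MvPolynomial.aeval ξ : MvPolynomial (Fin d) k →ₐ[k] k⟦X⟧) :
      MvPolynomial (Fin d) k →+* k⟦X⟧).comp
      (((MvPolynomial.bind₁ fun i : Fin d =>
        (MvPolynomial.X i + MvPolynomial.C (τ i) : MvPolynomial (Fin d) k)) :
        MvPolynomial (Fin d) k →+* MvPolynomial (Fin d) k).comp
      (MvPolynomial.map (algebraMap (ZMod p) k))), ?_, fun f => ?_⟩
  · intro f f' h
    exact MvPolynomial.map_injective _ (algebraMap (ZMod p) k).injective
      (EMB_trans τ (h1 h))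
  · exact (h2 _).trans (h3 f)

theorem thm_EMB (hEMI : St_EMI) (hHEN : St_HEN) (hEMA : St_EMA) (hEMP : St_EMP) : St_EMB := by
  intro K _ p _ _ s
  obtain ⟨d, j, θ, P, U, V, δ, g, hj, hP, hθ, hδ, hg, hUV, hmin, hs⟩ := hEMA K p s
  have hdeg : P.natDegree ≠ 0 := by
    intro h
    have h1 : P = 1 := Polynomial.eq_one_of_monic_natDegree_zero hP h
    rw [h1, Polynomial.map_one, Polynomial.eval_one] at hθ
    exact one_ne_zero hθ
  obtain ⟨k, _, _, _, _, τ, c, hτ, hc⟩ := hEMP p d P (g * δ) hP hdeg (mul_ne_zero hg hδ)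
  rw [map_mul] at hτ
  obtain ⟨ξ, hξ, hind⟩ := hEMI k d
  obtain ⟨ψ, hψ, hψc⟩ := EMB_psi p τ ξ hξ hind
  have hψe : (constantCoeff (R := k)).comp ψ =
      (MvPolynomial.aeval τ : MvPolynomial (Fin d) (ZMod p) →ₐ[ZMod p] k).toRingHom :=
    RingHom.ext hψc
  -- evaluation modulo `X`
  have hev : ∀ Q : Polynomial (MvPolynomial (Fin d) (ZMod p)),
      constantCoeff ((Q.map ψ).eval (C c)) =
        (Q.map (MvPolynomial.aeval τ : MvPolynomial (Fin d) (ZMod p) →ₐ[ZMod p] k).toRingHom).eval
          c := by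
    intro Q
    rw [← hψe, ← Polynomial.map_map, Polynomial.eval_map (constantCoeff (R := k))]
    have h1 := Polynomial.hom_eval₂ (Q.map ψ) (RingHom.id _) (constantCoeff (R := k)) (C c)
    rw [RingHom.comp_id, constantCoeff_C] at h1
    rw [← h1]
    rfl
  obtain ⟨y, hy, -⟩ := hHEN k (P.map ψ) c (by
      rw [X_dvd_iff, hev]
      exact hc) (by
      rw [X_dvd_iff, Polynomial.derivative_map, hev]
      intro h0
      have h1 := congrArg (fun Q => (Q.map (MvPolynomial.aeval τ :
        MvPolynomial (Fin d) (ZMod p) →ₐ[ZMod p] k).toRingHom).eval c) hUV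
      simp only [Polynomial.map_add, Polynomial.map_mul, Polynomial.eval_add, Polynomial.eval_mul,
        Polynomial.map_C, Polynomial.eval_C] at h1
      rw [h0, hc, mul_zero, mul_zero, add_zero] at h1
      exact hτ (by
        have h2 : MvPolynomial.aeval τ δ = (0 : k) := h1.symm
        rw [h2, mul_zero]))
  -- the ring `R₀[θ]`
  have e1 : P.eval₂ j θ = 0 := by rw [← Polynomial.eval_map]; exact hθ
  have e2 : P.eval₂ ψ y = 0 := by rw [← Polynomial.eval_map]; exact hy
  obtain ⟨φ, hφd⟩ : ∃ φ : AdjoinRoot P →+* K, φ = AdjoinRoot.lift j θ e1 := ⟨_, rfl⟩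
  have hφm : ∀ Q, φ (AdjoinRoot.mk P Q) = Q.eval₂ j θ := fun Q => by
    rw [hφd]; exact AdjoinRoot.lift_mk e1 Q
  have hφ : Function.Injective φ := by
    rw [injective_iff_map_eq_zero]
    intro r hr
    obtain ⟨Q, rfl⟩ := AdjoinRoot.mk_surjective r
    rw [hφm, ← Polynomial.eval_map] at hr
    exact AdjoinRoot.mk_eq_zero.2 (hmin Q hr)
  have hdom : IsDomain (AdjoinRoot P) := hφ.isDomain φ
  have hfin : Module.Finite (MvPolynomial (Fin d) (ZMod p)) (AdjoinRoot P) :=
    hP.finite_adjoinRoot
  obtain ⟨χ, hχd⟩ : ∃ χ : AdjoinRoot P →+* k⟦X⟧, χ = AdjoinRoot.lift ψ y e2 := ⟨_, rfl⟩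
  have hχ : Function.Injective χ := by
    rw [RingHom.injective_iff_ker_eq_bot]
    refine Ideal.eq_bot_of_comap_eq_bot (R := MvPolynomial (Fin d) (ZMod p)) ?_
    rw [eq_bot_iff]
    intro f hf
    have h1 : χ (AdjoinRoot.of P f) = 0 := hf
    rw [hχd, AdjoinRoot.lift_of e2] at h1
    exact (map_eq_zero_iff ψ hψ).1 h1
  have hgu : IsUnit (χ (AdjoinRoot.of P g)) := by
    rw [hχd, AdjoinRoot.lift_of e2, PowerSeries.isUnit_iff_constantCoeff, hψc]
    exact isUnit_iff_ne_zero.2 (left_ne_zero_of_mul hτ)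
  have hgne : AdjoinRoot.of P g ≠ 0 := by
    intro h0
    rw [h0, map_zero] at hgu
    exact not_isUnit_zero hgu
  have hφg : φ (AdjoinRoot.of P g) = j g := by
    rw [hφd]; exact AdjoinRoot.lift_of e1
  obtain ⟨A, ι, hι, hA⟩ := EMB_sub φ hφ χ hχ (AdjoinRoot.of P g) hgne hgu s fun x hx => by
    obtain ⟨Q, hQ⟩ := hs x hx
    refine ⟨AdjoinRoot.mk P Q, ?_⟩
    rw [hφg, hφm, ← Polynomial.eval_map]
    exact hQ
  exact ⟨k, inferInstance, inferInstance, inferInstance, A, ι, hι, hA⟩

end ETD
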