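import Pool.Agent.ETD.StC

/-!
# ETD, module EMI: algebraically independent power series
-/

set_option autoImplicit false
set_option linter.unusedVariables false

namespace ETD

open PowerSeries Cardinal

private lemma EMI_uncountable (k : Type) [Field k] : ℵ₀ < #(k⟦X⟧) := by
  classical
  have h1 : #(Set ℕ) ≤ #(k⟦X⟧) := by
    refine Cardinal.mk_le_of_injective (f := fun S : Set ℕ =>
      (PowerSeries.mk fun n => if n ∈ S then (1 : k) else 0)) ?_
    intro S T h
    ext n
    have h2 := congrArg (fun F : k⟦X⟧ => PowerSeries.coeff n F) h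
    simp only [PowerSeries.coeff_mk] at h2
    by_cases hS : n ∈ S <;> by_cases hT : n ∈ T <;> simp_all
  refine lt_of_lt_of_le ?_ h1
  rw [Cardinal.mk_set, Cardinal.mk_nat]
  exact Cardinal.cantor _

private lemma EMI_infinite (k : Type) [Field k] [Finite k] (s : Set k⟦X⟧)
    (hs : IsTranscendenceBasis k ((↑) : s → k⟦X⟧)) : Infinite s := by
  by_contra hfin
  rw [not_infinite_iff_finite] at hfin
  have := hs.isAlgebraic
  have h1 := Algebra.IsAlgebraic.cardinalMk_le_max
    (Algebra.adjoin k (Set.range ((↑) : s → k⟦X⟧))) k⟦X⟧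
  have h2 : #(Algebra.adjoin k (Set.range ((↑) : s → k⟦X⟧))) ≤ ℵ₀ := by
    rw [← Cardinal.mk_congr hs.1.aevalEquiv.toEquiv]
    refine MvPolynomial.cardinalMk_le_max.trans (max_le (max_le ?_ ?_) le_rfl)
    · exact Cardinal.mk_le_aleph0
    · exact Cardinal.mk_le_aleph0
  exact absurd (EMI_uncountable k) (not_lt.2 (h1.trans (max_le h2 le_rfl)))

private lemma EMI_translate (k A : Type) [Field k] [CommRing A] [Algebra k A] (d : ℕ)
    (b : Fin d → A) (c : Fin d → k) (hb : AlgebraicIndependent k b) :
    AlgebraicIndependent k (fun i => b i - algebraMap k A (c i)) := by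
  unfold AlgebraicIndependent at hb ⊢
  set φ : MvPolynomial (Fin d) k →ₐ[k] MvPolynomial (Fin d) k :=
    MvPolynomial.aeval (fun i => MvPolynomial.X i - MvPolynomial.C (c i)) with hφ
  set ψ : MvPolynomial (Fin d) k →ₐ[k] MvPolynomial (Fin d) k :=
    MvPolynomial.aeval (fun i => MvPolynomial.X i + MvPolynomial.C (c i)) with hψ
  have h1 : ψ.comp φ = AlgHom.id k _ := by
    apply MvPolynomial.algHom_ext
    intro i
    simp [hφ, hψ]
  have h2 : Function.Injective φ := by
    intro x y hxy
    have h3 := congrArg (fun g : MvPolynomial (Fin d) k →ₐ[k] MvPolynomial (Fin d) k => g x) h1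
    have h4 := congrArg (fun g : MvPolynomial (Fin d) k →ₐ[k] MvPolynomial (Fin d) k => g y) h1
    simp only [AlgHom.comp_apply, AlgHom.id_apply] at h3 h4
    rw [← h3, ← h4, hxy]
  have h5 : (MvPolynomial.aeval (fun i => b i - algebraMap k A (c i)) :
      MvPolynomial (Fin d) k →ₐ[k] A) = (MvPolynomial.aeval b).comp φ := by
    apply MvPolynomial.algHom_ext
    intro i
    simp [hφ]
  rw [h5]
  exact hb.comp h2

theorem thm_EMI : St_EMI := by
  intro k _ _ d
  obtain ⟨s, hs⟩ := exists_isTranscendenceBasis k k⟦X⟧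
  have hinf := EMI_infinite k s hs
  set b : Fin d → k⟦X⟧ := fun i => (Infinite.natEmbedding s (i : ℕ) : k⟦X⟧) with hb
  have h1 : AlgebraicIndependent k b := by
    have := hs.1.comp (fun i : Fin d => Infinite.natEmbedding s (i : ℕ)) (by
      intro i j hij
      exact Fin.ext ((Infinite.natEmbedding s).injective hij))
    exact this
  refine ⟨fun i => b i - algebraMap k k⟦X⟧ (constantCoeff (b i)), ?_,
    EMI_translate k k⟦X⟧ d b _ h1⟩
  intro i
  have h2 : algebraMap k k⟦X⟧ (constantCoeff (b i)) = C (constantCoeff (b i)) := rfl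
  show X ∣ b i - algebraMap k k⟦X⟧ (constantCoeff (b i))
  rw [PowerSeries.X_dvd_iff, h2, map_sub]
  simp

end ETD
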