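import Pool.Agent.ETD.StC

/-!
# ETD: points over finite fields
-/

set_option autoImplicit false
set_option linter.unusedVariables false

namespace ETD

theorem thm_EMP : St_EMP := by
  intro p hp d P g hP hdeg hg
  let Ω := AlgebraicClosure (ZMod p)
  haveI : Infinite Ω := IsAlgClosed.instInfinite
  -- a point of `Ω` where `g` does not vanish
  obtain ⟨τ, hτ⟩ : ∃ τ : Fin d → Ω, MvPolynomial.aeval τ g ≠ 0 := by
    by_contra hcon
    push Not at hcon
    apply hg
    have h0 : MvPolynomial.map (algebraMap (ZMod p) Ω) g = 0 := by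
      apply MvPolynomial.funext
      intro x
      rw [map_zero, MvPolynomial.eval_map, ← MvPolynomial.aeval_def]
      exact hcon x
    exact (map_eq_zero_iff _ (MvPolynomial.map_injective _ (algebraMap (ZMod p) Ω).injective)).1 h0
  -- a root of the specialised polynomial
  let φ : MvPolynomial (Fin d) (ZMod p) →+* Ω := (MvPolynomial.aeval τ).toRingHom
  obtain ⟨c, hc⟩ : ∃ c : Ω, (P.map φ).eval c = 0 := by
    have hd : (P.map φ).degree ≠ 0 := by
      have h1 : (P.map φ).natDegree = P.natDegree := hP.natDegree_map φ
      intro h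
      have h2 : (P.map φ).natDegree = 0 := Polynomial.natDegree_eq_zero_iff_degree_le_zero.2 h.le
      exact hdeg (h1.symm.trans h2)
    obtain ⟨c, hc⟩ := IsAlgClosed.exists_root (P.map φ) hd
    exact ⟨c, hc⟩
  let S : Set Ω := Set.range τ ∪ {c}
  have hS : S.Finite := (Set.finite_range τ).union (Set.finite_singleton c)
  let k : IntermediateField (ZMod p) Ω := IntermediateField.adjoin (ZMod p) S
  haveI : Finite S := hS.to_subtype
  haveI hfd : FiniteDimensional (ZMod p) k :=
    IntermediateField.finiteDimensional_adjoin fun x _ => Algebra.IsIntegral.isIntegral x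
  haveI hfin : Finite k := Module.finite_of_finite (ZMod p)
  haveI : CharP k p := charP_of_injective_algebraMap (algebraMap (ZMod p) k).injective p
  have hmem : ∀ x ∈ S, x ∈ k := fun x hx => IntermediateField.subset_adjoin (ZMod p) S hx
  let τ' : Fin d → k := fun i => ⟨τ i, hmem _ (Or.inl ⟨i, rfl⟩)⟩
  let c' : k := ⟨c, hmem _ (Or.inr rfl)⟩
  have hcomp : ∀ q : MvPolynomial (Fin d) (ZMod p),
      algebraMap k Ω (MvPolynomial.aeval τ' q) = MvPolynomial.aeval τ q := by
    intro q
    rw [← MvPolynomial.aeval_algebraMap_apply]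
    rfl
  refine ⟨k, inferInstance, hfin, inferInstance, inferInstance, τ', c', ?_, ?_⟩
  · intro h
    apply hτ
    rw [← hcomp, h, map_zero]
  · apply (algebraMap k Ω).injective
    rw [map_zero, ← hc, Polynomial.eval_map, Polynomial.eval_map, Polynomial.hom_eval₂]
    congr 1
    apply RingHom.ext
    intro q
    exact hcomp q

end ETD
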