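import Pool.Agent.ETD.StC

/-!
# ETD, module FIN: the main theorem
-/

set_option autoImplicit false
set_option linter.unusedVariables false

namespace ETD

open PowerSeries

private theorem FIN_fm {R S : Type} [CommRing R] [CommRing S] (φ : R →+* S) (p : ℕ) (a : R)
    (G : Polynomial R) (x : R) : φ (fm p a G x) = fm p (φ a) (G.map φ) (φ x) := by
  unfold fm
  rw [map_add, map_mul, ← map_pow, Polynomial.eval_map_apply]

private theorem FIN_iter {R S : Type} [CommRing R] [CommRing S] (φ : R →+* S) (p : ℕ) (a : R)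
    (G : Polynomial R) (x : R) (n : ℕ) :
    (fm p (φ a) (G.map φ))^[n] (φ x) = φ ((fm p a G)^[n] x) := by
  have h : Function.Semiconj φ (fm p a G) (fm p (φ a) (G.map φ)) := fun x => FIN_fm φ p a G x
  exact ((h.iterate_right n).eq x).symm

private theorem FIN_eval {R S : Type} [CommRing R] [CommRing S] (φ : R →+* S)
    (hφ : Function.Injective φ) (u v : R) (h : MvPolynomial (Fin 2) R) :
    MvPolynomial.eval ![φ u, φ v] (MvPolynomial.map φ h) = 0 ↔
      MvPolynomial.eval ![u, v] h = 0 := by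
  have h1 : (![φ u, φ v] : Fin 2 → S) = φ ∘ ![u, v] := by
    funext i
    fin_cases i <;> rfl
  rw [h1, MvPolynomial.eval_map, ← MvPolynomial.eval₂_comp, map_eq_zero_iff φ hφ]

private theorem FIN_core (hR : St_RES) (hE : St_EMB) (K : Type) [Field K] (p : ℕ)
    [Fact p.Prime] [CharP K p] (f g : Polynomial K) (a b : K)
    (hf : Polynomial.derivative f = Polynomial.C a)
    (hg : Polynomial.derivative g = Polynomial.C b) (ha : a ≠ 0) (hb : b ≠ 0)
    (hroot : ∀ m : ℕ, 0 < m → a ^ m ≠ 1) (γ : K × K) (h : MvPolynomial (Fin 2) K) :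
    PSet p {n : ℕ | MvPolynomial.eval
      ![(fun x => Polynomial.eval x f)^[n] γ.1, (fun y => Polynomial.eval y g)^[n] γ.2] h = 0} := by
  classical
  have hp0 : p ≠ 0 := (Fact.out : p.Prime).ne_zero
  have key : ∀ (f : Polynomial K) (a : K), Polynomial.derivative f = Polynomial.C a →
      ∃ G : Polynomial K, (fun x => Polynomial.eval x f) = fm p a G := by
    intro f a hf
    have hd : Polynomial.derivative (f - Polynomial.C a * Polynomial.X) = 0 := by
      rw [Polynomial.derivative_sub, hf, Polynomial.derivative_C_mul_X, sub_self]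
    refine ⟨Polynomial.contract p (f - Polynomial.C a * Polynomial.X), ?_⟩
    have h1 := Polynomial.expand_contract (p := p) hd hp0
    funext x
    unfold fm
    rw [← Polynomial.expand_eval, h1]
    simp
  obtain ⟨G, hG⟩ := key f a hf
  obtain ⟨G', hG'⟩ := key g b hg
  rw [hG, hG']
  obtain ⟨k, _, _, _, A, ι, hι, hs⟩ := hE K p
    (G.coeffs ∪ G'.coeffs ∪ h.coeffs ∪ {γ.1, γ.2, a, a⁻¹, b, b⁻¹})
  have hGA : (↑G.coeffs : Set K) ⊆ A := fun x hx => hs x (by
    simp only [Finset.mem_union]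
    exact Or.inl (Or.inl (Or.inl hx)))
  have hGA' : (↑G'.coeffs : Set K) ⊆ A := fun x hx => hs x (by
    simp only [Finset.mem_union]
    exact Or.inl (Or.inl (Or.inr hx)))
  have hhA : (h.coeffs : Set K) ⊆ A := fun x hx => hs x (by
    simp only [Finset.mem_union]
    exact Or.inl (Or.inr hx))
  have hx1 : γ.1 ∈ A := hs _ (by simp)
  have hx2 : γ.2 ∈ A := hs _ (by simp)
  have haA : a ∈ A := hs _ (by simp)
  have haA' : a⁻¹ ∈ A := hs _ (by simp)
  have hbA : b ∈ A := hs _ (by simp)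
  have hbA' : b⁻¹ ∈ A := hs _ (by simp)
  obtain ⟨hA, hhA2⟩ : h ∈ Set.range (MvPolynomial.map (σ := Fin 2) A.subtype) := by
    rw [MvPolynomial.mem_range_map_iff_coeffs_subset]
    intro x hx
    exact ⟨⟨x, hhA hx⟩, rfl⟩
  have e1 : (G.toSubring A hGA).map A.subtype = G := Polynomial.map_toSubring G A hGA
  have e2 : (G'.toSubring A hGA').map A.subtype = G' := Polynomial.map_toSubring G' A hGA'
  have hsub : Function.Injective A.subtype := Subtype.val_injective
  have hua : IsUnit (ι ⟨a, haA⟩) := by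
    refine IsUnit.map ι (IsUnit.of_mul_eq_one ⟨a⁻¹, haA'⟩ ?_)
    exact Subtype.ext (mul_inv_cancel₀ ha)
  have hub : IsUnit (ι ⟨b, hbA⟩) := by
    refine IsUnit.map ι (IsUnit.of_mul_eq_one ⟨b⁻¹, hbA'⟩ ?_)
    exact Subtype.ext (mul_inv_cancel₀ hb)
  have hr : ∀ m : ℕ, 0 < m → ι ⟨a, haA⟩ ^ m ≠ 1 := by
    intro m hm h1
    rw [← map_pow] at h1
    have h2 := hι (h1.trans (map_one ι).symm)
    apply hroot m hm
    have h3 := congrArg A.subtype h2
    rw [map_pow, map_one] at h3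
    exact h3
  have hfin := hR k p (ι ⟨a, haA⟩) (ι ⟨b, hbA⟩) (ι ⟨γ.1, hx1⟩) (ι ⟨γ.2, hx2⟩)
    ((G.toSubring A hGA).map ι) ((G'.toSubring A hGA').map ι) (MvPolynomial.map ι hA) hua hub hr
  have hset : {n : ℕ | MvPolynomial.eval ![(fm p a G)^[n] γ.1, (fm p b G')^[n] γ.2] h = 0} =
      {n : ℕ | MvPolynomial.eval
        ![(fm p (ι ⟨a, haA⟩) ((G.toSubring A hGA).map ι))^[n] (ι ⟨γ.1, hx1⟩),
          (fm p (ι ⟨b, hbA⟩) ((G'.toSubring A hGA').map ι))^[n] (ι ⟨γ.2, hx2⟩)]
        (MvPolynomial.map ι hA) = 0} := by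
    ext n
    have i1 := FIN_iter A.subtype p ⟨a, haA⟩ (G.toSubring A hGA) ⟨γ.1, hx1⟩ n
    have i2 := FIN_iter A.subtype p ⟨b, hbA⟩ (G'.toSubring A hGA') ⟨γ.2, hx2⟩ n
    rw [e1] at i1
    rw [e2] at i2
    have j1 : (fm p a G)^[n] γ.1 = A.subtype ((fm p ⟨a, haA⟩ (G.toSubring A hGA))^[n]
      ⟨γ.1, hx1⟩) := i1
    have j2 : (fm p b G')^[n] γ.2 = A.subtype ((fm p ⟨b, hbA⟩ (G'.toSubring A hGA'))^[n]
      ⟨γ.2, hx2⟩) := i2
    simp only [Set.mem_ofPred_eq]
    rw [FIN_iter ι, FIN_iter ι, FIN_eval ι hι, j1, j2, ← hhA2, FIN_eval A.subtype hsub]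
  rw [hset]
  exact hfin

theorem thm_FIN (hR : St_RES) (hE : St_EMB) : St_FIN := by
  intro K _ p hp hchar f g a b hf hg ha hb hab γ h
  have : Fact p.Prime := ⟨hp⟩
  rcases hab with hab | hab
  · exact FIN_core hR hE K p f g a b hf hg ha hb hab γ h
  · have h1 := FIN_core hR hE K p g f b a hg hf hb ha hab (γ.2, γ.1)
      (MvPolynomial.rename (Equiv.swap 0 1) h)
    have hset : {n : ℕ | MvPolynomial.eval
        ![(fun x => Polynomial.eval x f)^[n] γ.1, (fun y => Polynomial.eval y g)^[n] γ.2] h = 0} =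
        {n : ℕ | MvPolynomial.eval
        ![(fun x => Polynomial.eval x g)^[n] γ.2, (fun y => Polynomial.eval y f)^[n] γ.1]
          (MvPolynomial.rename (Equiv.swap 0 1) h) = 0} := by
      ext n
      simp only [Set.mem_ofPred_eq]
      rw [MvPolynomial.eval_rename]
      have h2 : (![(fun x => Polynomial.eval x g)^[n] γ.2,
          (fun y => Polynomial.eval y f)^[n] γ.1] ∘ (Equiv.swap (0 : Fin 2) 1) : Fin 2 → K) =
          ![(fun x => Polynomial.eval x f)^[n] γ.1, (fun y => Polynomial.eval y g)^[n] γ.2] := by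
        funext i
        fin_cases i
        · simp
        · simp
      rw [h2]
    rw [hset]
    exact h1

end ETD
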