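import Pool.Agent.ETD.StA

/-!
# ETD, module FRB: the set `Bs` is stable under multiplication and division by `p ^ s`
-/

set_option autoImplicit false
set_option linter.unusedVariables false

namespace ETD

open PowerSeries

theorem FRB_charP (k : Type) [Field k] (p : ℕ) [CharP k p] : CharP k⟦X⟧ p :=
  charP_of_injective_ringHom (C_injective (R := k)) p

theorem FRB_sm (h : St_PWB) {k : Type} [Field k] (p : ℕ) [Fact p.Prime] [CharP k p] {n : ℕ}
    {a : Fin n → k⟦X⟧} (ha : ∀ i, X ∣ a i - 1) (β : ℤ_[p]) : Sm (pt p a β) :=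
  fun i => (h k p (a i) (ha i)).2.2.1 β

theorem FRB_expand_inj {k : Type} [Field k] {q : ℕ} (hq : q ≠ 0) {z : k⟦X⟧}
    (h : expand q hq z = 0) : z = 0 := by
  ext m
  rw [← coeff_expand_mul q hq z m, h, map_zero, map_zero]

theorem FRB_pt (h1 : St_PWP) {k : Type} [Field k] (p : ℕ) [Fact p.Prime] [CharP k p] (s : ℕ)
    (hF : Fr k p s) {n : ℕ} {a : Fin n → k⟦X⟧} (ha : ∀ i, X ∣ a i - 1) (i : ℕ) (β : ℤ_[p])
    (hq : (p ^ s) ^ i ≠ 0) :
    pt p a (((p : ℤ_[p]) ^ s) ^ i * β) = fun j => expand ((p ^ s) ^ i) hq (pt p a β j) := by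
  funext j
  have := FRB_charP k p
  rw [← hF.2 i hq, pt, pt, ← pow_mul, (h1 k p (a j) (ha j)).1, ← pow_mul, sub_pow_char_pow,
    one_pow]

theorem thm_FRB (h : St_PWB) (h1 : St_PWP) : St_FRB := by
  intro k _ p _ _ s hF n a ha I i β
  have hq : (p ^ s) ^ i ≠ 0 := pow_ne_zero _ (pow_ne_zero _ (Fact.out : p.Prime).ne_zero)
  have hsm := FRB_sm h p ha β
  simp only [Bs, Set.mem_ofPred_eq]
  rw [FRB_pt h1 p s hF ha i β hq]
  refine forall_congr' fun F => forall_congr' fun hFI => ?_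
  rw [e_expand hsm hq F]
  constructor
  · exact fun h => FRB_expand_inj hq h
  · intro h
    rw [h, map_zero]

end ETD
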