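import Pool.Agent.ETD.StA

/-!
# ETD, module FRO: finite fields and the Frobenius map
-/

set_option autoImplicit false
set_option linter.unusedVariables false

namespace ETD

open PowerSeries

theorem thm_FRO : St_FRO := by
  intro k _ _ p _ _
  have := Fintype.ofFinite k
  obtain ⟨s, hp, hs⟩ := FiniteField.card k p
  refine ⟨s, s.pos, ?_⟩
  intro i h z
  have hexp : ∀ x : k, x ^ (p ^ (s : ℕ)) = x := by
    intro x
    rw [← hs]
    exact FiniteField.pow_card x
  have hit : ∀ i : ℕ, ∀ x : k, x ^ (p ^ ((s : ℕ) * i)) = x := by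
    intro i
    induction i with
    | zero => intro x; simp
    | succ i ih =>
      intro x
      rw [Nat.mul_succ, pow_add, pow_mul, ih, hexp]
  have hid : iterateFrobenius k p ((s : ℕ) * i) = RingHom.id k := by
    ext x
    rw [iterateFrobenius_def, RingHom.id_apply]
    exact hit i x
  have hp0 : p ≠ 0 := hp.ne_zero
  have key := MvPowerSeries.map_iterateFrobenius_expand (σ := Unit) (R := k) p hp0 z ((s : ℕ) * i)
  rw [hid, MvPowerSeries.map_id, RingHom.id_apply] at key
  have e1 : (p ^ (s : ℕ)) ^ i = p ^ ((s : ℕ) * i) := by rw [pow_mul]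
  have e2 : ∀ (m : ℕ) (hm : m ≠ 0), m = p ^ ((s : ℕ) * i) → z ^ m = expand m hm z := by
    intro m hm hmm
    subst hmm
    exact key.symm
  exact e2 _ h e1

end ETD
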