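import Pool.Agent.ETD.StC

/-!
# ETD: the lemma of Hensel for `k⟦t⟧`
-/

set_option autoImplicit false
set_option linter.unusedVariables false

namespace ETD

open PowerSeries

/-- one step of the approximation -/
private lemma HEN_step {k : Type} [Field k] (P : Polynomial k⟦X⟧) (c : k)
    (h : ¬ X ∣ P.derivative.eval (C c)) (N : ℕ) (y : k⟦X⟧) (hy : X ∣ y - C c)
    (hP : X ^ (N + 1) ∣ P.eval y) : ∃ v : k, X ^ (N + 2) ∣ P.eval (y + X ^ (N + 1) * C v) := by
  obtain ⟨w, hw⟩ := hP
  have h1 : X ∣ P.derivative.eval y - P.derivative.eval (C c) :=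
    hy.trans (Polynomial.sub_dvd_eval_sub _ _ _)
  have h2 : constantCoeff (P.derivative.eval y) ≠ 0 := by
    intro h3
    rw [← X_dvd_iff] at h3
    exact h ((dvd_sub_right h3).1 h1)
  set d := constantCoeff (P.derivative.eval y) with hd
  refine ⟨-(constantCoeff w / d), ?_⟩
  obtain ⟨q, hq⟩ := P.binomExpansion y (X ^ (N + 1) * C (-(constantCoeff w / d)))
  rw [hq, hw]
  have h4 : X ∣ w + P.derivative.eval y * C (-(constantCoeff w / d)) := by
    rw [X_dvd_iff, map_add, map_mul, constantCoeff_C, ← hd]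
    field_simp
    ring
  obtain ⟨u, hu⟩ := h4
  have h5 : X ^ (N + 1) * w + P.derivative.eval y * (X ^ (N + 1) * C (-(constantCoeff w / d))) +
      q * (X ^ (N + 1) * C (-(constantCoeff w / d))) ^ 2 =
      X ^ (N + 2) * (u + q * X ^ N * C (-(constantCoeff w / d)) ^ 2) := by
    have e1 : X ^ (N + 1) * w + P.derivative.eval y * (X ^ (N + 1) *
        C (-(constantCoeff w / d))) = X ^ (N + 1) * (X * u) := by
      rw [← hu]; ring
    rw [e1]
    ring
  rw [h5]
  exact dvd_mul_right _ _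

/-- [HEN] The lemma of Hensel for `k⟦t⟧`. -/
theorem thm_HEN : St_HEN := by
  intro k _ P c h0 h1
  have key := fun N y => HEN_step P c h1 N y
  choose! v hv using key
  let ys : ℕ → k⟦X⟧ := fun N => Nat.rec (C c) (fun N y => y + X ^ (N + 1) * C (v N y)) N
  have hys : ∀ N, ys (N + 1) = ys N + X ^ (N + 1) * C (v N (ys N)) := fun N => rfl
  have hys0 : ys 0 = C c := rfl
  have h2 : ∀ N, X ∣ ys N - C c ∧ X ^ (N + 1) ∣ P.eval (ys N) := by
    intro N
    induction N with
    | zero =>
      rw [hys0, sub_self]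
      exact ⟨dvd_zero _, by rwa [zero_add, pow_one]⟩
    | succ N ih =>
      refine ⟨?_, ?_⟩
      · rw [hys]
        have e1 : ys N + X ^ (N + 1) * C (v N (ys N)) - C c =
            (ys N - C c) + X ^ (N + 1) * C (v N (ys N)) := by ring
        rw [e1]
        exact dvd_add ih.1 ((dvd_pow_self _ (Nat.succ_ne_zero N)).mul_right _)
      · rw [hys]
        exact hv N (ys N) ih.1 ih.2
  have h3 : ∀ N M, X ^ (N + 1) ∣ ys (N + M) - ys N := by
    intro N M
    induction M with
    | zero => rw [add_zero, sub_self]; exact dvd_zero _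
    | succ M ih =>
      rw [← add_assoc, hys]
      have e1 : ys (N + M) + X ^ (N + M + 1) * C (v (N + M) (ys (N + M))) - ys N =
          (ys (N + M) - ys N) + X ^ (N + M + 1) * C (v (N + M) (ys (N + M))) := by ring
      rw [e1]
      exact dvd_add ih ((pow_dvd_pow _ (by omega)).mul_right _)
  let y : k⟦X⟧ := PowerSeries.mk fun m => coeff m (ys m)
  have h4 : ∀ N, X ^ (N + 1) ∣ y - ys N := by
    intro N
    rw [X_pow_dvd_iff]
    intro m hm
    obtain ⟨M, rfl⟩ := Nat.exists_eq_add_of_le (Nat.lt_succ_iff.1 hm)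
    have h5 := X_pow_dvd_iff.1 (h3 m M) m (Nat.lt_succ_self m)
    rw [map_sub, sub_eq_zero] at h5
    rw [map_sub, sub_eq_zero, coeff_mk, h5]
  refine ⟨y, ?_, ?_⟩
  · have h5 : ∀ N, X ^ (N + 1) ∣ P.eval y := by
      intro N
      have h6 : X ^ (N + 1) ∣ P.eval y - P.eval (ys N) :=
        (h4 N).trans (Polynomial.sub_dvd_eval_sub _ _ _)
      exact (dvd_sub_left (h2 N).2).1 h6
    ext m
    rw [map_zero]
    exact X_pow_dvd_iff.1 (h5 m) m (Nat.lt_succ_self m)
  · have h5 := h4 0
    rw [zero_add, pow_one, hys0] at h5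
    exact h5

end ETD
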