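import Pool.Agent.ETD.StB

/-!
# ETD, module HHH: polynomials of power series
-/

set_option autoImplicit false
set_option linter.unusedVariables false

namespace ETD

open PowerSeries

theorem HHH_hs (k : Type) [Field k] :
    PowerSeries.HasSubst (MvPowerSeries.X 0 : MvPowerSeries (Fin 3) k) :=
  PowerSeries.HasSubst.X 0

/-- a series in `t` as a series in three variables -/
noncomputable def HHH_i (k : Type) [Field k] : k⟦X⟧ →+* MvPowerSeries (Fin 3) k :=
  (PowerSeries.substAlgHom (HHH_hs k)).toRingHom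

theorem HHH_i_apply {k : Type} [Field k] (b : k⟦X⟧) :
    HHH_i k b = PowerSeries.subst (MvPowerSeries.X 0 : MvPowerSeries (Fin 3) k) b := by
  show PowerSeries.substAlgHom (HHH_hs k) b = _
  rw [PowerSeries.coe_substAlgHom]

theorem HHH_e_i {k : Type} [Field k] {z : Fin 3 → k⟦X⟧} (hz : Sm z) (h0 : z 0 = X) (b : k⟦X⟧) :
    e z (HHH_i k b) = b := by
  rw [HHH_i_apply, e, PowerSeries.subst,
    MvPowerSeries.subst_comp_subst_apply (PowerSeries.HasSubst.const (HHH_hs k)) hz.hs]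
  have h1 : (fun _ : Unit => MvPowerSeries.subst z (MvPowerSeries.X 0 : MvPowerSeries (Fin 3) k)) =
      (MvPowerSeries.X : Unit → MvPowerSeries Unit k) := by
    funext s
    rw [MvPowerSeries.subst_X hz.hs, h0]
    rfl
  rw [h1, MvPowerSeries.subst_self]
  rfl

/-- the substitution for the variable with number `j` -/
theorem HHH_e_r {k : Type} [Field k] {ζ : Fin 2 → k⟦X⟧} (hζ : Sm ζ) (j : Fin 2)
    (ρ : MvPowerSeries (Fin 2) k) :
    e (Fin.cons X ζ) (MvPowerSeries.subst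
      (![MvPowerSeries.X 0, MvPowerSeries.X j.succ] : Fin 2 → MvPowerSeries (Fin 3) k) ρ) =
      ec ![ζ j] ρ := by
  have hG : ∀ i, MvPowerSeries.constantCoeff
      ((![MvPowerSeries.X 0, MvPowerSeries.X j.succ] : Fin 2 → MvPowerSeries (Fin 3) k) i) = 0 := by
    intro i
    fin_cases i
    · exact MvPowerSeries.constantCoeff_X _
    · exact MvPowerSeries.constantCoeff_X _
  rw [e_subst hζ.cons _ hG, ec]
  congr 1
  funext i
  fin_cases i
  · show e (Fin.cons X ζ) (MvPowerSeries.X 0) = X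
    rw [e_X hζ.cons]
    rfl
  · show e (Fin.cons X ζ) (MvPowerSeries.X j.succ) = ζ j
    rw [e_X hζ.cons]
    rfl

theorem thm_HHH : St_HHH := by
  intro k _ ρ₀ ρ₁ h
  refine ⟨MvPolynomial.eval₂ (HHH_i k)
    ![MvPowerSeries.subst (![MvPowerSeries.X 0, MvPowerSeries.X (Fin.succ 0)] :
        Fin 2 → MvPowerSeries (Fin 3) k) ρ₀,
      MvPowerSeries.subst (![MvPowerSeries.X 0, MvPowerSeries.X (Fin.succ 1)] :
        Fin 2 → MvPowerSeries (Fin 3) k) ρ₁] h, ?_⟩
  intro ζ hζ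
  have h1 := MvPolynomial.hom_eval₂ h (HHH_i k)
    (eH hζ.cons : MvPowerSeries (Fin 3) k →+* k⟦X⟧)
    ![MvPowerSeries.subst (![MvPowerSeries.X 0, MvPowerSeries.X (Fin.succ 0)] :
        Fin 2 → MvPowerSeries (Fin 3) k) ρ₀,
      MvPowerSeries.subst (![MvPowerSeries.X 0, MvPowerSeries.X (Fin.succ 1)] :
        Fin 2 → MvPowerSeries (Fin 3) k) ρ₁]
  have h2 : ((eH hζ.cons : MvPowerSeries (Fin 3) k →+* k⟦X⟧)).comp (HHH_i k) =
      RingHom.id k⟦X⟧ := by
    ext1 b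
    show eH hζ.cons (HHH_i k b) = b
    rw [eH_apply, HHH_e_i hζ.cons rfl]
  have h3 : (fun i => (eH hζ.cons : MvPowerSeries (Fin 3) k →+* k⟦X⟧)
      ((![MvPowerSeries.subst (![MvPowerSeries.X 0, MvPowerSeries.X (Fin.succ 0)] :
        Fin 2 → MvPowerSeries (Fin 3) k) ρ₀,
      MvPowerSeries.subst (![MvPowerSeries.X 0, MvPowerSeries.X (Fin.succ 1)] :
        Fin 2 → MvPowerSeries (Fin 3) k) ρ₁] : Fin 2 → MvPowerSeries (Fin 3) k) i)) =
      ![ec ![ζ 0] ρ₀, ec ![ζ 1] ρ₁] := by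
    funext i
    fin_cases i
    · show eH hζ.cons (MvPowerSeries.subst _ ρ₀) = ec ![ζ 0] ρ₀
      rw [eH_apply, HHH_e_r hζ 0 ρ₀]
    · show eH hζ.cons (MvPowerSeries.subst _ ρ₁) = ec ![ζ 1] ρ₁
      rw [eH_apply, HHH_e_r hζ 1 ρ₁]
  rw [h2, h3] at h1
  have h4 : ∀ F : MvPowerSeries (Fin 3) k, ec ζ F =
      (eH hζ.cons : MvPowerSeries (Fin 3) k →+* k⟦X⟧) F := by
    intro F
    show _ = eH hζ.cons F
    rw [eH_apply, ec]
  rw [h4]
  exact h1.symm

end ETD
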