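import Pool.Agent.ETD.StA

/-!
# ETD, module HTL: the kernels of the evaluations have height one
-/

set_option autoImplicit false
set_option linter.unusedVariables false

namespace ETD

open PowerSeries

/-- The series in two variables with constant coefficient `0` are in `mI k 2`. -/
private theorem HTL_mem (k : Type) [Field k] (F : MvPowerSeries (Fin 2) k)
    (hF : MvPowerSeries.constantCoeff F = 0) : F ∈ mI k 2 := by
  classical
  set F₁ : MvPowerSeries (Fin 2) k := fun m => if m 0 = 0 then MvPowerSeries.coeff m F else 0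
    with hF₁
  have hc : ∀ m, MvPowerSeries.coeff m F₁ = if m 0 = 0 then MvPowerSeries.coeff m F else 0 :=
    fun m => rfl
  have h0 : (MvPowerSeries.X 0 : MvPowerSeries (Fin 2) k) ∣ F - F₁ := by
    rw [MvPowerSeries.X_dvd_iff]
    intro m hm
    rw [map_sub, hc, if_pos hm, sub_self]
  have h1 : (MvPowerSeries.X 1 : MvPowerSeries (Fin 2) k) ∣ F₁ := by
    rw [MvPowerSeries.X_dvd_iff]
    intro m hm
    rw [hc]
    split_ifs with h
    · have : m = 0 := by
        ext i
        fin_cases i
        · exact h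
        · exact hm
      rw [this, MvPowerSeries.coeff_zero_eq_constantCoeff_apply, hF]
    · rfl
  have hX : ∀ i, (MvPowerSeries.X i : MvPowerSeries (Fin 2) k) ∈ mI k 2 := fun i =>
    Ideal.subset_span ⟨i, rfl⟩
  have h2 : F = (F - F₁) + F₁ := by ring
  rw [h2]
  exact (mI k 2).add_mem (Ideal.mem_of_dvd _ h0 (hX 0)) (Ideal.mem_of_dvd _ h1 (hX 1))

private theorem HTL_eq (k : Type) [Field k] :
    mI k 2 = RingHom.ker (MvPowerSeries.constantCoeff (σ := Fin 2) (R := k)) := by
  apply le_antisymm
  · unfold mI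
    rw [Ideal.span_le]
    rintro _ ⟨i, rfl⟩
    rw [SetLike.mem_coe, RingHom.mem_ker, MvPowerSeries.constantCoeff_X]
  · intro F hF
    exact HTL_mem k F hF

private theorem HTL_prime (k : Type) [Field k] : (mI k 2).IsPrime := by
  rw [HTL_eq]
  exact RingHom.ker_isPrime _

private theorem HTL_height (k : Type) [Field k] : (mI k 2).height ≤ 2 := by
  have hp := HTL_prime k
  have hfin : (Set.range (MvPowerSeries.X : Fin 2 → MvPowerSeries (Fin 2) k)).Finite :=
    Set.finite_range _
  have h1 : (mI k 2).height ≤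
      (Set.range (MvPowerSeries.X : Fin 2 → MvPowerSeries (Fin 2) k)).ncard := by
    apply Ideal.height_le_card_of_mem_minimalPrimes_span hfin
    change mI k 2 ∈ (mI k 2).minimalPrimes
    rw [Ideal.minimalPrimes_eq_subsingleton_self]
    exact Set.mem_singleton _
  refine h1.trans ?_
  have h2 : (Set.range (MvPowerSeries.X : Fin 2 → MvPowerSeries (Fin 2) k)).ncard ≤ 2 := by
    rw [← Set.image_univ]
    refine (Set.ncard_image_le Set.finite_univ).trans ?_
    rw [Set.ncard_univ, Nat.card_eq_fintype_card, Fintype.card_fin]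
  exact_mod_cast h2

private theorem HTL_lt {k : Type} [Field k] (z : Fin 2 → k⟦X⟧) (hz : Sm z) (h : ∃ i, z i ≠ 0) :
    ker hz < mI k 2 := by
  refine lt_of_le_of_ne ?_ ?_
  · intro F hF
    rw [mem_ker] at hF
    rw [HTL_eq, RingHom.mem_ker]
    set c := MvPowerSeries.constantCoeff F with hc
    have h1 := e_order hz (F - MvPowerSeries.C c) 1 (by
      intro d hd
      have hd0 : d = 0 := by
        rw [Nat.lt_one_iff] at hd
        exact (Finsupp.degree_eq_zero_iff d).1 hd
      rw [hd0, map_sub, MvPowerSeries.coeff_zero_eq_constantCoeff_apply,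
        MvPowerSeries.coeff_zero_eq_constantCoeff_apply, MvPowerSeries.constantCoeff_C, sub_self])
    rw [e_sub hz, hF, e_C hz, zero_sub, pow_one, X_dvd_iff, map_neg, constantCoeff_C,
      neg_eq_zero] at h1
    exact h1
  · intro heq
    obtain ⟨i, hi⟩ := h
    apply hi
    have h1 : (MvPowerSeries.X i : MvPowerSeries (Fin 2) k) ∈ ker hz := by
      rw [heq]
      exact Ideal.subset_span ⟨i, rfl⟩
    rw [mem_ker, e_X hz] at h1
    exact h1

theorem thm_HTL : St_HTL := by
  intro k _ z hz hz0 𝔮 h𝔮 hbot hle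
  by_contra hne
  have hlt1 : 𝔮 < ker hz := lt_of_le_of_ne hle hne
  have hlt2 : ker hz < mI k 2 := HTL_lt z hz hz0
  have hp1 : (ker hz).IsPrime := ker_isPrime hz
  have hp2 : (mI k 2).IsPrime := HTL_prime k
  have hbp : (⊥ : Ideal (MvPowerSeries (Fin 2) k)).IsPrime := Ideal.isPrime_bot
  have a1 := Ideal.height_add_one_le_of_lt_of_isPrime (bot_lt_iff_ne_bot.2 hbot)
  have a2 := Ideal.height_add_one_le_of_lt_of_isPrime hlt1
  have a3 := Ideal.height_add_one_le_of_lt_of_isPrime hlt2
  have a4 := HTL_height k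
  have h3 : (3 : ℕ∞) ≤ (mI k 2).height := by
    calc (3 : ℕ∞) = 0 + 1 + 1 + 1 := by norm_num
      _ ≤ (⊥ : Ideal (MvPowerSeries (Fin 2) k)).height + 1 + 1 + 1 := by
          gcongr
          exact zero_le
      _ ≤ 𝔮.height + 1 + 1 := by gcongr
      _ ≤ (ker hz).height + 1 := by gcongr
      _ ≤ _ := a3
  have h4 := h3.trans a4
  exact absurd h4 (by decide)

end ETD
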