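import Pool.Agent.ETD.StB

/-!
# ETD, module INV: the inverse of `Y + t s(t, Y ^ p)`
-/

set_option autoImplicit false
set_option linter.unusedVariables false

namespace ETD

open PowerSeries

variable {k : Type} [Field k]

/-- the substitution -/
private noncomputable def INV_G (F : MvPowerSeries (Fin 2) k) : Fin 2 → MvPowerSeries (Fin 2) k :=
  ![MvPowerSeries.X 0, F]

private theorem INV_G0 (F : MvPowerSeries (Fin 2) k) (hF : MvPowerSeries.X 1 ∣ F) (i : Fin 2) :
    MvPowerSeries.constantCoeff (INV_G F i) = 0 := by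
  fin_cases i
  · exact MvPowerSeries.constantCoeff_X 0
  · obtain ⟨g, rfl⟩ := hF
    show MvPowerSeries.constantCoeff (MvPowerSeries.X 1 * g) = 0
    rw [map_mul, MvPowerSeries.constantCoeff_X, zero_mul]

private theorem INV_hs (F : MvPowerSeries (Fin 2) k) (hF : MvPowerSeries.X 1 ∣ F) :
    MvPowerSeries.HasSubst (INV_G F) :=
  MvPowerSeries.hasSubst_of_constantCoeff_zero (INV_G0 F hF)

/-- the base case -/
private theorem INV_base (F : MvPowerSeries (Fin 2) k) (hF : MvPowerSeries.X 1 ∣ F)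
    (B : MvPowerSeries (Fin 2) k) :
    MvPowerSeries.X 1 ∣ B - MvPowerSeries.subst (INV_G F) B := by
  rw [MvPowerSeries.X_dvd_iff]
  intro m hm
  rw [map_sub, sub_eq_zero, MvPowerSeries.coeff_subst (INV_hs F hF)]
  have hprod : ∀ d : Fin 2 →₀ ℕ, (d.prod fun i j => INV_G F i ^ j) =
      MvPowerSeries.X 0 ^ d 0 * F ^ d 1 := by
    intro d
    rw [Finsupp.prod_fintype _ _ fun i => pow_zero _, Fin.prod_univ_two]
    rfl
  have hm' : m = Finsupp.single 0 (m 0) := by
    ext i
    fin_cases i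
    · simp
    · simpa using hm
  rw [finsum_eq_single _ m]
  · rw [hprod, hm, pow_zero, mul_one, MvPowerSeries.coeff_X_pow, if_pos hm', smul_eq_mul,
      mul_one]
  · intro d hd
    rw [hprod, smul_eq_mul]
    by_cases h1 : d 1 = 0
    · rw [h1, pow_zero, mul_one, MvPowerSeries.coeff_X_pow, if_neg, mul_zero]
      intro h
      apply hd
      ext i
      fin_cases i
      · have := DFunLike.congr_fun h 0
        simpa using this.symm
      · simpa [hm] using h1
    · have h2 : MvPowerSeries.X 1 ∣ MvPowerSeries.X (0 : Fin 2) ^ d 0 * F ^ d 1 :=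
        (hF.trans (dvd_pow_self F h1)).mul_left _
      rw [MvPowerSeries.X_dvd_iff.1 h2 m hm, mul_zero]

private theorem INV_step (g : MvPowerSeries (Fin 2) k) (n : ℕ) (B : MvPowerSeries (Fin 2) k)
    (hB : MvPowerSeries.X 1 ^ n ∣ B) :
    MvPowerSeries.X 1 ^ (n + 1) ∣
      B - MvPowerSeries.subst (INV_G (MvPowerSeries.X 1 * (1 + MvPowerSeries.X 1 * g))) B := by
  set F := MvPowerSeries.X (1 : Fin 2) * (1 + MvPowerSeries.X 1 * g) with hFdef
  have hF : MvPowerSeries.X 1 ∣ F := Dvd.intro _ rfl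
  obtain ⟨B', rfl⟩ := hB
  have hs := INV_hs F hF
  obtain ⟨c, hc⟩ := INV_base F hF B'
  have h1 : MvPowerSeries.subst (INV_G F) (MvPowerSeries.X 1 ^ n * B') =
      F ^ n * MvPowerSeries.subst (INV_G F) B' := by
    rw [MvPowerSeries.subst_mul hs, MvPowerSeries.subst_pow hs, MvPowerSeries.subst_X hs]
    rfl
  obtain ⟨v, hv⟩ : MvPowerSeries.X 1 ∣ (1 + MvPowerSeries.X 1 * g) ^ n - 1 := by
    have := sub_dvd_pow_sub_pow (1 + MvPowerSeries.X (1 : Fin 2) * g) 1 n
    rw [one_pow, add_sub_cancel_left] at this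
    exact (Dvd.intro _ rfl).trans this
  refine ⟨c - v * MvPowerSeries.subst (INV_G F) B', ?_⟩
  rw [h1, hFdef, mul_pow, ← hFdef]
  have hv' : (1 + MvPowerSeries.X 1 * g) ^ n = 1 + MvPowerSeries.X 1 * v := by
    rw [← hv]
    ring
  have hc' : B' = MvPowerSeries.subst (INV_G F) B' + MvPowerSeries.X 1 * c := by
    rw [← hc]
    ring
  rw [hv']
  calc MvPowerSeries.X 1 ^ n * B' - MvPowerSeries.X 1 ^ n * (1 + MvPowerSeries.X 1 * v) *
        MvPowerSeries.subst (INV_G F) B' =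
      MvPowerSeries.X 1 ^ n * ((B' - MvPowerSeries.subst (INV_G F) B') -
        MvPowerSeries.X 1 * v * MvPowerSeries.subst (INV_G F) B') := by ring
    _ = _ := by
      rw [hc]
      ring

/-- the inverse substitution -/
private theorem INV_inv (g : MvPowerSeries (Fin 2) k) : ∃ R : MvPowerSeries (Fin 2) k,
    MvPowerSeries.subst (INV_G (MvPowerSeries.X 1 * (1 + MvPowerSeries.X 1 * g))) R =
      MvPowerSeries.X 1 := by
  set F := MvPowerSeries.X (1 : Fin 2) * (1 + MvPowerSeries.X 1 * g) with hFdef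
  have hF : MvPowerSeries.X 1 ∣ F := Dvd.intro _ rfl
  have hs := INV_hs F hF
  let T : MvPowerSeries (Fin 2) k → MvPowerSeries (Fin 2) k := fun B =>
    B - MvPowerSeries.subst (INV_G F) B
  have hT : ∀ j : ℕ, (MvPowerSeries.X 1 : MvPowerSeries (Fin 2) k) ^ (j + 1) ∣
      T^[j] (MvPowerSeries.X 1) := by
    intro j
    induction j with
    | zero => simp
    | succ j ih =>
      rw [Function.iterate_succ_apply']
      exact INV_step g (j + 1) _ ih
  let R : MvPowerSeries (Fin 2) k := fun d =>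
    ∑ j ∈ Finset.range (d 1 + 1), MvPowerSeries.coeff d (T^[j] (MvPowerSeries.X 1))
  have hRc : ∀ d : Fin 2 →₀ ℕ, MvPowerSeries.coeff d R =
      ∑ j ∈ Finset.range (d 1 + 1), MvPowerSeries.coeff d (T^[j] (MvPowerSeries.X 1)) :=
    fun d => rfl
  have hR : ∀ n : ℕ, (MvPowerSeries.X 1 : MvPowerSeries (Fin 2) k) ^ n ∣
      R - ∑ j ∈ Finset.range n, T^[j] (MvPowerSeries.X 1) := by
    intro n
    rw [MvPowerSeries.X_pow_dvd_iff]
    intro m hm
    rw [map_sub, sub_eq_zero, hRc, map_sum]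
    refine Finset.sum_subset (Finset.range_subset_range.2 (by omega)) ?_
    intro j hj hj'
    rw [Finset.mem_range] at hj hj'
    exact MvPowerSeries.X_pow_dvd_iff.1 (hT j) m (by omega)
  refine ⟨R, ?_⟩
  have hdvd : ∀ n : ℕ, (MvPowerSeries.X 1 : MvPowerSeries (Fin 2) k) ^ n ∣
      MvPowerSeries.subst (INV_G F) R - MvPowerSeries.X 1 := by
    intro n
    obtain ⟨B, hB⟩ := hR n
    have h1 : R = ∑ j ∈ Finset.range n, T^[j] (MvPowerSeries.X 1) +
        MvPowerSeries.X 1 ^ n * B := by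
      rw [← hB]
      ring
    have h2 : MvPowerSeries.subst (INV_G F) (∑ j ∈ Finset.range n, T^[j] (MvPowerSeries.X 1)) =
        MvPowerSeries.X 1 - T^[n] (MvPowerSeries.X 1) := by
      clear h1 hB
      induction n with
      | zero =>
        rw [Finset.sum_range_zero, Function.iterate_zero_apply, sub_self,
          ← MvPowerSeries.coe_substAlgHom hs, map_zero]
      | succ n ih =>
        rw [Finset.sum_range_succ, MvPowerSeries.subst_add hs, ih,
          Function.iterate_succ_apply']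
        show _ = MvPowerSeries.X 1 - (T^[n] (MvPowerSeries.X 1) -
          MvPowerSeries.subst (INV_G F) (T^[n] (MvPowerSeries.X 1)))
        ring
    have h3 : MvPowerSeries.subst (INV_G F) (MvPowerSeries.X 1 ^ n * B) =
        F ^ n * MvPowerSeries.subst (INV_G F) B := by
      rw [MvPowerSeries.subst_mul hs, MvPowerSeries.subst_pow hs, MvPowerSeries.subst_X hs]
      rfl
    have h4 : MvPowerSeries.subst (INV_G F) R - MvPowerSeries.X 1 =
        F ^ n * MvPowerSeries.subst (INV_G F) B - T^[n] (MvPowerSeries.X 1) := by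
      rw [h1, MvPowerSeries.subst_add hs, h2, h3]
      ring
    rw [h4]
    refine dvd_sub ?_ ?_
    · exact (pow_dvd_pow_of_dvd hF n).mul_right _
    · exact (pow_dvd_pow _ (Nat.le_succ n)).trans (hT n)
  rw [← sub_eq_zero]
  ext m
  rw [map_zero]
  exact MvPowerSeries.X_pow_dvd_iff.1 (hdvd (m 1 + 1)) m (Nat.lt_succ_self _)

theorem thm_INV : St_INV := by
  intro k _ p _ s hs
  have hp : 2 ≤ p := (Fact.out : p.Prime).two_le
  obtain ⟨s', rfl⟩ := hs
  have hG0 : ∀ i : Fin 2, MvPowerSeries.constantCoeff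
      ((![MvPowerSeries.X 0, MvPowerSeries.X 1 ^ p] : Fin 2 → MvPowerSeries (Fin 2) k) i) = 0 := by
    intro i
    fin_cases i
    · exact MvPowerSeries.constantCoeff_X 0
    · show MvPowerSeries.constantCoeff (MvPowerSeries.X (1 : Fin 2) ^ p) = 0
      rw [map_pow, MvPowerSeries.constantCoeff_X, zero_pow (by omega)]
  have hGs := MvPowerSeries.hasSubst_of_constantCoeff_zero hG0
  set s'' := MvPowerSeries.subst
    (![MvPowerSeries.X 0, MvPowerSeries.X 1 ^ p] : Fin 2 → MvPowerSeries (Fin 2) k) s' with hs''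
  obtain ⟨R, hR⟩ := INV_inv (MvPowerSeries.X 0 * MvPowerSeries.X 1 ^ (p - 2) * s'')
  refine ⟨R, fun y hy => ?_⟩
  have hw : Sm (Fin.cons X ![y] : Fin 2 → k⟦X⟧) := by
    apply Sm.cons (n := 1)
    intro i
    fin_cases i
    exact hy
  have hF : (MvPowerSeries.X 1 : MvPowerSeries (Fin 2) k) ∣ MvPowerSeries.X 1 *
      (1 + MvPowerSeries.X 1 * (MvPowerSeries.X 0 * MvPowerSeries.X 1 ^ (p - 2) * s'')) :=
    Dvd.intro _ rfl
  have w0 : e (Fin.cons X ![y] : Fin 2 → k⟦X⟧) (MvPowerSeries.X 0) = X := e_X hw 0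
  have w1 : e (Fin.cons X ![y] : Fin 2 → k⟦X⟧) (MvPowerSeries.X 1) = y := e_X hw 1
  have h1 := e_subst hw (INV_G (MvPowerSeries.X 1 * (1 + MvPowerSeries.X 1 *
    (MvPowerSeries.X 0 * MvPowerSeries.X 1 ^ (p - 2) * s'')))) (INV_G0 _ hF) R
  rw [hR, w1] at h1
  have h2 : ec ![y ^ p] (MvPowerSeries.X 1 * s') =
      y ^ p * e (Fin.cons X ![y] : Fin 2 → k⟦X⟧) s'' := by
    have h3 := e_subst hw (![MvPowerSeries.X 0, MvPowerSeries.X 1 ^ p] :
      Fin 2 → MvPowerSeries (Fin 2) k) hG0 (MvPowerSeries.X 1 * s')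
    have h4 : (fun i => e (Fin.cons X ![y] : Fin 2 → k⟦X⟧)
        ((![MvPowerSeries.X 0, MvPowerSeries.X 1 ^ p] : Fin 2 → MvPowerSeries (Fin 2) k) i)) =
        (Fin.cons X ![y ^ p] : Fin 2 → k⟦X⟧) := by
      funext i
      fin_cases i
      · exact w0
      · show e (Fin.cons X ![y] : Fin 2 → k⟦X⟧) (MvPowerSeries.X 1 ^ p) = y ^ p
        rw [e_pow hw, w1]
    rw [h4] at h3
    rw [ec, ← h3, MvPowerSeries.subst_mul hGs, MvPowerSeries.subst_X hGs, e_mul hw]
    congr 1
    show e (Fin.cons X ![y] : Fin 2 → k⟦X⟧) (MvPowerSeries.X 1 ^ p) = y ^ p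
    rw [e_pow hw, w1]
  have h5 : (fun i => e (Fin.cons X ![y] : Fin 2 → k⟦X⟧)
      (INV_G (MvPowerSeries.X 1 * (1 + MvPowerSeries.X 1 *
        (MvPowerSeries.X 0 * MvPowerSeries.X 1 ^ (p - 2) * s''))) i)) =
      (Fin.cons X ![y + X * ec ![y ^ p] (MvPowerSeries.X 1 * s')] : Fin 2 → k⟦X⟧) := by
    funext i
    fin_cases i
    · exact w0
    · show e (Fin.cons X ![y] : Fin 2 → k⟦X⟧) (MvPowerSeries.X 1 * (1 + MvPowerSeries.X 1 *
        (MvPowerSeries.X 0 * MvPowerSeries.X 1 ^ (p - 2) * s''))) =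
        y + X * ec ![y ^ p] (MvPowerSeries.X 1 * s')
      rw [h2, e_mul hw, e_add hw, e_one hw, e_mul hw, e_mul hw, e_mul hw, e_pow hw, w0, w1]
      have h6 : y ^ p = y * (y * y ^ (p - 2)) := by
        rw [← pow_succ', ← pow_succ']
        congr 1
        omega
      rw [h6]
      ring
  rw [h5] at h1
  exact h1.symm

end ETD
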