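import Pool.Agent.ETD.StB

/-!
# ETD, module LIM: the orbit at a `p`-adic time
-/

set_option autoImplicit false
set_option linter.unusedVariables false

namespace ETD

open PowerSeries

/-- naturals which are congruent in `ℤ_p` are congruent -/
theorem LIM_modEq (p : ℕ) [Fact p.Prime] {m m' j : ℕ}
    (h : (p : ℤ_[p]) ^ j ∣ (m : ℤ_[p]) - (m' : ℤ_[p])) : m ≡ m' [MOD p ^ j] := by
  have h1 : (PadicInt.toZModPow j (m : ℤ_[p]) : ZMod (p ^ j)) =
      PadicInt.toZModPow j (m' : ℤ_[p]) := by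
    rw [← sub_eq_zero, ← map_sub, ← RingHom.mem_ker, PadicInt.ker_toZModPow,
      Ideal.mem_span_singleton]
    exact h
  rw [map_natCast, map_natCast] at h1
  exact (ZMod.natCast_eq_natCast_iff _ _ _).1 h1

theorem LIM_ph {k : Type} [Field k] {p : ℕ} (hp : p ≠ 0) {α a : k⟦X⟧} {E : Polynomial k⟦X⟧}
    (hL : Lc α a E) {W : k⟦X⟧} (hW : X ∣ W) : X ∣ ph p α a E W := by
  obtain ⟨Q, hQ⟩ := hL.hE
  rw [ph, hQ, Polynomial.eval_mul, Polynomial.eval_C]
  exact dvd_add (dvd_add hL.hα (hW.mul_left _)) (dvd_mul_right _ _)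

theorem LIM_iter {k : Type} [Field k] {p : ℕ} (hp : p ≠ 0) {α a : k⟦X⟧} {E : Polynomial k⟦X⟧}
    (hL : Lc α a E) {W : k⟦X⟧} (hW : X ∣ W) (n : ℕ) : X ∣ (ph p α a E)^[n] W := by
  induction n with
  | zero => exact hW
  | succ n ih =>
    rw [Function.iterate_succ_apply']
    exact LIM_ph hp hL ih

theorem thm_LIM (h : St_CON) : St_LIM := by
  intro k _ p _ _ α a E hL W hW β
  have hp : p.Prime := Fact.out
  choose J hJ using h k p α a E hL
  -- a nondecreasing choice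
  let J' : ℕ → ℕ := fun N => ∑ i ∈ Finset.range (N + 1), J i
  have hJ' : ∀ N i : ℕ, i ≤ N → J i ≤ J' N := by
    intro N i hi
    exact Finset.single_le_sum (f := J) (fun _ _ => Nat.zero_le _)
      (Finset.mem_range.2 (Nat.lt_succ_of_le hi))
  let V : k⟦X⟧ := PowerSeries.mk fun m => coeff m ((ph p α a E)^[β.appr (J (m + 1))] W)
  have happ : ∀ N n : ℕ, (p : ℤ_[p]) ^ J' N ∣ (n : ℤ_[p]) - β →
      X ^ N ∣ (ph p α a E)^[n] W - V := by
    intro N n hn
    rw [X_pow_dvd_iff]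
    intro m hm
    rw [map_sub, coeff_mk, ← map_sub]
    have h1 : (p : ℤ_[p]) ^ J (m + 1) ∣ (n : ℤ_[p]) - ((β.appr (J (m + 1)) : ℕ) : ℤ_[p]) := by
      have h2 : (p : ℤ_[p]) ^ J (m + 1) ∣ β - ((β.appr (J (m + 1)) : ℕ) : ℤ_[p]) :=
        Ideal.mem_span_singleton.1 (PadicInt.appr_spec _ β)
      have h3 := dvd_add ((pow_dvd_pow _ (hJ' N (m + 1) hm)).trans hn) h2
      rwa [sub_add_sub_cancel] at h3
    exact (X_pow_dvd_iff.1 (hJ (m + 1) W n _ (LIM_modEq p h1))) m (Nat.lt_succ_self m)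
  refine ⟨V, ?_, fun N => ⟨J' N, happ N⟩⟩
  have h1 := happ 1 (β.appr (J' 1)) (by
    rw [← dvd_neg, neg_sub]
    exact Ideal.mem_span_singleton.1 (PadicInt.appr_spec _ β))
  rw [pow_one] at h1
  exact (dvd_sub_right (LIM_iter hp.ne_zero hL hW _)).1 h1

end ETD
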