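import Pool.Agent.ETD.StB

/-!
# ETD, module LIS: limits of polynomials over `k⟦t⟧`
-/

set_option autoImplicit false
set_option linter.unusedVariables false

namespace ETD

open PowerSeries

theorem LIS_hs (k : Type) [Field k] :
    PowerSeries.HasSubst (MvPowerSeries.X 0 : MvPowerSeries (Fin 2) k) :=
  PowerSeries.HasSubst.X 0

/-- a series in `t` as a series in two variables -/
noncomputable def LIS_i (k : Type) [Field k] : k⟦X⟧ →+* MvPowerSeries (Fin 2) k :=
  (PowerSeries.substAlgHom (LIS_hs k)).toRingHom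

theorem LIS_i_apply {k : Type} [Field k] (b : k⟦X⟧) :
    LIS_i k b = PowerSeries.subst (MvPowerSeries.X 0 : MvPowerSeries (Fin 2) k) b := by
  show PowerSeries.substAlgHom (LIS_hs k) b = _
  rw [PowerSeries.coe_substAlgHom]

theorem LIS_i_X {k : Type} [Field k] : LIS_i k X = MvPowerSeries.X 0 := by
  rw [LIS_i_apply, PowerSeries.subst_X (LIS_hs k)]

theorem LIS_e_i {k : Type} [Field k] {z : Fin 2 → k⟦X⟧} (hz : Sm z) (h0 : z 0 = X) (b : k⟦X⟧) :
    e z (LIS_i k b) = b := by
  rw [LIS_i_apply, e, PowerSeries.subst,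
    MvPowerSeries.subst_comp_subst_apply (PowerSeries.HasSubst.const (LIS_hs k)) hz.hs]
  have h1 : (fun _ : Unit => MvPowerSeries.subst z (MvPowerSeries.X 0 : MvPowerSeries (Fin 2) k)) =
      (MvPowerSeries.X : Unit → MvPowerSeries Unit k) := by
    funext s
    rw [MvPowerSeries.subst_X hz.hs, h0]
    rfl
  rw [h1, MvPowerSeries.subst_self]
  rfl

/-- a polynomial over `k⟦t⟧` as a series in two variables -/
noncomputable def LIS_t (k : Type) [Field k] : Polynomial k⟦X⟧ →+* MvPowerSeries (Fin 2) k :=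
  Polynomial.eval₂RingHom (LIS_i k) (MvPowerSeries.X 1)

theorem LIS_e_t {k : Type} [Field k] {z : Fin 2 → k⟦X⟧} (hz : Sm z) (h0 : z 0 = X)
    (Q : Polynomial k⟦X⟧) : e z (LIS_t k Q) = Q.eval (z 1) := by
  have h1 : ((eH hz : MvPowerSeries (Fin 2) k →+* k⟦X⟧).comp (LIS_t k)) =
      Polynomial.evalRingHom (z 1) := by
    apply Polynomial.ringHom_ext
    · intro b
      show eH hz (LIS_t k (Polynomial.C b)) = _
      rw [eH_apply, LIS_t, Polynomial.coe_eval₂RingHom, Polynomial.eval₂_C, LIS_e_i hz h0,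
        Polynomial.coe_evalRingHom, Polynomial.eval_C]
    · show eH hz (LIS_t k Polynomial.X) = _
      rw [eH_apply, LIS_t, Polynomial.coe_eval₂RingHom, Polynomial.eval₂_X, e_X hz,
        Polynomial.coe_evalRingHom, Polynomial.eval_X]
  have h2 := RingHom.congr_fun h1 Q
  rw [← eH_apply hz]
  exact h2

theorem LIS_t_C {k : Type} [Field k] (N : ℕ) :
    LIS_t k (Polynomial.C (X ^ N)) = MvPowerSeries.X 0 ^ N := by
  rw [LIS_t, Polynomial.coe_eval₂RingHom, Polynomial.eval₂_C, map_pow, LIS_i_X]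

theorem thm_LIS : St_LIS := by
  intro k _ S hS
  choose J hJ using hS
  let J' : ℕ → ℕ := fun N => ∑ i ∈ Finset.range (N + 1), J i
  have hJ' : ∀ N : ℕ, J N ≤ J' N := by
    intro N
    exact Finset.single_le_sum (f := J) (fun _ _ => Nat.zero_le _)
      (Finset.mem_range.2 (Nat.lt_succ_self N))
  have hmono : Monotone J' := by
    intro a b hab
    exact Finset.sum_le_sum_of_subset (Finset.range_mono (by omega))
  have hc : ∀ N j j' : ℕ, J N ≤ j → j ≤ j' → Polynomial.C (X ^ N) ∣ S j' - S j := by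
    intro N j j' hj hjj
    induction j', hjj using Nat.le_induction with
    | base => simp
    | succ m hm ih =>
      have h1 := dvd_add (hJ N m (hj.trans hm)) ih
      rwa [sub_add_sub_cancel] at h1
  have hc' : ∀ N j j' : ℕ, J N ≤ j → J N ≤ j' → Polynomial.C (X ^ N) ∣ S j' - S j := by
    intro N j j' hj hj'
    rcases le_total j j' with h | h
    · exact hc N j j' hj h
    · rw [← dvd_neg, neg_sub]
      exact hc N j' j hj' h
  let s : MvPowerSeries (Fin 2) k := fun d =>
    MvPowerSeries.coeff d (LIS_t k (S (J' (d 0 + 1))))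
  have hs : ∀ N j : ℕ, J' N ≤ j → (MvPowerSeries.X 0 : MvPowerSeries (Fin 2) k) ^ N ∣
      s - LIS_t k (S j) := by
    intro N j hj
    rw [MvPowerSeries.X_pow_dvd_iff]
    intro d hd
    have h1 : J (d 0 + 1) ≤ j := (hJ' _).trans ((hmono hd).trans hj)
    have h2 := map_dvd (LIS_t k) (hc' (d 0 + 1) j (J' (d 0 + 1)) h1 (hJ' _))
    rw [LIS_t_C, map_sub, MvPowerSeries.X_pow_dvd_iff] at h2
    have h3 := h2 d (Nat.lt_succ_self _)
    rw [map_sub] at h3 ⊢
    exact h3
  refine ⟨s, fun N => ⟨J' N, fun j hj y hy => ?_⟩⟩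
  have hz : Sm (Fin.cons X ![y] : Fin 2 → k⟦X⟧) := by
    apply Sm.cons
    intro i
    have : i = 0 := Subsingleton.elim _ _
    rw [this]
    exact hy
  have h1 : (S j).eval y = e (Fin.cons X ![y]) (LIS_t k (S j)) := by
    rw [LIS_e_t hz rfl]
    rfl
  rw [h1, ec, ← e_sub hz]
  obtain ⟨Q, hQ⟩ := hs N j hj
  rw [hQ, e_mul hz, e_pow hz, e_X hz]
  exact dvd_mul_right _ _

end ETD
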