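import Pool.Agent.ETD.StB

/-!
# ETD, module LNU: the local zero set if the second multiplier is one
-/

set_option autoImplicit false
set_option linter.unusedVariables false

namespace ETD

open PowerSeries

private theorem LNU_appr_zero (p : ℕ) [Fact p.Prime] (m : ℕ) : (0 : ℤ_[p]).appr m = 0 := by
  have h1 := PadicInt.appr_spec m (0 : ℤ_[p])
  rw [zero_sub, Ideal.neg_mem_iff, Ideal.mem_span_singleton] at h1
  have h2 : ((p : ℤ_[p]) ^ m) ∣ (((0 : ℤ_[p]).appr m : ℤ) : ℤ_[p]) := by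
    push_cast
    exact h1
  have h3 := (PadicInt.pow_p_dvd_int_iff m _).1 h2
  have h4 : p ^ m ∣ (0 : ℤ_[p]).appr m := by
    exact_mod_cast h3
  exact Nat.eq_zero_of_dvd_of_lt h4 (PadicInt.appr_lt _ _)

private theorem LNU_pw_zero {k : Type} [Field k] (p : ℕ) [Fact p.Prime] (a : k⟦X⟧) :
    pw p a 0 = 1 := by
  ext m
  rw [pw, coeff_mk, LNU_appr_zero, pow_zero]

private theorem LNU_order {k : Type} [Field k] (b : k⟦X⟧) (hb : X ∣ b) (h0 : b ≠ 0) :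
    ∃ (d : ℕ) (u : k⟦X⟧), 0 < d ∧ IsUnit u ∧ b = X ^ d * u := by
  refine ⟨b.order.toNat, divXPowOrder b, ?_, isUnit_divided_by_X_pow_order h0,
    X_pow_order_mul_divXPowOrder.symm⟩
  rcases Nat.eq_zero_or_pos b.order.toNat with h | h
  · exfalso
    have h1 : b = divXPowOrder b := by
      conv_lhs => rw [← X_pow_order_mul_divXPowOrder (f := b), h, pow_zero, one_mul]
    have h2 : IsUnit b := by
      rw [h1]
      exact isUnit_divided_by_X_pow_order h0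
    have h3 : IsUnit (X : k⟦X⟧) := isUnit_of_dvd_unit hb h2
    exact X_prime.not_isUnit h3
  · exact h

private theorem LNU_padic (p : ℕ) [Fact p.Prime] (j : ℕ) (x : ℤ_[p]) (hx : x ≠ 0)
    (h : (p : ℤ_[p]) ^ j ∣ x) : ∃ (i : ℕ) (γ : ℤ_[p]), j ≤ i ∧ IsUnit γ ∧
      x = (p : ℤ_[p]) ^ i * γ := by
  refine ⟨x.valuation, (PadicInt.unitCoeff hx : ℤ_[p]), ?_, Units.isUnit _, ?_⟩
  · rw [← Ideal.mem_span_singleton, PadicInt.mem_span_pow_iff_le_valuation x hx] at h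
    exact h
  · rw [mul_comm]
    exact PadicInt.unitCoeff_spec hx

private theorem LNU_near (p : ℕ) [Fact p.Prime] (i j n : ℕ) (β : ℤ_[p])
    (h : (p : ℤ_[p]) ^ i ∣ (n : ℤ_[p]) - β) :
    ∃ m : ℕ, (p : ℤ_[p]) ^ j ∣ ((p ^ i * m + n : ℕ) : ℤ_[p]) - β := by
  obtain ⟨γ, hγ⟩ := h
  refine ⟨(-γ).appr j, ?_⟩
  have h1 := PadicInt.appr_spec j (-γ)
  rw [Ideal.mem_span_singleton] at h1
  have h2 : ((p ^ i * (-γ).appr j + n : ℕ) : ℤ_[p]) - β =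
      (p : ℤ_[p]) ^ i * (-(-γ - ((-γ).appr j : ℤ_[p]))) := by
    push_cast
    have : (n : ℤ_[p]) = β + (p : ℤ_[p]) ^ i * γ := by rw [← hγ]; ring
    rw [this]
    ring
  rw [h2]
  exact ((dvd_neg).2 h1).mul_left _

theorem thm_LNU (hPWP : St_PWP) (hLOC : St_LOC) (hLIM : St_LIM) (hTAY : St_TAY)
    (hHHH : St_HHH) (hSZU : St_SZU) (hFAC : St_FAC) : St_LNU := by
  intro k _ p _ _ α a α' E E' hL ha hL' hinj h β
  have hp : p.Prime := Fact.out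
  obtain ⟨d, u, hd, hu, hau⟩ := LNU_order (a - 1) hL.ha (sub_ne_zero.2 ha)
  have hP := (hPWP k p a hL.ha).2 d u hd hu hau
  obtain ⟨J, M, hM⟩ := hLOC k p α a E hL ha 0 (dvd_zero _) β
  obtain ⟨ρ₀, hρ₀⟩ := hM M le_rfl
  obtain ⟨V, hV, hVN⟩ := hLIM k p α' 1 E' hL' 0 (dvd_zero _) β
  obtain ⟨ρ₁, hρ₁⟩ := hTAY k (MvPowerSeries.X 1) V 1 1 0 (dvd_zero _)
  obtain ⟨H, hH⟩ := hHHH k ρ₀ ρ₁ h
  obtain ⟨j1, hj1⟩ := hVN 1
  have hρ₁' : ∀ y : k⟦X⟧, X ∣ y → ec ![y] ρ₁ = V + y := by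
    intro y hy
    rw [← hρ₁ y hy]
    have hs : Sm (![0 + 1 * y] : Fin 1 → k⟦X⟧) := by
      intro i
      fin_cases i
      simpa using hy
    have : ec ![0 + 1 * y] (MvPowerSeries.X 1) = y := by
      rw [ec, e_X hs.cons]
      simp
    rw [this, one_mul]
  have hsm : ∀ (n : ℕ) (ζ : k⟦X⟧), (p : ℤ_[p]) ^ j1 ∣ (n : ℤ_[p]) - β → X ∣ ζ →
      Sm (![ζ, (ph p α' 1 E')^[n] 0 - V] : Fin 2 → k⟦X⟧) := by
    intro n ζ h2 h3
    have hv : X ∣ (ph p α' 1 E')^[n] 0 - V := by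
      have := hj1 n h2
      rwa [pow_one] at this
    intro i
    fin_cases i
    · simpa using h3
    · simpa using hv
  have key : ∀ (n : ℕ) (ζ : k⟦X⟧), (p : ℤ_[p]) ^ J ∣ (n : ℤ_[p]) - β →
      (p : ℤ_[p]) ^ j1 ∣ (n : ℤ_[p]) - β → X ∣ ζ → X ^ M * ζ = pw p a ((n : ℤ_[p]) - β) - 1 →
      MvPolynomial.eval ![(ph p α a E)^[n] 0, (ph p α' 1 E')^[n] 0] h =
        ec ![ζ, (ph p α' 1 E')^[n] 0 - V] H := by
    intro n ζ h1 h2 h3 h4
    have hv : X ∣ (ph p α' 1 E')^[n] 0 - V := by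
      have := hj1 n h2
      rwa [pow_one] at this
    rw [← hH _ (hsm n ζ h2 h3), hρ₀ n ζ h1 h3 h4]
    simp only [Matrix.cons_val_zero, Matrix.cons_val_one]
    rw [hρ₁' _ hv, add_sub_cancel]
  have hpi : ∀ j i : ℕ, j ≤ i → p ^ j ≤ p ^ i := fun j i hji =>
    Nat.pow_le_pow_right hp.pos hji
  by_cases H0 : H = 0
  · refine ⟨J + j1 + (M + 1), Or.inl fun n hn => ?_⟩
    have hJ : (p : ℤ_[p]) ^ J ∣ (n : ℤ_[p]) - β := (pow_dvd_pow _ (by omega)).trans hn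
    have hj : (p : ℤ_[p]) ^ j1 ∣ (n : ℤ_[p]) - β := (pow_dvd_pow _ (by omega)).trans hn
    have hζ : ∃ ζ : k⟦X⟧, X ∣ ζ ∧ X ^ M * ζ = pw p a ((n : ℤ_[p]) - β) - 1 := by
      by_cases hx : (n : ℤ_[p]) - β = 0
      · refine ⟨0, dvd_zero _, ?_⟩
        rw [hx, LNU_pw_zero, mul_zero, sub_self]
      · obtain ⟨i, γ, hji, hγ, hxi⟩ := LNU_padic p _ _ hx hn
        obtain ⟨w, hw, hpw⟩ := hP i γ hγ
        have h1 : M + 1 ≤ d * p ^ i := by
          calc M + 1 ≤ i := by omega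
            _ ≤ p ^ i := (Nat.lt_pow_self hp.one_lt).le
            _ ≤ d * p ^ i := Nat.le_mul_of_pos_left _ hd
        refine ⟨X ^ (d * p ^ i - M) * w, (dvd_pow_self _ (by omega)).mul_right _, ?_⟩
        rw [hxi, hpw, ← mul_assoc, ← pow_add, Nat.add_sub_cancel' (by omega)]
    obtain ⟨ζ, hζ1, hζ2⟩ := hζ
    rw [key n ζ hJ hj hζ1 hζ2, H0, ec, e_zero (hsm n ζ hj hζ1).cons]
  · obtain ⟨l, m, c, hlmc⟩ := hFAC k H H0
    obtain ⟨J₁, hJ₁⟩ := hSZU k p α' E' hL' (m * d + 1)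
    refine ⟨J + j1 + J₁ + (M + c + 1), Or.inr ?_⟩
    have hfin1 : {n : ℕ | (n : ℤ_[p]) = β}.Finite := by
      apply Set.Subsingleton.finite
      intro x hx y hy
      have : (x : ℤ_[p]) = (y : ℤ_[p]) := by
        rw [hx, hy]
      exact_mod_cast this
    have hfin2 : {n : ℕ | (ph p α' 1 E')^[n] 0 = V}.Finite := by
      apply Set.Subsingleton.finite
      intro x hx y hy
      apply hinj
      simp only
      rw [hx, hy]
    refine (hfin1.union hfin2).subset ?_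
    rintro n ⟨hn, hn0⟩
    by_contra hcon
    rw [Set.mem_union, not_or] at hcon
    obtain ⟨hc1, hc2⟩ := hcon
    have hx : (n : ℤ_[p]) - β ≠ 0 := sub_ne_zero.2 hc1
    have hv0 : (ph p α' 1 E')^[n] 0 - V ≠ 0 := sub_ne_zero.2 hc2
    have hJ : (p : ℤ_[p]) ^ J ∣ (n : ℤ_[p]) - β := (pow_dvd_pow _ (by omega)).trans hn
    have hj : (p : ℤ_[p]) ^ j1 ∣ (n : ℤ_[p]) - β := (pow_dvd_pow _ (by omega)).trans hn
    obtain ⟨i, γ, hji, hγ, hxi⟩ := LNU_padic p _ _ hx hn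
    obtain ⟨w, hw, hpw⟩ := hP i γ hγ
    have hii : i < p ^ i := Nat.lt_pow_self hp.one_lt
    have h1 : p ^ i ≤ d * p ^ i := Nat.le_mul_of_pos_left _ hd
    have hζ1 : X ∣ X ^ (d * p ^ i - M) * w := (dvd_pow_self _ (by omega)).mul_right _
    have hζ2 : X ^ M * (X ^ (d * p ^ i - M) * w) = pw p a ((n : ℤ_[p]) - β) - 1 := by
      rw [hxi, hpw, ← mul_assoc, ← pow_add, Nat.add_sub_cancel' (by omega)]
    rw [key n _ hJ hj hζ1 hζ2] at hn0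
    have hni : (p : ℤ_[p]) ^ i ∣ (n : ℤ_[p]) - β := ⟨γ, hxi⟩
    have hN : (X : k⟦X⟧) ^ ((m * d + 1) * p ^ i) ∣ (ph p α' 1 E')^[n] 0 - V := by
      obtain ⟨j3, hj3⟩ := hVN ((m * d + 1) * p ^ i)
      obtain ⟨m', hm'⟩ := LNU_near p i j3 n β hni
      have h2 := hj3 _ hm'
      rw [Function.iterate_add_apply] at h2
      have h3 := hJ₁ i m' ((ph p α' 1 E')^[n] 0) (by omega)
      have h4 := dvd_sub h2 h3
      have h5 : (ph p α' 1 E')^[p ^ i * m'] ((ph p α' 1 E')^[n] 0) - V -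
          ((ph p α' 1 E')^[p ^ i * m'] ((ph p α' 1 E')^[n] 0) - (ph p α' 1 E')^[n] 0) =
          (ph p α' 1 E')^[n] 0 - V := by ring
      rwa [h5] at h4
    refine hlmc (X ^ (d * p ^ i - M) * w) _ w (d * p ^ i - M) ((m * d + 1) * p ^ i) hw rfl
      (by omega) hN ?_ hv0 hn0
    calc m * (d * p ^ i - M) + c ≤ m * (d * p ^ i) + c := by gcongr; omega
      _ < m * (d * p ^ i) + p ^ i := by omega
      _ = (m * d + 1) * p ^ i := by ring

end ETD
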