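import Pool.Agent.ETD.StB

/-!
# ETD, module LOC: the local parametrisation of the orbits
-/

set_option autoImplicit false

namespace ETD

open PowerSeries

private theorem LOC_zero {k : Type} [Field k] {F : k⟦X⟧} (h : ∀ N : ℕ, (X : k⟦X⟧) ^ N ∣ F) :
    F = 0 := by
  ext m
  rw [map_zero]
  exact X_pow_dvd_iff.1 (h (m + 1)) m (Nat.lt_succ_self m)

private theorem LOC_cancel {k : Type} [Field k] {M : ℕ} {A B : k⟦X⟧}
    (h : (X : k⟦X⟧) ^ M * A = X ^ M * B) : A = B :=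
  mul_left_cancel₀ (pow_ne_zero _ X_ne_zero) h

private theorem LOC_sm {k : Type} [Field k] {y : k⟦X⟧} (h : X ∣ y) : Sm (![y] : Fin 1 → k⟦X⟧) := by
  intro i
  fin_cases i
  exact h

private theorem LOC_ec_congr {k : Type} [Field k] {y y' : k⟦X⟧} (hy : X ∣ y) (hy' : X ∣ y')
    (F : MvPowerSeries (Fin 2) k) (N : ℕ) (h : X ^ N ∣ y - y') :
    X ^ N ∣ ec ![y] F - ec ![y'] F := by
  refine e_congr (LOC_sm hy).cons (LOC_sm hy').cons F N ?_
  intro i
  refine Fin.cases ?_ (fun i => ?_) i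
  · simp
  · fin_cases i
    simpa using h

private theorem LOC_ph {k : Type} [Field k] (p : ℕ) {α a : k⟦X⟧} {E : Polynomial k⟦X⟧}
    (h : Lc α a E) {W : k⟦X⟧} (hW : X ∣ W) : X ∣ ph p α a E W := by
  obtain ⟨E', hE'⟩ := h.hE
  refine dvd_add (dvd_add h.hα (hW.mul_left _)) ?_
  rw [hE', Polynomial.eval_mul, Polynomial.eval_C]
  exact dvd_mul_right _ _

theorem thm_LOC (hPWB : St_PWB) (hLOG : St_LOG) (hLIM : St_LIM) (hTAY : St_TAY)
    (hSCL : St_SCL) (hINV : St_INV) : St_LOC := by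
  intro k _ p _ _ α a E hL ha W hW β
  have : CharP k⟦X⟧ p := charP_of_injective_algebraMap (algebraMap k k⟦X⟧).injective p
  have hp2 : 2 ≤ p := (Fact.out : p.Prime).two_le
  have hp0 : p ≠ 0 := by omega
  have hXp : ∀ {y : k⟦X⟧}, X ∣ y → X ∣ y ^ p := fun h => dvd_pow h hp0
  obtain ⟨P1, P2, P3, P4⟩ := hPWB k p a hL.ha
  obtain ⟨c, s, hs⟩ := hLOG k p α a E hL ha
  obtain ⟨V, hV, hlim⟩ := hLIM k p α a E hL W hW β
  have hWn : ∀ n : ℕ, X ∣ (ph p α a E)^[n] W := by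
    intro n
    induction n with
    | zero => exact hW
    | succ n ih =>
      rw [Function.iterate_succ_apply']
      exact LOC_ph p hL ih
  let S : k⟦X⟧ → k⟦X⟧ := fun y => X ^ c * y + ec ![y ^ p] s
  have hS : ∀ n : ℕ, S ((ph p α a E)^[n] W) = a ^ n * S W := by
    intro n
    induction n with
    | zero => rw [pow_zero, one_mul]; rfl
    | succ n ih =>
      rw [Function.iterate_succ_apply', pow_succ']
      have h1 := hs _ (hWn n)
      show X ^ c * ph p α a E ((ph p α a E)^[n] W) + ec ![ph p α a E ((ph p α a E)^[n] W) ^ p] s = _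
      rw [h1, mul_assoc, ← ih]
  -- the value at the limit
  have hSV : S V = pw p a β * S W := by
    rw [← sub_eq_zero]
    refine LOC_zero fun N => ?_
    obtain ⟨j, hj⟩ := hlim N
    set i : ℕ := max j N with hi
    have hn : (p : ℤ_[p]) ^ i ∣ ((β.appr i : ℕ) : ℤ_[p]) - β := by
      have h1 := PadicInt.appr_spec i β
      rw [Ideal.mem_span_singleton] at h1
      rw [← neg_sub]
      exact (dvd_neg).mpr h1
    have h1 : X ^ N ∣ (ph p α a E)^[β.appr i] W - V :=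
      hj _ ((pow_dvd_pow _ (le_max_left j N)).trans hn)
    have h2 : X ^ N ∣ pw p a ((β.appr i : ℕ) : ℤ_[p]) - pw p a β := by
      have h3 := P4 1 i _ β (by rw [pow_one]; exact hL.ha) hn
      refine (pow_dvd_pow _ ?_).trans h3
      rw [one_mul]
      exact (le_max_right j N).trans (Nat.lt_pow_self (by omega)).le
    have h4 : X ^ N ∣ S ((ph p α a E)^[β.appr i] W) - S V := by
      have h5 : S ((ph p α a E)^[β.appr i] W) - S V = X ^ c * ((ph p α a E)^[β.appr i] W - V) +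
          (ec ![(ph p α a E)^[β.appr i] W ^ p] s - ec ![V ^ p] s) := by
        show (X ^ c * _ + ec _ s) - (X ^ c * _ + ec _ s) = _
        ring
      rw [h5]
      refine dvd_add (h1.mul_left _) (LOC_ec_congr (hXp (hWn _)) (hXp hV) s N ?_)
      exact h1.trans (sub_dvd_pow_sub_pow _ _ p)
    have h6 : S V - pw p a β * S W = -(S ((ph p α a E)^[β.appr i] W) - S V) +
        (pw p a ((β.appr i : ℕ) : ℤ_[p]) - pw p a β) * S W := by
      rw [hS, P1]
      ring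
    rw [h6]
    exact dvd_add ((dvd_neg).mpr h4) (h2.mul_right _)
  have hdiff : ∀ n : ℕ, S ((ph p α a E)^[n] W) - S V =
      (pw p a ((n : ℤ_[p]) - β) - 1) * S V := by
    intro n
    have h1 : pw p a (n : ℤ_[p]) = pw p a β * pw p a ((n : ℤ_[p]) - β) := by
      rw [← P2, add_sub_cancel]
    rw [hS, ← P1, h1, hSV]
    ring
  obtain ⟨s', hs'⟩ := hTAY k s 0 1 1 (V ^ p) (hXp hV)
  have hA : 2 * c + 2 ≤ p * (c + 1) := by nlinarith
  obtain ⟨s₁, hs₁, hscl⟩ := hSCL k s' (p * (c + 1)) (2 * c + 2) hA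
  obtain ⟨R, hR⟩ := hINV k p s₁ hs₁
  obtain ⟨J, hJ⟩ := hlim (c + 2)
  refine ⟨J, 2 * c + 1, fun M hM => ?_⟩
  obtain ⟨ρ, hρ⟩ := hTAY k R V (X ^ (c + 1)) (X ^ (M - (2 * c + 1)) * S V) 0 (dvd_zero _)
  refine ⟨ρ, fun n ζ hn hζ hζM => ?_⟩
  obtain ⟨w, hw⟩ := hJ n hn
  set ω' : k⟦X⟧ := X * w with hω'
  have hω : (ph p α a E)^[n] W = V + X ^ (c + 1) * ω' := by
    rw [hω', ← mul_assoc, ← pow_succ, ← hw]
    ring
  have hXω : X ∣ ω' := dvd_mul_right _ _
  have hpow : ((ph p α a E)^[n] W) ^ p = V ^ p + X ^ (p * (c + 1)) * ω' ^ p := by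
    rw [hω, add_pow_char, mul_pow, ← pow_mul, mul_comm (c + 1) p]
  have hXy : X ∣ X ^ (p * (c + 1)) * ω' ^ p := (hXp hXω).mul_left _
  have e1 : ec ![((ph p α a E)^[n] W) ^ p] s = ec ![X ^ (p * (c + 1)) * ω' ^ p] s' := by
    rw [← hs' _ hXy, hpow, zero_add, one_mul, one_mul]
  have e2 : ec ![V ^ p] s = ec ![0] s' := by
    rw [← hs' 0 (dvd_zero _), zero_add, one_mul, mul_zero, add_zero]
  have e3 := hscl (ω' ^ p) (hXp hXω)
  have e4 : X ^ (2 * c + 1) * (ω' + X * ec ![ω' ^ p] s₁) =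
      X ^ (2 * c + 1) * (X ^ (M - (2 * c + 1)) * S V * ζ) := by
    have h1 := hdiff n
    rw [← hζM] at h1
    have h2 : S ((ph p α a E)^[n] W) - S V = X ^ c * (X ^ (c + 1) * ω') +
        (ec ![((ph p α a E)^[n] W) ^ p] s - ec ![V ^ p] s) := by
      show (X ^ c * _ + ec _ s) - (X ^ c * _ + ec _ s) = _
      rw [hω]
      ring
    rw [h2, e1, e2, e3] at h1
    have h3 : (X : k⟦X⟧) ^ M = X ^ (2 * c + 1) * X ^ (M - (2 * c + 1)) := by
      rw [← pow_add, Nat.add_sub_cancel' hM]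
    rw [h3] at h1
    calc X ^ (2 * c + 1) * (ω' + X * ec ![ω' ^ p] s₁)
        = X ^ c * (X ^ (c + 1) * ω') + X ^ (2 * c + 2) * ec ![ω' ^ p] s₁ := by ring
      _ = X ^ (2 * c + 1) * X ^ (M - (2 * c + 1)) * ζ * S V := h1
      _ = _ := by ring
  have e5 := LOC_cancel e4
  have e6 := hR ω' hXω
  rw [e5] at e6
  have e7 := hρ ζ hζ
  rw [zero_add, e6] at e7
  rw [← e7, hω]

end ETD
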