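import Pool.Agent.ETD.StB

/-!
# ETD, module LOG: the logarithm
-/

set_option autoImplicit false
set_option linter.unusedVariables false

namespace ETD

open PowerSeries

private theorem LOG_zero {k : Type} [Field k] {d : k⟦X⟧} (h : ∀ N : ℕ, (X : k⟦X⟧) ^ N ∣ d) :
    d = 0 := by
  ext m
  have h1 := (X_pow_dvd_iff.1 (h (m + 1))) m (Nat.lt_succ_self m)
  rw [h1, map_zero]

private theorem LOG_ph {k : Type} [Field k] {p : ℕ} {α a : k⟦X⟧} {E : Polynomial k⟦X⟧}
    (h : Lc α a E) {W : k⟦X⟧} (hW : X ∣ W) : X ∣ ph p α a E W := by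
  unfold ph
  refine dvd_add (dvd_add h.hα (hW.mul_left a)) ?_
  obtain ⟨E', hE'⟩ := h.hE
  rw [hE', Polynomial.eval_mul, Polynomial.eval_C]
  exact dvd_mul_right _ _

theorem thm_LOG (hA : St_LGA) (hL : St_LIS) : St_LOG := by
  intro k _ p _ _ α a E hLc ha
  obtain ⟨c, j₀, S, h1, h2, h3⟩ := hA k p α a E hLc ha
  obtain ⟨s, hs⟩ := hL k S h2
  refine ⟨c, s, fun W hW => ?_⟩
  have hp : p ≠ 0 := (Fact.out : p.Prime).ne_zero
  have hchar : CharP k⟦X⟧ p := charP_of_injective_ringHom (C_injective (R := k)) p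
  have hfW : X ∣ ph p α a E W := LOG_ph hLc hW
  rw [← sub_eq_zero]
  apply LOG_zero
  intro N
  obtain ⟨j₁, hj₁⟩ := hs N
  obtain ⟨j₂, hj₂⟩ := h3 N
  obtain ⟨j, hj⟩ : ∃ j, j = max j₀ (max j₁ j₂) := ⟨_, rfl⟩
  have e0 : j₀ ≤ j := by rw [hj]; exact le_max_left _ _
  have e1 : j₁ ≤ j := by rw [hj]; exact (le_max_left _ _).trans (le_max_right _ _)
  have e2 : j₂ ≤ j := by rw [hj]; exact (le_max_right _ _).trans (le_max_right _ _)
  have b1 := hj₁ j e1 (ph p α a E W ^ p) (hfW.trans (dvd_pow_self _ hp))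
  have b2 := hj₁ j e1 (W ^ p) (hW.trans (dvd_pow_self _ hp))
  have c1 := h1 j e0 W
  have c2 := h1 j e0 (ph p α a E W)
  have c3 := hj₂ j e2 W
  set u : k⟦X⟧ := a ^ p ^ j - 1 with hu
  have hu0 : u ≠ 0 := by
    rw [hu]
    have : a ^ p ^ j - 1 = (a - 1) ^ p ^ j := by rw [sub_pow_char_pow, one_pow]
    rw [this]
    exact pow_ne_zero _ (sub_ne_zero.2 ha)
  set f : k⟦X⟧ → k⟦X⟧ := ph p α a E with hf
  have hcomm : f^[p ^ j] (f W) = f (f^[p ^ j] W) := by
    rw [← Function.iterate_succ_apply, Function.iterate_succ_apply']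
  set D : k⟦X⟧ := f^[p ^ j] W with hD
  have hfD : f D - f W = a * (D - W) + (E.eval (D ^ p) - E.eval (W ^ p)) := by
    rw [hf]
    unfold ph
    ring
  have hdvd : (D - W) ^ p ∣ E.eval (D ^ p) - E.eval (W ^ p) := by
    rw [sub_pow_char]
    exact Polynomial.sub_dvd_eval_sub _ _ _
  obtain ⟨r, hr⟩ := c3.trans hdvd
  -- the difference for `S j`
  have hΘ : X ^ c * f W + (S j).eval (f W ^ p) - a * (X ^ c * W + (S j).eval (W ^ p)) =
      X ^ N * (X ^ c * r) := by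
    apply mul_left_cancel₀ hu0
    have : u * (X ^ c * f W + (S j).eval (f W ^ p) - a * (X ^ c * W + (S j).eval (W ^ p))) =
        u * (X ^ c * f W + (S j).eval (f W ^ p)) -
          a * (u * (X ^ c * W + (S j).eval (W ^ p))) := by ring
    rw [this, c1, c2, hcomm]
    have h5 : X ^ c * (f D - f W) - a * (X ^ c * (D - W)) =
        X ^ c * (E.eval (D ^ p) - E.eval (W ^ p)) := by
      rw [hfD]
      ring
    rw [h5, hr]
    ring
  have hfin : X ^ c * f W + ec ![f W ^ p] s - a * (X ^ c * W + ec ![W ^ p] s) =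
      (X ^ c * f W + (S j).eval (f W ^ p) - a * (X ^ c * W + (S j).eval (W ^ p))) +
        ((ec ![f W ^ p] s - (S j).eval (f W ^ p)) - a * (ec ![W ^ p] s - (S j).eval (W ^ p))) := by
    ring
  rw [hfin, hΘ]
  exact dvd_add (dvd_mul_right _ _) (dvd_sub b1 (b2.mul_left a))

end ETD
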