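import Pool.Agent.ETD.StC

/-!
# ETD: local structure of the zero set, both multipliers different from `1`
-/

set_option autoImplicit false
set_option linter.unusedVariables false

namespace ETD

open PowerSeries

/-- finite unions -/
private lemma LST_union (hSUN : St_SUN) {ι : Type} (p : ℕ) (R : ι → Set ℕ) (F : Set ι)
    (hF : F.Finite) (hR : ∀ γ ∈ F, PSet p (R γ)) : PSet p {n | ∃ γ ∈ F, n ∈ R γ} := by
  induction F, hF using Set.Finite.induction_on with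
  | empty =>
    have : {n | ∃ γ ∈ (∅ : Set ι), n ∈ R γ} = (∅ : Set ℕ) := by
      ext n
      simp
    rw [this]
    exact (hSUN p).1 _ Set.finite_empty
  | @insert γ F hγ _ ih =>
    have : {n | ∃ γ' ∈ insert γ F, n ∈ R γ'} = R γ ∪ {n | ∃ γ' ∈ F, n ∈ R γ'} := by
      ext n
      constructor
      · rintro ⟨γ', hγ', hn⟩
        rcases hγ' with rfl | h
        · exact Or.inl hn
        · exact Or.inr ⟨γ', h, hn⟩
      · rintro (hn | ⟨γ', h, hn⟩)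
        · exact ⟨γ, Set.mem_insert _ _, hn⟩
        · exact ⟨γ', Set.mem_insert_of_mem _ h, hn⟩
    rw [this]
    exact (hSUN p).2.1 _ _ (hR γ (Set.mem_insert _ _))
      (ih fun γ' h => hR γ' (Set.mem_insert_of_mem _ h))

/-- the natural numbers in a ball -/
private lemma LST_ball (p : ℕ) [Fact p.Prime] (β : ℤ_[p]) (J : ℕ) :
    {n : ℕ | (p : ℤ_[p]) ^ J ∣ (n : ℤ_[p]) - β} = {n : ℕ | ∃ k : ℕ, n = p ^ J * k + β.appr J} := by
  have h0 : (p : ℤ_[p]) ^ J ∣ β - (β.appr J : ℤ_[p]) :=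
    Ideal.mem_span_singleton.1 (PadicInt.appr_spec J β)
  have h1 : ∀ n : ℕ, (p : ℤ_[p]) ^ J ∣ (n : ℤ_[p]) - β ↔ n ≡ β.appr J [MOD p ^ J] := by
    intro n
    have e1 : (n : ℤ_[p]) - β = (((n : ℤ) - (β.appr J : ℤ) : ℤ) : ℤ_[p]) -
        (β - (β.appr J : ℤ_[p])) := by
      push_cast
      ring
    rw [e1, dvd_sub_left h0, PadicInt.pow_p_dvd_int_iff]
    have e2 : ((p : ℤ) ^ J ∣ (n : ℤ) - (β.appr J : ℤ)) ↔ β.appr J ≡ n [MOD p ^ J] := by
      rw [Nat.modEq_iff_dvd]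
      push_cast
      rfl
    rw [e2]
    exact ⟨fun h => h.symm, fun h => h.symm⟩
  ext n
  change (p : ℤ_[p]) ^ J ∣ (n : ℤ_[p]) - β ↔ ∃ k : ℕ, n = p ^ J * k + β.appr J
  rw [h1]
  constructor
  · intro h
    refine ⟨n / p ^ J, ?_⟩
    have h2 : n % p ^ J = β.appr J := by
      rw [h, Nat.mod_eq_of_lt (PadicInt.appr_lt β J)]
    rw [← h2, Nat.div_add_mod]
  · rintro ⟨k, rfl⟩
    rw [Nat.ModEq, Nat.mul_add_mod]

/-- [LST] Local structure of the zero set, both `a j ≠ 1`. -/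
theorem thm_LST (hLZS : St_LZS) (hDIC : St_DIC) (hFRB : St_FRB) (hSPQ : St_SPQ)
    (hSUN : St_SUN) : St_LST := by
  intro k _ p _ _ s hFr α a E hLc ha h β
  obtain ⟨i, I, hI⟩ := hLZS k p s hFr α a E hLc ha h β
  have hX : ∀ j, X ∣ a j - 1 := fun j => (hLc j).ha
  have hs := hFr.1
  refine ⟨s * i, ?_⟩
  set Z : Set ℕ := {n : ℕ |
    MvPolynomial.eval ![(ph p (α 0) (a 0) (E 0))^[n] 0, (ph p (α 1) (a 1) (E 1))^[n] 0] h = 0 ∧
      (p : ℤ_[p]) ^ (s * i) ∣ (n : ℤ_[p]) - β} with hZ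
  have hfac : ∀ n : ℕ, (p : ℤ_[p]) ^ (s * i) ∣ (n : ℤ_[p]) - β →
      ∃ γ : ℤ_[p], (n : ℤ_[p]) = β + ((p : ℤ_[p]) ^ s) ^ i * γ := by
    rintro n ⟨γ, hγ⟩
    refine ⟨γ, ?_⟩
    rw [← pow_mul, ← hγ]
    ring
  rcases hDIC k p s hFr a hX ⟨0, ha 0⟩ I with hU | hfin
  · have h1 : Z = {n : ℕ | ∃ k : ℕ, n = p ^ (s * i) * k + β.appr (s * i)} := by
      rw [← LST_ball]
      ext n
      constructor
      · intro hn
        exact hn.2
      · intro hn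
        obtain ⟨γ, hγ⟩ := hfac n hn
        exact ⟨(hI n γ hγ).2 (hU ▸ Set.mem_univ γ), hn⟩
    rw [h1]
    exact (hSUN p).2.2 _ _ (pow_pos (Fact.out : p.Prime).pos _)
  · set F₀ : Set ℤ_[p] := {γ | γ ∈ Bs p a I ∧ ¬ (p : ℤ_[p]) ^ s ∣ γ} with hF₀
    have h1 : Z = (Z ∩ {n : ℕ | (n : ℤ_[p]) = β}) ∪ {n | ∃ γ ∈ F₀,
        n ∈ {n : ℕ | ∃ j : ℕ, (n : ℤ_[p]) = β +
          ((p : ℤ_[p]) ^ s) ^ j * (((p : ℤ_[p]) ^ s) ^ i * γ)}} := by
      ext n
      constructor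
      · intro hn
        by_cases hnβ : (n : ℤ_[p]) = β
        · exact Or.inl ⟨hn, hnβ⟩
        · obtain ⟨γ', hγ'⟩ := hfac n hn.2
          have h2 : γ' ∈ Bs p a I := (hI n γ' hγ').1 hn.1
          have h3 : γ' ≠ 0 := by
            rintro rfl
            rw [mul_zero, add_zero] at hγ'
            exact hnβ hγ'
          have hnu : ¬ IsUnit ((p : ℤ_[p]) ^ s) := by
            rw [isUnit_pow_iff hs.ne']
            exact PadicInt.prime_p.not_isUnit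
          have hfm : FiniteMultiplicity ((p : ℤ_[p]) ^ s) γ' :=
            FiniteMultiplicity.of_not_isUnit hnu h3
          obtain ⟨γ, hγ, hγ2⟩ := hfm.exists_eq_pow_mul_and_not_dvd
          refine Or.inr ⟨γ, ⟨?_, hγ2⟩, multiplicity ((p : ℤ_[p]) ^ s) γ', ?_⟩
          · rw [hγ] at h2
            exact (hFRB k p s hFr 2 a hX I _ γ).1 h2
          · rw [hγ', mul_left_comm, ← hγ]
      · rintro (hn | ⟨γ, hγ, j, hj⟩)
        · exact hn.1
        · have h2 : (n : ℤ_[p]) = β + ((p : ℤ_[p]) ^ s) ^ i * (((p : ℤ_[p]) ^ s) ^ j * γ) := by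
            rw [hj]
            ring
          refine ⟨(hI n _ h2).2 ((hFRB k p s hFr 2 a hX I j γ).2 hγ.1), ?_⟩
          rw [h2, pow_mul]
          exact ⟨((p : ℤ_[p]) ^ s) ^ j * γ, by ring⟩
    rw [h1]
    refine (hSUN p).2.1 _ _ ((hSUN p).1 _ ?_) ?_
    · refine Set.Subsingleton.finite fun n hn m hm => ?_
      have h2 : (n : ℤ_[p]) = m := hn.2.trans hm.2.symm
      exact_mod_cast h2
    · exact LST_union hSUN p (fun γ => {n : ℕ | ∃ j : ℕ, (n : ℤ_[p]) = β +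
          ((p : ℤ_[p]) ^ s) ^ j * (((p : ℤ_[p]) ^ s) ^ i * γ)}) F₀ hfin
        fun γ _ => hSPQ p s hs β _

end ETD
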