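import Pool.Agent.ETD.StB

/-!
# ETD: the zero set near a `p`-adic exponent, both multipliers different from `1`
-/

set_option autoImplicit false
set_option linter.unusedVariables false

namespace ETD

open PowerSeries

/-- the rescaled parameter -/
private lemma LZS_zeta {k : Type} [Field k] (z : k⟦X⟧) (hz : X ∣ z) (M q : ℕ) (hq : q ≠ 0)
    (hMq : M < q) : ∃ ζ : k⟦X⟧, X ∣ ζ ∧ X ^ M * ζ = expand q hq z := by
  obtain ⟨w, rfl⟩ := hz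
  refine ⟨X ^ (q - M) * expand q hq w, ?_, ?_⟩
  · exact (dvd_pow_self _ (by omega)).mul_right _
  · rw [map_mul, expand_X, ← mul_assoc, ← pow_add, Nat.add_sub_cancel' hMq.le]

/-- [LZS] The zero set near `β`. -/
theorem thm_LZS (hPWB : St_PWB) (hPWP : St_PWP) (hLOC : St_LOC) (hHHH : St_HHH)
    (hDIG : St_DIG) : St_LZS := by
  intro k _ p _ _ s hFr α a E hLc ha h β
  obtain ⟨J₀, M₀, h₀⟩ := hLOC k p (α 0) (a 0) (E 0) (hLc 0) (ha 0) 0 (dvd_zero _) β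
  obtain ⟨J₁, M₁, h₁⟩ := hLOC k p (α 1) (a 1) (E 1) (hLc 1) (ha 1) 0 (dvd_zero _) β
  set M := max M₀ M₁ with hM
  obtain ⟨ρ₀, hρ₀⟩ := h₀ M (le_max_left _ _)
  obtain ⟨ρ₁, hρ₁⟩ := h₁ M (le_max_right _ _)
  obtain ⟨H, hH⟩ := hHHH k ρ₀ ρ₁ h
  obtain ⟨hD1, q₀, hD2⟩ := hDIG k 2 M H
  have hs := hFr.1
  have hp2 : 2 ≤ p := (Fact.out : p.Prime).two_le
  set i := q₀ + M + J₀ + J₁ + 2 with hi
  set q := (p ^ s) ^ i with hq
  have hqi : i < q := by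
    have h2 : 2 ≤ p ^ s := hp2.trans (Nat.le_self_pow hs.ne' p)
    exact Nat.lt_two_pow_self.trans_le (Nat.pow_le_pow_left h2 i)
  have hq0 : q ≠ 0 := by omega
  have hsi : i ≤ s * i := Nat.le_mul_of_pos_left i hs
  refine ⟨i, dI M H, fun n γ hn => ?_⟩
  have hnβ : (n : ℤ_[p]) - β = (p : ℤ_[p]) ^ (s * i) * γ := by
    rw [hn, pow_mul]
    ring
  have hqs : p ^ (s * i) = q := by rw [hq, pow_mul]
  have hz : Sm (pt p a γ) := fun j => (hPWB k p (a j) (hLc j).ha).2.2.1 γ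
  -- the powers of the multipliers
  have hpw : ∀ j, pw p (a j) ((n : ℤ_[p]) - β) - 1 = expand q hq0 (pt p a γ j) := by
    intro j
    have hchar : CharP k⟦X⟧ p :=
      charP_of_injective_ringHom (f := PowerSeries.C) PowerSeries.C_injective p
    rw [hnβ, (hPWP k p (a j) (hLc j).ha).1 (s * i) γ, ← hFr.2 i hq0, pt, ← hq, ← hqs,
      sub_pow_char_pow, one_pow]
  obtain ⟨ζ₀, hζ₀, hζ₀'⟩ := LZS_zeta (pt p a γ 0) (hz 0) M q hq0 (by omega)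
  obtain ⟨ζ₁, hζ₁, hζ₁'⟩ := LZS_zeta (pt p a γ 1) (hz 1) M q hq0 (by omega)
  have hζ : Sm ![ζ₀, ζ₁] := fun j => by fin_cases j; exacts [hζ₀, hζ₁]
  have hζ' : ∀ j, X ^ M * ![ζ₀, ζ₁] j = expand q hq0 (pt p a γ j) := fun j => by
    fin_cases j; exacts [hζ₀', hζ₁']
  have hJ₀ : (p : ℤ_[p]) ^ J₀ ∣ (n : ℤ_[p]) - β := by
    rw [hnβ]
    exact (pow_dvd_pow _ (by omega)).mul_right _
  have hJ₁ : (p : ℤ_[p]) ^ J₁ ∣ (n : ℤ_[p]) - β := by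
    rw [hnβ]
    exact (pow_dvd_pow _ (by omega)).mul_right _
  have e₀ := hρ₀ n ζ₀ hJ₀ hζ₀ (by rw [hζ₀', hpw 0])
  have e₁ := hρ₁ n ζ₁ hJ₁ hζ₁ (by rw [hζ₁', hpw 1])
  have e₂ : MvPolynomial.eval ![(ph p (α 0) (a 0) (E 0))^[n] 0, (ph p (α 1) (a 1) (E 1))^[n] 0] h =
      ec ![ζ₀, ζ₁] H := by
    rw [e₀, e₁]
    exact hH ![ζ₀, ζ₁] hζ
  rw [e₂]
  constructor
  · intro h0
    exact hD2 q hq0 (by omega) (pt p a γ) ![ζ₀, ζ₁] hz hζ hζ' h0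
  · intro h0
    exact hD1 q hq0 (by omega) (pt p a γ) ![ζ₀, ζ₁] hz hζ hζ' h0

end ETD
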