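import Pool.Agent.ETD.StC

/-!
# ETD, module NNN: the zero set if both `a j ≠ 1` (helper75)
-/

set_option autoImplicit false
set_option linter.unusedVariables false

namespace ETD

open PowerSeries

theorem thm_NNN (h1 : St_FRO) (h2 : St_LST) (h3 : St_CPT) : St_NNN := by
  intro k _ _ p _ _ α a E hL ha h
  obtain ⟨s, hs⟩ := h1 k p
  exact h3 p _ fun β => h2 k p s hs α a E hL ha h β

end ETD
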