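import Pool.Agent.ETD.StA

/-!
# ETD, [ORD]: series of order at least `m` are in the power `m` of the maximal ideal
-/

set_option autoImplicit false

namespace ETD

open PowerSeries

/-- the part of `F` which is divided by `X i` -/
private noncomputable def ORD_G {k : Type} [Field k] {n : ℕ} (F : MvPowerSeries (Fin n) k)
    (i : Fin n) : MvPowerSeries (Fin n) k := fun d =>
  haveI := Classical.dec (∀ j < i, (d + Finsupp.single i 1 : Fin n →₀ ℕ) j = 0)
  if ∀ j < i, (d + Finsupp.single i 1 : Fin n →₀ ℕ) j = 0 then
    MvPowerSeries.coeff (d + Finsupp.single i 1) F else 0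

private theorem ORD_coeff_G {k : Type} [Field k] {n : ℕ} (F : MvPowerSeries (Fin n) k)
    (i : Fin n) (d : Fin n →₀ ℕ) (h : ∀ j < i, (d + Finsupp.single i 1 : Fin n →₀ ℕ) j = 0) :
    MvPowerSeries.coeff d (ORD_G F i) = MvPowerSeries.coeff (d + Finsupp.single i 1) F := by
  show ORD_G F i d = _
  unfold ORD_G
  rw [if_pos h]

private theorem ORD_coeff_G' {k : Type} [Field k] {n : ℕ} (F : MvPowerSeries (Fin n) k)
    (i : Fin n) (d : Fin n →₀ ℕ) (h : ¬ ∀ j < i, (d + Finsupp.single i 1 : Fin n →₀ ℕ) j = 0) :
    MvPowerSeries.coeff d (ORD_G F i) = 0 := by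
  show ORD_G F i d = _
  unfold ORD_G
  rw [if_neg h]

private theorem ORD_sum {k : Type} [Field k] {n : ℕ} (F : MvPowerSeries (Fin n) k)
    (h0 : MvPowerSeries.coeff (0 : Fin n →₀ ℕ) F = 0) :
    F = ∑ i, MvPowerSeries.X i * ORD_G F i := by
  classical
  ext e
  rw [map_sum]
  have hterm : ∀ i, MvPowerSeries.coeff e (MvPowerSeries.X i * ORD_G F i) =
      if Finsupp.single i 1 ≤ e then
        MvPowerSeries.coeff (e - Finsupp.single i 1) (ORD_G F i) else 0 := by
    intro i
    rw [MvPowerSeries.X_def, MvPowerSeries.coeff_monomial_mul]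
    simp only [one_mul]
  by_cases he : e = 0
  · subst he
    rw [h0]
    symm
    apply Finset.sum_eq_zero
    intro i _
    rw [hterm, if_neg]
    intro h1
    have h2 := h1 i
    simp at h2
  · -- the least index in the support
    have hne : (Finset.univ.filter fun i : Fin n => e i ≠ 0).Nonempty := by
      by_contra hcon
      rw [Finset.not_nonempty_iff_eq_empty] at hcon
      apply he
      ext i
      by_contra hi
      have : i ∈ Finset.univ.filter fun i : Fin n => e i ≠ 0 := by
        rw [Finset.mem_filter]
        exact ⟨Finset.mem_univ _, hi⟩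
      rw [hcon] at this
      simp at this
    obtain ⟨i0, hi0, hmin⟩ := Finset.exists_min_image _ (fun i : Fin n => i) hne
    rw [Finset.mem_filter] at hi0
    have hlt : ∀ j < i0, e j = 0 := by
      intro j hj
      by_contra hc
      exact absurd (hmin j (by rw [Finset.mem_filter]; exact ⟨Finset.mem_univ _, hc⟩))
        (not_le.2 hj)
    have hsub : ∀ i, Finsupp.single i 1 ≤ e → e - Finsupp.single i 1 + Finsupp.single i 1 = e :=
      fun i hi => tsub_add_cancel_of_le hi
    rw [Finset.sum_eq_single i0]
    · have h1 : Finsupp.single i0 1 ≤ e := by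
        rw [Finsupp.single_le_iff]
        exact Nat.one_le_iff_ne_zero.2 hi0.2
      rw [hterm, if_pos h1, ORD_coeff_G _ _ _ (by rw [hsub i0 h1]; exact hlt), hsub i0 h1]
    · intro i _ hi
      rw [hterm]
      split_ifs with h1
      · apply ORD_coeff_G'
        rw [hsub i h1]
        intro h2
        have h3 : e i ≠ 0 := by
          rw [Finsupp.single_le_iff] at h1
          omega
        rcases lt_trichotomy i i0 with h4 | h4 | h4
        · exact h3 (hlt i h4)
        · exact hi h4
        · exact hi0.2 (h2 i0 h4)
      · rfl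
    · intro h
      exact absurd (Finset.mem_univ _) h

/-- [ORD] -/
theorem thm_ORD : St_ORD := by
  intro k _ n m
  induction m with
  | zero =>
    intro F _
    rw [pow_zero, Ideal.one_eq_top]
    exact Submodule.mem_top
  | succ m ih =>
    intro F hF
    rw [ORD_sum F (hF 0 (by simp))]
    apply Ideal.sum_mem
    intro i _
    rw [pow_succ']
    apply Ideal.mul_mem_mul
    · exact Ideal.subset_span ⟨i, rfl⟩
    · apply ih
      intro d hd
      by_cases h : ∀ j < i, (d + Finsupp.single i 1 : Fin n →₀ ℕ) j = 0
      · rw [ORD_coeff_G _ _ _ h]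
        apply hF
        rw [map_add, Finsupp.degree_single]
        omega
      · exact ORD_coeff_G' _ _ _ h

end ETD
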