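import Pool.Agent.ETD.StC

/-!
# ETD, module PMD: periodicity modulo `t ^ 2`, and powers of units
-/

set_option autoImplicit false
set_option linter.unusedVariables false

namespace ETD

open PowerSeries

private lemma PMD_fm {k : Type} [Field k] (p : ℕ) (a : k⟦X⟧) (G : Polynomial k⟦X⟧)
    (u v : k⟦X⟧) (h : X ^ 2 ∣ u - v) : X ^ 2 ∣ fm p a G u - fm p a G v := by
  unfold fm
  have h1 : u - v ∣ G.eval (u ^ p) - G.eval (v ^ p) :=
    (sub_dvd_pow_sub_pow u v p).trans (Polynomial.sub_dvd_eval_sub _ _ G)
  have h2 : a * u + G.eval (u ^ p) - (a * v + G.eval (v ^ p)) =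
      a * (u - v) + (G.eval (u ^ p) - G.eval (v ^ p)) := by ring
  rw [h2]
  exact dvd_add (h.mul_left a) (h.trans h1)

private lemma PMD_iter {k : Type} [Field k] (p : ℕ) (a : k⟦X⟧) (G : Polynomial k⟦X⟧) (n : ℕ)
    (u v : k⟦X⟧) (h : X ^ 2 ∣ u - v) :
    X ^ 2 ∣ (fm p a G)^[n] u - (fm p a G)^[n] v := by
  induction n generalizing u v with
  | zero => simpa using h
  | succ n ih =>
    rw [Function.iterate_succ_apply, Function.iterate_succ_apply]
    exact ih _ _ (PMD_fm p a G u v h)

theorem thm_PMD : St_PMD := by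
  intro k _ _ p _
  constructor
  · intro a x G
    set f : ℕ → k × k := fun n =>
      (coeff 0 ((fm p a G)^[n] x), coeff 1 ((fm p a G)^[n] x)) with hf
    obtain ⟨i, j, hne, hij⟩ := Finite.exists_ne_map_eq_of_infinite f
    have key : ∀ i j : ℕ, i < j → f i = f j → ∃ n₀ N : ℕ, 0 < N ∧ ∀ n ≥ n₀, ∀ m : ℕ,
        X ^ 2 ∣ (fm p a G)^[n + N * m] x - (fm p a G)^[n] x := by
      intro i j hlt h
      have h0 : X ^ 2 ∣ (fm p a G)^[j] x - (fm p a G)^[i] x := by
        rw [PowerSeries.X_pow_dvd_iff]
        intro m hm
        have h1 : coeff 0 ((fm p a G)^[i] x) = coeff 0 ((fm p a G)^[j] x) :=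
          congrArg Prod.fst h
        have h2 : coeff 1 ((fm p a G)^[i] x) = coeff 1 ((fm p a G)^[j] x) :=
          congrArg Prod.snd h
        rw [map_sub]
        interval_cases m
        · rw [h1, sub_self]
        · rw [h2, sub_self]
      refine ⟨i, j - i, Nat.sub_pos_of_lt hlt, ?_⟩
      intro n hn m
      induction m with
      | zero => simp
      | succ m ih =>
        have h3 : X ^ 2 ∣ (fm p a G)^[n + (j - i)] x - (fm p a G)^[n] x := by
          have h4 := PMD_iter p a G (n - i) _ _ h0
          rw [← Function.iterate_add_apply, ← Function.iterate_add_apply] at h4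
          have e1 : n - i + j = n + (j - i) := by omega
          have e2 : n - i + i = n := by omega
          rw [e1, e2] at h4
          exact h4
        have h5 := PMD_iter p a G ((j - i) * m) _ _ h3
        rw [← Function.iterate_add_apply, ← Function.iterate_add_apply] at h5
        have e3 : (j - i) * m + (n + (j - i)) = n + (j - i) * (m + 1) := by ring
        have e4 : (j - i) * m + n = n + (j - i) * m := by ring
        rw [e3, e4] at h5
        have h6 := dvd_add h5 ih
        rw [sub_add_sub_cancel] at h6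
        exact h6
    rcases lt_or_gt_of_ne hne with hlt | hlt
    · exact key i j hlt hij
    · exact key j i hlt hij.symm
  · have := Fintype.ofFinite k
    classical
    refine ⟨Fintype.card kˣ, Fintype.card_pos, ?_⟩
    intro a ha m
    rw [PowerSeries.X_dvd_iff, map_sub, map_pow, map_one, pow_mul]
    have h1 : IsUnit (constantCoeff a) := ha.map constantCoeff
    obtain ⟨u, hu⟩ := h1
    have h2 : (constantCoeff a) ^ Fintype.card kˣ = 1 := by
      rw [← hu, ← Units.val_pow_eq_pow_val, pow_card_eq_one, Units.val_one]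
    rw [h2, one_pow, sub_self]

end ETD
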