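import Pool.Agent.ETD.StC

/-!
# ETD, module PRE: one of the two sequences is eventually periodic
-/

set_option autoImplicit false
set_option linter.unusedVariables false

namespace ETD

private lemma PRE_union (hS : St_SUN) (p : ℕ) (s : Finset ℕ) (f : ℕ → Set ℕ)
    (h : ∀ r ∈ s, PSet p (f r)) : PSet p (⋃ r ∈ s, f r) := by
  classical
  induction s using Finset.induction_on with
  | empty => simpa using (hS p).1 ∅ Set.finite_empty
  | insert a s ha ih =>
    rw [Finset.set_biUnion_insert]
    exact (hS p).2.1 _ _ (h a (Finset.mem_insert_self a s))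
      (ih fun r hr => h r (Finset.mem_insert_of_mem hr))

private lemma PRE_classes (hS : St_SUN) (p : ℕ) (R : Set ℕ) (n₁ M : ℕ) (hM : 0 < M)
    (h : ∀ r, n₁ ≤ r → r < n₁ + M → PSet p {n | n ∈ R ∧ ∃ k : ℕ, n = M * k + r}) :
    PSet p R := by
  have h1 : PSet p {n | n ∈ R ∧ n < n₁} :=
    (hS p).1 _ ((Set.finite_Iio n₁).subset fun n hn => hn.2)
  have h2 := PRE_union hS p (Finset.Ico n₁ (n₁ + M))
    (fun r => {n | n ∈ R ∧ ∃ k : ℕ, n = M * k + r})
    (fun r hr => h r (Finset.mem_Ico.1 hr).1 (Finset.mem_Ico.1 hr).2)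
  have h3 := (hS p).2.1 _ _ h1 h2
  have he : R = {n | n ∈ R ∧ n < n₁} ∪
      ⋃ r ∈ Finset.Ico n₁ (n₁ + M), {n | n ∈ R ∧ ∃ k : ℕ, n = M * k + r} := by
    ext n
    simp only [Set.mem_union, Set.mem_ofPred_eq, Set.mem_iUnion, Finset.mem_Ico, exists_prop]
    constructor
    · intro hn
      by_cases hlt : n < n₁
      · exact Or.inl ⟨hn, hlt⟩
      · right
        have hlt' : n₁ ≤ n := not_lt.1 hlt
        refine ⟨n₁ + (n - n₁) % M, ⟨Nat.le_add_right _ _,
          Nat.add_lt_add_left (Nat.mod_lt _ hM) _⟩, hn, (n - n₁) / M, ?_⟩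
        have := Nat.div_add_mod (n - n₁) M
        omega
    · rintro (hn | ⟨r, hr, hn, hk⟩)
      · exact hn.1
      · exact hn
  rw [he]
  exact h3

theorem thm_PRE (hS : St_SUN) : St_PRE := by
  classical
  intro O _ _ p F x₀ y n₀ N hN hy h
  set x : ℕ → O := fun n => F^[n] x₀ with hx
  have hyk : ∀ (m r : ℕ), n₀ ≤ r → y (N * m + r) = y r := by
    intro m
    induction m with
    | zero => intro r hr; simp
    | succ m ih =>
      intro r hr
      have e1 : N * (m + 1) + r = (N * m + r) + N := by ring
      rw [e1, hy _ (le_trans hr (Nat.le_add_left _ _)), ih r hr]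
  by_cases hinj : Function.Injective x
  · refine PRE_classes hS p _ n₀ N hN ?_
    intro r hr hr'
    set P : Polynomial O := MvPolynomial.aeval ![Polynomial.X, Polynomial.C (y r)] h with hP
    have hPe : ∀ z : O, P.eval z = MvPolynomial.eval ![z, y r] h := by
      intro z
      have h3 : (Polynomial.evalRingHom z).comp
          ((MvPolynomial.aeval ![Polynomial.X, Polynomial.C (y r)] :
            MvPolynomial (Fin 2) O →ₐ[O] Polynomial O) :
            MvPolynomial (Fin 2) O →+* Polynomial O) = MvPolynomial.eval ![z, y r] := by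
        apply MvPolynomial.ringHom_ext
        · intro a
          simp
        · intro i
          fin_cases i
          · simp
          · simp
      exact congrArg (fun g : MvPolynomial (Fin 2) O →+* O => g h) h3
    by_cases h0 : P = 0
    · have hall : {n | n ∈ {n : ℕ | MvPolynomial.eval ![F^[n] x₀, y n] h = 0} ∧
          ∃ k : ℕ, n = N * k + r} = {n | ∃ k : ℕ, n = N * k + r} := by
        ext n
        constructor
        · exact fun hn => hn.2
        · rintro ⟨k, rfl⟩
          refine ⟨?_, k, rfl⟩
          show MvPolynomial.eval ![F^[N * k + r] x₀, y (N * k + r)] h = 0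
          rw [hyk k r hr, ← hPe, h0, Polynomial.eval_zero]
      rw [hall]
      exact (hS p).2.2 N r hN
    · refine (hS p).1 _ ?_
      have hfin : (x ⁻¹' (↑(P.roots.toFinset) : Set O)).Finite := by
        exact Set.Finite.preimage hinj.injOn (Finset.finite_toSet _)
      refine hfin.subset ?_
      rintro n ⟨hn, k, rfl⟩
      have hn' : MvPolynomial.eval ![F^[N * k + r] x₀, y (N * k + r)] h = 0 := hn
      rw [hyk k r hr, ← hPe] at hn'
      show x (N * k + r) ∈ (↑(P.roots.toFinset) : Set O)
      rw [Finset.mem_coe, Multiset.mem_toFinset, Polynomial.mem_roots h0]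
      exact hn'
  · have hij : ∃ i j : ℕ, i < j ∧ x i = x j := by
      unfold Function.Injective at hinj
      push Not at hinj
      obtain ⟨i, j, he, hne⟩ := hinj
      rcases lt_or_gt_of_ne hne with hlt | hlt
      · exact ⟨i, j, hlt, he⟩
      · exact ⟨j, i, hlt, he.symm⟩
    obtain ⟨i, j, hlt, he⟩ := hij
    have hstep : ∀ n ≥ i, x (n + (j - i)) = x n := by
      intro n hn
      obtain ⟨m, rfl⟩ := Nat.exists_eq_add_of_le hn
      have e1 : i + m + (j - i) = m + j := by omega
      have e2 : i + m = m + i := by omega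
      rw [e1, e2]
      show F^[m + j] x₀ = F^[m + i] x₀
      rw [Function.iterate_add_apply, Function.iterate_add_apply]
      exact congrArg _ he.symm
    have hxk : ∀ (m r : ℕ), i ≤ r → x ((j - i) * m + r) = x r := by
      intro m
      induction m with
      | zero => intro r hr; simp
      | succ m ih =>
        intro r hr
        have e1 : (j - i) * (m + 1) + r = ((j - i) * m + r) + (j - i) := by ring
        rw [e1, hstep _ (le_trans hr (Nat.le_add_left _ _)), ih r hr]
    refine PRE_classes hS p _ (max n₀ i) (N * (j - i))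
      (Nat.mul_pos hN (Nat.sub_pos_of_lt hlt)) ?_
    intro r hr hr'
    have hr1 : n₀ ≤ r := le_trans (le_max_left _ _) hr
    have hr2 : i ≤ r := le_trans (le_max_right _ _) hr
    have hval : ∀ k : ℕ, MvPolynomial.eval ![F^[N * (j - i) * k + r] x₀,
        y (N * (j - i) * k + r)] h = MvPolynomial.eval ![F^[r] x₀, y r] h := by
      intro k
      have e1 : y (N * (j - i) * k + r) = y r := by
        rw [mul_assoc]; exact hyk _ r hr1
      have e2 : F^[N * (j - i) * k + r] x₀ = F^[r] x₀ := by
        have e3 : N * (j - i) * k = (j - i) * (N * k) := by ring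
        rw [e3]; exact hxk _ r hr2
      rw [e1, e2]
    by_cases hm : MvPolynomial.eval ![F^[r] x₀, y r] h = 0
    · have hall : {n | n ∈ {n : ℕ | MvPolynomial.eval ![F^[n] x₀, y n] h = 0} ∧
          ∃ k : ℕ, n = N * (j - i) * k + r} = {n | ∃ k : ℕ, n = N * (j - i) * k + r} := by
        ext n
        constructor
        · exact fun hn => hn.2
        · rintro ⟨k, rfl⟩
          refine ⟨?_, k, rfl⟩
          show MvPolynomial.eval ![F^[N * (j - i) * k + r] x₀, y (N * (j - i) * k + r)] h = 0
          rw [hval k, hm]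
      rw [hall]
      exact (hS p).2.2 _ r (Nat.mul_pos hN (Nat.sub_pos_of_lt hlt))
    · refine (hS p).1 _ ?_
      have : {n | n ∈ {n : ℕ | MvPolynomial.eval ![F^[n] x₀, y n] h = 0} ∧
          ∃ k : ℕ, n = N * (j - i) * k + r} = ∅ := by
        ext n
        simp only [Set.mem_ofPred_eq, Set.mem_empty_iff_false, iff_false]
        rintro ⟨hn, k, rfl⟩
        exact hm (by rw [← hval k]; exact hn)
      rw [this]
      exact Set.finite_empty

end ETD
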