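import Pool.Agent.ETD.StA

/-!
# ETD, module PWN: powers of `a ≠ 1` with nonzero exponents are not `1`
-/

set_option autoImplicit false
set_option linter.unusedVariables false

namespace ETD

open PowerSeries

theorem thm_PWN (h : St_PWP) : St_PWN := by
  intro k _ p _ _ a ha ha1 β hβ h1
  have hne : a - 1 ≠ 0 := sub_ne_zero.2 ha1
  obtain ⟨n, u, hu⟩ := IsDiscreteValuationRing.eq_unit_mul_pow_irreducible hne
    (X_prime (R := k)).irreducible
  rw [mul_comm] at hu
  have hn : 0 < n := by
    rcases Nat.eq_zero_or_pos n with h0 | h0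
    · exfalso
      rw [h0, pow_zero, one_mul] at hu
      rw [hu, X_dvd_iff] at ha
      exact (isUnit_iff_constantCoeff.1 u.isUnit).ne_zero ha
    · exact h0
  have hβ' := PadicInt.unitCoeff_spec hβ
  obtain ⟨w, hw, hw'⟩ := (h k p a ha).2 n u hn u.isUnit hu β.valuation
    (PadicInt.unitCoeff hβ : ℤ_[p]) (Units.isUnit _)
  rw [mul_comm, ← hβ', h1, sub_self] at hw'
  exact mul_ne_zero (pow_ne_zero _ X_ne_zero) hw.ne_zero hw'.symm

end ETD
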