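import Pool.Agent.ETD.StA

/-!
# ETD, module PWP: powers `p ^ s` and the exact order
-/

set_option autoImplicit false
set_option linter.unusedVariables false

namespace ETD

open PowerSeries

theorem PWP_charP (k : Type) [Field k] (p : ℕ) [CharP k p] : CharP k⟦X⟧ p :=
  charP_of_injective_ringHom (C_injective (R := k)) p

theorem PWP_eq_zero {k : Type} [Field k] (p : ℕ) [Fact p.Prime] {z : k⟦X⟧}
    (h : ∀ J : ℕ, X ^ (p ^ J) ∣ z) : z = 0 := by
  ext i
  have hp : 1 < p := (Fact.out : p.Prime).one_lt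
  simpa using (X_pow_dvd_iff.1 (h i)) i (Nat.lt_pow_self hp)

theorem PWP_approx (h : St_PWB) {k : Type} [Field k] (p : ℕ) [Fact p.Prime] [CharP k p] (a : k⟦X⟧)
    (ha : X ∣ a - 1) (d : ℕ) (hd : X ^ d ∣ a - 1) (β : ℤ_[p]) (J m : ℕ)
    (hm : (p : ℤ_[p]) ^ J ∣ β - m) :
    X ^ (d * p ^ J) ∣ pw p a β - a ^ m := by
  have h1 := (h k p a ha).2.2.2 d J β m hd hm
  rwa [(h k p a ha).1 m] at h1

theorem PWP_pow (h : St_PWB) {k : Type} [Field k] (p : ℕ) [Fact p.Prime] [CharP k p] (a : k⟦X⟧)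
    (ha : X ∣ a - 1) (s : ℕ) (β : ℤ_[p]) :
    pw p a ((p : ℤ_[p]) ^ s * β) = pw p a β ^ p ^ s := by
  rw [← sub_eq_zero]
  refine PWP_eq_zero p fun J => ?_
  have hβ : (p : ℤ_[p]) ^ J ∣ β - (β.appr J : ℤ_[p]) :=
    Ideal.mem_span_singleton.1 (PadicInt.appr_spec J β)
  have h1 := PWP_approx h p a ha 1 (by simpa using ha) β J (β.appr J) hβ
  have h2 := PWP_approx h p a ha 1 (by simpa using ha) ((p : ℤ_[p]) ^ s * β) J (β.appr J * p ^ s)
    (by
      have e1 : (p : ℤ_[p]) ^ s * β - ((β.appr J * p ^ s : ℕ) : ℤ_[p]) =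
        (p : ℤ_[p]) ^ s * (β - (β.appr J : ℤ_[p])) := by push_cast; ring
      rw [e1]
      exact hβ.mul_left _)
  rw [one_mul] at h1 h2
  have h3 := h1.trans (sub_dvd_pow_sub_pow (pw p a β) (a ^ β.appr J) (p ^ s))
  rw [← pow_mul] at h3
  have h4 := dvd_sub h2 h3
  rwa [sub_sub_sub_cancel_right] at h4

theorem thm_PWP (h : St_PWB) : St_PWP := by
  intro k _ p _ _ a ha
  have hp : p.Prime := Fact.out
  have hp1 : 1 < p := hp.one_lt
  refine ⟨PWP_pow h p a ha, ?_⟩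
  intro d u hd hu hau j β hβ
  have hd' : X ^ d ∣ a - 1 := ⟨u, hau⟩
  -- the power with exponent `β`
  obtain ⟨w₁, hw₁, hw₁'⟩ : ∃ w₁ : k⟦X⟧, IsUnit w₁ ∧ pw p a β - 1 = X ^ d * w₁ := by
    have hβ1 : (p : ℤ_[p]) ^ 1 ∣ β - (β.appr 1 : ℤ_[p]) :=
      Ideal.mem_span_singleton.1 (PadicInt.appr_spec 1 β)
    set m := β.appr 1 with hm
    obtain ⟨v, hv⟩ := PWP_approx h p a ha d hd' β 1 m hβ1
    rw [pow_one] at hv
    have hpm : ¬ p ∣ m := by
      intro hpm
      obtain ⟨c, hc⟩ := hpm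
      have h1 : (p : ℤ_[p]) ∣ β := by
        rw [pow_one] at hβ1
        have h2 : (p : ℤ_[p]) ∣ (m : ℤ_[p]) := ⟨c, by rw [hc]; push_cast; ring⟩
        have := dvd_add hβ1 h2
        rwa [sub_add_cancel] at this
      exact (PadicInt.prime_p (p := p)).not_isUnit (isUnit_of_dvd_unit h1 hβ)
    have hg : a ^ m - 1 = (a - 1) * ∑ i ∈ Finset.range m, a ^ i := by
      rw [mul_comm, geom_sum_mul]
    have ha0 : constantCoeff a = 1 := by
      have := X_dvd_iff.1 ha
      rw [map_sub, map_one, sub_eq_zero] at this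
      exact this
    have hsum : constantCoeff (∑ i ∈ Finset.range m, a ^ i) = (m : k) := by
      rw [map_sum]
      simp [ha0]
    have hm0 : (m : k) ≠ 0 := by
      rw [Ne, CharP.cast_eq_zero_iff k p]
      exact hpm
    have hdp : d * p = d + (d * p - d) := by
      have : d ≤ d * p := Nat.le_mul_of_pos_right _ hp.pos
      omega
    have hpos : 0 < d * p - d := by
      have : d < d * p := by
        calc d = d * 1 := (mul_one d).symm
          _ < d * p := (Nat.mul_lt_mul_left hd).2 hp1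
      omega
    refine ⟨u * (∑ i ∈ Finset.range m, a ^ i) + X ^ (d * p - d) * v, ?_, ?_⟩
    · rw [isUnit_iff_constantCoeff, map_add, map_mul, map_mul, map_pow, constantCoeff_X, hsum,
        zero_pow hpos.ne', zero_mul, add_zero]
      exact ((isUnit_iff_constantCoeff.1 hu)).mul (isUnit_iff_ne_zero.2 hm0)
    · have h1 : pw p a β - 1 = (pw p a β - a ^ m) + (a ^ m - 1) := by ring
      rw [h1, hv, hg, hau, hdp, pow_add, Nat.add_sub_cancel_left]
      ring
  refine ⟨w₁ ^ p ^ j, hw₁.pow _, ?_⟩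
  have := PWP_charP k p
  rw [PWP_pow h p a ha, pow_mul, ← mul_pow, ← hw₁', sub_pow_char_pow, one_pow]

end ETD
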