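import Pool.Agent.ETD.StB

/-!
# ETD, module REC: the `p`-th iterate
-/

set_option autoImplicit false
set_option linter.unusedVariables false

namespace ETD

open PowerSeries

/-- the functions on the power series ring -/
abbrev REC_Fn (k : Type) [Field k] : Type := k⟦X⟧ → k⟦X⟧

theorem REC_charP (k : Type) [Field k] (p : ℕ) [CharP k p] : CharP k⟦X⟧ p :=
  charP_of_injective_ringHom (C_injective (R := k)) p

theorem REC_charPEnd (k : Type) [Field k] (p : ℕ) [CharP k p] :
    CharP (Module.End k⟦X⟧ (REC_Fn k)) p :=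
  charP_of_injective_algebraMap (algebraMap k (Module.End k⟦X⟧ (REC_Fn k))).injective p

/-- the composition with `D` -/
noncomputable def REC_Phi {k : Type} [Field k] (D : k⟦X⟧ → k⟦X⟧) :
    Module.End k⟦X⟧ (REC_Fn k) where
  toFun F := F ∘ D
  map_add' F G := rfl
  map_smul' c F := rfl

theorem REC_Phi_pow {k : Type} [Field k] (D : k⟦X⟧ → k⟦X⟧) (n : ℕ) (F : REC_Fn k) :
    (REC_Phi D ^ n) F = F ∘ D^[n] := by
  induction n generalizing F with
  | zero => rfl
  | succ n ih =>
    rw [pow_succ, Module.End.mul_apply, ih, Function.iterate_succ']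
    rfl

/-- the function `W ↦ F(W ^ p)` -/
noncomputable def REC_T {k : Type} [Field k] (p : ℕ) (F : Polynomial k⟦X⟧) : REC_Fn k :=
  fun W => F.eval (W ^ p)

theorem REC_Delta_T {k : Type} [Field k] (p : ℕ) [Fact p.Prime] [CharP k p] (a : k⟦X⟧)
    (G F : Polynomial k⟦X⟧) :
    (REC_Phi (fun W : k⟦X⟧ => a * W + G.eval (W ^ p)) - 1) (REC_T p F) =
      REC_T p (Dl p a G F) := by
  have := REC_charP k p
  funext W
  show F.eval ((a * W + G.eval (W ^ p)) ^ p) - F.eval (W ^ p) = (Dl p a G F).eval (W ^ p)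
  rw [Dl, Polynomial.eval_sub, Polynomial.eval_comp, add_pow_char, mul_pow]
  simp

theorem REC_Delta_pow {k : Type} [Field k] (p : ℕ) [Fact p.Prime] [CharP k p] (a : k⟦X⟧)
    (G : Polynomial k⟦X⟧) (i : ℕ) :
    ((REC_Phi (fun W : k⟦X⟧ => a * W + G.eval (W ^ p)) - 1) ^ i) id =
      (a - 1) ^ i • id +
        ∑ l ∈ Finset.range i, (a - 1) ^ (i - 1 - l) • REC_T p ((Dl p a G)^[l] G) := by
  induction i with
  | zero => simp
  | succ i ih =>
    rw [pow_succ', Module.End.mul_apply, ih, map_add, map_smul, map_sum, Finset.sum_range_succ']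
    have h1 : (REC_Phi (fun W : k⟦X⟧ => a * W + G.eval (W ^ p)) - 1) (id : REC_Fn k) =
        (a - 1) • id + REC_T p G := by
      funext W
      show (a * W + G.eval (W ^ p)) - W = (a - 1) * W + G.eval (W ^ p)
      ring
    rw [h1]
    have h2 : ∀ l ∈ Finset.range i,
        (REC_Phi (fun W : k⟦X⟧ => a * W + G.eval (W ^ p)) - 1)
          ((a - 1) ^ (i - 1 - l) • REC_T p ((Dl p a G)^[l] G)) =
        (a - 1) ^ (i + 1 - 1 - (l + 1)) • REC_T p ((Dl p a G)^[l + 1] G) := by
      intro l hl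
      rw [map_smul, REC_Delta_T, Function.iterate_succ_apply']
      congr 2
      omega
    rw [Finset.sum_congr rfl h2]
    have h3 : i + 1 - 1 - 0 = i := by omega
    rw [h3, smul_add, smul_smul, ← pow_succ, Function.iterate_zero, id_eq]
    abel

theorem thm_REC : St_REC := by
  intro k _ p _ _ a G W
  have := REC_charP k p
  have := REC_charPEnd k p
  have h1 := REC_Delta_pow p a G p
  rw [sub_pow_char_of_commute (p := p) (Commute.one_right _), one_pow] at h1
  have h2 := congrFun h1 W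
  rw [LinearMap.sub_apply, REC_Phi_pow] at h2
  have h3 : (id ∘ (fun W : k⟦X⟧ => a * W + G.eval (W ^ p))^[p] - (1 : Module.End k⟦X⟧ (REC_Fn k)) id
      : REC_Fn k) W = (fun W : k⟦X⟧ => a * W + G.eval (W ^ p))^[p] W - W := rfl
  rw [h3, sub_eq_iff_eq_add] at h2
  rw [h2, Pi.add_apply, Finset.sum_apply, Gp, Polynomial.eval_finsetSum]
  have h4 : ∀ l ∈ Finset.range p, ((a - 1) ^ (p - 1 - l) • REC_T p ((Dl p a G)^[l] G)) W =
      (Polynomial.C ((a - 1) ^ (p - 1 - l)) * (Dl p a G)^[l] G).eval (W ^ p) := by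
    intro l _
    rw [Polynomial.eval_mul, Polynomial.eval_C]
    rfl
  rw [Finset.sum_congr rfl h4]
  have h5 : ((a - 1) ^ p • (id : REC_Fn k)) W = (a ^ p - 1) * W := by
    rw [sub_pow_char, one_pow]
    rfl
  rw [h5]
  ring

end ETD
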