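import Pool.Agent.ETD.StC

/-!
# ETD: the theorem over `k⟦t⟧`, `k` finite
-/

set_option autoImplicit false
set_option linter.unusedVariables false

namespace ETD

open PowerSeries

/-- the iterates on a residue disc -/
private lemma RES_iter {R : Type} (F : R → R) (f : R → R) (g : R → R)
    (h : ∀ W, F (g W) = g (f W)) (m : ℕ) (W : R) : F^[m] (g W) = g (f^[m] W) := by
  induction m with
  | zero => rfl
  | succ m ih => rw [Function.iterate_succ_apply', ih, h, Function.iterate_succ_apply']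

/-- one of the maps near a residue class of exponents -/
private lemma RES_one (hDSC : St_DSC) {k : Type} [Field k] [Finite k] (p : ℕ) [Fact p.Prime]
    [CharP k p] (a x : k⟦X⟧) (G : Polynomial k⟦X⟧) (N q : ℕ) (ha : X ∣ a ^ N - 1)
    (hx : X ^ 2 ∣ (fm p a G)^[q + N] x - (fm p a G)^[q] x) :
    ∃ (α : k⟦X⟧) (E : Polynomial k⟦X⟧), Lc α (a ^ N) E ∧ ∀ m : ℕ,
      (fm p a G)^[q + N * m] x = (fm p a G)^[q] x + X * (ph p α (a ^ N) E)^[m] 0 := by
  have : CharP k⟦X⟧ p := charP_of_injective_ringHom (f := PowerSeries.C) PowerSeries.C_injective p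
  obtain ⟨G₁, hG₁⟩ := hDSC.1 k⟦X⟧ p a G N
  set z := (fm p a G)^[q] x with hz
  have h1 : X ^ 2 ∣ fm p (a ^ N) G₁ z - z := by
    rw [← hG₁, hz, ← Function.iterate_add_apply, add_comm N q]
    exact hx
  obtain ⟨α, E, hL, hE⟩ := hDSC.2 k p (a ^ N) z G₁ ha h1
  refine ⟨α, E, hL, fun m => ?_⟩
  have h2 := RES_iter (fm p (a ^ N) G₁) (ph p α (a ^ N) E) (fun W => z + X * W) hE m 0
  beta_reduce at h2
  rw [mul_zero, add_zero] at h2
  rw [← h2, ← hG₁, ← Function.iterate_mul, hz, ← Function.iterate_add_apply, add_comm (N * m) q]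

/-- finite unions -/
private lemma RES_union (hSUN : St_SUN) (hSAF : St_SAF) (p N n₀ : ℕ) (hN : 0 < N)
    (R : ℕ → Set ℕ) (hR : ∀ r, PSet p (R r)) (M : ℕ) :
    PSet p {n | ∃ r < M, ∃ m ∈ R r, n = n₀ + r + N * m} := by
  induction M with
  | zero =>
    have : {n | ∃ r < 0, ∃ m ∈ R r, n = n₀ + r + N * m} = (∅ : Set ℕ) := by
      ext n
      simp
    rw [this]
    exact (hSUN p).1 _ Set.finite_empty
  | succ M ih =>
    have : {n | ∃ r < M + 1, ∃ m ∈ R r, n = n₀ + r + N * m} =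
        {n | ∃ r < M, ∃ m ∈ R r, n = n₀ + r + N * m} ∪ (fun m => n₀ + M + N * m) '' R M := by
      ext n
      constructor
      · rintro ⟨r, hr, m, hm, rfl⟩
        rcases Nat.lt_succ_iff_lt_or_eq.1 hr with h | h
        · exact Or.inl ⟨r, h, m, hm, rfl⟩
        · subst h
          exact Or.inr ⟨m, hm, rfl⟩
      · rintro (⟨r, hr, m, hm, rfl⟩ | ⟨m, hm, rfl⟩)
        · exact ⟨r, by omega, m, hm, rfl⟩
        · exact ⟨M, by omega, m, hm, rfl⟩
    rw [this]
    exact (hSUN p).2.1 _ _ ih (hSAF p _ (hR M) N (n₀ + M) hN)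

/-- [RES] The theorem over `k⟦t⟧`, `k` finite. -/
theorem thm_RES (hNNN : St_NNN) (hNUU : St_NUU) (hSAF : St_SAF) (hSUN : St_SUN)
    (hDSC : St_DSC) (hPMD : St_PMD) : St_RES := by
  intro k _ _ p _ _ a b x y G G' h ha hb hroot
  obtain ⟨hper, N₀, hN₀, hunit⟩ := hPMD k p
  obtain ⟨nx, Nx, hNx, hx⟩ := hper a x G
  obtain ⟨ny, Ny, hNy, hy⟩ := hper b y G'
  set n₀ := max nx ny with hn₀
  set N := Nx * Ny * N₀ with hN
  have hNpos : 0 < N := Nat.mul_pos (Nat.mul_pos hNx hNy) hN₀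
  have haN : X ∣ a ^ N - 1 := by
    have := hunit a ha (Nx * Ny)
    rwa [mul_comm N₀] at this
  have hbN : X ∣ b ^ N - 1 := by
    have := hunit b hb (Nx * Ny)
    rwa [mul_comm N₀] at this
  have ha1 : a ^ N ≠ 1 := hroot N hNpos
  -- the residue classes
  let R : ℕ → Set ℕ := fun r => {m | MvPolynomial.eval ![(fm p a G)^[n₀ + r + N * m] x,
    (fm p b G')^[n₀ + r + N * m] y] h = 0}
  have hR : ∀ r, PSet p (R r) := by
    intro r
    have h1 : X ^ 2 ∣ (fm p a G)^[n₀ + r + N] x - (fm p a G)^[n₀ + r] x := by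
      have := hx (n₀ + r) ((le_max_left nx ny).trans (Nat.le_add_right _ _)) (Ny * N₀)
      rwa [← mul_assoc] at this
    have h2 : X ^ 2 ∣ (fm p b G')^[n₀ + r + N] y - (fm p b G')^[n₀ + r] y := by
      have := hy (n₀ + r) ((le_max_right nx ny).trans (Nat.le_add_right _ _)) (Nx * N₀)
      rwa [← mul_assoc, mul_comm Ny Nx] at this
    obtain ⟨α, E, hL, hE⟩ := RES_one hDSC p a x G N (n₀ + r) haN h1
    obtain ⟨α', E', hL', hE'⟩ := RES_one hDSC p b y G' N (n₀ + r) hbN h2
    set xr := (fm p a G)^[n₀ + r] x with hxr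
    set yr := (fm p b G')^[n₀ + r] y with hyr
    let hr : MvPolynomial (Fin 2) k⟦X⟧ := MvPolynomial.bind₁
      ![MvPolynomial.C xr + MvPolynomial.C X * MvPolynomial.X 0,
        MvPolynomial.C yr + MvPolynomial.C X * MvPolynomial.X 1] h
    have heval : ∀ W V : k⟦X⟧, MvPolynomial.eval ![W, V] hr =
        MvPolynomial.eval ![xr + X * W, yr + X * V] h := by
      intro W V
      have e1 : (MvPolynomial.eval ![W, V]) hr = MvPolynomial.eval
          (fun i => MvPolynomial.eval ![W, V] (![MvPolynomial.C xr + MvPolynomial.C X *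
            MvPolynomial.X 0, MvPolynomial.C yr + MvPolynomial.C X * MvPolynomial.X 1] i)) h :=
        MvPolynomial.eval₂Hom_bind₁ _ _ _ _
      rw [e1]
      congr 2
      funext i
      fin_cases i
      · simp
      · simp
    by_cases hb1 : b ^ N = 1
    · rw [hb1] at hL' hE'
      have h3 := hNUU k p α (a ^ N) α' E E' hL ha1 hL' hr
      have h4 : R r = {m : ℕ | MvPolynomial.eval ![(ph p α (a ^ N) E)^[m] 0,
          (ph p α' 1 E')^[m] 0] hr = 0} := by
        ext m
        change MvPolynomial.eval _ h = 0 ↔ MvPolynomial.eval _ hr = 0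
        rw [heval, hE m, hE' m]
      rw [h4]
      exact h3
    · have h3 := hNNN k p ![α, α'] ![a ^ N, b ^ N] ![E, E']
        (fun j => by fin_cases j; exacts [hL, hL'])
        (fun j => by fin_cases j; exacts [ha1, hb1]) hr
      have h4 : R r = {m : ℕ | MvPolynomial.eval ![(ph p α (a ^ N) E)^[m] 0,
          (ph p α' (b ^ N) E')^[m] 0] hr = 0} := by
        ext m
        change MvPolynomial.eval _ h = 0 ↔ MvPolynomial.eval _ hr = 0
        rw [heval, hE m, hE' m]
      rw [h4]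
      exact h3
  have hset : {n : ℕ | MvPolynomial.eval ![(fm p a G)^[n] x, (fm p b G')^[n] y] h = 0} =
      {n : ℕ | n < n₀ ∧ MvPolynomial.eval ![(fm p a G)^[n] x, (fm p b G')^[n] y] h = 0} ∪
      {n | ∃ r < N, ∃ m ∈ R r, n = n₀ + r + N * m} := by
    ext n
    constructor
    · intro hn
      rcases lt_or_ge n n₀ with h1 | h1
      · exact Or.inl ⟨h1, hn⟩
      · have h2 : n = n₀ + (n - n₀) % N + N * ((n - n₀) / N) := by
          have := Nat.mod_add_div (n - n₀) N
          omega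
        refine Or.inr ⟨(n - n₀) % N, Nat.mod_lt _ hNpos, (n - n₀) / N, ?_, h2⟩
        change MvPolynomial.eval _ h = 0
        rw [← h2]
        exact hn
    · rintro (hn | ⟨r, -, m, hm, rfl⟩)
      · exact hn.2
      · exact hm
  rw [hset]
  refine (hSUN p).2.1 _ _ ((hSUN p).1 _ ((Set.finite_lt_nat n₀).subset fun n hn => hn.1)) ?_
  exact RES_union hSUN hSAF p N n₀ hNpos R hR N

end ETD
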