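import Pool.Agent.ETD.StC

/-!
# ETD, module SAF: affine images (helper75)
-/

set_option autoImplicit false
set_option linter.unusedVariables false

namespace ETD

theorem thm_SAF : St_SAF := by
  classical
  rintro p R ⟨S, T, hS, hT, hR⟩ N n₀ hN
  refine ⟨S.image fun q => (N * q.1, n₀ + N * q.2),
    T.image fun t => ((N : ℚ) * t.1, (N : ℚ) * t.2.1 + (n₀ : ℚ), t.2.2), ?_, ?_, ?_⟩
  · intro q hq
    obtain ⟨q', hq', rfl⟩ := Finset.mem_image.1 hq
    exact Nat.mul_pos hN (hS q' hq')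
  · intro t ht k
    obtain ⟨t', ht', rfl⟩ := Finset.mem_image.1 ht
    obtain ⟨m, hm⟩ := hT t' ht' k
    refine ⟨n₀ + N * m, ?_⟩
    push_cast
    rw [hm]
    ring
  · ext n
    simp only [Set.mem_image, Set.mem_ofPred_eq, Finset.mem_image]
    constructor
    · rintro ⟨m, hm, rfl⟩
      rw [hR] at hm
      rcases hm with ⟨q, hq, k, hk⟩ | ⟨t, ht, k, hk⟩
      · refine Or.inl ⟨_, ⟨q, hq, rfl⟩, k, ?_⟩
        show n₀ + N * m = N * q.1 * k + (n₀ + N * q.2)
        rw [hk]
        ring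
      · refine Or.inr ⟨_, ⟨t, ht, rfl⟩, k, ?_⟩
        push_cast
        rw [hk]
        ring
    · rintro (⟨_, ⟨q, hq, rfl⟩, k, hk⟩ | ⟨_, ⟨t, ht, rfl⟩, k, hk⟩)
      · refine ⟨q.1 * k + q.2, ?_, ?_⟩
        · rw [hR]
          exact Or.inl ⟨q, hq, k, rfl⟩
        · rw [hk]
          ring
      · obtain ⟨m, hm⟩ := hT t ht k
        refine ⟨m, ?_, ?_⟩
        · rw [hR]
          exact Or.inr ⟨t, ht, k, hm⟩
        · have h1 : ((n₀ + N * m : ℕ) : ℚ) = (n : ℚ) := by
            rw [hk]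
            push_cast
            rw [hm]
            ring
          exact_mod_cast h1

end ETD
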