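import Pool.Agent.ETD.StB

/-!
# ETD, module SCL: scaling
-/

set_option autoImplicit false
set_option linter.unusedVariables false

namespace ETD

open PowerSeries

theorem SCL_hs (k : Type) [Field k] :
    PowerSeries.HasSubst (MvPowerSeries.X 0 : MvPowerSeries (Fin 2) k) :=
  PowerSeries.HasSubst.X 0

/-- a series in `t` as a series in two variables -/
noncomputable def SCL_i (k : Type) [Field k] : k⟦X⟧ →+* MvPowerSeries (Fin 2) k :=
  (PowerSeries.substAlgHom (SCL_hs k)).toRingHom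

theorem SCL_i_apply {k : Type} [Field k] (b : k⟦X⟧) :
    SCL_i k b = PowerSeries.subst (MvPowerSeries.X 0 : MvPowerSeries (Fin 2) k) b := by
  show PowerSeries.substAlgHom (SCL_hs k) b = _
  rw [PowerSeries.coe_substAlgHom]

theorem SCL_e_i {k : Type} [Field k] {z : Fin 2 → k⟦X⟧} (hz : Sm z) (h0 : z 0 = X) (b : k⟦X⟧) :
    e z (SCL_i k b) = b := by
  rw [SCL_i_apply, e, PowerSeries.subst,
    MvPowerSeries.subst_comp_subst_apply (PowerSeries.HasSubst.const (SCL_hs k)) hz.hs]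
  have h1 : (fun _ : Unit => MvPowerSeries.subst z (MvPowerSeries.X 0 : MvPowerSeries (Fin 2) k)) =
      (MvPowerSeries.X : Unit → MvPowerSeries Unit k) := by
    funext s
    rw [MvPowerSeries.subst_X hz.hs, h0]
    rfl
  rw [h1, MvPowerSeries.subst_self]
  rfl

theorem SCL_coeff {k : Type} [Field k] (b : k⟦X⟧) (m : Fin 2 →₀ ℕ) (hm : m 1 = 0) :
    MvPowerSeries.coeff m (SCL_i k b) = coeff (m 0) b := by
  rw [SCL_i_apply, PowerSeries.coeff_subst (SCL_hs k)]
  have hm' : m = Finsupp.single 0 (m 0) := by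
    ext i
    fin_cases i
    · simp
    · simp [hm]
  rw [finsum_eq_single _ (m 0)]
  · rw [MvPowerSeries.coeff_X_pow, if_pos hm', smul_eq_mul, mul_one]
  · intro d hd
    rw [MvPowerSeries.coeff_X_pow, if_neg, smul_zero]
    intro h
    apply hd
    rw [h]
    simp

theorem SCL_sm {k : Type} [Field k] {y : k⟦X⟧} (hy : X ∣ y) :
    Sm (Fin.cons X ![y] : Fin 2 → k⟦X⟧) := by
  apply Sm.cons
  intro i
  have : i = 0 := Subsingleton.elim _ _
  rw [this]
  exact hy

theorem thm_SCL : St_SCL := by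
  intro k _ s A b hb
  let s₀ : k⟦X⟧ := PowerSeries.mk fun n => MvPowerSeries.coeff (Finsupp.single 0 n) s
  obtain ⟨r, hr⟩ : (MvPowerSeries.X 1 : MvPowerSeries (Fin 2) k) ∣ s - SCL_i k s₀ := by
    rw [MvPowerSeries.X_dvd_iff]
    intro m hm
    rw [map_sub, SCL_coeff s₀ m hm, coeff_mk, sub_eq_zero]
    congr 1
    have hm' : m = Finsupp.single 0 (m 0) := by
      ext i
      fin_cases i
      · simp
      · simp [hm]
    rw [← hm']
  have hG : ∀ i, MvPowerSeries.constantCoeff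
      ((![MvPowerSeries.X 0, MvPowerSeries.X 0 ^ A * MvPowerSeries.X 1] :
        Fin 2 → MvPowerSeries (Fin 2) k) i) = 0 := by
    intro i
    fin_cases i
    · exact MvPowerSeries.constantCoeff_X _
    · show MvPowerSeries.constantCoeff
        (MvPowerSeries.X 0 ^ A * MvPowerSeries.X 1 : MvPowerSeries (Fin 2) k) = 0
      rw [map_mul, MvPowerSeries.constantCoeff_X, mul_zero]
  refine ⟨MvPowerSeries.X 1 * (MvPowerSeries.X 0 ^ (A - b) *
    MvPowerSeries.subst ![MvPowerSeries.X 0, MvPowerSeries.X 0 ^ A * MvPowerSeries.X 1] r),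
    dvd_mul_right _ _, ?_⟩
  intro y hy
  have hs : s = SCL_i k s₀ + MvPowerSeries.X 1 * r := by
    rw [← hr]; ring
  have hval : ∀ y' : k⟦X⟧, X ∣ y' → ec ![y'] s = s₀ + y' * ec ![y'] r := by
    intro y' hy'
    have hz := SCL_sm hy'
    conv_lhs => rw [hs]
    rw [ec, e_add hz, e_mul hz, SCL_e_i hz rfl, e_X hz]
    rfl
  have hz := SCL_sm hy
  have h1 : ec ![y] (MvPowerSeries.X 1 * (MvPowerSeries.X 0 ^ (A - b) *
      MvPowerSeries.subst ![MvPowerSeries.X 0, MvPowerSeries.X 0 ^ A * MvPowerSeries.X 1] r)) =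
      y * (X ^ (A - b) * ec ![X ^ A * y] r) := by
    rw [ec, ec, e_mul hz, e_mul hz, e_pow hz, e_X hz, e_X hz, e_subst hz _ hG]
    congr 3
    funext i
    fin_cases i
    · show e (Fin.cons X ![y]) (MvPowerSeries.X 0) = X
      rw [e_X hz]
      rfl
    · show e (Fin.cons X ![y]) (MvPowerSeries.X 0 ^ A * MvPowerSeries.X 1) = X ^ A * y
      rw [e_mul hz, e_pow hz, e_X hz, e_X hz]
      rfl
  rw [h1, hval _ (hy.mul_left _), hval 0 (dvd_zero _)]
  have h2 : (X : k⟦X⟧) ^ A = X ^ b * X ^ (A - b) := by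
    rw [← pow_add]
    congr 1
    omega
  rw [h2]
  ring

end ETD
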