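import Pool.Agent.ETD.StB

/-!
# ETD, module SEQ: the iterates with numbers `p ^ j`
-/

set_option autoImplicit false
set_option linter.unusedVariables false

namespace ETD

open PowerSeries

/-- the sequence of polynomials -/
noncomputable def SEQ_G {k : Type} [Field k] (p : ℕ) (α a : k⟦X⟧) (E : Polynomial k⟦X⟧) :
    ℕ → Polynomial k⟦X⟧
  | 0 => Polynomial.C α + E
  | j + 1 => Gp p (a ^ p ^ j) (SEQ_G p α a E j)

theorem SEQ_iter (h : St_REC) {k : Type} [Field k] (p : ℕ) [Fact p.Prime] [CharP k p]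
    (α a : k⟦X⟧) (E : Polynomial k⟦X⟧) (j : ℕ) :
    (ph p α a E)^[p ^ j] = fun W => a ^ p ^ j * W + (SEQ_G p α a E j).eval (W ^ p) := by
  induction j with
  | zero =>
    funext W
    simp only [pow_zero, Function.iterate_one, SEQ_G, Polynomial.eval_add, Polynomial.eval_C,
      pow_one, ph]
    ring
  | succ j ih =>
    funext W
    rw [pow_succ, Function.iterate_mul, ih, h k p (a ^ p ^ j) (SEQ_G p α a E j) W, ← pow_mul,
      SEQ_G]

theorem SEQ_min (p l d g : ℕ) (hl : l < p) :
    g + (p - 1) * min d (p * g) ≤ (p - 1 - l) * d + g + p * l * min d g := by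
  have h1 : p - 1 = (p - 1 - l) + l := by omega
  set r := p - 1 - l with hr
  rcases le_total d g with h | h
  · rw [min_eq_left h]
    have h2 : min d (p * g) ≤ d := min_le_left _ _
    calc g + (p - 1) * min d (p * g) ≤ g + (p - 1) * d := by gcongr
      _ = r * d + g + l * d := by rw [h1]; ring
      _ ≤ r * d + g + p * l * d := by
          gcongr
          exact Nat.le_mul_of_pos_left _ (by omega)
  · rw [min_eq_right h]
    have h2 : min d (p * g) ≤ d := min_le_left _ _
    have h3 : min d (p * g) ≤ p * g := min_le_right _ _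
    calc g + (p - 1) * min d (p * g) = r * min d (p * g) + g + l * min d (p * g) := by
          rw [h1]; ring
      _ ≤ r * d + g + l * (p * g) := by gcongr
      _ = r * d + g + p * l * g := by ring

theorem SEQ_dvd (h : St_VAL) {k : Type} [Field k] (p : ℕ) [Fact p.Prime] [CharP k p]
    (a : k⟦X⟧) (G : Polynomial k⟦X⟧) (g d l : ℕ) (hg : Polynomial.C (X ^ g) ∣ G)
    (hd : X ^ d ∣ a - 1) :
    Polynomial.C (X ^ ((p - 1 - l) * d + g + p * l * min d g)) ∣
      Polynomial.C ((a - 1) ^ (p - 1 - l)) * (Dl p a G)^[l] G := by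
  have h1 := h k p a G g d hg hd l
  have h2 : (X : k⟦X⟧) ^ ((p - 1 - l) * d) ∣ (a - 1) ^ (p - 1 - l) := by
    rw [mul_comm, pow_mul]
    exact pow_dvd_pow_of_dvd hd _
  have h3 := mul_dvd_mul (map_dvd Polynomial.C h2) h1
  rw [← map_mul, ← pow_add, ← add_assoc] at h3
  exact h3

theorem thm_SEQ (h : St_REC) (h1 : St_VAL) : St_SEQ := by
  intro k _ p _ _ α a E
  refine ⟨SEQ_G p α a E, rfl, ?_, ?_⟩
  · intro j W
    rw [SEQ_iter h]
  · intro j g d hg hd
    have hp1 : 1 < p := (Fact.out : p.Prime).one_lt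
    constructor
    · rw [SEQ_G, Gp]
      refine Finset.dvd_sum fun l hl => ?_
      refine dvd_trans ?_ (SEQ_dvd h1 p (a ^ p ^ j) (SEQ_G p α a E j) g d l hg hd)
      exact map_dvd Polynomial.C (pow_dvd_pow _ (SEQ_min p l d g (Finset.mem_range.1 hl)))
    · intro r hr
      have h2 : SEQ_G p α a E (j + 1) -
          Polynomial.C ((a ^ p ^ j - 1) ^ (p - 1)) * SEQ_G p α a E j =
          ∑ l ∈ Finset.Ico 1 p, Polynomial.C ((a ^ p ^ j - 1) ^ (p - 1 - l)) *
            (Dl p (a ^ p ^ j) (SEQ_G p α a E j))^[l] (SEQ_G p α a E j) := by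
        rw [SEQ_G, Gp, Finset.range_eq_Ico, ← Finset.sum_Ico_consecutive _ (Nat.zero_le 1) hp1.le]
        simp
      rw [h2]
      refine Finset.dvd_sum fun l hl => ?_
      rw [Finset.mem_Ico] at hl
      refine dvd_trans ?_ (SEQ_dvd h1 p (a ^ p ^ j) (SEQ_G p α a E j) g d l hg hd)
      exact map_dvd Polynomial.C (pow_dvd_pow _ (hr l hl.1 hl.2))

end ETD
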