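import Pool.Agent.ETD.StC

/-!
# ETD: module SPQ

The naturals of the form `β + (p ^ s) ^ j γ`.
-/

set_option autoImplicit false
set_option linter.unusedVariables false

namespace ETD

open PowerSeries

/-- a single p-set -/
private theorem SPQ_one (p : ℕ) (a b : ℚ) (r : ℕ)
    (h : ∀ k : ℕ, ∃ n : ℕ, (n : ℚ) = a * (p : ℚ) ^ (r * k) + b) :
    PSet p {n : ℕ | ∃ k : ℕ, (n : ℚ) = a * (p : ℚ) ^ (r * k) + b} :=
  ⟨∅, {(a, b, r)}, by simp, by simpa using h, by ext n; simp⟩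

private theorem SPQ_union (hSUN : St_SUN) (p : ℕ) (R : ℕ → Set ℕ) (F : Finset ℕ) :
    (∀ i ∈ F, PSet p (R i)) → PSet p {n | ∃ i ∈ F, n ∈ R i} := by
  classical
  induction F using Finset.induction_on with
  | empty =>
    intro _
    have e : {n : ℕ | ∃ i ∈ (∅ : Finset ℕ), n ∈ R i} = ∅ := by ext n; simp
    rw [e]
    exact (hSUN p).1 ∅ Set.finite_empty
  | insert a F ha ih =>
    intro h
    have h1 := (hSUN p).2.1 _ _ (h a (by simp)) (ih fun i hi => h i (by simp [hi]))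
    have e : {n : ℕ | ∃ i ∈ insert a F, n ∈ R i} = R a ∪ {n | ∃ i ∈ F, n ∈ R i} := by
      ext n; simp
    rw [e]
    exact h1

/-- integer coefficients -/
private theorem SPQ_int (hSUN : St_SUN) (p : ℕ) (hp : p.Prime) (s : ℕ) (hs : 0 < s) (D : ℕ)
    (hD : 0 < D) (hc : Nat.Coprime p D) (A B : ℤ) :
    PSet p {n : ℕ | ∃ j : ℕ, (D : ℤ) * n = B + ((p : ℤ) ^ s) ^ j * A} := by
  have hD1 : (1 : ℤ) ≤ D := by exact_mod_cast hD
  have hp2 : 2 ≤ p := hp.two_le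
  rcases le_or_gt A 0 with hA | hA
  · apply (hSUN p).1
    apply (Set.finite_Iic B.toNat).subset
    rintro n ⟨j, hj⟩
    have h1 : (0 : ℤ) ≤ ((p : ℤ) ^ s) ^ j := by positivity
    have h2 : ((p : ℤ) ^ s) ^ j * A ≤ 0 := mul_nonpos_of_nonneg_of_nonpos h1 hA
    have h3 : (n : ℤ) ≤ D * n := le_mul_of_one_le_left (by positivity) hD1
    show n ≤ B.toNat
    omega
  · -- `A > 0`
    set Q : ℕ := p ^ s with hQ
    have hQ2 : 1 < Q := Nat.one_lt_pow hs.ne' (by omega)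
    have hQZ : ((p : ℤ) ^ s) = (Q : ℤ) := by rw [hQ]; push_cast; rfl
    rw [hQZ]
    set m : ℕ := Nat.totient D with hm
    have hm0 : 0 < m := Nat.totient_pos.mpr hD
    have hQD : Nat.Coprime Q D := Nat.Coprime.pow_left s hc
    have hQm : Q ^ m ≡ 1 [MOD D] := Nat.ModEq.pow_totient hQD
    set j₀ : ℕ := B.natAbs with hj₀
    have hpos : ∀ j, j₀ ≤ j → 0 ≤ B + (Q : ℤ) ^ j * A := by
      intro j hj
      have h1 : j < Q ^ j := Nat.lt_pow_self hQ2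
      have h2 : (j : ℤ) < (Q : ℤ) ^ j := by exact_mod_cast h1
      have h3 : (Q : ℤ) ^ j ≤ (Q : ℤ) ^ j * A := le_mul_of_one_le_right (by positivity) hA
      omega
    have hmod : ∀ i k : ℕ, (Q : ℤ) ^ (i + m * k) ≡ (Q : ℤ) ^ i [ZMOD D] := by
      intro i k
      have h1 : (Q : ℤ) ^ m ≡ 1 [ZMOD D] := by
        have := (Int.natCast_modEq_iff).mpr hQm
        simpa using this
      have h2 := (h1.pow k).mul_left ((Q : ℤ) ^ i)
      rw [one_pow, mul_one, ← pow_mul, ← pow_add] at h2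
      exact h2
    have hdvd : ∀ i k : ℕ, (D : ℤ) ∣ B + (Q : ℤ) ^ (i + m * k) * A ↔
        (D : ℤ) ∣ B + (Q : ℤ) ^ i * A := by
      intro i k
      have h1 : B + (Q : ℤ) ^ (i + m * k) * A ≡ B + (Q : ℤ) ^ i * A [ZMOD D] :=
        ((hmod i k).mul_right A).add_left B
      exact Int.ModEq.dvd_iff h1
    have hDQ : (D : ℚ) ≠ 0 := by exact_mod_cast hD.ne'
    have hrat : ∀ i k n : ℕ, (n : ℚ) = (A * (Q : ℚ) ^ i / D) * (p : ℚ) ^ (s * m * k) + B / D ↔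
        (D : ℤ) * n = B + (Q : ℤ) ^ (i + m * k) * A := by
      intro i k n
      have h1 : (p : ℚ) ^ (s * m * k) = (Q : ℚ) ^ (m * k) := by
        rw [hQ]; push_cast; rw [← pow_mul, mul_assoc]
      have h2 : (A * (Q : ℚ) ^ i / D) * (p : ℚ) ^ (s * m * k) + B / D =
          (B + (Q : ℚ) ^ (i + m * k) * A) / D := by
        rw [h1, pow_add]; ring
      rw [h2, eq_div_iff hDQ]
      constructor
      · intro h
        have h3 : (D : ℚ) * n = B + (Q : ℚ) ^ (i + m * k) * A := by rw [← h]; ring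
        exact_mod_cast h3
      · intro h
        have h3 : (D : ℚ) * n = B + (Q : ℚ) ^ (i + m * k) * A := by exact_mod_cast h
        rw [← h3]; ring
    have hval : ∀ i k : ℕ, j₀ ≤ i → (D : ℤ) ∣ B + (Q : ℤ) ^ i * A →
        ∃ n : ℕ, (D : ℤ) * n = B + (Q : ℤ) ^ (i + m * k) * A := by
      intro i k hi hd
      obtain ⟨n, hn⟩ := (hdvd i k).mpr hd
      have h1 := hpos (i + m * k) (by omega)
      rw [hn] at h1
      have h2 : 0 ≤ n := nonneg_of_mul_nonneg_right h1 (by omega)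
      refine ⟨n.toNat, ?_⟩
      rw [Int.toNat_of_nonneg h2, hn]
    set F : Finset ℕ := (Finset.range (j₀ + m)).filter
      fun i => j₀ ≤ i ∧ (D : ℤ) ∣ B + (Q : ℤ) ^ i * A with hF
    have h1 : PSet p {n : ℕ | ∃ j < j₀, (D : ℤ) * n = B + (Q : ℤ) ^ j * A} := by
      apply (hSUN p).1
      apply (Set.finite_Iic (B + (Q : ℤ) ^ j₀ * A).toNat).subset
      rintro n ⟨j, hj, hn⟩
      have h2 : (Q : ℤ) ^ j * A ≤ (Q : ℤ) ^ j₀ * A := by
        apply mul_le_mul_of_nonneg_right _ hA.le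
        exact pow_le_pow_right₀ (by omega) hj.le
      have h3 : (n : ℤ) ≤ D * n := le_mul_of_one_le_left (by positivity) hD1
      show n ≤ (B + (Q : ℤ) ^ j₀ * A).toNat
      omega
    have h2 : PSet p {n : ℕ | ∃ i ∈ F, n ∈ {n : ℕ | ∃ k : ℕ,
        (n : ℚ) = (A * (Q : ℚ) ^ i / D) * (p : ℚ) ^ (s * m * k) + B / D}} := by
      apply SPQ_union hSUN
      intro i hi
      apply SPQ_one
      intro k
      obtain ⟨h3, h4, h5⟩ := Finset.mem_filter.mp hi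
      obtain ⟨n, hn⟩ := hval i k h4 h5
      exact ⟨n, (hrat i k n).mpr hn⟩
    have h3 := (hSUN p).2.1 _ _ h1 h2
    have e : {n : ℕ | ∃ j : ℕ, (D : ℤ) * n = B + (Q : ℤ) ^ j * A} =
        {n : ℕ | ∃ j < j₀, (D : ℤ) * n = B + (Q : ℤ) ^ j * A} ∪
        {n : ℕ | ∃ i ∈ F, n ∈ {n : ℕ | ∃ k : ℕ,
          (n : ℚ) = (A * (Q : ℚ) ^ i / D) * (p : ℚ) ^ (s * m * k) + B / D}} := by
      ext n
      simp only [Set.mem_ofPred_eq, Set.mem_union, hrat]
      constructor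
      · rintro ⟨j, hj⟩
        rcases lt_or_ge j j₀ with h | h
        · exact Or.inl ⟨j, h, hj⟩
        · right
          have h4 : j₀ + (j - j₀) % m + m * ((j - j₀) / m) = j := by
            have := Nat.mod_add_div (j - j₀) m
            omega
          refine ⟨j₀ + (j - j₀) % m, ?_, (j - j₀) / m, ?_⟩
          · rw [hF, Finset.mem_filter, Finset.mem_range]
            refine ⟨by have := Nat.mod_lt (j - j₀) hm0; omega, by omega, ?_⟩
            rw [← hdvd _ ((j - j₀) / m), h4, ← hj]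
            exact dvd_mul_right _ _
          · rw [h4]; exact hj
      · rintro (⟨j, _, hj⟩ | ⟨i, _, k, hk⟩)
        · exact ⟨j, hj⟩
        · exact ⟨_, hk⟩
    rw [e]
    exact h3

/-- passage to integers prime to `p` -/
private theorem SPQ_red (p : ℕ) [hp : Fact p.Prime] (β γ : ℤ_[p]) (D₀ A₀ B₀ : ℤ) (h0 : D₀ ≠ 0)
    (hβ : (D₀ : ℤ_[p]) * β = B₀) (hγ : (D₀ : ℤ_[p]) * γ = A₀) :
    ∃ (D : ℕ) (A B : ℤ), 0 < D ∧ Nat.Coprime p D ∧ (D : ℤ_[p]) * β = B ∧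
      (D : ℤ_[p]) * γ = A := by
  have hE : D₀.natAbs ^ 2 ≠ 0 := pow_ne_zero 2 (Int.natAbs_ne_zero.mpr h0)
  obtain ⟨v, D, hD, hE2⟩ := Nat.exists_eq_pow_mul_and_not_dvd hE p hp.out.ne_one
  have hE3 : (D₀ : ℤ) ^ 2 = (p : ℤ) ^ v * D := by
    rw [← Int.natAbs_sq]
    exact_mod_cast hE2
  have hE4 : (D₀ : ℤ_[p]) * D₀ = (p : ℤ_[p]) ^ v * D := by
    have h1 : ((D₀ ^ 2 : ℤ) : ℤ_[p]) = (((p : ℤ) ^ v * D : ℤ) : ℤ_[p]) := by rw [hE3]
    push_cast at h1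
    rw [← h1]; ring
  have hpv : (p : ℤ_[p]) ^ v ≠ 0 := pow_ne_zero v (by exact_mod_cast hp.out.ne_zero)
  have key : ∀ (x : ℤ_[p]) (C : ℤ), (D₀ : ℤ_[p]) * x = C → ∃ C' : ℤ, (D : ℤ_[p]) * x = C' := by
    intro x C hx
    have h1 : (p : ℤ_[p]) ^ v * ((D : ℤ_[p]) * x) = ((D₀ * C : ℤ) : ℤ_[p]) := by
      push_cast
      rw [← hx, ← mul_assoc, ← mul_assoc, ← hE4]
    have h2 : (p : ℤ_[p]) ^ v ∣ ((D₀ * C : ℤ) : ℤ_[p]) := ⟨_, h1.symm⟩
    rw [PadicInt.pow_p_dvd_int_iff] at h2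
    obtain ⟨C', hC'⟩ := h2
    refine ⟨C', ?_⟩
    rw [hC'] at h1
    push_cast at h1
    exact mul_left_cancel₀ hpv h1
  obtain ⟨B, hB⟩ := key β B₀ hβ
  obtain ⟨A, hA⟩ := key γ A₀ hγ
  refine ⟨D, A, B, ?_, (Nat.Prime.coprime_iff_not_dvd hp.out).mpr hD, hB, hA⟩
  rcases Nat.eq_zero_or_pos D with h | h
  · rw [h] at hD; exact absurd (dvd_zero p) hD
  · exact h

theorem thm_SPQ (hSUN : St_SUN) : St_SPQ := by
  intro p hp s hs β γ
  by_cases hR : {n : ℕ | ∃ j : ℕ, (n : ℤ_[p]) = β + ((p : ℤ_[p]) ^ s) ^ j * γ}.Subsingleton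
  · exact (hSUN p).1 _ hR.finite
  · rw [Set.Subsingleton] at hR
    push Not at hR
    obtain ⟨n₁, ⟨j₁, h₁⟩, n₂, ⟨j₂, h₂⟩, hne⟩ := hR
    set D₀ : ℤ := ((p : ℤ) ^ s) ^ j₁ - ((p : ℤ) ^ s) ^ j₂ with hD₀
    have hγ : (D₀ : ℤ_[p]) * γ = (((n₁ : ℤ) - n₂ : ℤ) : ℤ_[p]) := by
      rw [hD₀]; push_cast; rw [h₁, h₂]; ring
    have hβ : (D₀ : ℤ_[p]) * β =
        ((D₀ * n₁ - ((p : ℤ) ^ s) ^ j₁ * ((n₁ : ℤ) - n₂) : ℤ) : ℤ_[p]) := by
      have h3 : β = n₁ - ((p : ℤ_[p]) ^ s) ^ j₁ * γ := by rw [h₁]; ring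
      have h4 : (n₁ : ℤ_[p]) - n₂ = D₀ * γ := by rw [hγ]; push_cast; ring
      push_cast
      rw [h4]
      nth_rewrite 1 [h3]
      ring
    have h0 : D₀ ≠ 0 := by
      intro h0
      rw [h0] at hγ
      push_cast at hγ
      rw [zero_mul] at hγ
      have h5 : (n₁ : ℤ_[p]) = n₂ := by
        rw [eq_comm, sub_eq_zero] at hγ; exact hγ
      exact hne (by exact_mod_cast h5)
    obtain ⟨D, A, B, hD, hc, hB, hA⟩ := SPQ_red p β γ D₀ _ _ h0 hβ hγ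
    have h6 := SPQ_int hSUN p hp.out s hs D hD hc A B
    have e : {n : ℕ | ∃ j : ℕ, (n : ℤ_[p]) = β + ((p : ℤ_[p]) ^ s) ^ j * γ} =
        {n : ℕ | ∃ j : ℕ, (D : ℤ) * n = B + ((p : ℤ) ^ s) ^ j * A} := by
      ext n
      simp only [Set.mem_ofPred_eq]
      apply exists_congr
      intro j
      have hDp : (D : ℤ_[p]) ≠ 0 := by exact_mod_cast hD.ne'
      have h7 : (D : ℤ_[p]) * (β + ((p : ℤ_[p]) ^ s) ^ j * γ) =
          ((B + ((p : ℤ) ^ s) ^ j * A : ℤ) : ℤ_[p]) := by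
        push_cast
        rw [← hB, ← hA]; ring
      constructor
      · intro h
        rw [← h] at h7
        have h8 : (((D : ℤ) * n : ℤ) : ℤ_[p]) = ((B + ((p : ℤ) ^ s) ^ j * A : ℤ) : ℤ_[p]) := by
          rw [← h7]; push_cast; rfl
        exact_mod_cast h8
      · intro h
        rw [← h] at h7
        push_cast at h7
        exact (mul_left_cancel₀ hDp h7).symm
    rw [e]
    exact h6

end ETD
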