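import Pool.Agent.ETD.StC

/-!
# ETD, module SUN: finite sets, unions, progressions
-/

set_option autoImplicit false
set_option linter.unusedVariables false

namespace ETD

theorem thm_SUN : St_SUN := by
  classical
  intro p
  refine ⟨fun R hR => ?_, fun R R' h h' => ?_, fun c d hc => ?_⟩
  · refine ⟨∅, hR.toFinset.image fun n : ℕ => ((0 : ℚ), (n : ℚ), (0 : ℕ)), by simp, ?_, ?_⟩
    · intro t ht k
      obtain ⟨n, -, rfl⟩ := Finset.mem_image.1 ht
      exact ⟨n, by simp⟩
    · ext n
      simp only [Set.mem_ofPred_eq]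
      constructor
      · intro hn
        refine Or.inr ⟨_, Finset.mem_image.2 ⟨n, hR.mem_toFinset.2 hn, rfl⟩, 0, by simp⟩
      · rintro (⟨q, hq, -⟩ | ⟨t, ht, k, hk⟩)
        · exact absurd hq (Finset.notMem_empty _)
        · obtain ⟨m, hm, rfl⟩ := Finset.mem_image.1 ht
          have h1 : (n : ℚ) = m := by simpa using hk
          have h2 : n = m := by exact_mod_cast h1
          rw [h2]
          exact hR.mem_toFinset.1 hm
  · obtain ⟨S, T, hS, hT, rfl⟩ := h
    obtain ⟨S', T', hS', hT', rfl⟩ := h'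
    refine ⟨S ∪ S', T ∪ T', ?_, ?_, ?_⟩
    · intro q hq
      rcases Finset.mem_union.1 hq with h | h
      · exact hS q h
      · exact hS' q h
    · intro t ht
      rcases Finset.mem_union.1 ht with h | h
      · exact hT t h
      · exact hT' t h
    · ext n
      simp only [Set.mem_union, Set.mem_ofPred_eq]
      constructor
      · rintro ((⟨q, hq, h⟩ | ⟨t, ht, h⟩) | (⟨q, hq, h⟩ | ⟨t, ht, h⟩))
        · exact Or.inl ⟨q, Finset.mem_union_left _ hq, h⟩
        · exact Or.inr ⟨t, Finset.mem_union_left _ ht, h⟩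
        · exact Or.inl ⟨q, Finset.mem_union_right _ hq, h⟩
        · exact Or.inr ⟨t, Finset.mem_union_right _ ht, h⟩
      · rintro (⟨q, hq, h⟩ | ⟨t, ht, h⟩)
        · rcases Finset.mem_union.1 hq with h1 | h1
          · exact Or.inl (Or.inl ⟨q, h1, h⟩)
          · exact Or.inr (Or.inl ⟨q, h1, h⟩)
        · rcases Finset.mem_union.1 ht with h1 | h1
          · exact Or.inl (Or.inr ⟨t, h1, h⟩)
          · exact Or.inr (Or.inr ⟨t, h1, h⟩)
  · refine ⟨{(c, d)}, ∅, ?_, ?_, ?_⟩
    · intro q hq
      rw [Finset.mem_singleton.1 hq]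
      exact hc
    · intro t ht
      exact absurd ht (Finset.notMem_empty _)
    · ext n
      simp

end ETD
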