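import Pool.Agent.ETD.StB

/-!
# ETD, module SZU: superexponential convergence for `a = 1`
-/

set_option autoImplicit false
set_option linter.unusedVariables false

namespace ETD

open PowerSeries

theorem SZU_mul {k : Type} [Field k] (f : k⟦X⟧ → k⟦X⟧) (c : k⟦X⟧) (q : ℕ)
    (h : ∀ W, c ∣ f^[q] W - W) (m : ℕ) (W : k⟦X⟧) : c ∣ f^[q * m] W - W := by
  induction m generalizing W with
  | zero => simp
  | succ m ih =>
    have h1 := ih (f^[q] W)
    have h2 := dvd_add h1 (h W)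
    rw [sub_add_sub_cancel, ← Function.iterate_add_apply] at h2
    exact h2

theorem SZU_growth (p : ℕ) (hp : 1 ≤ p) (j : ℕ) :
    p ^ j + j * p ^ (j - 1) ≤ (p + 1) ^ j := by
  induction j with
  | zero => simp
  | succ j ih =>
    have h1 : p ^ (j + 1) + (j + 1) * p ^ (j + 1 - 1) =
        (p ^ j + j * p ^ (j - 1)) * p + p ^ j := by
      rcases Nat.eq_zero_or_pos j with h0 | h0
      · subst h0; simp
      · obtain ⟨i, rfl⟩ : ∃ i, j = i + 1 := ⟨j - 1, by omega⟩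
        simp only [Nat.add_sub_cancel]
        ring
    rw [h1]
    calc (p ^ j + j * p ^ (j - 1)) * p + p ^ j
        ≤ (p ^ j + j * p ^ (j - 1)) * p + (p ^ j + j * p ^ (j - 1)) := by omega
      _ = (p ^ j + j * p ^ (j - 1)) * (p + 1) := by ring
      _ ≤ (p + 1) ^ j * (p + 1) := Nat.mul_le_mul_right _ ih
      _ = (p + 1) ^ (j + 1) := by ring

theorem SZU_large (p : ℕ) (hp : 1 ≤ p) (C j : ℕ) (hj : C * p + 1 ≤ j) :
    C * p ^ j ≤ (p + 1) ^ j := by
  obtain ⟨i, rfl⟩ : ∃ i, j = i + 1 := ⟨j - 1, by omega⟩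
  have h1 := SZU_growth p hp (i + 1)
  simp only [Nat.add_sub_cancel] at h1
  calc C * p ^ (i + 1) = C * p * p ^ i := by ring
    _ ≤ (i + 1) * p ^ i := by
        apply Nat.mul_le_mul_right
        omega
    _ ≤ (p + 1) ^ (i + 1) := by omega

theorem thm_SZU (h : St_SEQ) : St_SZU := by
  intro k _ p _ _ α E hL C
  have hp1 : 1 < p := (Fact.out : p.Prime).one_lt
  obtain ⟨G, hG0, hGi, hGd⟩ := h k p α 1 E
  have hG : ∀ j : ℕ, Polynomial.C (X ^ ((p + 1) ^ j)) ∣ G j := by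
    intro j
    induction j with
    | zero =>
      rw [hG0, pow_zero, pow_one]
      exact dvd_add (map_dvd Polynomial.C hL.hα) hL.hE
    | succ j ih =>
      have h1 := (hGd j _ (p * (p + 1) ^ j) ih (by simp)).1
      refine dvd_trans (map_dvd Polynomial.C (pow_dvd_pow _ ?_)) h1
      rw [min_self]
      obtain ⟨r, rfl⟩ : ∃ r, p = r + 2 := ⟨p - 2, by omega⟩
      have h3 : r + 2 - 1 = r + 1 := by omega
      rw [h3, pow_succ]
      nlinarith [Nat.zero_le ((r + 2 + 1) ^ j), Nat.zero_le (r * (r + 2 + 1) ^ j)]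
  have hstep : ∀ (j : ℕ) (W : k⟦X⟧), X ^ ((p + 1) ^ j) ∣ (ph p α 1 E)^[p ^ j] W - W := by
    intro j W
    rw [hGi j W]
    obtain ⟨Q, hQ⟩ := hG j
    have h1 : (1 : k⟦X⟧) ^ p ^ j * W + (G j).eval (W ^ p) - W =
        X ^ ((p + 1) ^ j) * Q.eval (W ^ p) := by
      rw [one_pow, hQ, Polynomial.eval_mul, Polynomial.eval_C]; ring
    rw [h1]
    exact dvd_mul_right _ _
  refine ⟨C * p + 1, ?_⟩
  intro j m W hj
  exact SZU_mul _ _ _ (fun W => (pow_dvd_pow _ (SZU_large p hp1.le C j hj)).trans (hstep j W)) m W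

end ETD
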