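import Pool.Agent.ETD.StB

/-!
# ETD, module TAY: affine substitutions in series with coefficients in `k⟦t⟧`
-/

set_option autoImplicit false
set_option linter.unusedVariables false

namespace ETD

open PowerSeries

theorem TAY_hs (k : Type) [Field k] :
    PowerSeries.HasSubst (MvPowerSeries.X 0 : MvPowerSeries (Fin 2) k) :=
  PowerSeries.HasSubst.X 0

/-- a series in `t` as a series in two variables -/
noncomputable def TAY_i (k : Type) [Field k] : k⟦X⟧ →+* MvPowerSeries (Fin 2) k :=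
  (PowerSeries.substAlgHom (TAY_hs k)).toRingHom

theorem TAY_i_apply {k : Type} [Field k] (b : k⟦X⟧) :
    TAY_i k b = PowerSeries.subst (MvPowerSeries.X 0 : MvPowerSeries (Fin 2) k) b := by
  show PowerSeries.substAlgHom (TAY_hs k) b = _
  rw [PowerSeries.coe_substAlgHom]

theorem TAY_i_X {k : Type} [Field k] : TAY_i k X = MvPowerSeries.X 0 := by
  rw [TAY_i_apply, PowerSeries.subst_X (TAY_hs k)]

theorem TAY_e_i {k : Type} [Field k] {z : Fin 2 → k⟦X⟧} (hz : Sm z) (h0 : z 0 = X) (b : k⟦X⟧) :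
    e z (TAY_i k b) = b := by
  rw [TAY_i_apply, e, PowerSeries.subst,
    MvPowerSeries.subst_comp_subst_apply (PowerSeries.HasSubst.const (TAY_hs k)) hz.hs]
  have h1 : (fun _ : Unit => MvPowerSeries.subst z (MvPowerSeries.X 0 : MvPowerSeries (Fin 2) k)) =
      (MvPowerSeries.X : Unit → MvPowerSeries Unit k) := by
    funext s
    rw [MvPowerSeries.subst_X hz.hs, h0]
    rfl
  rw [h1, MvPowerSeries.subst_self]
  rfl

theorem thm_TAY : St_TAY := by
  intro k _ s A B c y₀ hy₀
  have hG : ∀ i, MvPowerSeries.constantCoeff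
      ((![MvPowerSeries.X 0, TAY_i k y₀ + TAY_i k c * MvPowerSeries.X 1] :
        Fin 2 → MvPowerSeries (Fin 2) k) i) = 0 := by
    intro i
    fin_cases i
    · show MvPowerSeries.constantCoeff (MvPowerSeries.X 0 : MvPowerSeries (Fin 2) k) = 0
      exact MvPowerSeries.constantCoeff_X _
    · show MvPowerSeries.constantCoeff (TAY_i k y₀ + TAY_i k c * MvPowerSeries.X 1) = 0
      obtain ⟨w, hw⟩ := hy₀
      rw [hw, map_add, map_mul, map_mul, map_mul, TAY_i_X, MvPowerSeries.constantCoeff_X,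
        MvPowerSeries.constantCoeff_X, zero_mul, mul_zero, add_zero]
  refine ⟨TAY_i k A + TAY_i k B * MvPowerSeries.subst
    ![MvPowerSeries.X 0, TAY_i k y₀ + TAY_i k c * MvPowerSeries.X 1] s, ?_⟩
  intro y hy
  have hz : Sm (Fin.cons X ![y] : Fin 2 → k⟦X⟧) := by
    apply Sm.cons
    intro i
    have : i = 0 := Subsingleton.elim _ _
    rw [this]
    exact hy
  rw [ec, ec, e_add hz, e_mul hz, TAY_e_i hz rfl, TAY_e_i hz rfl, e_subst hz _ hG]
  congr 3
  funext i
  fin_cases i
  · show (X : k⟦X⟧) = e (Fin.cons X ![y]) (MvPowerSeries.X 0)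
    rw [e_X hz]
    rfl
  · show y₀ + c * y = e (Fin.cons X ![y]) (TAY_i k y₀ + TAY_i k c * MvPowerSeries.X 1)
    rw [e_add hz, e_mul hz, TAY_e_i hz rfl, TAY_e_i hz rfl, e_X hz]
    rfl

end ETD
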