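import Pool.Agent.ETD.StB

/-!
# ETD, module VAL: divisibility of the iterated differences (helper75)
-/

set_option autoImplicit false
set_option linter.unusedVariables false

namespace ETD

open PowerSeries

private theorem VAL_comp {R : Type} [CommRing R] (F A B : Polynomial R) :
    A - B ∣ F.comp A - F.comp B := by
  have h : ∀ A : Polynomial R, F.comp A = (F.map Polynomial.C).eval A := by
    intro A
    rw [Polynomial.comp, Polynomial.eval₂_eq_eval_map]
  rw [h, h]
  exact Polynomial.sub_dvd_eval_sub A B _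

private theorem VAL_step {k : Type} [Field k] {p : ℕ} [Fact p.Prime] [CharP k p] {a : k⟦X⟧}
    {G : Polynomial k⟦X⟧} {g d : ℕ} (hG : Polynomial.C (X ^ g) ∣ G) (ha : X ^ d ∣ a - 1) (m : ℕ)
    {F : Polynomial k⟦X⟧} (hF : Polynomial.C (X ^ m) ∣ F) :
    Polynomial.C (X ^ (m + p * min d g)) ∣ Dl p a G F := by
  have hch : CharP k⟦X⟧ p := charP_of_injective_ringHom (f := PowerSeries.C) PowerSeries.C_injective p
  have h1 : (X : k⟦X⟧) ^ (p * min d g) ∣ a ^ p - 1 := by
    have h2 : a ^ p - 1 = (a - 1) ^ p := by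
      rw [sub_pow_char, one_pow]
    rw [h2]
    refine dvd_trans (pow_dvd_pow _ ?_) (pow_dvd_pow_of_dvd ha p |>.trans dvd_rfl |> fun h => by
      rwa [← pow_mul] at h)
    rw [mul_comm]
    exact Nat.mul_le_mul_right _ (min_le_left _ _)
  have h3 : Polynomial.C ((X : k⟦X⟧) ^ (p * min d g)) ∣ G ^ p := by
    have h4 := pow_dvd_pow_of_dvd hG p
    rw [← Polynomial.C_pow, ← pow_mul] at h4
    refine dvd_trans (map_dvd Polynomial.C (pow_dvd_pow _ ?_)) h4
    rw [mul_comm]
    exact Nat.mul_le_mul_right _ (min_le_right _ _)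
  have h5 : Polynomial.C ((X : k⟦X⟧) ^ (p * min d g)) ∣
      (Polynomial.C (a ^ p) * Polynomial.X + G ^ p) - Polynomial.X := by
    have h6 : (Polynomial.C (a ^ p) * Polynomial.X + G ^ p) - Polynomial.X =
        Polynomial.C (a ^ p - 1) * Polynomial.X + G ^ p := by
      rw [Polynomial.C_sub, Polynomial.C_1]
      ring
    rw [h6]
    exact dvd_add (dvd_mul_of_dvd_left (map_dvd Polynomial.C h1) _) h3
  obtain ⟨F', rfl⟩ := hF
  have h7 : Dl p a G (Polynomial.C (X ^ m) * F') = Polynomial.C (X ^ m) *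
      (F'.comp (Polynomial.C (a ^ p) * Polynomial.X + G ^ p) - F'.comp Polynomial.X) := by
    rw [Dl, Polynomial.mul_comp, Polynomial.C_comp, Polynomial.comp_X, mul_sub]
  rw [h7, pow_add, Polynomial.C_mul]
  exact mul_dvd_mul_left _ (h5.trans (VAL_comp _ _ _))

theorem thm_VAL : St_VAL := by
  intro k _ p _ _ a G g d hG ha l
  induction l with
  | zero =>
    rw [mul_zero, zero_mul, add_zero]
    exact hG
  | succ l ih =>
    rw [Function.iterate_succ_apply']
    have h := VAL_step hG ha _ ih
    have e : g + p * (l + 1) * min d g = g + p * l * min d g + p * min d g := by ring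
    rw [e]
    exact h

end ETD
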