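import Pool.Agent.ETD.PWB
import Pool.Agent.ETD.PWP
import Pool.Agent.ETD.PWN
import Pool.Agent.ETD.FRO
import Pool.Agent.ETD.FRB
import Pool.Agent.ETD.CLB
import Pool.Agent.ETD.ORD
import Pool.Agent.ETD.DGA
import Pool.Agent.ETD.DGB
import Pool.Agent.ETD.DIG
import Pool.Agent.ETD.HTL
import Pool.Agent.ETD.TRD
import Pool.Agent.ETD.DIC
import Pool.Agent.ETD.REC
import Pool.Agent.ETD.VAL
import Pool.Agent.ETD.SEQ
import Pool.Agent.ETD.CONT
import Pool.Agent.ETD.SZU
import Pool.Agent.ETD.LGA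
import Pool.Agent.ETD.LIS
import Pool.Agent.ETD.LOG
import Pool.Agent.ETD.TAY
import Pool.Agent.ETD.SCL
import Pool.Agent.ETD.INV
import Pool.Agent.ETD.LIM
import Pool.Agent.ETD.LOC
import Pool.Agent.ETD.HHH
import Pool.Agent.ETD.LZS
import Pool.Agent.ETD.FAC
import Pool.Agent.ETD.LNU
import Pool.Agent.ETD.SUN
import Pool.Agent.ETD.SAF
import Pool.Agent.ETD.SPQ
import Pool.Agent.ETD.CPT
import Pool.Agent.ETD.LST
import Pool.Agent.ETD.NNN
import Pool.Agent.ETD.PRE
import Pool.Agent.ETD.NUU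
import Pool.Agent.ETD.DSC
import Pool.Agent.ETD.PMD
import Pool.Agent.ETD.RES
import Pool.Agent.ETD.EMI
import Pool.Agent.ETD.HEN
import Pool.Agent.ETD.EMA
import Pool.Agent.ETD.EMP
import Pool.Agent.ETD.EMB
import Pool.Agent.ETD.FIN

/-!
# ETD: all modules
-/

set_option autoImplicit false

namespace ETD

theorem all_PWB : St_PWB := thm_PWB

theorem all_PWP : St_PWP := thm_PWP all_PWB

theorem all_PWN : St_PWN := thm_PWN all_PWP

theorem all_FRO : St_FRO := thm_FRO

theorem all_FRB : St_FRB := thm_FRB all_PWB all_PWP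

theorem all_CLB : St_CLB := thm_CLB all_PWB

theorem all_ORD : St_ORD := thm_ORD

theorem all_DGA : St_DGA := thm_DGA

theorem all_DGB : St_DGB := thm_DGB all_ORD

theorem all_DIG : St_DIG := thm_DIG all_ORD all_DGA all_DGB

theorem all_HTL : St_HTL := thm_HTL

theorem all_TRD : St_TRD := thm_TRD

theorem all_DIC : St_DIC := thm_DIC all_PWB all_PWP all_PWN all_FRB all_CLB all_DIG all_HTL all_TRD

theorem all_REC : St_REC := thm_REC

theorem all_VAL : St_VAL := thm_VAL

theorem all_SEQ : St_SEQ := thm_SEQ all_REC all_VAL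

theorem all_CON : St_CON := thm_CON all_SEQ

theorem all_SZU : St_SZU := thm_SZU all_SEQ

theorem all_LGA : St_LGA := thm_LGA all_SEQ

theorem all_LIS : St_LIS := thm_LIS

theorem all_LOG : St_LOG := thm_LOG all_LGA all_LIS

theorem all_TAY : St_TAY := thm_TAY

theorem all_SCL : St_SCL := thm_SCL

theorem all_INV : St_INV := thm_INV

theorem all_LIM : St_LIM := thm_LIM all_CON

theorem all_LOC : St_LOC := thm_LOC all_PWB all_LOG all_LIM all_TAY all_SCL all_INV

theorem all_HHH : St_HHH := thm_HHH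

theorem all_LZS : St_LZS := thm_LZS all_PWB all_PWP all_LOC all_HHH all_DIG

theorem all_FAC : St_FAC := thm_FAC

theorem all_LNU : St_LNU := thm_LNU all_PWP all_LOC all_LIM all_TAY all_HHH all_SZU all_FAC

theorem all_SUN : St_SUN := thm_SUN

theorem all_SAF : St_SAF := thm_SAF

theorem all_SPQ : St_SPQ := thm_SPQ all_SUN

theorem all_CPT : St_CPT := thm_CPT all_SUN

theorem all_LST : St_LST := thm_LST all_LZS all_DIC all_FRB all_SPQ all_SUN

theorem all_NNN : St_NNN := thm_NNN all_FRO all_LST all_CPT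

theorem all_PRE : St_PRE := thm_PRE all_SUN

theorem all_NUU : St_NUU := thm_NUU all_LNU all_CPT all_SUN all_PRE

theorem all_DSC : St_DSC := thm_DSC

theorem all_PMD : St_PMD := thm_PMD

theorem all_RES : St_RES := thm_RES all_NNN all_NUU all_SAF all_SUN all_DSC all_PMD

theorem all_EMI : St_EMI := thm_EMI

theorem all_HEN : St_HEN := thm_HEN

theorem all_EMA : St_EMA := thm_EMA

theorem all_EMP : St_EMP := thm_EMP

theorem all_EMB : St_EMB := thm_EMB all_EMI all_HEN all_EMA all_EMP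

theorem all_FIN : St_FIN := thm_FIN all_RES all_EMB

end ETD
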