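import Mathlib

/-!
# ETD: return sets of étale polynomial maps in characteristic `p`, definitions

`k⟦X⟧` is the ring `k⟦t⟧`, `t = X`. Power series in `n` variables over `k` are evaluated at small
tuples (`e`); power series in `n` variables over `k⟦t⟧` are power series over `k` in `n + 1`
variables, the variable with number `0` being `t` (`ec`).
-/

set_option autoImplicit false
set_option linter.unusedVariables false

namespace ETD

open PowerSeries

/-- the tuple is small: divisible by `t` -/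
def Sm {k : Type} [Field k] {n : ℕ} (z : Fin n → k⟦X⟧) : Prop := ∀ i, (X : k⟦X⟧) ∣ z i

/-- the value of `F` (coefficients in `k`) at the small tuple `z` -/
noncomputable def e {k : Type} [Field k] {n : ℕ} (z : Fin n → k⟦X⟧)
    (F : MvPowerSeries (Fin n) k) : k⟦X⟧ := MvPowerSeries.subst z F

/-- the value of `F` (coefficients in `k⟦t⟧`, `t` the variable with number `0`) at the small tuple
`z` -/
noncomputable def ec {k : Type} [Field k] {n : ℕ} (z : Fin n → k⟦X⟧)
    (F : MvPowerSeries (Fin (n + 1)) k) : k⟦X⟧ := e (Fin.cons X z) F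

/-- the power `a ^ β` for a `p`-adic integer `β` and `a = 1 + ...` -/
noncomputable def pw {k : Type} [Field k] (p : ℕ) [Fact p.Prime] (a : k⟦X⟧) (β : ℤ_[p]) : k⟦X⟧ :=
  PowerSeries.mk fun m => coeff m (a ^ β.appr (m + 1))

/-- the point with coordinates `a i ^ β - 1` -/
noncomputable def pt {k : Type} [Field k] (p : ℕ) [Fact p.Prime] {n : ℕ} (a : Fin n → k⟦X⟧)
    (β : ℤ_[p]) : Fin n → k⟦X⟧ := fun i => pw p (a i) β - 1

/-- the exponents `β` such that the series in `I` vanish at `pt p a β` -/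
def Bs {k : Type} [Field k] (p : ℕ) [Fact p.Prime] {n : ℕ} (a : Fin n → k⟦X⟧)
    (I : Ideal (MvPowerSeries (Fin n) k)) : Set ℤ_[p] := {β | ∀ F ∈ I, e (pt p a β) F = 0}

/-- The digit with number `r` of the series `H(t, Z / t ^ M)`: the coefficient of `Z ^ i` is the
coefficient of `t ^ (r + M * |i|) * Z ^ i` in `H`. -/
noncomputable def dig {k : Type} [Field k] {n : ℕ} (M : ℕ) (H : MvPowerSeries (Fin (n + 1)) k)
    (r : ℤ) : MvPowerSeries (Fin n) k := fun i =>
  if 0 ≤ r + M * i.degree then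
    MvPowerSeries.coeff (Finsupp.cons (r + M * i.degree).toNat i) H else 0

/-- the ideal generated by the digits -/
noncomputable def dI {k : Type} [Field k] {n : ℕ} (M : ℕ) (H : MvPowerSeries (Fin (n + 1)) k) :
    Ideal (MvPowerSeries (Fin n) k) := Ideal.span (Set.range (dig M H))

/-- the local form of the maps on the residue discs -/
noncomputable def ph {k : Type} [Field k] (p : ℕ) (α a : k⟦X⟧) (E : Polynomial k⟦X⟧) (W : k⟦X⟧) :
    k⟦X⟧ := α + a * W + E.eval (W ^ p)

/-- the data of a map on the residue disc: `α`, `a - 1` and the coefficients of `E` are divisible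
by `t` -/
structure Lc {k : Type} [Field k] (α a : k⟦X⟧) (E : Polynomial k⟦X⟧) : Prop where
  hα : (X : k⟦X⟧) ∣ α
  ha : (X : k⟦X⟧) ∣ a - 1
  hE : Polynomial.C (X : k⟦X⟧) ∣ E

/-- `R` is the union of finitely many infinite arithmetic progressions and finitely many `p`-sets
`{a p ^ (r k) + b : k ≥ 0}` contained in `ℕ` -/
def PSet (p : ℕ) (R : Set ℕ) : Prop :=
  ∃ (S : Finset (ℕ × ℕ)) (T : Finset (ℚ × ℚ × ℕ)), (∀ q ∈ S, 0 < q.1) ∧
    (∀ t ∈ T, ∀ k : ℕ, ∃ n : ℕ, (n : ℚ) = t.1 * (p : ℚ) ^ (t.2.2 * k) + t.2.1) ∧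
    R = {n : ℕ | (∃ q ∈ S, ∃ k : ℕ, n = q.1 * k + q.2) ∨
      (∃ t ∈ T, ∃ k : ℕ, (n : ℚ) = t.1 * (p : ℚ) ^ (t.2.2 * k) + t.2.1)}

end ETD
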