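import Pool.Agent.ETD.StA

/-!
# ETD, statements B: the local dynamics of `ph p α a E : W ↦ α + a W + E(W ^ p)`
-/

set_option autoImplicit false
set_option linter.unusedVariables false

namespace ETD

open PowerSeries

/-- the difference operator of `W ↦ a W + G(W ^ p)` on the functions of `Y = W ^ p` -/
noncomputable def Dl {k : Type} [Field k] (p : ℕ) (a : k⟦X⟧) (G F : Polynomial k⟦X⟧) :
    Polynomial k⟦X⟧ := F.comp (Polynomial.C (a ^ p) * Polynomial.X + G ^ p) - F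

/-- the function of `W ^ p` in the `p`-th iterate of `W ↦ a W + G(W ^ p)` -/
noncomputable def Gp {k : Type} [Field k] (p : ℕ) (a : k⟦X⟧) (G : Polynomial k⟦X⟧) :
    Polynomial k⟦X⟧ :=
  ∑ l ∈ Finset.range p, Polynomial.C ((a - 1) ^ (p - 1 - l)) * (Dl p a G)^[l] G

/-! ## Iterates -/

/-- [REC] (0.6 h; no other module) The `p`-th iterate.

Proof. Let `D W := a W + G(W ^ p)`, `𝓕` the ring of the functions `k⟦X⟧ → k⟦X⟧` (characteristic `p`),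
`Φ : 𝓕 → 𝓕`, `Φ F := F ∘ D`, an additive endomorphism (`AddMonoid.End 𝓕`, or `Module.End` over
`k⟦X⟧`: a ring of characteristic `p`), `Δ := Φ - 1`. As `Φ` and `1` commute,
`Δ ^ p = Φ ^ p - 1` (`Commute.sub_pow_char` or `sub_pow_char_of_commute`). For a polynomial `F` let
`F~ W := F.eval (W ^ p)`. Since `(D W) ^ p = a ^ p W ^ p + (G ^ p).eval (W ^ p)` (`add_pow_char`),
`Δ F~ = (Dl p a G F)~`. With `u := a - 1`, `Δ id = u id + G~`, and by induction on `i`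
`Δ ^ i id = u ^ i id + ∑ l < i, u ^ (i - 1 - l) ((Dl p a G)^[l] G)~`. For `i = p`:
`D^[p] W - W = (Φ ^ p - 1) id W = u ^ p W + (Gp p a G).eval (W ^ p)`, and `u ^ p = a ^ p - 1`
(`sub_pow_char`). -/
def St_REC : Prop := ∀ (k : Type) [Field k] (p : ℕ) [Fact p.Prime] [CharP k p] (a : k⟦X⟧)
  (G : Polynomial k⟦X⟧) (W : k⟦X⟧),
  (fun W : k⟦X⟧ => a * W + G.eval (W ^ p))^[p] W = a ^ p * W + (Gp p a G).eval (W ^ p)

/-- [VAL] (0.4 h; no other module) Divisibility of the iterated differences.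

Proof. `v := min d g`. `a ^ p - 1 = (a - 1) ^ p` is divisible by `X ^ (p v)` and `G ^ p` by
`C (X ^ (p v))`, so `C (a ^ p) * X + G ^ p = Polynomial.X + C (X ^ (p v)) * B`, and for every `F`,
`F.comp (X + C (X ^ (p v)) * B) - F` is divisible by `C (X ^ (p v))` (`Polynomial.comp_X`,
`Polynomial.sub_dvd_eval_sub` in the ring of polynomials, i.e. for `F.comp A - F.comp B'`), and for
`F = C (X ^ m) * F'` by `C (X ^ (m + p v))` (`Dl p a G (C c * F') = C c * Dl p a G F'`). Induction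
on `l`. -/
def St_VAL : Prop := ∀ (k : Type) [Field k] (p : ℕ) [Fact p.Prime] [CharP k p] (a : k⟦X⟧)
  (G : Polynomial k⟦X⟧) (g d : ℕ), Polynomial.C (X ^ g) ∣ G → X ^ d ∣ a - 1 →
  ∀ l : ℕ, Polynomial.C (X ^ (g + p * l * min d g)) ∣ (Dl p a G)^[l] G

/-- [SEQ] (0.6 h; uses `St_REC`, `St_VAL`) The iterates with numbers `p ^ j`.

Proof. `G 0 := C α + E`, `G (j + 1) := Gp p (a ^ p ^ j) (G j)` (`Nat.rec`). The formula for
`(ph p α a E)^[p ^ j]` by induction: `f^[p ^ (j + 1)] = (f^[p ^ j])^[p]` (`Function.iterate_mul`,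
`pow_succ`), the function `f^[p ^ j]` is `W ↦ a ^ p ^ j * W + (G j).eval (W ^ p)`, `St_REC` for
`a ^ p ^ j`, `(a ^ p ^ j) ^ p = a ^ p ^ (j + 1)`. For `j = 0`: `ph` by definition (`E.eval (W ^ p) + α`).
Divisibility: the summand `l` of `Gp` is divisible by `C (X ^ r)` with
`r = (p - 1 - l) d + g + p l v`, `v = min d g` (`St_VAL`). This is `≥ g + (p - 1) min d (p g)`: if
`v = d`, `p l d ≥ l d`; if `v = g < d`: `(p - 1 - l) d + p l g ≥ (p - 1) min d (p g)`. The summand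
`l = 0` is `C ((a - 1) ^ (p - 1)) * G`, which gives the last claim. -/
def St_SEQ : Prop := ∀ (k : Type) [Field k] (p : ℕ) [Fact p.Prime] [CharP k p] (α a : k⟦X⟧)
  (E : Polynomial k⟦X⟧), ∃ G : ℕ → Polynomial k⟦X⟧, G 0 = Polynomial.C α + E ∧
    (∀ (j : ℕ) (W : k⟦X⟧),
      (ph p α a E)^[p ^ j] W = a ^ p ^ j * W + (G j).eval (W ^ p)) ∧
    (∀ j g d : ℕ, Polynomial.C (X ^ g) ∣ G j → X ^ d ∣ a ^ p ^ j - 1 →
      Polynomial.C (X ^ (g + (p - 1) * min d (p * g))) ∣ G (j + 1) ∧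
      ∀ r : ℕ, (∀ l, 1 ≤ l → l < p → r ≤ (p - 1 - l) * d + g + p * l * min d g) →
        Polynomial.C (X ^ r) ∣ G (j + 1) - Polynomial.C ((a ^ p ^ j - 1) ^ (p - 1)) * G j)

/-- [CON] (0.6 h; uses `St_SEQ`) The iterates depend `p`-adically continuously on their number.

Proof. With `G` of `St_SEQ`: `C (X ^ (j + 1)) ∣ G j` by induction (`g = j + 1`, `d = 1`:
`g + (p - 1) min 1 (p g) ≥ g + 1`; `X` divides `a ^ p ^ j - 1`; `j = 0` from `Lc`) and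
`X ^ (j + 1) ∣ a ^ p ^ j - 1 = (a - 1) ^ p ^ j` as `p ^ j ≥ j + 1`. So `X ^ (j + 1)` divides
`f^[p ^ j] W - W` for all `W` (`f = ph p α a E`), and `f^[p ^ j m] W - W` for all `m` (sum of `m` such
differences). For `N` take `j = N`; if `n ≡ n' mod p ^ j`, say `n' = n + p ^ j m`, then
`f^[n'] W - f^[n] W = f^[p ^ j m] (f^[n] W) - f^[n] W`. -/
def St_CON : Prop := ∀ (k : Type) [Field k] (p : ℕ) [Fact p.Prime] [CharP k p] (α a : k⟦X⟧)
  (E : Polynomial k⟦X⟧), Lc α a E → ∀ N : ℕ, ∃ j : ℕ, ∀ (W : k⟦X⟧) (n n' : ℕ),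
    n ≡ n' [MOD p ^ j] → X ^ N ∣ (ph p α a E)^[n] W - (ph p α a E)^[n'] W

/-- [SZU] (0.5 h; uses `St_SEQ`) Superexponential convergence for `a = 1`.

Proof. `G` of `St_SEQ` for `a = 1`: `a ^ p ^ j - 1 = 0` is divisible by all `X ^ d`, so
`C (X ^ g) ∣ G j` implies `C (X ^ (g + (p - 1) p g)) ∣ G (j + 1)` (`d = p g`), and
`g + (p - 1) p g ≥ (p + 1) g`. So `C (X ^ ((p + 1) ^ j)) ∣ G j`, and `f^[p ^ j] W - W =
(G j).eval (W ^ p)` is divisible by `X ^ ((p + 1) ^ j)`, hence `f^[p ^ j m] W - W` too. For `C` there is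
`J` with `(p + 1) ^ j ≥ C p ^ j` for `j ≥ J` (`(1 + 1 / p) ^ j → ∞`; or `(p + 1) ^ j ≥ p ^ j +
j p ^ (j - 1)`, `j ≥ C p`). -/
def St_SZU : Prop := ∀ (k : Type) [Field k] (p : ℕ) [Fact p.Prime] [CharP k p] (α : k⟦X⟧)
  (E : Polynomial k⟦X⟧), Lc α 1 E → ∀ C : ℕ, ∃ J : ℕ, ∀ (j m : ℕ) (W : k⟦X⟧), J ≤ j →
    X ^ (C * p ^ j) ∣ (ph p α 1 E)^[p ^ j * m] W - W

/-! ## The logarithm -/

/-- [LGA] (1.2 h; uses `St_SEQ`) The approximations of the logarithm.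

Proof. Write `a - 1 = X ^ e u` with `u` a unit, `e ≥ 1` (`a ≠ 1`), `e_j := e p ^ j`,
`u_j := a ^ p ^ j - 1 = (a - 1) ^ p ^ j = X ^ e_j u ^ p ^ j`. Let `G` be as in `St_SEQ`, `g_0 := 1`,
`g_(j+1) := g_j + (p - 1) min e_j (p g_j)`. Then `C (X ^ g_j) ∣ G j`. (i) There is `j₀` with
`e_(j₀) ≤ p g_(j₀)`: otherwise `g_(j+1) = g_j (1 + (p - 1) p) ≥ (p + 1) g_j` for all `j`, so
`p (p + 1) ^ j ≤ p g_j < e p ^ j` for all `j`, false for large `j`. (ii) Let `c := e_(j₀)`. For `j ≥ j₀`: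
`e_j ≤ p g_j` and `e_j ≤ g_j + c`. Induction: `g_(j+1) = g_j + (p - 1) e_j`, so
`g_(j+1) + c ≥ e_j + (p - 1) e_j = e_(j+1)` and `p g_(j+1) ≥ e_j + p (p - 1) e_j ≥ p e_j = e_(j+1)`.
(iii) For `j ≥ j₀` let `S j` be the polynomial with `C u_j * S j = C (X ^ c) * G j` (exists, as
`C (X ^ (c + g_j))` divides the right side and `c + g_j ≥ e_j`; for `j < j₀` let `S j := 0`). Let
`v_j := min e_j g_j ≥ e_j - c`. The last claim of `St_SEQ` with `d = e_j`, `g = g_j` gives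
`G (j+1) = C (u_j ^ (p - 1)) * G j + R_j` with `C (X ^ r) ∣ R_j` for `r := p e_j + (p - 1) e_j -
(p + 1) c` if `(p - 1) e_j ≥ (p + 1) c`: for `1 ≤ l < p`: `(p - 1 - l) e_j + g_j + p l v_j ≥
(p - 1 - l) e_j + (e_j - c) + p l (e_j - c) = p e_j + l ((p - 1) e_j - p c) - c ≥ r`. As
`u_(j+1) = u_j ^ p`: `C (u_j ^ p) * (S (j+1) - S j) = C (X ^ c) * R_j`, so `C (X ^ ((p - 1) e_j - p c))`
divides `S (j+1) - S j` (cancel `X ^ (p e_j)` and the unit), and the exponent tends to infinity.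
(iv) Last claim: `f^[p ^ j] W - W = u_j W + (G j).eval (W ^ p)` is divisible by `X ^ (e_j - c)`, so
its `p`-th power by `X ^ (p (e_j - c))`, and `p (e_j - c) ≥ e_j + N` for large `j` (`p ≥ 2`). -/
def St_LGA : Prop := ∀ (k : Type) [Field k] (p : ℕ) [Fact p.Prime] [CharP k p] (α a : k⟦X⟧)
  (E : Polynomial k⟦X⟧), Lc α a E → a ≠ 1 →
  ∃ (c j₀ : ℕ) (S : ℕ → Polynomial k⟦X⟧),
    (∀ j ≥ j₀, ∀ W : k⟦X⟧, (a ^ p ^ j - 1) * (X ^ c * W + (S j).eval (W ^ p)) =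
      X ^ c * ((ph p α a E)^[p ^ j] W - W)) ∧
    (∀ N : ℕ, ∃ j₁ : ℕ, ∀ j ≥ j₁, Polynomial.C (X ^ N) ∣ S (j + 1) - S j) ∧
    (∀ N : ℕ, ∃ j₁ : ℕ, ∀ j ≥ j₁, ∀ W : k⟦X⟧,
      X ^ N * (a ^ p ^ j - 1) ∣ ((ph p α a E)^[p ^ j] W - W) ^ p)

/-- [LIS] (0.6 h; no other module) Limits of polynomials over `k⟦t⟧`.

Proof. `s` has at the exponent `d : Fin 2 →₀ ℕ` the coefficient `coeff (d 0) ((S j).coeff (d 1))` for
large `j` (the sequence is eventually constant: `j ≥ j₁ (d 0 + 1)`). For a polynomial `Q` over `k⟦X⟧`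
let `Q' : MvPowerSeries (Fin 2) k` have the coefficient `coeff (d 0) (Q.coeff (d 1))` at `d`; then
`ec ![y] Q' = Q.eval y` for `X ∣ y`: both sides are additive in `Q`; for `Q = C b * X ^ i`,
`Q' = b' * MvPowerSeries.X 1 ^ i`, `b' = PowerSeries.subst (MvPowerSeries.X 0) b`, and
`e (Fin.cons X ![y]) b' = b`. Let `j ≥ j₁ i` for all `i ≤ N`.. : all coefficients of `s - (S j)'` at
`d` with `d 0 < N` vanish for `j ≥ j₁ := ` the number for `N`, so the series is divisible by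
`MvPowerSeries.X 0 ^ N` (`MvPowerSeries.X_pow_dvd_iff`), and its value by `X ^ N` (`e_mul`, `e_pow`,
`e_X`). -/
def St_LIS : Prop := ∀ (k : Type) [Field k] (S : ℕ → Polynomial k⟦X⟧),
  (∀ N : ℕ, ∃ j₁ : ℕ, ∀ j ≥ j₁, Polynomial.C (X ^ N) ∣ S (j + 1) - S j) →
  ∃ s : MvPowerSeries (Fin 2) k, ∀ N : ℕ, ∃ j₁ : ℕ, ∀ j ≥ j₁, ∀ y : k⟦X⟧, X ∣ y →
    X ^ N ∣ ec ![y] s - (S j).eval y

/-- [LOG] (0.6 h; uses `St_LGA`, `St_LIS`) The logarithm `S(W) = t ^ c W + s(W ^ p)` with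
`S(f(W)) = a S(W)`.

Proof. `s` of `St_LIS` for the polynomials of `St_LGA`. `f := ph p α a E`, `D_j := f^[p ^ j]`,
`u_j := a ^ p ^ j - 1 ≠ 0`. `X ∣ W` implies `X ∣ f W` (`Lc`). Let `N` be given, `j` large. The difference
of `S(f W) - a S(W)` and `Θ := (X ^ c f W + (S j).eval ((f W) ^ p)) - a (X ^ c W + (S j).eval (W ^ p))`
is divisible by `X ^ N`. `u_j Θ = X ^ c (D_j (f W) - f W - a (D_j W - W))` by `St_LGA`, and
`D_j (f W) = f (D_j W)`, `f (D_j W) - f W = a (D_j W - W) + (E.eval ((D_j W) ^ p) - E.eval (W ^ p))`,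
where the last difference is divisible by `(D_j W) ^ p - W ^ p = (D_j W - W) ^ p`
(`Polynomial.sub_dvd_eval_sub`, `sub_pow_char`), hence by `X ^ N u_j` (third claim of `St_LGA`). So
`X ^ N ∣ Θ`. As `N` is arbitrary, `S(f W) = a S(W)`. -/
def St_LOG : Prop := ∀ (k : Type) [Field k] (p : ℕ) [Fact p.Prime] [CharP k p] (α a : k⟦X⟧)
  (E : Polynomial k⟦X⟧), Lc α a E → a ≠ 1 →
  ∃ (c : ℕ) (s : MvPowerSeries (Fin 2) k), ∀ W : k⟦X⟧, X ∣ W →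
    X ^ c * ph p α a E W + ec ![ph p α a E W ^ p] s = a * (X ^ c * W + ec ![W ^ p] s)

/-! ## The local parametrisation of the orbits -/

/-- [TAY] (0.4 h; no other module) Affine substitutions in series with coefficients in `k⟦t⟧`.

Proof. For `b : k⟦X⟧` let `b' := PowerSeries.subst (MvPowerSeries.X 0) b : MvPowerSeries (Fin 2) k`; then
`e (Fin.cons X ![y]) b' = b` (substitution twice). `s' := A' + B' * MvPowerSeries.subst
![MvPowerSeries.X 0, y₀' + c' * MvPowerSeries.X 1] s`; the constant coefficients of the two entries are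
`0`; use `e_subst`, `e_add`, `e_mul`, `e_X`. -/
def St_TAY : Prop := ∀ (k : Type) [Field k] (s : MvPowerSeries (Fin 2) k) (A B c y₀ : k⟦X⟧),
  X ∣ y₀ → ∃ s' : MvPowerSeries (Fin 2) k, ∀ y : k⟦X⟧, X ∣ y →
    A + B * ec ![y₀ + c * y] s = ec ![y] s'

/-- [SCL] (0.5 h; no other module) Scaling.

Proof. `s₁` has the coefficient at `d : Fin 2 →₀ ℕ` equal to `0` if `d 1 = 0` or
`d 0 + b < A * d 1`, and otherwise the coefficient of `s` at `(d 0 + b - A d 1, d 1)`. Then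
`MvPowerSeries.X 0 ^ b * s₁ = MvPowerSeries.subst ![X 0, X 0 ^ A * X 1] s - s(t, 0)`: compare
coefficients, or: let `T := MvPowerSeries.subst ![X 0, X 0 ^ A * X 1] s -
MvPowerSeries.subst ![X 0, 0] s` and show that `X 0 ^ b` divides `T` and `X 1` divides `T` (the
coefficient of the first substitution at `(m, i)` is that of `s` at `(m - A i, i)`). Then
`T = X 0 ^ b * s₁`, `X 1 ∣ s₁` (as `X 1 ∣ X 0 ^ b * s₁`, coefficients). Evaluate with `e_subst`,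
`e_mul`, `e_pow`, `e_X`. -/
def St_SCL : Prop := ∀ (k : Type) [Field k] (s : MvPowerSeries (Fin 2) k) (A b : ℕ), b ≤ A →
  ∃ s₁ : MvPowerSeries (Fin 2) k, MvPowerSeries.X 1 ∣ s₁ ∧ ∀ y : k⟦X⟧, X ∣ y →
    ec ![X ^ A * y] s - ec ![0] s = X ^ b * ec ![y] s₁

/-- [INV] (0.7 h; no other module) The inverse of `Y + t s(t, Y ^ p)`.

Proof. In `MvPowerSeries (Fin 2) k` write `t = X 0`, `Y = X 1`, `F := Y + t * s(t, Y ^ p)`
(`MvPowerSeries.subst ![X 0, X 1 ^ p] s`). As `X 1 ∣ s` and `p ≥ 2`, `F = Y (1 + Y g)` for some `g`.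
There are `c_i : k⟦X⟧` such that for all `n`: `Y ^ (n + 1)` divides `Y - ∑ i < n + 1, c_i' F ^ i`,
where `c' := PowerSeries.subst (X 0) c`: recursion, if `Y - ∑ .. = Y ^ (n + 1) r` let `c_(n+1)` be the
series with `c_(n+1)' = r(t, 0)` (coefficient `m` is `coeff (m, 0) r`); then `Y ∣ r - c_(n+1)'` and
`F ^ (n + 1) - Y ^ (n + 1)` is divisible by `Y ^ (n + 2)`. Let `R` have the coefficient
`coeff (d 0) c_(d 1)` at `d`. Let `X ∣ y`, `z := y + X * ec ![y ^ p] s = ec ![y] F` (`e_subst`).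
Evaluation at `y` gives `X ^ (n + 1) ∣ y - ∑ i < n + 1, c_i z ^ i`, and
`X ^ (n + 1) ∣ ec ![z] R - ∑ i < n + 1, c_i z ^ i` as `R - ∑ i < n + 1, c_i' Y ^ i` is divisible by
`Y ^ (n + 1)`. -/
def St_INV : Prop := ∀ (k : Type) [Field k] (p : ℕ) [Fact p.Prime] (s : MvPowerSeries (Fin 2) k),
  MvPowerSeries.X 1 ∣ s → ∃ R : MvPowerSeries (Fin 2) k, ∀ y : k⟦X⟧, X ∣ y →
    ec ![y + X * ec ![y ^ p] s] R = y

/-- [LIM] (0.4 h; uses `St_CON`) The orbit at a `p`-adic time.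

Proof. The coefficient `m` of `V` is that of `(ph p α a E)^[β.appr j] W` for large `j`
(`j = j (m + 1)` of `St_CON` for `N = m + 1`, and any larger one: `β.appr j' ≡ β.appr j mod p ^ j`).
For `N` let `j` be at least the numbers of `St_CON` for `N' ≤ N`; if `p ^ j ∣ n - β` in `ℤ_p` then
`n ≡ β.appr j mod p ^ j`. The value for `N = 1` (with `Lc`: `X ∣ f W` for `X ∣ W`) gives `X ∣ V`. -/
def St_LIM : Prop := ∀ (k : Type) [Field k] (p : ℕ) [Fact p.Prime] [CharP k p] (α a : k⟦X⟧)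
  (E : Polynomial k⟦X⟧), Lc α a E → ∀ (W : k⟦X⟧), X ∣ W → ∀ β : ℤ_[p],
  ∃ V : k⟦X⟧, X ∣ V ∧ ∀ N : ℕ, ∃ j : ℕ, ∀ n : ℕ, (p : ℤ_[p]) ^ j ∣ (n : ℤ_[p]) - β →
    X ^ N ∣ (ph p α a E)^[n] W - V

/-- [LOC] (1.2 h; uses `St_PWB`, `St_LOG`, `St_LIM`, `St_TAY`, `St_SCL`, `St_INV`) Near `β` the orbit
is a power series in `(a ^ (n - β) - 1) / t ^ M`.

Proof. `f := ph p α a E`, `W_n := f^[n] W`, `V` of `St_LIM` for `β`, `c`, `s` of `St_LOG`,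
`S(W) := X ^ c W + ec ![W ^ p] s` for `X ∣ W`; `S(W_n) = a ^ n S(W)`. (1) `S(V) = pw p a β * S(W)`: for
every `N` there is a natural `n`, `p`-adically close to `β`, with `X ^ N ∣ W_n - V`, so
`X ^ N ∣ S(W_n) - S(V)` (`e_congr`) and `X ^ N ∣ a ^ n - pw p a β` (`St_PWB`). (2) So for all `n`:
`S(W_n) - S(V) = (pw p a (n - β) - 1) S(V)` (`a ^ n = pw p a n = pw p a β * pw p a (n - β)`).
(3) `St_TAY` (`A = 0`, `B = c = 1`, `y₀ = V ^ p`) gives `s'` with `ec ![V ^ p + y] s = ec ![y] s'` for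
`X ∣ y`. With `ω := W_n - V`: `(V + ω) ^ p = V ^ p + ω ^ p`, so `S(W_n) - S(V) = X ^ c ω +
(ec ![ω ^ p] s' - ec ![0] s')`. (4) `St_SCL` for `s'`, exponents `p (c + 1)` and `2 c + 2 ≤ p (c + 1)`:
`ec ![X ^ (p (c + 1)) y] s' - ec ![0] s' = X ^ (2 c + 2) ec ![y] s₁`. For `n` close to `β`
(`J := j` of `St_LIM` for `N = c + 2`): `ω = X ^ (c + 1) ω'`, `X ∣ ω'`, so
`(pw p a (n - β) - 1) S(V) = X ^ (2 c + 1) (ω' + X ec ![ω' ^ p] s₁)`. (5) `M₀ := 2 c + 1`. Let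
`M ≥ M₀`, `X ^ M ζ = pw p a (n - β) - 1`, `X ∣ ζ`. Then `ω' + X ec ![ω' ^ p] s₁ = X ^ (M - M₀) S(V) ζ`
(cancel `X ^ M₀`), and with `R` of `St_INV` for `s₁`: `ω' = ec ![X ^ (M - M₀) S(V) ζ] R`, so
`W_n = V + X ^ (c + 1) ec ![0 + (X ^ (M - M₀) S(V)) ζ] R = ec ![ζ] ρ` with `ρ` from `St_TAY`
(`A = V`, `B = X ^ (c + 1)`). -/
def St_LOC : Prop := ∀ (k : Type) [Field k] (p : ℕ) [Fact p.Prime] [CharP k p] (α a : k⟦X⟧)
  (E : Polynomial k⟦X⟧), Lc α a E → a ≠ 1 → ∀ (W : k⟦X⟧), X ∣ W → ∀ β : ℤ_[p],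
  ∃ J M₀ : ℕ, ∀ M ≥ M₀, ∃ ρ : MvPowerSeries (Fin 2) k, ∀ (n : ℕ) (ζ : k⟦X⟧),
    (p : ℤ_[p]) ^ J ∣ (n : ℤ_[p]) - β → X ∣ ζ → X ^ M * ζ = pw p a ((n : ℤ_[p]) - β) - 1 →
    (ph p α a E)^[n] W = ec ![ζ] ρ

/-- [HHH] (0.4 h; no other module) Polynomials of power series.

Proof. `ρ₀' := MvPowerSeries.subst ![X 0, X 1] ρ₀`, `ρ₁' := MvPowerSeries.subst ![X 0, X 2] ρ₁` in
`MvPowerSeries (Fin 3) k`, `b' := PowerSeries.subst (MvPowerSeries.X 0) b` for `b : k⟦X⟧` (a ring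
homomorphism, `PowerSeries.substAlgHom`), `H := MvPolynomial.eval₂ (the ring homomorphism ') ![ρ₀', ρ₁'] h`.
`e (Fin.cons X ζ)` is a ring homomorphism (`eH`) with the values `b`, `ec ![ζ 0] ρ₀`, `ec ![ζ 1] ρ₁` at
`b'`, `ρ₀'`, `ρ₁'` (`e_subst`); use `MvPolynomial.hom_eval₂`. -/
def St_HHH : Prop := ∀ (k : Type) [Field k] (ρ₀ ρ₁ : MvPowerSeries (Fin 2) k)
  (h : MvPolynomial (Fin 2) k⟦X⟧), ∃ H : MvPowerSeries (Fin 3) k, ∀ ζ : Fin 2 → k⟦X⟧, Sm ζ →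
    MvPolynomial.eval ![ec ![ζ 0] ρ₀, ec ![ζ 1] ρ₁] h = ec ζ H

/-! ## Local zero sets, both `a i ≠ 1` -/

/-- [LZS] (0.8 h; uses `St_PWB`, `St_PWP`, `St_LOC`, `St_HHH`, `St_DIG`) The zero set near `β`.

Proof. `J_j`, `M_j` (`j = 0, 1`) from `St_LOC` for the two maps (`W = 0`), `M := max M_0 M_1`, `ρ_j` for
this `M`, `H` of `St_HHH`, `I := dI M H`, `q₀` of `St_DIG`. Choose `i` such that
`q := (p ^ s) ^ i ≥ q₀ + M + 2` and `s i ≥ J_0, J_1` (`s > 0`). Let `n = β + q γ` in `ℤ_p`,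
`z := pt p a γ` (`Sm z` by `St_PWB`). `pw p (a j) (q γ) - 1 = (z j) ^ q = expand q (z j)` (`St_PWP`,
`sub_pow_char_pow`, `Fr k p s`), which is divisible by `X ^ q` (`z j = X w`, `expand q X = X ^ q`), so
it is `X ^ M ζ_j` with `X ∣ ζ_j` (`q ≥ M + 1`). As `n - β = q γ` is divisible by `p ^ J_j`, `St_LOC`
gives `f_j^[n] 0 = ec ![ζ_j] ρ_j`, so the value of `h` is `ec ζ H`, and by `St_DIG` (both parts) it
vanishes if and only if all `F ∈ I` vanish at `z`. -/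
def St_LZS : Prop := ∀ (k : Type) [Field k] (p : ℕ) [Fact p.Prime] [CharP k p] (s : ℕ),
  Fr k p s → ∀ (α a : Fin 2 → k⟦X⟧) (E : Fin 2 → Polynomial k⟦X⟧),
  (∀ j, Lc (α j) (a j) (E j)) → (∀ j, a j ≠ 1) → ∀ (h : MvPolynomial (Fin 2) k⟦X⟧) (β : ℤ_[p]),
  ∃ (i : ℕ) (I : Ideal (MvPowerSeries (Fin 2) k)), ∀ (n : ℕ) (γ : ℤ_[p]),
    (n : ℤ_[p]) = β + ((p : ℤ_[p]) ^ s) ^ i * γ →
    (MvPolynomial.eval ![(ph p (α 0) (a 0) (E 0))^[n] 0, (ph p (α 1) (a 1) (E 1))^[n] 0] h = 0 ↔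
      γ ∈ Bs p a I)

/-! ## Local zero sets, `a 1 = 1` -/

/-- [FAC] (0.6 h; no other module) Factoring out powers of the variables.

Proof. `X i` is prime-like: for `H ≠ 0` there is a largest `l` with `X i ^ l ∣ H`
(`MvPowerSeries.X_pow_dvd_iff`: if all powers divide, all coefficients vanish), so
`H = X i ^ l * H'`, `¬ X i ∣ H'`. Apply this to `H` and `X 2 = V`: `H = V ^ l H₁`, and
`H₁(t, Z, 0) := MvPowerSeries.subst ![X 0, X 1, 0] H₁ ∈ MvPowerSeries (Fin 2) k` is not `0`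
(coefficients). Apply it to this series and `X 1 = Z`: `H₁(t, Z, 0) = Z ^ m H₂`, `¬ X 1 ∣ H₂`, so
`H₂(t, 0) ≠ 0`, `= t ^ c u` with a unit `u` in `k⟦t⟧`. For `X ∣ ζ`, `X ^ (c + 1) ∣ ζ`:
`ec ![ζ] H₂ ≡ ec ![0] H₂ = X ^ c u mod ζ` (`e_congr` with `N = c + 1`). So
`ec ![ζ, 0] H₁ = ζ ^ m X ^ c u'` with a unit `u'`. Finally `ec ![ζ, v] H₁ - ec ![ζ, 0] H₁` is divisible
by `v`: by `X ^ N` if `X ^ N ∣ v` (`e_congr`). -/
def St_FAC : Prop := ∀ (k : Type) [Field k] (H : MvPowerSeries (Fin 3) k), H ≠ 0 →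
  ∃ (l m c : ℕ), ∀ (ζ v : k⟦X⟧) (w : k⟦X⟧) (d N : ℕ), IsUnit w → ζ = X ^ d * w → c < d →
    X ^ N ∣ v → m * d + c < N → v ≠ 0 → ec ![ζ, v] H ≠ 0

/-- [LNU] (1 h; uses `St_PWP`, `St_LOC`, `St_LIM`, `St_TAY`, `St_HHH`, `St_SZU`, `St_FAC`) The zero set
near `β` if `a ≠ 1` for the first map and `a = 1` for the second one, whose orbit is injective.

Proof. `W_n`, `V_n` the two orbits of `0`, `V` the limit of `V_n` at `β` (`St_LIM`). `a - 1 = X ^ e u`, `u` a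
unit, `e ≥ 1`. `J`, `M`, `ρ₀` of `St_LOC` (with `M = M₀`) for the first map; `ρ₁` with
`ec ![v] ρ₁ = V + v` (`St_TAY` for `s = MvPowerSeries.X 1`, `A = V`, `B = c = 1`, `y₀ = 0`); `H` of
`St_HHH`. If `H = 0`: for all `n` close to `β` the value of `h` is `ec ![ζ, V_n - V] H = 0` (first
alternative, with `j ≥ J` such that also `X ∣ V_n - V`, and such that `ζ` exists:
`pw p a (n - β) - 1` is divisible by `X ^ (e p ^ j)`, `e p ^ j > M`, by `St_PWB` or `St_PWP`; for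
`n = β` take `ζ = 0`). If `H ≠ 0`: `l, m, c` of `St_FAC`. Let `C := m e + 1`, `J₁` of `St_SZU` for `C`, and
`j ≥ J, J₁` with `e p ^ j > M + c` and `p ^ j > c`. Let `n` be natural with `n ≠ β` in `ℤ_p`,
`p ^ j ∣ n - β` and `V_n ≠ V`. Write `n - β = p ^ i γ`, `γ` a unit, `i ≥ j`. By `St_PWP`
`pw p a (n - β) - 1 = X ^ (e p ^ i) w`, so `ζ := X ^ (e p ^ i - M) w`, `d := e p ^ i - M > c`. By
`St_SZU` and continuity `X ^ (C p ^ i) ∣ V_n - V` (for naturals `n' ≡ n mod p ^ i`, `n' ≥ n`, close to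
`β`: `V_(n') - V_n` is divisible by `X ^ (C p ^ i)`, and `V_(n') → V`), and
`m d + c ≤ m e p ^ i + c < C p ^ i`. So the value of `h` at `n` is not `0` by `St_FAC`. So the zeros in the
ball are among the `n` with `n = β` (at most one) and those with `V_n = V` (at most one, as the orbit is
injective): a finite set. -/
def St_LNU : Prop := ∀ (k : Type) [Field k] (p : ℕ) [Fact p.Prime] [CharP k p] (α a α' : k⟦X⟧)
  (E E' : Polynomial k⟦X⟧), Lc α a E → a ≠ 1 → Lc α' 1 E' →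
  (Function.Injective fun n : ℕ => (ph p α' 1 E')^[n] 0) →
  ∀ (h : MvPolynomial (Fin 2) k⟦X⟧) (β : ℤ_[p]), ∃ j : ℕ,
    (∀ n : ℕ, (p : ℤ_[p]) ^ j ∣ (n : ℤ_[p]) - β →
      MvPolynomial.eval ![(ph p α a E)^[n] 0, (ph p α' 1 E')^[n] 0] h = 0) ∨
    {n : ℕ | (p : ℤ_[p]) ^ j ∣ (n : ℤ_[p]) - β ∧
      MvPolynomial.eval ![(ph p α a E)^[n] 0, (ph p α' 1 E')^[n] 0] h = 0}.Finite

end ETD
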