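import Mathlib
import Pool.Agent.ETD.StB

/-!
# ETD, module LGA: the approximations of the logarithm
-/

set_option autoImplicit false

namespace ETD

open PowerSeries

/-- leading term of a power series -/
private theorem LGA_lead {k : Type} [Field k] (f : k⟦X⟧) (hf : f ≠ 0) :
    ∃ (e : ℕ) (u : k⟦X⟧), IsUnit u ∧ f = X ^ e * u := by
  classical
  have h1 : ∃ n, coeff n f ≠ 0 := by
    by_contra hcon
    push Not at hcon
    exact hf (PowerSeries.ext fun n => by rw [hcon n, map_zero])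
  have h2 : X ^ Nat.find h1 ∣ f := by
    rw [PowerSeries.X_pow_dvd_iff]
    intro m hm
    by_contra h3
    exact Nat.find_min h1 hm h3
  obtain ⟨u, hu⟩ := h2
  refine ⟨Nat.find h1, u, ?_, hu⟩
  rw [PowerSeries.isUnit_iff_constantCoeff, isUnit_iff_ne_zero]
  have h4 : coeff (Nat.find h1) (X ^ Nat.find h1 * u) ≠ 0 := by
    rw [← hu]
    exact Nat.find_spec h1
  have h5 := PowerSeries.coeff_X_pow_mul u (Nat.find h1) 0
  rw [zero_add] at h5
  rw [h5, PowerSeries.coeff_zero_eq_constantCoeff] at h4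
  exact h4

private theorem LGA_pow (p j : ℕ) : (p + j) * p ^ j ≤ p * (p + 1) ^ j := by
  induction j with
  | zero => simp
  | succ j ih =>
    have h1 : p * p ^ j ≤ (p + j) * p ^ j := Nat.mul_le_mul_right _ (by omega)
    calc (p + (j + 1)) * p ^ (j + 1) = (p + j) * p ^ j * p + p * p ^ j := by ring
      _ ≤ (p + j) * p ^ j * p + (p + j) * p ^ j := by omega
      _ = (p + j) * p ^ j * (p + 1) := by ring
      _ ≤ p * (p + 1) ^ j * (p + 1) := Nat.mul_le_mul_right _ ih
      _ = p * (p + 1) ^ (j + 1) := by ring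

/-- the sequence of exponents -/
private theorem LGA_seq (p e : ℕ) (hp : 2 ≤ p) (g : ℕ → ℕ) (h0 : g 0 = 1)
    (hg : ∀ j, g (j + 1) = g j + (p - 1) * min (e * p ^ j) (p * g j)) :
    ∃ j₀, ∀ j ≥ j₀, e * p ^ j ≤ p * g j ∧ e * p ^ j ≤ g j + e * p ^ j₀ := by
  obtain ⟨s, rfl⟩ : ∃ s, p = s + 1 := ⟨p - 1, by omega⟩
  have hs : 1 ≤ s := by omega
  simp only [Nat.add_sub_cancel] at hg
  have h1 : ∃ j₀, e * (s + 1) ^ j₀ ≤ (s + 1) * g j₀ := by
    by_contra hcon
    push Not at hcon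
    have h2 : ∀ j, (s + 1 + 1) ^ j ≤ g j := by
      intro j
      induction j with
      | zero => rw [h0, pow_zero]
      | succ j ih =>
        rw [hg, min_eq_right (hcon j).le, pow_succ]
        have h3 : g j * 1 ≤ g j * s := Nat.mul_le_mul_left _ hs
        have h4 : g j * s * 1 ≤ g j * s * s := Nat.mul_le_mul_left _ hs
        calc (s + 1 + 1) ^ j * (s + 1 + 1) ≤ g j * (s + 1 + 1) := Nat.mul_le_mul_right _ ih
          _ = g j + g j * s + g j * 1 := by ring
          _ ≤ g j + g j * s + g j * s * s := by omega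
          _ = g j + s * ((s + 1) * g j) := by ring
    have h3 := LGA_pow (s + 1) e
    have h4 := hcon e
    have h5 : (s + 1) * (s + 1 + 1) ^ e ≤ (s + 1) * g e := Nat.mul_le_mul_left _ (h2 e)
    have h6 : e * (s + 1) ^ e ≤ (s + 1 + e) * (s + 1) ^ e := Nat.mul_le_mul_right _ (by omega)
    omega
  obtain ⟨j₀, hj₀⟩ := h1
  refine ⟨j₀, fun j hj => ?_⟩
  induction j, hj using Nat.le_induction with
  | base => exact ⟨hj₀, by omega⟩
  | succ j hj ih =>
    obtain ⟨i1, i2⟩ := ih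
    rw [hg, min_eq_left i1]
    have e1 : e * (s + 1) ^ (j + 1) = (e * (s + 1) ^ j) * (s + 1) := by ring
    rw [e1]
    set E := e * (s + 1) ^ j with hE
    constructor
    · have h3 : E * s * 1 ≤ E * s * s := Nat.mul_le_mul_left _ hs
      calc E * (s + 1) = E + E * s * 1 := by ring
        _ ≤ (s + 1) * g j + E * s * s := by omega
        _ ≤ (s + 1) * g j + (E * s * s + E * s) := by omega
        _ = (s + 1) * (g j + s * E) := by ring
    · calc E * (s + 1) = E + s * E := by ring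
        _ ≤ g j + e * (s + 1) ^ j₀ + s * E := by omega
        _ = g j + s * E + e * (s + 1) ^ j₀ := by ring

/-- the exponent of the difference -/
private theorem LGA_exp (p N c E g v l : ℕ) (hl : 1 ≤ l) (hlp : l < p) (hg : E ≤ g + c)
    (hv : E ≤ v + c) (hE : N + c + p * c ≤ (p - 1) * E) :
    p * E + N ≤ (p - 1 - l) * E + g + p * l * v := by
  obtain ⟨s, rfl⟩ : ∃ s, p = l + 1 + s := ⟨p - 1 - l, by omega⟩
  have e1 : l + 1 + s - 1 - l = s := by omega
  have e2 : l + 1 + s - 1 = l + s := by omega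
  rw [e1]
  rw [e2] at hE
  have h1 : (N + c + (l + 1 + s) * c) * l ≤ (l + s) * E * l := Nat.mul_le_mul_right _ hE
  have h2 : (l + 1 + s) * l * E ≤ (l + 1 + s) * l * (v + c) := Nat.mul_le_mul_left _ hv
  have h3 : N * 1 ≤ N * l := Nat.mul_le_mul_left _ hl
  have h4 : c * 1 ≤ c * l := Nat.mul_le_mul_left _ hl
  nlinarith

private theorem LGA_C {k : Type} [Field k] {a b : k⟦X⟧} (h : a ∣ b) :
    Polynomial.C a ∣ Polynomial.C b := map_dvd Polynomial.C h

/-- **LGA**: the approximations of the logarithm. -/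
theorem thm_LGA (hS : St_SEQ) : St_LGA := by
  classical
  intro k _ p _ _ α a E hL ha1
  have hp2 : 2 ≤ p := (Fact.out : p.Prime).two_le
  have hch : CharP k⟦X⟧ p := charP_of_injective_ringHom (PowerSeries.C_injective (R := k)) p
  obtain ⟨e, u, hu, hau⟩ := LGA_lead (a - 1) (sub_ne_zero.mpr ha1)
  have he : 1 ≤ e := by
    rcases Nat.eq_zero_or_pos e with h | h
    · exfalso
      rw [h, pow_zero, one_mul] at hau
      have h1 := hL.ha
      rw [hau] at h1
      have h2 : IsUnit (X : k⟦X⟧) := isUnit_of_dvd_unit h1 hu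
      rw [PowerSeries.isUnit_iff_constantCoeff, PowerSeries.constantCoeff_X] at h2
      exact not_isUnit_zero h2
    · exact h
  have hpow : ∀ j, a ^ p ^ j - 1 = X ^ (e * p ^ j) * u ^ p ^ j := by
    intro j
    have h1 : a ^ p ^ j - 1 = (a - 1) ^ p ^ j := by
      rw [sub_pow_char_pow, one_pow]
    rw [h1, hau, mul_pow, ← pow_mul]
  obtain ⟨G, hG0, hGit, hGd⟩ := hS k p α a E
  let g : ℕ → ℕ := fun j => Nat.rec 1 (fun j gj => gj + (p - 1) * min (e * p ^ j) (p * gj)) j
  have hg0 : g 0 = 1 := rfl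
  have hg : ∀ j, g (j + 1) = g j + (p - 1) * min (e * p ^ j) (p * g j) := fun j => rfl
  have hXd : ∀ j, (X : k⟦X⟧) ^ (e * p ^ j) ∣ a ^ p ^ j - 1 := fun j => ⟨_, hpow j⟩
  have hdX : ∀ j, a ^ p ^ j - 1 ∣ (X : k⟦X⟧) ^ (e * p ^ j) := by
    intro j
    rw [hpow j]
    exact (IsUnit.mul_right_dvd (hu.pow _)).mpr dvd_rfl
  have hGg : ∀ j, Polynomial.C ((X : k⟦X⟧) ^ g j) ∣ G j := by
    intro j
    induction j with
    | zero =>
      rw [hG0, hg0, pow_one]
      exact dvd_add (LGA_C hL.hα) hL.hE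
    | succ j ih =>
      rw [hg]
      exact (hGd j (g j) (e * p ^ j) ih (hXd j)).1
  obtain ⟨j₀, hj₀⟩ := LGA_seq p e hp2 g hg0 hg
  set c := e * p ^ j₀ with hc
  have hdiv : ∀ j ≥ j₀, Polynomial.C (a ^ p ^ j - 1) ∣ Polynomial.C ((X : k⟦X⟧) ^ c) * G j := by
    intro j hj
    have h1 : Polynomial.C ((X : k⟦X⟧) ^ (e * p ^ j)) ∣ Polynomial.C ((X : k⟦X⟧) ^ c) * G j := by
      have h2 : Polynomial.C ((X : k⟦X⟧) ^ (c + g j)) ∣ Polynomial.C ((X : k⟦X⟧) ^ c) * G j := by
        rw [pow_add, map_mul]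
        exact mul_dvd_mul_left _ (hGg j)
      refine dvd_trans (LGA_C (pow_dvd_pow _ ?_)) h2
      have := (hj₀ j hj).2
      omega
    exact dvd_trans (LGA_C (hdX j)) h1
  let S : ℕ → Polynomial k⟦X⟧ := fun j =>
    if h : Polynomial.C (a ^ p ^ j - 1) ∣ Polynomial.C ((X : k⟦X⟧) ^ c) * G j then h.choose else 0
  have hSj : ∀ j ≥ j₀, Polynomial.C (a ^ p ^ j - 1) * S j = Polynomial.C ((X : k⟦X⟧) ^ c) * G j := by
    intro j hj
    have h1 := (hdiv j hj).choose_spec
    simp only [S]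
    rw [dif_pos (hdiv j hj)]
    exact h1.symm
  -- the exponents are large
  have hlarge : ∀ N j, N + c + p * c ≤ j → N + c + p * c ≤ (p - 1) * (e * p ^ j) := by
    intro N j hj
    have h1 : j < p ^ j := Nat.lt_pow_self (by omega)
    have h2 : 1 * p ^ j ≤ e * p ^ j := Nat.mul_le_mul_right _ he
    have h3 : 1 * (e * p ^ j) ≤ (p - 1) * (e * p ^ j) := Nat.mul_le_mul_right _ (by omega)
    omega
  refine ⟨c, j₀, S, ?_, ?_, ?_⟩
  · intro j hj W
    have h1 := congrArg (Polynomial.eval (W ^ p)) (hSj j hj)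
    rw [Polynomial.eval_mul, Polynomial.eval_mul, Polynomial.eval_C, Polynomial.eval_C] at h1
    rw [hGit]
    linear_combination h1
  · intro N
    refine ⟨max j₀ (N + c + p * c), fun j hj => ?_⟩
    have hj1 : j₀ ≤ j := (le_max_left _ _).trans hj
    have hj2 : N + c + p * c ≤ j := (le_max_right _ _).trans hj
    obtain ⟨i1, i2⟩ := hj₀ j hj1
    have h1 := (hGd j (g j) (e * p ^ j) (hGg j) (hXd j)).2 (p * (e * p ^ j) + N) (by
      intro l hl hlp
      refine LGA_exp p N c (e * p ^ j) (g j) (min (e * p ^ j) (g j)) l hl hlp i2 ?_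
        (hlarge N j hj2)
      rcases min_choice (e * p ^ j) (g j) with h | h <;> rw [h] <;> omega)
    -- multiply by `X ^ c`
    have h2 : Polynomial.C (a ^ p ^ (j + 1) - 1) * (S (j + 1) - S j) =
        Polynomial.C ((X : k⟦X⟧) ^ c) *
          (G (j + 1) - Polynomial.C ((a ^ p ^ j - 1) ^ (p - 1)) * G j) := by
      have h3 := hSj (j + 1) (by omega)
      have h4 := hSj j hj1
      have h5 : a ^ p ^ (j + 1) - 1 = (a ^ p ^ j - 1) ^ (p - 1) * (a ^ p ^ j - 1) := by
        rw [← pow_succ, Nat.sub_add_cancel (by omega), sub_pow_char, one_pow, ← pow_mul, ← pow_succ]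
      have h6 : Polynomial.C (a ^ p ^ (j + 1) - 1) * S j =
          Polynomial.C ((X : k⟦X⟧) ^ c) * (Polynomial.C ((a ^ p ^ j - 1) ^ (p - 1)) * G j) := by
        rw [h5, map_mul, mul_assoc, h4]
        ring
      rw [mul_sub, h3, h6, mul_sub]
    have h3 : Polynomial.C ((X : k⟦X⟧) ^ (e * p ^ (j + 1))) * Polynomial.C ((X : k⟦X⟧) ^ N) ∣
        Polynomial.C ((X : k⟦X⟧) ^ (e * p ^ (j + 1))) *
          (Polynomial.C (u ^ p ^ (j + 1)) * (S (j + 1) - S j)) := by
      rw [← mul_assoc, ← map_mul, ← map_mul, ← hpow, h2, ← pow_add]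
      have e1 : e * p ^ (j + 1) + N = p * (e * p ^ j) + N := by ring
      rw [e1]
      exact Dvd.dvd.mul_left h1 _
    have hne : Polynomial.C ((X : k⟦X⟧) ^ (e * p ^ (j + 1))) ≠ 0 := by
      rw [Ne, Polynomial.C_eq_zero]
      exact pow_ne_zero _ PowerSeries.X_ne_zero
    have h4 := (mul_dvd_mul_iff_left hne).mp h3
    exact (IsUnit.dvd_mul_left ((hu.pow _).map Polynomial.C)).mp h4
  · intro N
    refine ⟨max j₀ (N + c + p * c), fun j hj W => ?_⟩
    have hj1 : j₀ ≤ j := (le_max_left _ _).trans hj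
    have hj2 : N + c + p * c ≤ j := (le_max_right _ _).trans hj
    obtain ⟨i1, i2⟩ := hj₀ j hj1
    have hlg := hlarge N j hj2
    set v := min (e * p ^ j) (g j) with hv
    have hvc : e * p ^ j ≤ v + c := by
      rcases min_choice (e * p ^ j) (g j) with h | h <;> rw [hv, h] <;> omega
    have h1 : (X : k⟦X⟧) ^ v ∣ (ph p α a E)^[p ^ j] W - W := by
      rw [hGit]
      have h2 : a ^ p ^ j * W + (G j).eval (W ^ p) - W =
          (a ^ p ^ j - 1) * W + (G j).eval (W ^ p) := by ring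
      rw [h2]
      refine dvd_add (Dvd.dvd.mul_right ((pow_dvd_pow _ (min_le_left _ _)).trans (hXd j)) _) ?_
      obtain ⟨Q, hQ⟩ := hGg j
      rw [hQ, Polynomial.eval_mul, Polynomial.eval_C]
      exact Dvd.dvd.mul_right (pow_dvd_pow _ (min_le_right _ _)) _
    have h2 : (X : k⟦X⟧) ^ (v * p) ∣ ((ph p α a E)^[p ^ j] W - W) ^ p := by
      rw [pow_mul]
      exact pow_dvd_pow_of_dvd h1 p
    refine dvd_trans ?_ h2
    have h3 : N + e * p ^ j ≤ v * p := by
      obtain ⟨s, rfl⟩ : ∃ s, p = s + 1 := ⟨p - 1, by omega⟩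
      rw [Nat.add_sub_cancel] at hlg
      have h4 : (s + 1) * (e * (s + 1) ^ j) ≤ (s + 1) * (v + c) := Nat.mul_le_mul_left _ hvc
      nlinarith
    refine dvd_trans ?_ (pow_dvd_pow (X : k⟦X⟧) h3)
    rw [pow_add]
    exact mul_dvd_mul_left _ (hdX j)

end ETD
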