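import Pool.Agent.ETD.StC

/-!
# ETD: the zero set, `a ≠ 1` for the first map, `a = 1` for the second one
-/

set_option autoImplicit false
set_option linter.unusedVariables false

namespace ETD

open PowerSeries

/-- the natural numbers in a ball -/
private lemma NUU_ball (p : ℕ) [Fact p.Prime] (β : ℤ_[p]) (J : ℕ) :
    {n : ℕ | (p : ℤ_[p]) ^ J ∣ (n : ℤ_[p]) - β} = {n : ℕ | ∃ k : ℕ, n = p ^ J * k + β.appr J} := by
  have h0 : (p : ℤ_[p]) ^ J ∣ β - (β.appr J : ℤ_[p]) :=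
    Ideal.mem_span_singleton.1 (PadicInt.appr_spec J β)
  have h1 : ∀ n : ℕ, (p : ℤ_[p]) ^ J ∣ (n : ℤ_[p]) - β ↔ n ≡ β.appr J [MOD p ^ J] := by
    intro n
    have e1 : (n : ℤ_[p]) - β = (((n : ℤ) - (β.appr J : ℤ) : ℤ) : ℤ_[p]) -
        (β - (β.appr J : ℤ_[p])) := by
      push_cast
      ring
    rw [e1, dvd_sub_left h0, PadicInt.pow_p_dvd_int_iff]
    have e2 : ((p : ℤ) ^ J ∣ (n : ℤ) - (β.appr J : ℤ)) ↔ β.appr J ≡ n [MOD p ^ J] := by
      rw [Nat.modEq_iff_dvd]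
      push_cast
      rfl
    rw [e2]
    exact ⟨fun h => h.symm, fun h => h.symm⟩
  ext n
  change (p : ℤ_[p]) ^ J ∣ (n : ℤ_[p]) - β ↔ ∃ k : ℕ, n = p ^ J * k + β.appr J
  rw [h1]
  constructor
  · intro h
    refine ⟨n / p ^ J, ?_⟩
    have h2 : n % p ^ J = β.appr J := by
      rw [h, Nat.mod_eq_of_lt (PadicInt.appr_lt β J)]
    rw [← h2, Nat.div_add_mod]
  · rintro ⟨k, rfl⟩
    rw [Nat.ModEq, Nat.mul_add_mod]

/-- [NUU] `a ≠ 1` for the first map, `a = 1` for the second one: the zero set. -/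
theorem thm_NUU (hLNU : St_LNU) (hCPT : St_CPT) (hSUN : St_SUN) (hPRE : St_PRE) : St_NUU := by
  intro k _ p _ _ α a α' E E' hL ha hL' h
  by_cases hinj : Function.Injective fun n : ℕ => (ph p α' 1 E')^[n] 0
  · refine hCPT p _ fun β => ?_
    obtain ⟨j, hj | hj⟩ := hLNU k p α a α' E E' hL ha hL' hinj h β
    · refine ⟨j, ?_⟩
      have h1 : {n : ℕ | n ∈ {n : ℕ | MvPolynomial.eval ![(ph p α a E)^[n] 0,
          (ph p α' 1 E')^[n] 0] h = 0} ∧ (p : ℤ_[p]) ^ j ∣ (n : ℤ_[p]) - β} =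
          {n : ℕ | ∃ k : ℕ, n = p ^ j * k + β.appr j} := by
        rw [← NUU_ball]
        ext n
        exact ⟨fun hn => hn.2, fun hn => ⟨hj n hn, hn⟩⟩
      rw [h1]
      exact (hSUN p).2.2 _ _ (pow_pos (Fact.out : p.Prime).pos _)
    · exact ⟨j, (hSUN p).1 _ (hj.subset fun n hn => ⟨hn.2, hn.1⟩)⟩
  · rw [Function.not_injective_iff] at hinj
    obtain ⟨i, j, hij, hne⟩ := hinj
    have main : ∀ i j : ℕ, i < j → (ph p α' 1 E')^[i] 0 = (ph p α' 1 E')^[j] 0 →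
        PSet p {n : ℕ | MvPolynomial.eval ![(ph p α a E)^[n] 0,
          (ph p α' 1 E')^[n] 0] h = 0} := by
      intro i j hlt heq
      refine hPRE k⟦X⟧ p (ph p α a E) 0 (fun n => (ph p α' 1 E')^[n] 0) i (j - i)
        (by omega) (fun n hn => ?_) h
      obtain ⟨l, rfl⟩ := Nat.exists_eq_add_of_le hn
      have e1 : i + l + (j - i) = l + j := by omega
      have e2 : i + l = l + i := by omega
      rw [e1, e2, Function.iterate_add_apply, Function.iterate_add_apply, heq]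
    rcases lt_or_gt_of_ne hne with h1 | h1
    · exact main i j h1 hij
    · exact main j i h1 hij.symm

end ETD
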