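import Pool.Agent.ETD.StA

/-!
# ETD, module PWB: powers with exponents in the `p`-adic integers
-/

set_option autoImplicit false
set_option linter.unusedVariables false

namespace ETD

open PowerSeries

theorem PWB_charP (k : Type) [Field k] (p : ℕ) [CharP k p] : CharP k⟦X⟧ p :=
  charP_of_injective_ringHom (C_injective (R := k)) p

/-- naturals which are congruent in `ℤ_p` are congruent -/
theorem PWB_modEq (p : ℕ) [Fact p.Prime] {m m' j : ℕ}
    (h : (p : ℤ_[p]) ^ j ∣ (m : ℤ_[p]) - (m' : ℤ_[p])) : m ≡ m' [MOD p ^ j] := by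
  have h1 : (PadicInt.toZModPow j (m : ℤ_[p]) : ZMod (p ^ j)) =
      PadicInt.toZModPow j (m' : ℤ_[p]) := by
    rw [← sub_eq_zero, ← map_sub, ← RingHom.mem_ker, PadicInt.ker_toZModPow,
      Ideal.mem_span_singleton]
    exact h
  rw [map_natCast, map_natCast] at h1
  exact (ZMod.natCast_eq_natCast_iff _ _ _).1 h1

theorem PWB_dvd_of_modEq (p : ℕ) [Fact p.Prime] {m m' j : ℕ} (h : m ≡ m' [MOD p ^ j]) :
    (p : ℤ_[p]) ^ j ∣ (m : ℤ_[p]) - (m' : ℤ_[p]) := by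
  have h1 := (Nat.modEq_iff_dvd.1 h.symm)
  obtain ⟨c, hc⟩ := h1
  refine ⟨c, ?_⟩
  have := congrArg (fun z : ℤ => (z : ℤ_[p])) hc
  push_cast at this
  exact this

theorem PWB_appr (p : ℕ) [Fact p.Prime] (β : ℤ_[p]) (J : ℕ) :
    (p : ℤ_[p]) ^ J ∣ β - (β.appr J : ℤ_[p]) :=
  Ideal.mem_span_singleton.1 (PadicInt.appr_spec J β)

theorem PWB_zero {k : Type} [Field k] (p : ℕ) [Fact p.Prime] [CharP k p] (a : k⟦X⟧) (d : ℕ)
    (ha : X ^ d ∣ a - 1) {m m' j : ℕ} (h : m ≡ m' [MOD p ^ j]) :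
    X ^ (d * p ^ j) ∣ a ^ m - a ^ m' := by
  have := PWB_charP k p
  have key : ∀ m m' : ℕ, m ≤ m' → m ≡ m' [MOD p ^ j] → X ^ (d * p ^ j) ∣ a ^ m' - a ^ m := by
    intro m m' hmm h
    obtain ⟨l, hl⟩ := (Nat.modEq_iff_dvd' hmm).1 h
    have h2 : m' = m + p ^ j * l := by omega
    have h3 : a ^ m' - a ^ m = a ^ m * ((a ^ (p ^ j)) ^ l - 1) := by
      rw [h2, pow_add, pow_mul]; ring
    rw [h3]
    refine Dvd.dvd.mul_left ?_ _
    have h4 : (a ^ (p ^ j) - 1) ∣ (a ^ (p ^ j)) ^ l - 1 := by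
      simpa using sub_dvd_pow_sub_pow (a ^ (p ^ j)) 1 l
    refine dvd_trans ?_ h4
    have h5 : a ^ (p ^ j) - 1 = (a - 1) ^ (p ^ j) := by
      rw [sub_pow_char_pow, one_pow]
    rw [h5, pow_mul]
    exact pow_dvd_pow_of_dvd ha _
  rcases le_total m m' with h1 | h1
  · have := key m m' h1 h
    rw [← dvd_neg, neg_sub]
    exact this
  · exact key m' m h1 h.symm

theorem PWB_approx {k : Type} [Field k] (p : ℕ) [Fact p.Prime] [CharP k p] (a : k⟦X⟧)
    (ha : X ∣ a - 1) (β : ℤ_[p]) (J m : ℕ) (hm : (p : ℤ_[p]) ^ J ∣ β - m) :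
    X ^ (p ^ J) ∣ pw p a β - a ^ m := by
  rw [X_pow_dvd_iff]
  intro i hi
  rw [map_sub, pw, coeff_mk, ← map_sub]
  have hmin : (p : ℤ_[p]) ^ (min (i + 1) J) ∣ ((β.appr (i + 1) : ℕ) : ℤ_[p]) - (m : ℤ_[p]) := by
    have h1 : (p : ℤ_[p]) ^ (min (i + 1) J) ∣ β - (β.appr (i + 1) : ℤ_[p]) :=
      (pow_dvd_pow _ (min_le_left _ _)).trans (PWB_appr p β (i + 1))
    have h2 : (p : ℤ_[p]) ^ (min (i + 1) J) ∣ β - m :=
      (pow_dvd_pow _ (min_le_right _ _)).trans hm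
    have h3 := dvd_sub h2 h1
    have h4 : (β - (m : ℤ_[p])) - (β - (β.appr (i + 1) : ℤ_[p])) =
        ((β.appr (i + 1) : ℕ) : ℤ_[p]) - (m : ℤ_[p]) := by ring
    rwa [h4] at h3
  have h5 := PWB_modEq p hmin
  have h6 := PWB_zero p a 1 (by simpa using ha) h5
  rw [one_mul] at h6
  refine (X_pow_dvd_iff.1 h6) i ?_
  have hp : 1 < p := (Fact.out : p.Prime).one_lt
  rcases min_choice (i + 1) J with h7 | h7
  · rw [h7]
    exact (Nat.lt_succ_self i).trans (Nat.lt_pow_self hp)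
  · rw [h7]
    exact hi

theorem PWB_eq_zero {k : Type} [Field k] (p : ℕ) [Fact p.Prime] {z : k⟦X⟧}
    (h : ∀ J : ℕ, X ^ (p ^ J) ∣ z) : z = 0 := by
  ext i
  have hp : 1 < p := (Fact.out : p.Prime).one_lt
  simpa using (X_pow_dvd_iff.1 (h i)) i (Nat.lt_pow_self hp)

theorem thm_PWB : St_PWB := by
  intro k _ p _ _ a ha
  have hp : 1 < p := (Fact.out : p.Prime).one_lt
  refine ⟨?_, ?_, ?_, ?_⟩
  · intro n
    rw [← sub_eq_zero]
    refine PWB_eq_zero p fun J => ?_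
    exact PWB_approx p a ha _ J n (by simp)
  · intro β γ
    rw [← sub_eq_zero]
    refine PWB_eq_zero p fun J => ?_
    have h1 := PWB_approx p a ha β J (β.appr J) (PWB_appr p β J)
    have h2 := PWB_approx p a ha γ J (γ.appr J) (PWB_appr p γ J)
    have h3 := PWB_approx p a ha (β + γ) J (β.appr J + γ.appr J) (by
      have := dvd_add (PWB_appr p β J) (PWB_appr p γ J)
      have h : β + γ - ((β.appr J + γ.appr J : ℕ) : ℤ_[p]) =
        β - (β.appr J : ℤ_[p]) + (γ - (γ.appr J : ℤ_[p])) := by push_cast; ring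
      rwa [h])
    have h4 : pw p a (β + γ) - pw p a β * pw p a γ =
        (pw p a (β + γ) - a ^ (β.appr J + γ.appr J)) -
          ((pw p a β - a ^ β.appr J) * pw p a γ + a ^ β.appr J * (pw p a γ - a ^ γ.appr J)) := by
      rw [pow_add]; ring
    rw [h4]
    exact dvd_sub h3 (dvd_add (h1.mul_right _) (h2.mul_left _))
  · intro β
    have h1 := PWB_approx p a ha β 0 (β.appr 0) (PWB_appr p β 0)
    have h2 : (X : k⟦X⟧) ∣ a ^ β.appr 0 - 1 := by
      refine ha.trans ?_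
      simpa using sub_dvd_pow_sub_pow a 1 (β.appr 0)
    rw [pow_zero, pow_one] at h1
    have h3 := dvd_add h1 h2
    rwa [sub_add_sub_cancel] at h3
  · intro d j β γ hd hj
    obtain ⟨J, hJj, hJd⟩ : ∃ J : ℕ, j ≤ J ∧ d * p ^ j ≤ p ^ J :=
      ⟨j + d * p ^ j, Nat.le_add_right _ _,
        (Nat.lt_pow_self hp).le.trans (Nat.pow_le_pow_right hp.le (Nat.le_add_left _ _))⟩
    have h1 := PWB_approx p a ha β J (β.appr J) (PWB_appr p β J)
    have h2 := PWB_approx p a ha γ J (γ.appr J) (PWB_appr p γ J)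
    have h3 : (p : ℤ_[p]) ^ j ∣ ((β.appr J : ℕ) : ℤ_[p]) - ((γ.appr J : ℕ) : ℤ_[p]) := by
      have e1 := (pow_dvd_pow (p : ℤ_[p]) hJj).trans (PWB_appr p β J)
      have e2 := (pow_dvd_pow (p : ℤ_[p]) hJj).trans (PWB_appr p γ J)
      have e3 := dvd_sub (dvd_add hj e2) e1
      have e4 : β - γ + (γ - (γ.appr J : ℤ_[p])) - (β - (β.appr J : ℤ_[p])) =
        ((β.appr J : ℕ) : ℤ_[p]) - ((γ.appr J : ℕ) : ℤ_[p]) := by ring
      rwa [e4] at e3
    have h4 := PWB_zero p a d hd (PWB_modEq p h3)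
    have h5 := (pow_dvd_pow (X : k⟦X⟧) hJd).trans h1
    have h6 := (pow_dvd_pow (X : k⟦X⟧) hJd).trans h2
    have h7 : pw p a β - pw p a γ =
        (pw p a β - a ^ β.appr J) + (a ^ β.appr J - a ^ γ.appr J) - (pw p a γ - a ^ γ.appr J) := by
      ring
    rw [h7]
    exact dvd_sub (dvd_add h5 h4) h6

end ETD
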