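import Pool.Agent.ETD.Bas

/-!
# ETD, statements A: powers, digits, dichotomy

Every module proves `thm_XXX : St_XXX` in `Pool/Agent/ETD/XXX.lean` (imports: the file of its
statement and Mathlib files); statements used are taken as hypotheses, e.g.
`theorem thm_PWP (h : St_PWB) : St_PWP`. The basic lemmas are in `Bas.lean`: `e z F` is the value of
the power series `F` at the small tuple `z` (`Sm z`), `ec z F = e (Fin.cons X z) F` if the variable
with number `0` is `t`. In all files `X` is the variable `t` of `k⟦X⟧ = k⟦t⟧`.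
-/

set_option autoImplicit false
set_option linter.unusedVariables false

namespace ETD

open PowerSeries

/-- the ideal generated by the variables -/
noncomputable def mI (k : Type) [Field k] (n : ℕ) : Ideal (MvPowerSeries (Fin n) k) :=
  Ideal.span (Set.range MvPowerSeries.X)

/-- `s > 0` and the power with exponent `(p ^ s) ^ i` is the substitution `t → t ^ ((p ^ s) ^ i)`;
true if `k` is the field with `p ^ s` elements -/
def Fr (k : Type) [Field k] (p s : ℕ) : Prop :=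
  0 < s ∧ ∀ (i : ℕ) (h : (p ^ s) ^ i ≠ 0) (z : k⟦X⟧), z ^ (p ^ s) ^ i = expand ((p ^ s) ^ i) h z

/-! ## Powers with `p`-adic exponents -/

/-- [PWB] (0.6 h; no other module) Powers with exponents in `ℤ_p`.

Proof. (0) If `m ≡ m' mod p ^ j` (naturals, say `m' = m + p ^ j l`) and `X ^ d ∣ a - 1`, then
`X ^ (d p ^ j)` divides `a ^ m - a ^ m'`: `a ^ (p ^ j) - 1 = (a - 1) ^ (p ^ j)`
(`sub_pow_char_pow`) divides `a ^ (p ^ j l) - 1`. (1) For every `J`, `X ^ (p ^ J)` divides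
`pw p a β - a ^ (β.appr J)`: for `m < p ^ J` the coefficient `m` of `pw p a β` is that of
`a ^ (β.appr (m + 1))`; both `β.appr (m + 1)` and `β.appr J` are `≡ β mod p ^ min (m + 1) J`
(`PadicInt.appr_spec`; two naturals which are congruent in `ℤ_p` modulo `p ^ i` are congruent), and
`p ^ min (m + 1) J > m`; use (0) with `d = 1`. (2) All claims follow by approximation: an element
divisible by `X ^ (p ^ J)` for all `J` is `0`. `n : ℕ`: `appr J ≡ n`. Sum:
`(β + γ).appr J ≡ β.appr J + γ.appr J mod p ^ J`. `X ∣ pw p a β - 1`: coefficient `0`. Last claim: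
take `J ≥ j` with `p ^ J ≥ d p ^ j`; then `β.appr J ≡ γ.appr J mod p ^ j`, use (0). -/
def St_PWB : Prop := ∀ (k : Type) [Field k] (p : ℕ) [Fact p.Prime] [CharP k p] (a : k⟦X⟧),
  X ∣ a - 1 →
  (∀ n : ℕ, pw p a (n : ℤ_[p]) = a ^ n) ∧
  (∀ β γ : ℤ_[p], pw p a (β + γ) = pw p a β * pw p a γ) ∧
  (∀ β : ℤ_[p], X ∣ pw p a β - 1) ∧
  (∀ (d j : ℕ) (β γ : ℤ_[p]), X ^ d ∣ a - 1 → (p : ℤ_[p]) ^ j ∣ β - γ →
    X ^ (d * p ^ j) ∣ pw p a β - pw p a γ)

/-- [PWP] (0.5 h; uses `St_PWB`) Powers `p ^ s` and the exact order.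

Proof. First claim: for `J` let `m` be a natural number `≡ β mod p ^ J` (`β.appr J`). By `St_PWB`
(4th claim, `d = 1`) `pw p a β ≡ a ^ m` and `pw p a (p ^ s β) ≡ a ^ (p ^ s m)` modulo `X ^ (p ^ J)`,
so the two sides of the claim are congruent modulo `X ^ (p ^ J)`, for all `J`.
Second claim: let `m` be a natural number `≡ β mod p`, so `p ∤ m`. `pw p a β - a ^ m` is divisible by
`X ^ (d p)` (`St_PWB`, 4th claim, `j = 1`). `a ^ m - 1 = (a - 1) (1 + a + .. + a ^ (m - 1))`, and the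
second factor has the constant coefficient `m ≠ 0` in `k`. So `pw p a β - 1 = X ^ d w₁` with `w₁`
a unit (`d (p - 1) ≥ 1`), and `pw p a (p ^ j β) - 1 = (pw p a β) ^ (p ^ j) - 1 =
(pw p a β - 1) ^ (p ^ j)`. -/
def St_PWP : Prop := ∀ (k : Type) [Field k] (p : ℕ) [Fact p.Prime] [CharP k p] (a : k⟦X⟧),
  X ∣ a - 1 →
  (∀ (s : ℕ) (β : ℤ_[p]), pw p a ((p : ℤ_[p]) ^ s * β) = pw p a β ^ p ^ s) ∧
  (∀ (d : ℕ) (u : k⟦X⟧), 0 < d → IsUnit u → a - 1 = X ^ d * u → ∀ (j : ℕ) (β : ℤ_[p]),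
    IsUnit β → ∃ w : k⟦X⟧, IsUnit w ∧ pw p a ((p : ℤ_[p]) ^ j * β) - 1 = X ^ (d * p ^ j) * w)

/-- [PWN] (0.3 h; uses `St_PWP`) `a ^ β ≠ 1` if `a ≠ 1` and `β ≠ 0`.

Proof. `a - 1 = X ^ d u` with `u` a unit, `d > 0` (`a - 1 ≠ 0` is divisible by `X`; order of a power
series over a field). `β = p ^ j β'` with a unit `β'` (`PadicInt.unitCoeff_spec`). -/
def St_PWN : Prop := ∀ (k : Type) [Field k] (p : ℕ) [Fact p.Prime] [CharP k p] (a : k⟦X⟧),
  X ∣ a - 1 → a ≠ 1 → ∀ β : ℤ_[p], β ≠ 0 → pw p a β ≠ 1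

/-- [FRO] (0.3 h; no other module) For a finite field there is an `s` with `Fr k p s`.

Proof. `Nat.card k = p ^ s`, `s > 0` (`FiniteField.card`), `x ^ (p ^ s) = x`. The formula
`map (iterateFrobenius k p (s i)) (expand (p ^ (s i)) z) = z ^ (p ^ (s i))` is
`MvPowerSeries.map_iterateFrobenius_expand`, and `iterateFrobenius k p (s i)` is the identity. -/
def St_FRO : Prop := ∀ (k : Type) [Field k] [Finite k] (p : ℕ) [Fact p.Prime] [CharP k p],
  ∃ s : ℕ, Fr k p s

/-- [FRB] (0.3 h; uses `St_PWB`, `St_PWP`) The set `Bs` is stable under multiplication and division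
by `p ^ s`.

Proof. With `q = (p ^ s) ^ i`: `pt p a (q β) i = pw p (a i) β ^ q - 1 = (pt p a β i) ^ q =
expand q (pt p a β i)` (`sub_pow_char_pow`, `q = p ^ (s i)`), so
`e (pt p a (q β)) F = expand q (e (pt p a β) F)` (`e_expand`), and `expand q` is injective
(coefficients: `PowerSeries.coeff_expand_mul`). -/
def St_FRB : Prop := ∀ (k : Type) [Field k] (p : ℕ) [Fact p.Prime] [CharP k p] (s : ℕ),
  Fr k p s → ∀ (n : ℕ) (a : Fin n → k⟦X⟧), (∀ i, X ∣ a i - 1) →
  ∀ (I : Ideal (MvPowerSeries (Fin n) k)) (i : ℕ) (β : ℤ_[p]),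
    ((p : ℤ_[p]) ^ s) ^ i * β ∈ Bs p a I ↔ β ∈ Bs p a I

/-- [CLB] (0.3 h; uses `St_PWB`) The set `Bs` is closed.

Proof. Let `β` be in the closure, `F ∈ I`. For every `j` there is `γ ∈ Bs p a I` with
`p ^ j ∣ β - γ` (`PadicInt.norm_le_pow_iff_mem_span_pow`), so `X ^ (p ^ j)` divides
`pt p a β i - pt p a γ i` (`St_PWB`, `d = 1`), hence `e (pt p a β) F - 0` (`e_congr`). -/
def St_CLB : Prop := ∀ (k : Type) [Field k] (p : ℕ) [Fact p.Prime] [CharP k p] (n : ℕ)
  (a : Fin n → k⟦X⟧), (∀ i, X ∣ a i - 1) → ∀ I : Ideal (MvPowerSeries (Fin n) k),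
  IsClosed (Bs p a I)

/-! ## Digits -/

/-- [ORD] (0.5 h; no other module) Series of order `≥ m` are in the power `m` of the ideal generated
by the variables.

Proof. Induction on `m`; `m = 0` is trivial. Let `F` have order `≥ m + 1`. For `d : Fin n →₀ ℕ` let
`F_i` have the coefficient `coeff (d + single i 1) F` at `d` if `i` is the least index in the support
of `d + single i 1`, and `0` otherwise. Then `F = ∑ i, X i * F_i` (the coefficient of `F` at `0` is
`0`; compare the coefficients: `MvPowerSeries.coeff_add_monomial_mul` or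
`MvPowerSeries.coeff_index_single_X` ...), and `F_i` has order `≥ m`. For `n = 0` the ring is `k` and
`F = 0`. -/
def St_ORD : Prop := ∀ (k : Type) [Field k] (n m : ℕ) (F : MvPowerSeries (Fin n) k),
  (∀ d : Fin n →₀ ℕ, d.degree < m → MvPowerSeries.coeff d F = 0) → F ∈ mI k n ^ m

/-- [DGA] (0.9 h; no other module) The algebraic core of the digit lemma.

Proof. Write `𝔪 = mI k n`. `MvPowerSeries (Fin n) k` is Noetherian (instance in
`Mathlib/RingTheory/MvPowerSeries/Equiv.lean`). Let `I := Ideal.span (Set.range H)`; it is generated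
by the `H r` with `|r| ≤ r₀` for some natural `r₀`. By Artin-Rees
(`Ideal.exists_pow_inf_eq_pow_smul`) there is `n₀` with `𝔪 ^ m' ⊓ I ≤ 𝔪 ^ (m' - n₀) * I` for all
`m' ≥ n₀`. Let `q₀ := M (n₀ + 2) + r₀ + 1`. Let `q ≥ q₀`, `z` be given, and suppose that not all
`e z (H r)` vanish. Then not all with `|r| ≤ r₀` vanish (the kernel of `eH` is an ideal). Let `d` be
the least number such that `coeff d (e z (H r₁)) ≠ 0` for some `|r₁| ≤ r₀`. Then `X ^ d ∣ e z F` for
`F = H r`, `|r| ≤ r₀`, hence for all `F ∈ I` (`Ideal.span_le`, or `Submodule.span_induction`). As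
`X ∣ e z F` for `F ∈ 𝔪` (`e_X`), we get: (*) if `F ∈ I`, `F ∈ 𝔪 ^ m'`, `m' ≥ n₀`, then
`X ^ (m' - n₀ + d) ∣ e z F`. Consider the hypothesis for `N := r₁ + q d`: the term `s = d` is
`coeff d (e z (H r₁)) ≠ 0`. Terms `s < d` vanish as `X ^ d ∣ e z (H _)`. Terms `s > d`: with
`m := s - d ≥ 1` the index is `N - q s = r₁ - q m = -N'`, `N' = q m - r₁ > 0` natural, and with
`m' := m + n₀ + 1` we have `M m' < N'`: `q m - r₁ ≥ (M (n₀ + 2) + r₀ + 1) m - r₀ ≥ M (n₀ + 2) m + 1`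
and `(n₀ + 2) m ≥ m + n₀ + 1`. So `H (-N') ∈ 𝔪 ^ m'`, and (*) gives `X ^ (s + 1) ∣ e z (H (-N'))`: the
coefficient `s` is `0`. So the sum is `coeff d (e z (H r₁)) ≠ 0` (`finsum_eq_single`), a
contradiction. -/
def St_DGA : Prop := ∀ (k : Type) [Field k] (n M : ℕ) (H : ℤ → MvPowerSeries (Fin n) k),
  (∀ N m : ℕ, M * m < N → H (-(N : ℤ)) ∈ mI k n ^ m) →
  ∃ q₀ : ℕ, ∀ q : ℕ, q₀ ≤ q → ∀ z : Fin n → k⟦X⟧, Sm z →
    (∀ N : ℤ, ∑ᶠ s : ℕ, coeff s (e z (H (N - q * s))) = 0) → ∀ r : ℤ, e z (H r) = 0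

/-- [DGB] (1.2 h; uses `St_ORD` (third claim)) The coefficients of `H(t, z(t ^ q) / t ^ M)` in terms of the
digits.

Proof. For `i : Fin n →₀ ℕ` write `z ^ i = i.prod fun s j => z s ^ j`, `|i| = i.degree`. By
`MvPowerSeries.coeff_subst` (with `Sm.hs`)
`coeff s (e z (dig M H r)) = ∑ᶠ i, coeff i (dig M H r) • coeff s (z ^ i)` and
`coeff N (ec ζ H) = ∑ᶠ j, coeff j H • coeff N (X ^ (j 0) * ζ ^ (Finsupp.tail j))`
(`j = Finsupp.cons (j 0) (Finsupp.tail j)`). Facts: `X ^ |i| ∣ z ^ i`, so `coeff s (z ^ i) = 0` for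
`s < |i|`; `X ^ (M |i|) * ζ ^ i = expand q (z ^ i)`, so `coeff N (X ^ l * ζ ^ i)` is `0` for `l > N`,
and for `l ≤ N` it is the coefficient of `expand q (z ^ i)` with number `N - l + M |i|`, i.e.
`coeff s (z ^ i)` if `q s = N - l + M |i|` for some `s` and `0` if `q` does not divide.
First claim: both sides are sums over the finite set of pairs `(s, i)` with `|i| ≤ s`, `l := N - q s +
M |i| ≥ 0` of `coeff (cons l i) H * coeff s (z ^ i)`: if `s ≥ |i|` then `q s ≥ M |i|`, so `l ≤ N`, and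
`(s, i) ↦ (l, i)` is injective (`q > 0`); `l ≥ 0` and `|i| ≤ s` give `(q - M) s ≤ N`, so the set is
finite. (Write both sides as finite sums over a large `Finset`, or use `finsum_comm`,
`finsum_mem_eq_of_bijOn`.)
Second claim: for `N < 0` all terms vanish: a nonzero term needs `|i| ≤ s` and `N - q s + M |i| ≥ 0`,
impossible for `M < q`. Third claim: for `r = -N`, `M m < N`: a nonzero coefficient of the digit at `i`
needs `-N + M |i| ≥ 0`, so `|i| > m`; use `St_ORD`. -/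
def St_DGB : Prop := ∀ (k : Type) [Field k] (n M : ℕ) (H : MvPowerSeries (Fin (n + 1)) k),
  (∀ (q : ℕ) (hq : q ≠ 0), M < q → ∀ z ζ : Fin n → k⟦X⟧, Sm z → Sm ζ →
    (∀ i, X ^ M * ζ i = expand q hq (z i)) →
    (∀ N : ℕ, coeff N (ec ζ H) = ∑ᶠ s : ℕ, coeff s (e z (dig M H ((N : ℤ) - q * s)))) ∧
    (∀ N : ℤ, N < 0 → ∑ᶠ s : ℕ, coeff s (e z (dig M H (N - q * s))) = 0)) ∧
  (∀ N m : ℕ, M * m < N → dig M H (-(N : ℤ)) ∈ mI k n ^ m)

/-- [DIG] (0.4 h; uses `St_ORD`, `St_DGA`, `St_DGB`) The digit lemma.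

Proof. First part: if all `e z (dig M H r)` vanish, then all coefficients of `ec ζ H` vanish by the
first claim of `St_DGB`. Second part: `q₀` of `St_DGA` for the family `dig M H` (hypothesis: third
claim of `St_DGB`), enlarged to be `> M`; the sums vanish by the claims of `St_DGB`; the ideal `dI M H`
is generated by the digits and the kernel of `eH` is an ideal. -/
def St_DIG : Prop := ∀ (k : Type) [Field k] (n M : ℕ) (H : MvPowerSeries (Fin (n + 1)) k),
  (∀ (q : ℕ) (hq : q ≠ 0), M < q → ∀ z ζ : Fin n → k⟦X⟧, Sm z → Sm ζ →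
    (∀ i, X ^ M * ζ i = expand q hq (z i)) → (∀ F ∈ dI M H, e z F = 0) → ec ζ H = 0) ∧
  ∃ q₀ : ℕ, ∀ (q : ℕ) (hq : q ≠ 0), q₀ ≤ q → ∀ z ζ : Fin n → k⟦X⟧, Sm z → Sm ζ →
    (∀ i, X ^ M * ζ i = expand q hq (z i)) → ec ζ H = 0 → ∀ F ∈ dI M H, e z F = 0

/-! ## The dichotomy -/

/-- [HTL] (0.8 h; no other module) The kernels of the evaluations at nonzero points are prime ideals
of height one of `k⟦Z, Z'⟧`.

Proof. `𝔪 = mI k 2` is generated by two elements, and it is prime: it consists of the series with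
constant coefficient `0` (such a series is `X 0 * F + X 1 * G`: `F` from the monomials divisible by
`X 0`). `ker hz ≤ 𝔪`: `constantCoeff (e z F) = constantCoeff F`, e.g. as `F - C c`, `c` the constant
coefficient, has a value divisible by `X` (`e_order`, `e_C`). `ker hz ≠ 𝔪` as some `z i ≠ 0` (`e_X`).
If `𝔮 ≠ ker hz`, then `⊥ < 𝔮 < ker hz < 𝔪` is a chain of primes (the ring is a domain), so the height
of `𝔪` is at least `3`; but it is at most `2` by Krull's height theorem (`Ideal.height_le_spanFinrank`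
or a similar statement in `Mathlib/RingTheory/Ideal/KrullsHeightTheorem.lean`). -/
def St_HTL : Prop := ∀ (k : Type) [Field k] (z : Fin 2 → k⟦X⟧) (hz : Sm z), (∃ i, z i ≠ 0) →
  ∀ 𝔮 : Ideal (MvPowerSeries (Fin 2) k), 𝔮.IsPrime → 𝔮 ≠ ⊥ → 𝔮 ≤ ker hz → 𝔮 = ker hz

/-- [TRD] (0.8 h; no other module) The translation of a series by a point of the torus, as a series
with coefficients in `k⟦t⟧`, and its digit with number `0`.

Proof. Let `w' i := PowerSeries.subst (MvPowerSeries.X 0) (w i) : MvPowerSeries (Fin (n + 1)) k` (the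
series `w i (t)`), `G i := (1 + w' i) * (1 + MvPowerSeries.X i.succ) - 1` (constant coefficient `0`)
and `H := MvPowerSeries.subst G F`. By `e_subst` (with `hz.cons`)
`ec z H = e (fun i => e (Fin.cons X z) (G i)) F`, and `e (Fin.cons X z) (w' i) = w i` (substitution
twice: `t → X 0 → X`; `PowerSeries.subst` is a case of `MvPowerSeries.subst`),
`e (Fin.cons X z) (MvPowerSeries.X i.succ) = z i`. Digit `0` for `M = 0`: the coefficient at
`i` is `coeff (Finsupp.cons 0 i) H`. Let `L := MvPowerSeries.subst (Fin.cons 0 MvPowerSeries.X)` (put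
`t = 0`). Then `L (G i) = MvPowerSeries.X i` (`L (w' i)` is the constant coefficient of `w i`, which is
`0`), so `L H = F` (`MvPowerSeries.subst_comp_subst_apply`, `MvPowerSeries.subst_self`), and
`coeff i (L H) = coeff (Finsupp.cons 0 i) H` by `MvPowerSeries.coeff_subst` (the monomials with
`t` go to `0`). -/
def St_TRD : Prop := ∀ (k : Type) [Field k] (n : ℕ) (w : Fin n → k⟦X⟧), Sm w →
  ∀ F : MvPowerSeries (Fin n) k, ∃ H : MvPowerSeries (Fin (n + 1)) k, dig 0 H 0 = F ∧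
    ∀ z : Fin n → k⟦X⟧, Sm z → ec z H = e (fun i => (1 + w i) * (1 + z i) - 1) F

/-- [DIC] (1.2 h; uses `St_PWB`, `St_PWP`, `St_PWN`, `St_FRB`, `St_CLB`, `St_DIG`, `St_HTL`,
`St_TRD`) The dichotomy: the set `Bs` is everything, or it is finite modulo multiplication by `p ^ s`.

Proof. Write `B(J) = Bs p a J`, `e_β F = e (pt p a β) F`, `P_β = ker` of the evaluation at `pt p a β`
(`Sm (pt p a β)` by `St_PWB`). For `β ≠ 0` some coordinate of `pt p a β` is `≠ 0` (`St_PWN` for the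
`i` with `a i ≠ 1`), so `St_HTL` applies to `P_β`.
Suppose the set `D := {β ∈ B(I) | ¬ p ^ s ∣ β}` is infinite, and show `B(I) = univ`. If `I = ⊥` this is
clear (`e_zero`). Let `I ≠ ⊥`. For `β ∈ D`: `β ≠ 0`, `I ≤ P_β`; there is a minimal prime `𝔮` of `I`
with `𝔮 ≤ P_β` (`Ideal.exists_minimalPrimes_le`), `𝔮 ≠ ⊥`, so `𝔮 = P_β` by `St_HTL`: `P_β` is a
minimal prime of `I`. There are finitely many of them
(`Ideal.finite_minimalPrimes_of_isNoetherianRing`), so there are a prime `P` and an infinite subset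
`D' ⊆ D` with `P_β = P` for `β ∈ D'`. It suffices to show `B(P) = univ` (as `I ≤ P`).
`ℤ_p` is compact, so `D'` has an accumulation point `b` (`Set.Infinite.exists_accPt_of_subset_isCompact`
or similar): every neighbourhood of `b` contains a `β ∈ D'`, `β ≠ b`. `b ∈ B(P)` by `St_CLB`, and
`b ≠ 0` (`b` is not divisible by `p ^ s`, as this is a closed condition). `P ≤ P_b` and `P ≠ ⊥`
give `P = P_b` (`St_HTL`).
Let `F_1, .., F_r` generate `P` (Noetherian). `w := pt p a b`. `H_j` := the series of `St_TRD` for `w`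
and `F_j`: `ec z H_j = e (w * z) F_j`, where `(w * z) i = (1 + w i) (1 + z i) - 1`; note
`w * pt p a γ = pt p a (b + γ)` (`St_PWB`). Let `q₀` be larger than all the numbers `q₀` of `St_DIG`
for `M = 0` and `H_j`, `q = (p ^ s) ^ i ≥ q₀` for some `i` (`s > 0`), and choose `β ∈ D'`, `β ≠ b`,
`β = b + q γ`, `γ ≠ 0` (`q = p ^ (s i)` as an element of `ℤ_p`). Then `z := pt p a γ`,
`ζ := pt p a (q γ)` satisfy `ζ i = expand q (z i)` (see `St_FRB`: `St_PWP` and `Fr k p s`), and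
`ec ζ H_j = e_(b + q γ) F_j = e_β F_j = 0` as `F_j ∈ P = P_β`. So by `St_DIG`, second part:
`dI 0 H_j ≤ P_γ` for all `j`. `F_j = dig 0 H_j 0 ∈ dI 0 H_j`, so `P ≤ P_γ`, so `P = P_γ` (`St_HTL`,
`γ ≠ 0`). Hence (1) `dI 0 H_j ≤ P` for all `j`.
(2) If `β' ∈ B(P)`, then `b + β' ∈ B(P)`: all elements of `dI 0 H_j ≤ P` vanish at `z := pt p a β'`, so
by `St_DIG`, first part (`q = 1`, `expand_one`), `0 = ec z H_j = e_(b + β') F_j` for all generators
`F_j` of `P`. (3) `0 ∈ B(P)`: `pt p a 0 = 0`, `e_0 F` is the constant coefficient of `F`, which is `0`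
for `F ∈ P`, otherwise `F` would be a unit (or: `e_b F = 0` and `e_b F - C (constantCoeff F)` is
divisible by `X`). So `r b ∈ B(P)` for all naturals `r`, hence (`St_CLB`, naturals are dense in `ℤ_p`)
`γ b ∈ B(P)` for all `γ ∈ ℤ_p`. (4) Let `β ∈ ℤ_p`. For `i` large `b` divides `(p ^ s) ^ i`, since
`b ≠ 0` is a unit times a power of `p`; so `(p ^ s) ^ i β ∈ B(P)`, and `β ∈ B(P)` by `St_FRB`. -/
def St_DIC : Prop := ∀ (k : Type) [Field k] (p : ℕ) [Fact p.Prime] [CharP k p] (s : ℕ),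
  Fr k p s → ∀ a : Fin 2 → k⟦X⟧, (∀ i, X ∣ a i - 1) → (∃ i, a i ≠ 1) →
  ∀ I : Ideal (MvPowerSeries (Fin 2) k),
    Bs p a I = Set.univ ∨ {β | β ∈ Bs p a I ∧ ¬ (p : ℤ_[p]) ^ s ∣ β}.Finite

end ETD
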