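import Pool.Agent.ETD.StB

/-!
# ETD, statements C: `p`-sets, compactness, reduction to the residue discs, embedding, main theorem
-/

set_option autoImplicit false
set_option linter.unusedVariables false

namespace ETD

open PowerSeries

/-! ## Finite unions of progressions and `p`-sets -/

/-- [SUN] (0.4 h; no other module) Finite sets, unions, progressions.

Proof. A finite set: `S = ∅`, `T` the image of the set under `n ↦ (0, n, 0)`. Unions: unions of the
finsets. Progressions: `S = {(c, d)}`. -/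
def St_SUN : Prop := ∀ p : ℕ, (∀ R : Set ℕ, R.Finite → PSet p R) ∧
  (∀ R R' : Set ℕ, PSet p R → PSet p R' → PSet p (R ∪ R')) ∧
  (∀ c d : ℕ, 0 < c → PSet p {n : ℕ | ∃ k : ℕ, n = c * k + d})

/-- [SAF] (0.4 h; no other module) Affine images.

Proof. `(c, d) ↦ (N c, n₀ + N d)` and `(a, b, r) ↦ (N a, N b + n₀, r)`; as all values
`a p ^ (r k) + b` are naturals `m_k`, those of the new triple are `n₀ + N m_k`. -/
def St_SAF : Prop := ∀ (p : ℕ) (R : Set ℕ), PSet p R → ∀ N n₀ : ℕ, 0 < N →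
  PSet p ((fun m => n₀ + N * m) '' R)

/-- [SPQ] (1 h; uses `St_SUN`) The naturals of the form `β + (p ^ s) ^ j γ`.

Proof. `Q := p ^ s`, `R` the set. If `R` has at most one element it is finite (`St_SUN`). Let
`n₁ ≠ n₂` be in `R`, `n_i = β + Q ^ (j_i) γ`. Then `(Q ^ j₁ - Q ^ j₂) γ = n₁ - n₂ ≠ 0`, so with the
rational numbers `a := (n₁ - n₂) / (Q ^ j₁ - Q ^ j₂) ≠ 0`, `b := n₁ - a Q ^ j₁` we have `γ = a`,
`β = b` in `ℚ_p` (characteristic `0`), and `n ∈ R` if and only if `n = a Q ^ j + b` in `ℚ` for some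
`j`. Write `a = A / D`, `b = B / D` with integers `A`, `B` and a natural `D ≥ 1` prime to `p` (`a`,
`b` have `p`-adic absolute value `≤ 1`: `PadicInt.norm_le_one`, `padicNorm`; their denominators are
prime to `p`, e.g. `Padic.norm_rat_le_one_iff` or `padicNorm.of_int` ...; `D` = product of the
denominators). Let `m ≥ 1` with `Q ^ m ≡ 1 mod D` (`m = φ(D)`,
`Nat.ModEq.pow_totient`). If `a < 0` then `a Q ^ j + b < 0` for large `j`, and `R` is finite. If
`a > 0` there is `j₀` with `a Q ^ j + b ≥ 0` for `j ≥ j₀`. For `i` with `j₀ ≤ i < j₀ + m` and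
`D ∣ A Q ^ i + B` the triple `(a Q ^ i, b, s m)` has only natural values `a Q ^ (i + m k) + b`
(nonnegative, and `D ∣ A Q ^ (i + m k) + B`). `R` is the union of the finite set of the
`n = a Q ^ j + b ∈ ℕ` with `j < j₀` and of these sets: for `j ≥ j₀` write `j = i + m k`. -/
def St_SPQ : Prop := ∀ (p : ℕ) [Fact p.Prime] (s : ℕ), 0 < s → ∀ β γ : ℤ_[p],
  PSet p {n : ℕ | ∃ j : ℕ, (n : ℤ_[p]) = β + ((p : ℤ_[p]) ^ s) ^ j * γ}

/-- [CPT] (0.5 h; uses `St_SUN`) Compactness of `ℤ_p`.

Proof. The sets `{x | p ^ J ∣ x - β}` (`J = J(β)`) are open neighbourhoods of `β`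
(`PadicInt.norm_le_pow_iff_mem_span_pow`; open balls), so finitely many of them cover `ℤ_p`
(`isCompact_univ`, `IsCompact.elim_nhds_subcover`), and `R` is the union of the corresponding
subsets (`St_SUN`, induction over the finset). -/
def St_CPT : Prop := ∀ (p : ℕ) [Fact p.Prime] (R : Set ℕ),
  (∀ β : ℤ_[p], ∃ J : ℕ, PSet p {n : ℕ | n ∈ R ∧ (p : ℤ_[p]) ^ J ∣ (n : ℤ_[p]) - β}) → PSet p R

/-- [LST] (0.8 h; uses `St_LZS`, `St_DIC`, `St_FRB`, `St_SPQ`, `St_SUN`) Local structure of the zero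
set, both `a j ≠ 1`.

Proof. `i`, `I` of `St_LZS`, `Q = p ^ s`, `J := s i`, so `p ^ J = Q ^ i =: q`. If `Bs p a I = univ`
(`St_DIC`; `St_FRB` is not needed), the set is `{n | p ^ J ∣ n - β}` by `St_LZS`, the progression
`{p ^ J k + (β.appr J)}` (`β.appr J < p ^ J`). Otherwise `F₀ := {γ ∈ Bs p a I | ¬ p ^ s ∣ γ}` is
finite. The set is contained in the union of `{n | n = β}` (at most one natural) and of the sets
`{n | ∃ j, n = β + Q ^ j (q γ)}`, `γ ∈ F₀`, and the latter are contained in the set: if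
`n = β + q γ'`, `γ' ≠ 0` is a zero, `γ' ∈ Bs`, write `γ' = Q ^ j γ`, `¬ Q ∣ γ`; `γ ∈ Bs` by `St_FRB`.
Conversely `Q ^ j γ ∈ Bs` by `St_FRB` and `n = β + q (Q ^ j γ)`. (Add or omit the natural number `β`
according to the value of `h`.) -/
def St_LST : Prop := ∀ (k : Type) [Field k] (p : ℕ) [Fact p.Prime] [CharP k p] (s : ℕ),
  Fr k p s → ∀ (α a : Fin 2 → k⟦X⟧) (E : Fin 2 → Polynomial k⟦X⟧),
  (∀ j, Lc (α j) (a j) (E j)) → (∀ j, a j ≠ 1) → ∀ (h : MvPolynomial (Fin 2) k⟦X⟧) (β : ℤ_[p]),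
  ∃ J : ℕ, PSet p {n : ℕ |
    MvPolynomial.eval ![(ph p (α 0) (a 0) (E 0))^[n] 0, (ph p (α 1) (a 1) (E 1))^[n] 0] h = 0 ∧
      (p : ℤ_[p]) ^ J ∣ (n : ℤ_[p]) - β}

/-- [NNN] (0.2 h; uses `St_FRO`, `St_LST`, `St_CPT`) Both `a j ≠ 1`: the zero set. Proof: immediate. -/
def St_NNN : Prop := ∀ (k : Type) [Field k] [Finite k] (p : ℕ) [Fact p.Prime] [CharP k p]
  (α a : Fin 2 → k⟦X⟧) (E : Fin 2 → Polynomial k⟦X⟧),
  (∀ j, Lc (α j) (a j) (E j)) → (∀ j, a j ≠ 1) → ∀ h : MvPolynomial (Fin 2) k⟦X⟧,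
  PSet p {n : ℕ |
    MvPolynomial.eval ![(ph p (α 0) (a 0) (E 0))^[n] 0, (ph p (α 1) (a 1) (E 1))^[n] 0] h = 0}

/-- [PRE] (0.7 h; uses `St_SUN`) One of the two sequences is eventually periodic.

Proof. `x n := F^[n] x₀`. If `x` is not injective, `x i = x j`, `i < j`, then `x (n + (j - i)) = x n` for
`n ≥ i`, so with `N' := N (j - i)` both sequences have the period `N'` for `n ≥ n₁ := max n₀ i`, and the
set is the union of a finite set and of the progressions `{N' k + n}` for the `n` in the set with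
`n₁ ≤ n < n₁ + N'`. If `x` is injective: for `n₀ ≤ r < n₀ + N` let `P_r(T) := h(T, y r)` (a polynomial
in one variable over `O`). The elements `n ≡ r mod N`, `n ≥ n₀`, of the set are those with
`P_r (x n) = 0`: all if `P_r = 0`, finitely many otherwise. -/
def St_PRE : Prop := ∀ (O : Type) [CommRing O] [IsDomain O] (p : ℕ) (F : O → O) (x₀ : O)
  (y : ℕ → O) (n₀ N : ℕ), 0 < N → (∀ n ≥ n₀, y (n + N) = y n) →
  ∀ h : MvPolynomial (Fin 2) O, PSet p {n : ℕ | MvPolynomial.eval ![F^[n] x₀, y n] h = 0}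

/-- [NUU] (0.4 h; uses `St_LNU`, `St_CPT`, `St_SUN`, `St_PRE`) `a ≠ 1` for the first map, `a = 1` for the
second one: the zero set.

Proof. If the orbit of the second map is injective: `St_LNU` and `St_CPT`; in the first alternative the
set is `{n | p ^ j ∣ n - β}`, the progression `{p ^ j k + β.appr j}`. Otherwise `V_i = V_j`, `i < j`, so
`V_(n + (j - i)) = V_n` for `n ≥ i`, and `St_PRE` applies. -/
def St_NUU : Prop := ∀ (k : Type) [Field k] (p : ℕ) [Fact p.Prime] [CharP k p] (α a α' : k⟦X⟧)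
  (E E' : Polynomial k⟦X⟧), Lc α a E → a ≠ 1 → Lc α' 1 E' →
  ∀ h : MvPolynomial (Fin 2) k⟦X⟧,
  PSet p {n : ℕ | MvPolynomial.eval ![(ph p α a E)^[n] 0, (ph p α' 1 E')^[n] 0] h = 0}

/-! ## Reduction to the residue discs -/

/-- the map `x ↦ a x + G(x ^ p)` -/
noncomputable def fm {R : Type} [CommRing R] (p : ℕ) (a : R) (G : Polynomial R) (x : R) : R :=
  a * x + G.eval (x ^ p)

/-- [DSC] (0.7 h; no other module) Iterates, and the passage to a residue disc.

Proof. First claim by induction on `N`: `fm p a₁ G₁ ∘ fm p a₂ G₂ = fm p (a₁ a₂) (C a₁ * G₂ +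
G₁.comp (C (a₂ ^ p) * X + G₂ ^ p))`, since `(a₂ x + G₂(x ^ p)) ^ p = a₂ ^ p x ^ p + (G₂ ^ p)(x ^ p)`
(`add_pow_char`). Second claim: `X α := fm p a G x - x`; `G(x ^ p + X ^ p Y) - G(x ^ p)` is, as a
polynomial in `Y`, divisible by `C (X ^ p)`, so it is `C X * E` with `C X ∣ E` (`p ≥ 2`). Then
`fm p a G (x + X W) = a x + a X W + G(x ^ p + X ^ p W ^ p) = fm p a G x + X (a W + E(W ^ p))`. -/
def St_DSC : Prop :=
  (∀ (R : Type) [CommRing R] (p : ℕ) [Fact p.Prime] [CharP R p] (a : R) (G : Polynomial R) (N : ℕ),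
    ∃ G' : Polynomial R, (fm p a G)^[N] = fm p (a ^ N) G') ∧
  (∀ (k : Type) [Field k] (p : ℕ) [Fact p.Prime] [CharP k p] (a x : k⟦X⟧) (G : Polynomial k⟦X⟧),
    X ∣ a - 1 → X ^ 2 ∣ fm p a G x - x → ∃ (α : k⟦X⟧) (E : Polynomial k⟦X⟧), Lc α a E ∧
      ∀ W : k⟦X⟧, fm p a G (x + X * W) = x + X * ph p α a E W)

/-- [PMD] (0.6 h; no other module) Periodicity modulo `t ^ 2`, and powers of units.

Proof. First claim: congruent arguments have congruent values (`Polynomial.sub_dvd_eval_sub`), and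
`k⟦X⟧ / (X ^ 2)` is finite (the first two coefficients), so the residue classes of the sequence are
the iterates of a map of a finite set: `x_i ≡ x_j`, `i < j ≤` for some pair, so `x_(n + (j - i)) ≡ x_n`
for `n ≥ i`. Second claim: the constant coefficient of `a` is in `kˣ`, a group of order
`Nat.card k - 1`. -/
def St_PMD : Prop := ∀ (k : Type) [Field k] [Finite k] (p : ℕ) [Fact p.Prime],
  (∀ (a x : k⟦X⟧) (G : Polynomial k⟦X⟧), ∃ n₀ N : ℕ, 0 < N ∧ ∀ n ≥ n₀, ∀ m : ℕ,
    X ^ 2 ∣ (fm p a G)^[n + N * m] x - (fm p a G)^[n] x) ∧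
  ∃ N : ℕ, 0 < N ∧ ∀ a : k⟦X⟧, IsUnit a → ∀ m : ℕ, X ∣ a ^ (N * m) - 1

/-- [RES] (0.9 h; uses `St_NNN`, `St_NUU`, `St_SAF`, `St_SUN`, `St_DSC`, `St_PMD`) The theorem over
`k⟦t⟧`, `k` finite.

Proof. Let `n₀, N_x`, `n₀', N_y` be the numbers of `St_PMD` for the two maps (take the larger `n₀`), `N₀`
that of its second claim, `N₁` with `b ^ N₁ = 1` if there is such an `N₁ > 0` and `N₁ := 1`
otherwise, and `N := N_x N_y N₀ N₁`. Then `X ∣ a ^ N - 1`, `X ∣ b ^ N - 1`, `a ^ N ≠ 1`, and either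
`b ^ N = 1` or `b ^ N ≠ 1`. Fix `r < N`, `x_r := (fm p a G)^[n₀ + r] x`, `y_r` similarly.
`(fm p a G)^[N] = fm p (a ^ N) G_N` (`St_DSC`), `X ^ 2` divides `fm p (a ^ N) G_N x_r - x_r`, so
`St_DSC` gives `α, E` with `(fm p a G)^[n₀ + r + N m] x = x_r + X (ph p α (a ^ N) E)^[m] 0`
(induction on `m`), similarly `α', E'` for `y`. Let `h_r(W, V) := h(x_r + X W, y_r + X V)`
(`MvPolynomial.bind₁` or `aeval`). The `m` such that `n₀ + r + N m` is in the set are those with
`h_r(W_m, V_m) = 0`: a `PSet` by `St_NNN` (`b ^ N ≠ 1`) or `St_NUU` (`b ^ N = 1`). The set is the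
union of its part below `n₀` and the images of these sets (`St_SAF`, `St_SUN`). -/
def St_RES : Prop := ∀ (k : Type) [Field k] [Finite k] (p : ℕ) [Fact p.Prime] [CharP k p]
  (a b x y : k⟦X⟧) (G G' : Polynomial k⟦X⟧) (h : MvPolynomial (Fin 2) k⟦X⟧), IsUnit a →
  IsUnit b → (∀ m : ℕ, 0 < m → a ^ m ≠ 1) →
  PSet p {n : ℕ | MvPolynomial.eval ![(fm p a G)^[n] x, (fm p b G')^[n] y] h = 0}

/-! ## Embedding of finitely generated rings in `k⟦t⟧` -/

/-- [EMI] (0.6 h; no other module) Algebraically independent power series.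

Proof. `k⟦X⟧` is uncountable (functions `ℕ → k`, at least two values) and `k` is countable, so for a
transcendence basis `B` of `k⟦X⟧` over `k` (`exists_isTranscendenceBasis`), `B` is infinite: if `B`
were finite (or countable) then `Algebra.adjoin k B` would be countable and `k⟦X⟧`, algebraic over
it, too (`Algebra.IsAlgebraic.cardinalMk_le_max`). Take `d` different elements `b_i` of `B` and
`ξ_i := b_i - C (constantCoeff b_i)`: they are algebraically independent (translation of the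
variables is an automorphism of the polynomial ring; e.g. `AlgebraicIndependent` through
injectivity of `aeval`, composed with the automorphism `X_i ↦ X_i - C c_i`) and divisible by `X`. -/
def St_EMI : Prop := ∀ (k : Type) [Field k] [Finite k] (d : ℕ), ∃ ξ : Fin d → k⟦X⟧,
  (∀ i, X ∣ ξ i) ∧ AlgebraicIndependent k ξ

/-- [HEN] (0.6 h; no other module) Hensel's lemma for `k⟦t⟧`.

Proof. Construct `y_N` with `y_0 = C c`, `X ^ (N + 1) ∣ P(y_N)`, `X ^ (N + 1) ∣ y_(N+1) - y_N`:
`P(y_N + X ^ (N + 1) C v) ≡ P(y_N) + X ^ (N + 1) C v P'(y_N) mod X ^ (2 N + 2)`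
(`Polynomial.evalSubFactor` / `Polynomial.binomExpansion`), and the constant coefficient of
`P'(y_N)` is that of `P'(C c)`, nonzero; choose `v ∈ k`. The limit `y` (coefficient `m` from `y_m`)
is a root. Or use that `k⟦X⟧` is a Henselian local ring if Mathlib has it. -/
def St_HEN : Prop := ∀ (k : Type) [Field k] (P : Polynomial k⟦X⟧) (c : k),
  X ∣ P.eval (C c) → ¬ X ∣ P.derivative.eval (C c) → ∃ y : k⟦X⟧, P.eval y = 0 ∧ X ∣ y - C c

/-- [EMA] (1.2 h; no other module) Presentation of finitely generated fields of characteristic `p`.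

Proof. `K` is an algebra over `ZMod p`. Let `L` be the subfield generated by `s` over `ZMod p`
(`IntermediateField.adjoin`), essentially of finite type. By
`exists_isTranscendenceBasis_and_isSeparable_of_perfectField` (`Mathlib/FieldTheory/
SeparablyGenerated.lean`) there is a finite transcendence basis `B` of `L` such that `L` is separable
over `M := (ZMod p)(B)`; `L / M` is finite (finitely generated and algebraic), so `L = M(θ)`
(`Field.exists_primitive_element`). `j : R₀ := MvPolynomial (Fin d) (ZMod p) → K` maps the variables to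
the elements of `B`; it is injective, and `M` is the field of fractions of `j(R₀)`. Multiplying `θ` by
an element of `j(R₀)` we may assume that `θ` is integral over `R₀`
(`exists_integral_multiple`); `R₀` is integrally closed (a UFD), so the minimal polynomial of `θ`
over `M` is `P.map j` for a monic `P ∈ R₀[Y]` (`minpoly.isIntegrallyClosed_eq_field_fractions'` and
similar; or take for `P` the minimal polynomial over `R₀`). If `Q ∈ R₀[Y]` vanishes at `θ`, then
`P ∣ Q` (`minpoly.isIntegrallyClosed_dvd`). `P` is separable over `M`: `U' P + V' P' = 1` in `M[Y]`;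
multiply by a common denominator `δ`. Every `x ∈ s` is a polynomial in `θ` over `M`; `g` is a common
denominator for all of them. -/
def St_EMA : Prop := ∀ (K : Type) [Field K] (p : ℕ) [Fact p.Prime] [CharP K p] (s : Finset K),
  ∃ (d : ℕ) (j : MvPolynomial (Fin d) (ZMod p) →+* K) (θ : K)
    (P U V : Polynomial (MvPolynomial (Fin d) (ZMod p))) (δ g : MvPolynomial (Fin d) (ZMod p)),
    Function.Injective j ∧ P.Monic ∧ (P.map j).eval θ = 0 ∧ δ ≠ 0 ∧ g ≠ 0 ∧
    U * P + V * Polynomial.derivative P = Polynomial.C δ ∧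
    (∀ Q : Polynomial (MvPolynomial (Fin d) (ZMod p)), (Q.map j).eval θ = 0 → P ∣ Q) ∧
    (∀ x ∈ s, ∃ Q : Polynomial (MvPolynomial (Fin d) (ZMod p)), j g * x = (Q.map j).eval θ)

/-- [EMP] (0.6 h; no other module) Points over finite fields.

Proof. `Ω := AlgebraicClosure (ZMod p)` is infinite, so there is `τ : Fin d → Ω` with `g(τ) ≠ 0`
(`MvPolynomial.funext` or `MvPolynomial.exists_eval_ne_zero`...; first map `g` to `Ω`), and the monic
polynomial `P_τ` of degree `≥ 1` has a root `c ∈ Ω`. `k := IntermediateField.adjoin (ZMod p)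
(Set.range τ ∪ {c})` is finite dimensional over `ZMod p` (finitely many algebraic generators), hence
finite. -/
def St_EMP : Prop := ∀ (p : ℕ) [Fact p.Prime] (d : ℕ)
  (P : Polynomial (MvPolynomial (Fin d) (ZMod p))) (g : MvPolynomial (Fin d) (ZMod p)),
  P.Monic → P.natDegree ≠ 0 → g ≠ 0 →
  ∃ (k : Type) (_ : Field k) (_ : Finite k) (_ : CharP k p) (_ : Algebra (ZMod p) k)
    (τ : Fin d → k) (c : k), MvPolynomial.aeval τ g ≠ 0 ∧
    (P.map (MvPolynomial.aeval τ : MvPolynomial (Fin d) (ZMod p) →ₐ[ZMod p] k).toRingHom).eval c = 0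

/-- [EMB] (1.3 h; uses `St_EMI`, `St_HEN`, `St_EMA`, `St_EMP`) Embedding of finitely generated rings of
characteristic `p` in `k⟦t⟧`, `k` finite.

Proof. Data of `St_EMA`. `P.natDegree ≠ 0` (a monic polynomial of degree `0` is `1`, without roots).
`St_EMP` for `P` and `g * δ`: `k, τ, c` with `g(τ), δ(τ) ≠ 0`, `P_τ(c) = 0`. `ξ` of `St_EMI`. Let
`ψ : R₀ → k⟦X⟧` be the `ZMod p`-algebra homomorphism with `X_i ↦ C (τ i) + ξ i`; it is injective: the
elements `C (τ i) + ξ i` are algebraically independent over `k` (translation), hence over `ZMod p`.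
The constant coefficient of `ψ f` is `f(τ)`, so `ψ g`, `ψ δ` are units. `P.map ψ` has modulo `X` the
root `c`, and `(V P')(c) = δ(τ) ≠ 0` modulo `X`, so by `St_HEN` there is a root `y` of `P.map ψ`.
Let `R₁ ⊆ K` be the set of all `(Q.map j).eval θ`, `Q ∈ R₀[Y]` (a subring), and
`Ψ : R₁ → k⟦X⟧`, `(Q.map j).eval θ ↦ (Q.map ψ).eval y`: well defined by the minimality of `P`, a ring
homomorphism (e.g. the lift along the surjection `R₀[Y] → R₁`, `RingHom.liftOfSurjective` or
`Ideal.Quotient`). Injective: let `r ∈ R₁`, `r ≠ 0`; `r` is integral over `j(R₀)`, so some `j f`,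
`f ≠ 0`, is a multiple of `r` in `R₁` (a polynomial relation of minimal degree has a nonzero constant
term `j f`), and `Ψ(j f) = ψ f ≠ 0`. Let `A` be the set of all `x ∈ K` with `(j g) ^ m x ∈ R₁` for
some `m` (a subring) and `ι x := Ψ((j g) ^ m x) (ψ g) ^ (-m)` (independent of `m`; `ψ g` is a unit; or
use `IsLocalization.Away`): an injective ring homomorphism, and `s ⊆ A`. -/
def St_EMB : Prop := ∀ (K : Type) [Field K] (p : ℕ) [Fact p.Prime] [CharP K p] (s : Finset K),
  ∃ (k : Type) (_ : Field k) (_ : Finite k) (_ : CharP k p) (A : Subring K) (ι : A →+* k⟦X⟧),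
    Function.Injective ι ∧ ∀ x ∈ s, x ∈ A

/-! ## The main theorem -/

/-- [FIN] (1 h; uses `St_RES`, `St_EMB`) The main theorem.

Proof. `f - C a * X` has derivative `0`, so it is `Polynomial.expand K p G`
(`Polynomial.expand_contract`), and `f.eval x = fm p a G x` (`Polynomial.expand_eval`), similarly
`g.eval y = fm p b G' y`. By symmetry (exchange of `f` and `g`, `MvPolynomial.rename` with the swap of
`Fin 2`) assume that `a` is not a root of unity. Let `s` contain the coefficients of `G`, `G'`, `h`,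
the coordinates of `γ` and `a, a⁻¹, b, b⁻¹`, and `k, A, ι` as in `St_EMB`. `G = G_A.map A.subtype`,
`h = (MvPolynomial.map A.subtype) h_A` etc. The iterates of the coordinates of `γ` are those of maps
of `A` (`fm` over `A`), and `ι` maps them to the iterates of `fm p (ι a) (G_A.map ι)` at `ι γ.1`, etc.
As `ι` and `A.subtype` are injective, the set of the theorem is that of `St_RES` for the images; `ι a`,
`ι b` are units and `ι a` is not a root of unity. -/
def St_FIN : Prop := ∀ (K : Type) [Field K] (p : ℕ), p.Prime → CharP K p →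
  ∀ (f g : Polynomial K) (a b : K), Polynomial.derivative f = Polynomial.C a →
    Polynomial.derivative g = Polynomial.C b → a ≠ 0 → b ≠ 0 →
    ((∀ m : ℕ, 0 < m → a ^ m ≠ 1) ∨ ∀ m : ℕ, 0 < m → b ^ m ≠ 1) →
    ∀ (γ : K × K) (h : MvPolynomial (Fin 2) K),
    PSet p {n : ℕ | MvPolynomial.eval
      ![(fun x => Polynomial.eval x f)^[n] γ.1, (fun y => Polynomial.eval y g)^[n] γ.2] h = 0}

end ETD
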